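import Pool.Agent.Lib.MP_7b7e48_nt.SPV.Defs

/-!
# SPV D2: reduction to a primitive character

PROOF. Mathlib: `χ.conductor ∣ q`, `χ.primitiveCharacter : DirichletCharacter ℂ χ.conductor`, `χ = changeLevel (conductor_dvd_level) primitiveCharacter`
(`DirichletCharacter.factorsThrough_conductor`, `FactorsThrough.eq_changeLevel`, or `changeLevel_primitiveCharacter`),
`primitiveCharacter_isPrimitive`, and `IsPrimitive χ ↔ χ.conductor = q`. (1) `Prim` from `IsPrimitive`: if `d ∣ q`, `d < q` and `χ` is trivial on all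
units `= 1 mod d` then `χ.FactorsThrough d` (`factorsThrough_iff_ker_unitsMap`), so the conductor is `≤ d < q`
(`conductor` is the infimum of the conductor set), contradiction. A unit of `ZMod q` in the kernel of `unitsMap` has an integer representative `x`
with `d ∣ x - 1`. (2) `q' ≥ 2` because `χ ≠ 1` (conductor one iff `χ = 1`: `conductor_eq_one_iff`). (3) For `n` coprime to `q`
`χ n = χ' n` (`changeLevel_eq_cast_of_dvd` on units), and `χ n = 0` otherwise.
`csum_red`: `1[(n,q)=1] = ∑_{d ∣ n, d ∣ q} μ(d)`; `∑_{n≤y} χ(n) = ∑_{d∣q} μ(d) ∑_{m ≤ y/d} χ'(dm) = ∑_{d∣q} μ(d) χ'(d) csum χ' (y/d)`.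
-/

set_option autoImplicit false

open Finset

namespace Pool.Agent.Lib.SPV

private theorem D2_prim {q : ℕ} [NeZero q] (χ : DirichletCharacter ℂ q) (h : χ.IsPrimitive) :
    Prim χ := by
  intro d hd hdq
  by_contra hcon
  push Not at hcon
  have hf : χ.FactorsThrough d := by
    rw [DirichletCharacter.factorsThrough_iff_ker_unitsMap hd]
    intro u hu
    rw [MonoidHom.mem_ker] at hu ⊢
    have h1 : (((u : ZMod q).val : ℤ) : ZMod q) = (u : ZMod q) := by
      rw [Int.cast_natCast, ZMod.natCast_val, ZMod.cast_id]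
    have h2 : (d : ℤ) ∣ ((u : ZMod q).val : ℤ) - 1 := by
      have h3 : ((ZMod.unitsMap hd u : (ZMod d)ˣ) : ZMod d) = 1 := by rw [hu, Units.val_one]
      rw [ZMod.unitsMap_val] at h3
      rw [← ZMod.intCast_zmod_eq_zero_iff_dvd]
      push_cast
      rw [ZMod.natCast_val, h3, sub_self]
    have h4 : IsCoprime ((u : ZMod q).val : ℤ) (q : ℤ) :=
      Nat.isCoprime_iff_coprime.2 (ZMod.val_coe_unit_coprime u)
    have h5 := hcon _ h2 h4
    rw [h1] at h5
    apply Units.ext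
    rw [Units.val_one]
    simpa using h5
  have h6 : χ.conductor ≤ d := Nat.sInf_le hf
  have h7 : χ.conductor = q := h
  omega

theorem exists_prim {q : ℕ} [NeZero q] (χ : DirichletCharacter ℂ q) (hχ : χ ≠ 1) :
    ∃ q' : ℕ, 2 ≤ q' ∧ q' ∣ q ∧ ∃ χ' : DirichletCharacter ℂ q', Prim χ' ∧
      ∀ x : ℤ, χ (x : ZMod q) = if IsCoprime x (q : ℤ) then χ' (x : ZMod q') else 0 := by
  classical
  have h0 : χ.conductor ≠ 0 := DirichletCharacter.conductor_ne_zero χ
  have h1 : χ.conductor ≠ 1 := fun h => hχ (DirichletCharacter.eq_one_iff_conductor_eq_one.2 h)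
  have : NeZero χ.conductor := ⟨h0⟩
  refine ⟨χ.conductor, by omega, χ.conductor_dvd_level, χ.primitiveCharacter,
    D2_prim _ χ.primitiveCharacter_isPrimitive, fun x => ?_⟩
  split_ifs with hx
  · exact (χ.primitiveCharacter_apply_of_isCoprime hx).symm
  · exact (χ.apply_eq_zero_iff x).2 hx

private theorem D2_moebius (m : ℕ) : ∑ d ∈ m.divisors, ArithmeticFunction.moebius d =
    if m = 1 then 1 else 0 := by
  have h := congrArg (fun f => f m) ArithmeticFunction.moebius_mul_coe_zeta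
  simp only [ArithmeticFunction.coe_mul_zeta_apply, ArithmeticFunction.one_apply] at h
  exact h

private theorem D2_filter (q n : ℕ) (hq : q ≠ 0) :
    q.divisors.filter (fun d => d ∣ n) = (Nat.gcd n q).divisors := by
  ext d
  rw [mem_filter, Nat.mem_divisors, Nat.mem_divisors, Nat.dvd_gcd_iff]
  have : Nat.gcd n q ≠ 0 := Nat.gcd_ne_zero_right hq
  tauto

private theorem D2_sum (y d : ℕ) (hd : 0 < d) (f : ℕ → ℂ) :
    ∑ n ∈ Icc 1 y, (if d ∣ n then f n else 0) = ∑ m ∈ Icc 1 (y / d), f (d * m) := by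
  rw [← sum_filter]
  symm
  refine sum_nbij' (fun m => d * m) (fun n => n / d) ?_ ?_ ?_ ?_ ?_
  · intro m hm
    rw [mem_Icc] at hm
    rw [mem_filter, mem_Icc]
    refine ⟨⟨?_, ?_⟩, dvd_mul_right d m⟩
    · exact Nat.mul_pos hd hm.1
    · calc d * m ≤ d * (y / d) := Nat.mul_le_mul_left d hm.2
        _ ≤ y := Nat.mul_div_le y d
  · intro n hn
    rw [mem_filter, mem_Icc] at hn
    rw [mem_Icc]
    refine ⟨?_, Nat.div_le_div_right hn.1.2⟩
    exact Nat.div_pos (Nat.le_of_dvd (by omega) hn.2) hd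
  · intro m _
    exact Nat.mul_div_cancel_left m hd
  · intro n hn
    rw [mem_filter] at hn
    exact Nat.mul_div_cancel' hn.2
  · intro m _
    rfl

theorem csum_red {q q' : ℕ} [NeZero q] (χ : DirichletCharacter ℂ q) (hq' : q' ∣ q) (χ' : DirichletCharacter ℂ q')
    (h : ∀ x : ℤ, χ (x : ZMod q) = if IsCoprime x (q : ℤ) then χ' (x : ZMod q') else 0) (y : ℕ) :
    ‖csum χ y‖ ≤ ∑ d ∈ q.divisors, ‖csum χ' (y / d)‖ := by
  classical
  have hq0 : q ≠ 0 := NeZero.ne q
  have _ := hq'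
  have h1 : ∀ n : ℕ, χ ((n : ℕ) : ZMod q) = ∑ d ∈ q.divisors,
      if d ∣ n then ((ArithmeticFunction.moebius d : ℤ) : ℂ) * χ' ((n : ℕ) : ZMod q') else 0 := by
    intro n
    have h2 := h (n : ℤ)
    rw [Int.cast_natCast, Int.cast_natCast] at h2
    rw [h2, ← sum_filter, D2_filter q n hq0, ← sum_mul]
    have h3 : ∑ d ∈ (Nat.gcd n q).divisors, ((ArithmeticFunction.moebius d : ℤ) : ℂ) =
        if Nat.gcd n q = 1 then 1 else 0 := by
      have h4 := congrArg (fun z : ℤ => (z : ℂ)) (D2_moebius (Nat.gcd n q))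
      push_cast at h4
      exact h4
    rw [h3]
    by_cases h5 : Nat.gcd n q = 1
    · rw [if_pos h5, one_mul, if_pos (Nat.isCoprime_iff_coprime.2 h5)]
    · rw [if_neg h5, zero_mul, if_neg (fun h6 => h5 (Nat.isCoprime_iff_coprime.1 h6))]
  have h2 : csum χ y = ∑ d ∈ q.divisors, ((ArithmeticFunction.moebius d : ℤ) : ℂ) *
      (χ' ((d : ℕ) : ZMod q') * csum χ' (y / d)) := by
    unfold csum
    rw [sum_congr rfl fun n _ => h1 n, sum_comm]
    refine sum_congr rfl fun d hd => ?_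
    have hd0 : 0 < d := Nat.pos_of_mem_divisors hd
    rw [D2_sum y d hd0 (fun n => ((ArithmeticFunction.moebius d : ℤ) : ℂ) * χ' ((n : ℕ) : ZMod q')),
      mul_sum, mul_sum]
    refine sum_congr rfl fun m _ => ?_
    rw [Nat.cast_mul, map_mul]
  rw [h2]
  refine (norm_sum_le _ _).trans (sum_le_sum fun d _ => ?_)
  rw [norm_mul, norm_mul]
  have h3 : ‖((ArithmeticFunction.moebius d : ℤ) : ℂ)‖ ≤ 1 := by
    rw [Complex.norm_intCast]
    exact_mod_cast ArithmeticFunction.abs_moebius_le_one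
  have h4 : ‖χ' ((d : ℕ) : ZMod q')‖ ≤ 1 := DirichletCharacter.norm_le_one χ' _
  have h5 : 0 ≤ ‖csum χ' (y / d)‖ := norm_nonneg _
  calc ‖((ArithmeticFunction.moebius d : ℤ) : ℂ)‖ * (‖χ' ((d : ℕ) : ZMod q')‖ * ‖csum χ' (y / d)‖)
      ≤ 1 * (1 * ‖csum χ' (y / d)‖) := by
        apply mul_le_mul h3 _ (by positivity) zero_le_one
        exact mul_le_mul_of_nonneg_right h4 h5
    _ = ‖csum χ' (y / d)‖ := by ring

end Pool.Agent.Lib.SPV
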