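import Pool.Agent.Lib.MP_7b7e48_nt.SPV.Defs

/-!
# SPV A1: splitting a primitive character along coprime factors

PROOF. `e := ZMod.chineseRemainder hmn : ZMod (m*n) ≃+* ZMod m × ZMod n`. Put `χ₁ a := χ (e.symm (a, 1))`,
`χ₂ b := χ (e.symm (1, b))` (both are `MulChar`s: multiplicative because `(a,1)(a',1) = (aa',1)`; zero on nonunits because
`e.symm (a,1)` is a unit iff `a` is a unit). For `x : ZMod (m*n)`, `e x = (a, b)` = `(a,1)(1,b)`, so `χ x = χ₁ a χ₂ b`, and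
`e (x : ZMod (mn)) = (x, x)` for an integer `x` (`map_intCast`). (One may also build them from unit homs with
`MulChar.ofUnitHom` and `Units.mapEquiv`, `MulEquiv.prodUnits`.)
`Prim χ₁`: let `d ∣ m`, `d < m`. Then `d * n ∣ m * n`, `d * n < m * n`; `Prim χ` gives `x` with `d n ∣ x - 1`, coprime to `mn`,
`χ x ≠ 1`. As `n ∣ x - 1`, `(x : ZMod n) = 1`, `χ₂ x = 1`, so `χ₁ x ≠ 1`. Same for `χ₂`.
Second statement: the two characters of a splitting of a primitive character are primitive, whatever they are (same proof).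
-/

set_option autoImplicit false

open Finset

namespace Pool.Agent.Lib.SPV

private theorem A1_left {m n : ℕ} [NeZero m] [NeZero n] (χ : DirichletCharacter ℂ (m * n)) (hχ : Prim χ)
    (χ₁ : DirichletCharacter ℂ m) (χ₂ : DirichletCharacter ℂ n)
    (h : ∀ x : ℤ, χ (x : ZMod (m * n)) = χ₁ (x : ZMod m) * χ₂ (x : ZMod n)) : Prim χ₁ := by
  intro d hd hdm
  obtain ⟨x, hx1, hx2, hx3⟩ := hχ (d * n) (Nat.mul_dvd_mul_right hd n)
    (Nat.mul_lt_mul_of_pos_right hdm (Nat.pos_of_ne_zero (NeZero.ne n)))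
  push_cast at hx1 hx2
  have hd1 : (d : ℤ) ∣ x - 1 := (Dvd.intro _ rfl).trans hx1
  have hn1 : (n : ℤ) ∣ x - 1 := (Dvd.intro_left _ rfl).trans hx1
  refine ⟨x, hd1, IsCoprime.of_mul_right_left hx2, fun hc => hx3 ?_⟩
  have e : (x : ZMod n) = 1 := by
    have := (ZMod.intCast_zmod_eq_zero_iff_dvd (x - 1) n).mpr hn1
    push_cast at this
    exact sub_eq_zero.mp this
  rw [h x, hc, e, map_one, one_mul]

private theorem A1_right {m n : ℕ} [NeZero m] [NeZero n] (χ : DirichletCharacter ℂ (m * n)) (hχ : Prim χ)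
    (χ₁ : DirichletCharacter ℂ m) (χ₂ : DirichletCharacter ℂ n)
    (h : ∀ x : ℤ, χ (x : ZMod (m * n)) = χ₁ (x : ZMod m) * χ₂ (x : ZMod n)) : Prim χ₂ := by
  intro d hd hdn
  obtain ⟨x, hx1, hx2, hx3⟩ := hχ (m * d) (Nat.mul_dvd_mul_left m hd)
    (Nat.mul_lt_mul_of_pos_left hdn (Nat.pos_of_ne_zero (NeZero.ne m)))
  push_cast at hx1 hx2
  have hm1 : (m : ℤ) ∣ x - 1 := (Dvd.intro _ rfl).trans hx1
  have hd1 : (d : ℤ) ∣ x - 1 := (Dvd.intro_left _ rfl).trans hx1
  refine ⟨x, hd1, IsCoprime.of_mul_right_right hx2, fun hc => hx3 ?_⟩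
  have e : (x : ZMod m) = 1 := by
    have := (ZMod.intCast_zmod_eq_zero_iff_dvd (x - 1) m).mpr hm1
    push_cast at this
    exact sub_eq_zero.mp this
  rw [h x, hc, e, map_one, one_mul]

theorem prim_of_split {m n : ℕ} [NeZero m] [NeZero n] (χ : DirichletCharacter ℂ (m * n)) (hχ : Prim χ)
    (χ₁ : DirichletCharacter ℂ m) (χ₂ : DirichletCharacter ℂ n)
    (h : ∀ x : ℤ, χ (x : ZMod (m * n)) = χ₁ (x : ZMod m) * χ₂ (x : ZMod n)) : Prim χ₁ ∧ Prim χ₂ :=
  ⟨A1_left χ hχ χ₁ χ₂ h, A1_right χ hχ χ₁ χ₂ h⟩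

theorem crt_char {m n : ℕ} [NeZero m] [NeZero n] (hmn : m.Coprime n) (χ : DirichletCharacter ℂ (m * n))
    (hχ : Prim χ) : ∃ (χ₁ : DirichletCharacter ℂ m) (χ₂ : DirichletCharacter ℂ n), Prim χ₁ ∧ Prim χ₂ ∧
      ∀ x : ℤ, χ (x : ZMod (m * n)) = χ₁ (x : ZMod m) * χ₂ (x : ZMod n) := by
  set e := ZMod.chineseRemainder hmn with he
  have hu : ∀ (a : ZMod m) (b : ZMod n), IsUnit (e.symm (a, b)) → IsUnit a ∧ IsUnit b := by
    intro a b hab
    have h1 := hab.map e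
    rw [RingEquiv.apply_symm_apply] at h1
    exact Prod.isUnit_iff.mp h1
  let χ₁ : DirichletCharacter ℂ m :=
    { toFun := fun a => χ (e.symm (a, 1))
      map_one' := by
        have : e.symm ((1 : ZMod m), (1 : ZMod n)) = 1 := map_one e.symm
        rw [this, map_one]
      map_mul' := fun a b => by
        rw [← map_mul, ← map_mul, Prod.mk_mul_mk, one_mul]
      map_nonunit' := fun a ha => χ.map_nonunit fun hc => ha (hu a 1 hc).1 }
  let χ₂ : DirichletCharacter ℂ n :=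
    { toFun := fun b => χ (e.symm (1, b))
      map_one' := by
        have : e.symm ((1 : ZMod m), (1 : ZMod n)) = 1 := map_one e.symm
        rw [this, map_one]
      map_mul' := fun a b => by
        rw [← map_mul, ← map_mul, Prod.mk_mul_mk, one_mul]
      map_nonunit' := fun b hb => χ.map_nonunit fun hc => hb (hu 1 b hc).2 }
  have h : ∀ x : ℤ, χ (x : ZMod (m * n)) = χ₁ (x : ZMod m) * χ₂ (x : ZMod n) := by
    intro x
    change _ = χ (e.symm ((x : ZMod m), 1)) * χ (e.symm (1, (x : ZMod n)))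
    rw [← map_mul, ← map_mul, Prod.mk_mul_mk, mul_one, one_mul]
    congr 1
    apply e.injective
    rw [RingEquiv.apply_symm_apply, map_intCast]
    rfl
  exact ⟨χ₁, χ₂, (prim_of_split χ hχ χ₁ χ₂ h).1, (prim_of_split χ hχ χ₁ χ₂ h).2, h⟩

/-- the character of `m * n` and of an equal number `q` -/
theorem crt_char' {q m n : ℕ} [NeZero m] [NeZero n] (hq : q = m * n) (hmn : m.Coprime n)
    (χ : DirichletCharacter ℂ q) (hχ : Prim χ) :
    ∃ (χ₁ : DirichletCharacter ℂ m) (χ₂ : DirichletCharacter ℂ n), Prim χ₁ ∧ Prim χ₂ ∧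
      ∀ x : ℤ, χ (x : ZMod q) = χ₁ (x : ZMod m) * χ₂ (x : ZMod n) := by
  subst hq
  exact crt_char hmn χ hχ

end Pool.Agent.Lib.SPV
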