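import Pool.Agent.Lib.MP_7b7e48_nt.SPV.D1
import Pool.Agent.Lib.MP_7b7e48_nt.SPV.D2

/-!
# SPV D3: the sub Polya-Vinogradov bound for all nonprincipal characters

PROOF. `β₁` from `spv_prim`; `η = η' = β₁/2`, `β = β₁/16`. `χ` mod `q`, `χ ≠ 1`, `y ≥ q^(1/2-β)`. `exists_prim`: `q'`, `χ'`; `csum_red`. `τ(q) ≤ C q^(β/4)`
(`RG.divisor_bound`). Case A, `q' ≤ q^(1-η)`: `‖csum χ' z‖ ≤ PB q' ≤ C q'^(1/2+β/8) ` (`RG.PVall`, `q' ≥ 2`, `χ' ≠ 1` by `Prim` with `d = 1`), total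
`≤ C q^(β/4) q^((1-η)/2 + β/8) ≤ y q^(-β)` since `η/2 = β₁/4 = 4β`. Case B, `q' > q^(1-η)`: for `d ≤ q^η'`: `z = y/d` (floor) `≥ q^(1/2-β-η')/2 ≥
q^(1/2-β₁) ≥ q'^(1/2-β₁)` and `q'` is large, so `‖csum χ' z‖ ≤ z q'^(-β₁) ≤ y q^(-β₁(1-η)) ≤ y q^(-β₁/2)`; for `d > q^η'` trivially
`‖csum χ' (y/d)‖ ≤ y/d ≤ y q^(-η')`. Total `≤ C q^(β/4) y q^(-β₁/2) ≤ y q^(-β)`.
-/

set_option autoImplicit false

open Finset

namespace Pool.Agent.Lib.SPV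

private theorem D3_ne_one {q : ℕ} (hq : 2 ≤ q) (χ : DirichletCharacter ℂ q) (h : Prim χ) :
    χ ≠ 1 := by
  rintro rfl
  obtain ⟨x, -, hx, h1⟩ := h 1 (one_dvd _) (by omega)
  apply h1
  exact MulChar.one_apply ((ZMod.coe_int_isUnit_iff_isCoprime x q).mpr hx.symm)

private theorem D3_triv {q : ℕ} (χ : DirichletCharacter ℂ q) (z : ℕ) : ‖csum χ z‖ ≤ z := by
  unfold csum
  refine (norm_sum_le _ _).trans ?_
  refine (Finset.sum_le_card_nsmul _ _ 1 fun n _ => DirichletCharacter.norm_le_one χ _).trans ?_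
  rw [Nat.card_Icc, nsmul_eq_mul, mul_one]
  simp

private theorem D3_caseA (u : ℝ) (hu : 0 < u) (hu1 : u ≤ 1 / 1000) (C : ℝ) (hC : 0 < C)
    (hPB : ∀ N : ℕ, 2 ≤ N → RG.PB N ≤ C * (N : ℝ) ^ (1 / 2 + u / 64) ∧
      (N.divisors.card : ℝ) ≤ C * (N : ℝ) ^ (u / 64))
    (q : ℕ) (hq : 2 ≤ q) (hK : C ^ 2 ≤ (q : ℝ) ^ (3 * u / 32)) (q' : ℕ) (h2 : 2 ≤ q')
    (hle : (q' : ℝ) ≤ (q : ℝ) ^ (1 - u / 2)) (χ' : DirichletCharacter ℂ q') (hχ : Prim χ')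
    (y : ℕ) (hy : (q : ℝ) ^ (1 / 2 - u / 16) ≤ y) :
    ∑ d ∈ q.divisors, ‖csum χ' (y / d)‖ ≤ y * (q : ℝ) ^ (-(u / 16)) := by
  haveI : NeZero q' := ⟨by omega⟩
  have hq1 : (1 : ℝ) ≤ q := by exact_mod_cast (by omega : 1 ≤ q)
  have hq0 : (0 : ℝ) < q := by linarith
  have h3 : ∀ d ∈ q.divisors, ‖csum χ' (y / d)‖ ≤
      C * (q : ℝ) ^ ((1 - u / 2) * (1 / 2 + u / 64)) := by
    intro d _
    refine (RG.PVall q' h2 χ' (D3_ne_one h2 χ' hχ) (y / d)).trans ?_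
    refine (hPB q' h2).1.trans ?_
    refine mul_le_mul_of_nonneg_left ?_ hC.le
    rw [Real.rpow_mul hq0.le]
    exact Real.rpow_le_rpow (by positivity) hle (by positivity)
  have hexp : u / 64 + (1 - u / 2) * (1 / 2 + u / 64) ≤ 1 / 2 - 7 * u / 32 := by nlinarith
  calc ∑ d ∈ q.divisors, ‖csum χ' (y / d)‖
      ≤ q.divisors.card • (C * (q : ℝ) ^ ((1 - u / 2) * (1 / 2 + u / 64))) :=
        Finset.sum_le_card_nsmul _ _ _ h3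
    _ = (q.divisors.card : ℝ) * (C * (q : ℝ) ^ ((1 - u / 2) * (1 / 2 + u / 64))) :=
        nsmul_eq_mul _ _
    _ ≤ (C * (q : ℝ) ^ (u / 64)) * (C * (q : ℝ) ^ ((1 - u / 2) * (1 / 2 + u / 64))) :=
        mul_le_mul_of_nonneg_right (hPB q hq).2 (by positivity)
    _ = C ^ 2 * (q : ℝ) ^ (u / 64 + (1 - u / 2) * (1 / 2 + u / 64)) := by
        rw [Real.rpow_add hq0]; ring
    _ ≤ (q : ℝ) ^ (3 * u / 32) * (q : ℝ) ^ (1 / 2 - 7 * u / 32) :=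
        mul_le_mul hK (Real.rpow_le_rpow_of_exponent_le hq1 hexp) (by positivity) (by positivity)
    _ = (q : ℝ) ^ (1 / 2 - u / 16) * (q : ℝ) ^ (-(u / 16)) := by
        rw [← Real.rpow_add hq0, ← Real.rpow_add hq0]
        congr 1
        ring
    _ ≤ y * (q : ℝ) ^ (-(u / 16)) := mul_le_mul_of_nonneg_right hy (by positivity)

private theorem D3_small (u : ℝ) (hu : 0 < u) (hu1 : u ≤ 1 / 1000) (Q1 : ℕ)
    (hprim : ∀ q : ℕ, Q1 ≤ q → ∀ _hq : NeZero q, ∀ χ : DirichletCharacter ℂ q, Prim χ →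
      ∀ y : ℕ, (q : ℝ) ^ (1 / 2 - u) ≤ y → ‖csum χ y‖ ≤ y * (q : ℝ) ^ (-u))
    (q : ℕ) (hq : 2 ≤ q) (hK2 : (2 : ℝ) ≤ (q : ℝ) ^ (3 * u / 32))
    (hK3 : (Q1 : ℝ) ≤ (q : ℝ) ^ (3 * u / 32)) (q' : ℕ) (h2 : 2 ≤ q') (hdvd : q' ∣ q)
    (hgt : (q : ℝ) ^ (1 - u / 2) < q') (χ' : DirichletCharacter ℂ q') (hχ : Prim χ')
    (y : ℕ) (hy : (q : ℝ) ^ (1 / 2 - u / 16) ≤ y) (d : ℕ) (hd0 : 0 < d)
    (hd : (d : ℝ) ≤ (q : ℝ) ^ (u / 2)) :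
    ‖csum χ' (y / d)‖ ≤ y * (q : ℝ) ^ (-(u / 2)) := by
  haveI : NeZero q' := ⟨by omega⟩
  have hq1 : (1 : ℝ) ≤ q := by exact_mod_cast (by omega : 1 ≤ q)
  have hq0 : (0 : ℝ) < q := by linarith
  have hqq : (q' : ℝ) ≤ q := by exact_mod_cast Nat.le_of_dvd (by omega) hdvd
  have hQ : Q1 ≤ q' := by
    have h3 : (q : ℝ) ^ (3 * u / 32) ≤ (q : ℝ) ^ (1 - u / 2) :=
      Real.rpow_le_rpow_of_exponent_le hq1 (by linarith)
    have h4 : (Q1 : ℝ) ≤ q' := hK3.trans (h3.trans hgt.le)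
    exact_mod_cast h4
  have hdR : (0 : ℝ) < d := by exact_mod_cast hd0
  have hz1 : (y : ℝ) / d - 1 < ((y / d : ℕ) : ℝ) := by
    have h3 : y < (y / d + 1) * d := by
      have := Nat.lt_div_mul_add (a := y) hd0
      rw [add_mul, one_mul]
      exact this
    have h4 : (y : ℝ) < (((y / d : ℕ) : ℝ) + 1) * d := by exact_mod_cast h3
    have h5 : (y : ℝ) / d < ((y / d : ℕ) : ℝ) + 1 := by rw [div_lt_iff₀ hdR]; exact h4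
    linarith
  have hz2 : (q : ℝ) ^ (1 / 2 - 9 * u / 16) ≤ (y : ℝ) / d := by
    rw [le_div_iff₀ hdR]
    calc (q : ℝ) ^ (1 / 2 - 9 * u / 16) * d
        ≤ (q : ℝ) ^ (1 / 2 - 9 * u / 16) * (q : ℝ) ^ (u / 2) :=
          mul_le_mul_of_nonneg_left hd (by positivity)
      _ = (q : ℝ) ^ (1 / 2 - u / 16) := by
          rw [← Real.rpow_add hq0]
          congr 1
          ring
      _ ≤ y := hy
  have hz3 : (q : ℝ) ^ (1 / 2 - u) + 1 ≤ (q : ℝ) ^ (1 / 2 - 9 * u / 16) := by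
    have h3 : (q : ℝ) ^ (1 / 2 - 9 * u / 16) =
        (q : ℝ) ^ (1 / 2 - u) * (q : ℝ) ^ (7 * u / 16) := by
      rw [← Real.rpow_add hq0]
      congr 1
      ring
    have h4 : (q : ℝ) ^ (3 * u / 32) ≤ (q : ℝ) ^ (7 * u / 16) :=
      Real.rpow_le_rpow_of_exponent_le hq1 (by linarith)
    have h5 : (1 : ℝ) ≤ (q : ℝ) ^ (1 / 2 - u) := Real.one_le_rpow hq1 (by linarith)
    rw [h3]
    nlinarith
  have hz4 : (q' : ℝ) ^ (1 / 2 - u) ≤ (q : ℝ) ^ (1 / 2 - u) :=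
    Real.rpow_le_rpow (by positivity) hqq (by linarith)
  have h6 := hprim q' hQ inferInstance χ' hχ (y / d) (by linarith)
  refine h6.trans ?_
  have h7 : ((y / d : ℕ) : ℝ) ≤ y := by exact_mod_cast Nat.div_le_self y d
  have hq'0 : (0 : ℝ) < q' := by exact_mod_cast (by omega : 0 < q')
  have h8 : (q' : ℝ) ^ (-u) ≤ (q : ℝ) ^ (-(u / 2)) := by
    calc (q' : ℝ) ^ (-u) ≤ ((q : ℝ) ^ (1 - u / 2)) ^ (-u) :=
          Real.rpow_le_rpow_of_nonpos (by positivity) hgt.le (by linarith)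
      _ = (q : ℝ) ^ ((1 - u / 2) * (-u)) := by rw [Real.rpow_mul hq0.le]
      _ ≤ (q : ℝ) ^ (-(u / 2)) := Real.rpow_le_rpow_of_exponent_le hq1 (by nlinarith)
  exact mul_le_mul h7 h8 (by positivity) (by positivity)

private theorem D3_caseB (u : ℝ) (hu : 0 < u) (hu1 : u ≤ 1 / 1000) (C : ℝ) (hC : 0 < C)
    (hPB : ∀ N : ℕ, 2 ≤ N → (N.divisors.card : ℝ) ≤ C * (N : ℝ) ^ (u / 64)) (Q1 : ℕ)
    (hprim : ∀ q : ℕ, Q1 ≤ q → ∀ _hq : NeZero q, ∀ χ : DirichletCharacter ℂ q, Prim χ →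
      ∀ y : ℕ, (q : ℝ) ^ (1 / 2 - u) ≤ y → ‖csum χ y‖ ≤ y * (q : ℝ) ^ (-u))
    (q : ℕ) (hq : 2 ≤ q) (hK : C ≤ (q : ℝ) ^ (3 * u / 32))
    (hK2 : (2 : ℝ) ≤ (q : ℝ) ^ (3 * u / 32))
    (hK3 : (Q1 : ℝ) ≤ (q : ℝ) ^ (3 * u / 32)) (q' : ℕ) (h2 : 2 ≤ q') (hdvd : q' ∣ q)
    (hgt : (q : ℝ) ^ (1 - u / 2) < q') (χ' : DirichletCharacter ℂ q') (hχ : Prim χ')
    (y : ℕ) (hy : (q : ℝ) ^ (1 / 2 - u / 16) ≤ y) :
    ∑ d ∈ q.divisors, ‖csum χ' (y / d)‖ ≤ y * (q : ℝ) ^ (-(u / 16)) := by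
  have hq1 : (1 : ℝ) ≤ q := by exact_mod_cast (by omega : 1 ≤ q)
  have hq0 : (0 : ℝ) < q := by linarith
  have h3 : ∀ d ∈ q.divisors, ‖csum χ' (y / d)‖ ≤ y * (q : ℝ) ^ (-(u / 2)) := by
    intro d hdd
    have hd0 : 0 < d := Nat.pos_of_mem_divisors hdd
    have hdR : (0 : ℝ) < d := by exact_mod_cast hd0
    by_cases hd : (d : ℝ) ≤ (q : ℝ) ^ (u / 2)
    · exact D3_small u hu hu1 Q1 hprim q hq hK2 hK3 q' h2 hdvd hgt χ' hχ y hy d hd0 hd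
    · refine (D3_triv χ' (y / d)).trans ?_
      refine Nat.cast_div_le.trans ?_
      rw [Real.rpow_neg hq0.le, ← div_eq_mul_inv]
      exact div_le_div_of_nonneg_left (by positivity) (by positivity) (not_le.mp hd).le
  calc ∑ d ∈ q.divisors, ‖csum χ' (y / d)‖
      ≤ q.divisors.card • ((y : ℝ) * (q : ℝ) ^ (-(u / 2))) :=
        Finset.sum_le_card_nsmul _ _ _ h3
    _ = (q.divisors.card : ℝ) * ((y : ℝ) * (q : ℝ) ^ (-(u / 2))) := nsmul_eq_mul _ _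
    _ ≤ (C * (q : ℝ) ^ (u / 64)) * ((y : ℝ) * (q : ℝ) ^ (-(u / 2))) :=
        mul_le_mul_of_nonneg_right (hPB q hq) (by positivity)
    _ ≤ ((q : ℝ) ^ (3 * u / 32) * (q : ℝ) ^ (u / 64)) * ((y : ℝ) * (q : ℝ) ^ (-(u / 2))) := by
        refine mul_le_mul_of_nonneg_right ?_ (by positivity)
        exact mul_le_mul_of_nonneg_right hK (by positivity)
    _ = y * (q : ℝ) ^ (3 * u / 32 + u / 64 + -(u / 2)) := by
        rw [Real.rpow_add hq0, Real.rpow_add hq0]; ring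
    _ ≤ y * (q : ℝ) ^ (-(u / 16)) := by
        refine mul_le_mul_of_nonneg_left ?_ (by positivity)
        exact Real.rpow_le_rpow_of_exponent_le hq1 (by linarith)

/-- **sub Polya-Vinogradov bound**, all moduli -/
theorem spv : ∃ β : ℝ, 0 < β ∧ β ≤ 1 / 1000 ∧ ∃ Q0 : ℕ, 2 ≤ Q0 ∧ ∀ q : ℕ, Q0 ≤ q → ∀ _hq : NeZero q,
    ∀ χ : DirichletCharacter ℂ q, χ ≠ 1 → ∀ y : ℕ, (q : ℝ) ^ (1 / 2 - β) ≤ y →
    ‖∑ n ∈ Icc 1 y, χ ((n : ℕ) : ZMod q)‖ ≤ y * (q : ℝ) ^ (-β) := by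
  obtain ⟨u, hu, hu1, Q1, hprim⟩ := spv_prim
  obtain ⟨C, hC, hPB⟩ := RG.PB_le (u / 64) (by positivity)
  have hT : Filter.Tendsto (fun n : ℕ => (n : ℝ) ^ (3 * u / 32)) Filter.atTop Filter.atTop :=
    (tendsto_rpow_atTop (by positivity)).comp tendsto_natCast_atTop_atTop
  obtain ⟨Q2, hQ2⟩ := Filter.eventually_atTop.mp
    (hT.eventually_ge_atTop (max (max (C ^ 2) C) (max 2 (Q1 : ℝ))))
  refine ⟨u / 16, by positivity, by linarith, max Q2 2, le_max_right _ _, ?_⟩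
  intro q hq _ χ hχ y hy
  have hq2 : 2 ≤ q := (le_max_right _ _).trans hq
  have hK := hQ2 q ((le_max_left _ _).trans hq)
  have k1 : C ^ 2 ≤ (q : ℝ) ^ (3 * u / 32) :=
    ((le_max_left _ _).trans (le_max_left _ _)).trans hK
  have k2 : C ≤ (q : ℝ) ^ (3 * u / 32) :=
    ((le_max_right _ _).trans (le_max_left _ _)).trans hK
  have k3 : (2 : ℝ) ≤ (q : ℝ) ^ (3 * u / 32) :=
    ((le_max_left _ _).trans (le_max_right _ _)).trans hK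
  have k4 : (Q1 : ℝ) ≤ (q : ℝ) ^ (3 * u / 32) :=
    ((le_max_right _ _).trans (le_max_right _ _)).trans hK
  obtain ⟨q', h2, hdvd, χ', hP, hval⟩ := exists_prim χ hχ
  have hred := csum_red χ hdvd χ' hval y
  refine le_trans ?_ (hred.trans ?_)
  · exact le_of_eq rfl
  · by_cases hle : (q' : ℝ) ≤ (q : ℝ) ^ (1 - u / 2)
    · exact D3_caseA u hu hu1 C hC hPB q hq2 k1 q' h2 hle χ' hP y hy
    · exact D3_caseB u hu hu1 C hC (fun N hN => (hPB N hN).2) Q1 hprim q hq2 k2 k3 k4 q' h2 hdvd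
        (not_le.mp hle) χ' hP y hy

end Pool.Agent.Lib.SPV
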