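import Pool.Agent.Lib.MP_7b7e48_nt.SPV.Defs

/-!
# SPV A10: the fourth moment is a sum of complete sums

PROOF. `‖z‖⁴ = z z conj z conj z` for `z = ∑_b χ(x+b)`; expand and exchange the sums. The norm of a sum is at most the sum of norms.
-/

set_option autoImplicit false

open Finset

namespace Pool.Agent.Lib.SPV

theorem M4_le {q : ℕ} [NeZero q] (χ : DirichletCharacter ℂ q) (B : ℕ) :
    M4 χ B ≤ ∑ a ∈ Icc 1 B, ∑ b ∈ Icc 1 B, ∑ c ∈ Icc 1 B, ∑ d ∈ Icc 1 B,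
      ‖S4 χ ((a : ℕ) : ZMod q) ((b : ℕ) : ZMod q) ((c : ℕ) : ZMod q) ((d : ℕ) : ZMod q)‖ := by
  have h1 : ((M4 χ B : ℝ) : ℂ) = ∑ a ∈ Icc 1 B, ∑ b ∈ Icc 1 B, ∑ c ∈ Icc 1 B, ∑ d ∈ Icc 1 B,
      S4 χ ((a : ℕ) : ZMod q) ((b : ℕ) : ZMod q) ((c : ℕ) : ZMod q) ((d : ℕ) : ZMod q) := by
    unfold M4 S4
    have h2 : ∀ x : ZMod q, ((‖∑ b ∈ Icc 1 B, χ (x + ((b : ℕ) : ZMod q))‖ ^ 4 : ℝ) : ℂ) =
        ∑ a ∈ Icc 1 B, ∑ b ∈ Icc 1 B, ∑ c ∈ Icc 1 B, ∑ d ∈ Icc 1 B,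
          χ (x + ((a : ℕ) : ZMod q)) * χ (x + ((b : ℕ) : ZMod q)) *
            (starRingEnd ℂ) (χ (x + ((c : ℕ) : ZMod q))) *
            (starRingEnd ℂ) (χ (x + ((d : ℕ) : ZMod q))) := by
      intro x
      simp only [← Finset.mul_sum, ← Finset.sum_mul, ← map_sum]
      obtain ⟨z, hz⟩ : ∃ z, z = ∑ b ∈ Icc 1 B, χ (x + ((b : ℕ) : ZMod q)) := ⟨_, rfl⟩
      rw [← hz]
      have h4 := Complex.mul_conj' z
      calc ((‖z‖ ^ 4 : ℝ) : ℂ) = ((‖z‖ : ℂ) ^ 2) ^ 2 := by push_cast; ring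
        _ = (z * (starRingEnd ℂ) z) ^ 2 := by rw [h4]
        _ = _ := by ring
    rw [Complex.ofReal_sum, Finset.sum_congr rfl (fun x _ => h2 x)]
    rw [Finset.sum_comm]
    refine Finset.sum_congr rfl fun a _ => ?_
    rw [Finset.sum_comm]
    refine Finset.sum_congr rfl fun b _ => ?_
    rw [Finset.sum_comm]
    refine Finset.sum_congr rfl fun c _ => ?_
    rw [Finset.sum_comm]
  have h0 : 0 ≤ M4 χ B := by
    unfold M4
    exact Finset.sum_nonneg fun x _ => by positivity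
  have h2 : M4 χ B = ‖((M4 χ B : ℝ) : ℂ)‖ := by
    rw [Complex.norm_real, Real.norm_of_nonneg h0]
  rw [h2, h1]
  refine (norm_sum_le _ _).trans (Finset.sum_le_sum fun a _ => ?_)
  refine (norm_sum_le _ _).trans (Finset.sum_le_sum fun b _ => ?_)
  refine (norm_sum_le _ _).trans (Finset.sum_le_sum fun c _ => ?_)
  exact norm_sum_le _ _

end Pool.Agent.Lib.SPV
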