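import Pool.Agent.Lib.MP_7b7e48_nt.SPV.Defs

/-!
# SPV A4: the complete sum modulo a prime depends only on the cross ratio

PROOF. The term `x = -b` of `S4` vanishes. For the others put `u = (x+b)⁻¹ ≠ 0`: `x + a = (1 + (a-b)u)/u` etc., so the summand is
`χ(1+αu) conj χ(1+γu) conj χ(1+δu)`, `α = a-b`, `γ = c-b`, `δ = d-b` (the powers of `χ(u)` cancel: `χ(u)⁻² conj(χ(u)⁻¹)²`,
`‖χ(u)‖ = 1`). So `S4 = ∑_{u ≠ 0} = ∑_u - 1` (value `1` at `u = 0`). `α, γ, δ ≠ 0`: `χ(1+αu) = χ(α) χ(u + α⁻¹)` etc.; replace `u` by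
`u - α⁻¹` and then `u = κ w`, `κ = γ⁻¹ - α⁻¹ ≠ 0` (as `a ≠ c`): up to a factor of norm `1` the sum over all `u` is
`∑_w χ(w) conj χ(w+1) conj χ(w+λ) = Tcr χ λ`, `λ = (δ⁻¹ - α⁻¹)/κ = γ(α-δ)/(δ(α-γ)) = (c-b)(a-d)/((d-b)(a-c))`.
-/

set_option autoImplicit false

open Finset

namespace Pool.Agent.Lib.SPV

theorem S4_cr {p : ℕ} [Fact p.Prime] (χ : DirichletCharacter ℂ p) (a b c d : ZMod p) (hab : a ≠ b) (hac : a ≠ c)
    (had : a ≠ d) (hbc : b ≠ c) (hbd : b ≠ d) (hcd : c ≠ d) :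
    ‖S4 χ a b c d‖ ≤ ‖Tcr χ (((c - b) * (a - d)) * ((d - b) * (a - c))⁻¹)‖ + 1 := by
  have hα : a - b ≠ 0 := sub_ne_zero.mpr hab
  have hγ : c - b ≠ 0 := sub_ne_zero.mpr (Ne.symm hbc)
  have hδ : d - b ≠ 0 := sub_ne_zero.mpr (Ne.symm hbd)
  have hac' : a - c ≠ 0 := sub_ne_zero.mpr hac
  obtain ⟨κ, hκ⟩ : ∃ κ, κ = (c - b)⁻¹ - (a - b)⁻¹ := ⟨_, rfl⟩
  obtain ⟨l, hl⟩ : ∃ l, l = ((c - b) * (a - d)) * ((d - b) * (a - c))⁻¹ := ⟨_, rfl⟩
  have hκ0 : κ ≠ 0 := by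
    rw [hκ, sub_ne_zero]
    intro h
    have := inv_injective h
    exact hac (sub_left_injective this).symm
  -- first substitution
  have h1 : ∀ u : ZMod p, χ (u⁻¹ - b + a) * χ (u⁻¹ - b + b) * (starRingEnd ℂ) (χ (u⁻¹ - b + c)) *
      (starRingEnd ℂ) (χ (u⁻¹ - b + d)) =
      χ (1 + (a - b) * u) * (starRingEnd ℂ) (χ (1 + (c - b) * u)) * (starRingEnd ℂ) (χ (1 + (d - b) * u)) -
        (if u = 0 then 1 else 0) := by
    intro u
    by_cases hu : u = 0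
    · subst hu
      have hz : χ 0 = 0 := MulChar.map_zero χ
      simp [hz]
    · have e1 : u⁻¹ - b + a = u⁻¹ * (1 + (a - b) * u) := by field_simp; ring
      have e2 : u⁻¹ - b + b = u⁻¹ := by ring
      have e3 : u⁻¹ - b + c = u⁻¹ * (1 + (c - b) * u) := by field_simp; ring
      have e4 : u⁻¹ - b + d = u⁻¹ * (1 + (d - b) * u) := by field_simp; ring
      rw [if_neg hu, sub_zero, e1, e2, e3, e4, map_mul, map_mul, map_mul, map_mul, map_mul]
      have e5 : χ u⁻¹ * (starRingEnd ℂ) (χ u⁻¹) = 1 := by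
        rw [RCLike.mul_conj]
        have : ‖χ u⁻¹‖ = 1 := by
          have h := DirichletCharacter.unit_norm_eq_one χ (Units.mk0 u⁻¹ (inv_ne_zero hu))
          simpa using h
        rw [this]
        norm_num
      calc χ u⁻¹ * χ (1 + (a - b) * u) * χ u⁻¹ * ((starRingEnd ℂ) (χ u⁻¹) * (starRingEnd ℂ) (χ (1 + (c - b) * u))) *
            ((starRingEnd ℂ) (χ u⁻¹) * (starRingEnd ℂ) (χ (1 + (d - b) * u)))
          = (χ u⁻¹ * (starRingEnd ℂ) (χ u⁻¹)) * (χ u⁻¹ * (starRingEnd ℂ) (χ u⁻¹)) *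
            (χ (1 + (a - b) * u) * (starRingEnd ℂ) (χ (1 + (c - b) * u)) * (starRingEnd ℂ) (χ (1 + (d - b) * u))) := by
              ring
        _ = _ := by rw [e5, one_mul, one_mul]
  have h2 : S4 χ a b c d = (∑ u : ZMod p, χ (1 + (a - b) * u) * (starRingEnd ℂ) (χ (1 + (c - b) * u)) *
      (starRingEnd ℂ) (χ (1 + (d - b) * u))) - 1 := by
    have hbij : Function.Bijective (fun u : ZMod p => u⁻¹ - b) :=
      (Equiv.subRight b).bijective.comp (inv_involutive (G := ZMod p)).bijective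
    unfold S4
    rw [← hbij.sum_comp]
    rw [sum_congr rfl (fun u _ => h1 u), sum_sub_distrib]
    simp
  -- second substitution
  have h3 : ∀ w : ZMod p, χ (1 + (a - b) * (κ * w - (a - b)⁻¹)) *
      (starRingEnd ℂ) (χ (1 + (c - b) * (κ * w - (a - b)⁻¹))) *
      (starRingEnd ℂ) (χ (1 + (d - b) * (κ * w - (a - b)⁻¹))) =
      (χ ((a - b) * κ) * (starRingEnd ℂ) (χ ((c - b) * κ)) * (starRingEnd ℂ) (χ ((d - b) * κ))) *
      (χ w * (starRingEnd ℂ) (χ (w + 1)) * (starRingEnd ℂ) (χ (w + l))) := by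
    intro w
    have e1 : 1 + (a - b) * (κ * w - (a - b)⁻¹) = (a - b) * κ * w := by
      rw [mul_sub, mul_inv_cancel₀ hα]
      ring
    have e2 : 1 + (c - b) * (κ * w - (a - b)⁻¹) = (c - b) * κ * (w + 1) := by
      rw [hκ]
      field_simp
      ring
    have e3 : 1 + (d - b) * (κ * w - (a - b)⁻¹) = (d - b) * κ * (w + l) := by
      rw [hκ, hl]
      field_simp
      ring
    rw [e1, e2, e3, map_mul χ ((a - b) * κ), map_mul χ ((c - b) * κ), map_mul χ ((d - b) * κ),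
      map_mul (starRingEnd ℂ), map_mul (starRingEnd ℂ)]
    ring
  have h4 : (∑ u : ZMod p, χ (1 + (a - b) * u) * (starRingEnd ℂ) (χ (1 + (c - b) * u)) *
      (starRingEnd ℂ) (χ (1 + (d - b) * u))) =
      (χ ((a - b) * κ) * (starRingEnd ℂ) (χ ((c - b) * κ)) * (starRingEnd ℂ) (χ ((d - b) * κ))) * Tcr χ l := by
    have hbij : Function.Bijective (fun w : ZMod p => κ * w - (a - b)⁻¹) :=
      (Equiv.subRight (a - b)⁻¹).bijective.comp (Equiv.mulLeft₀ κ hκ0).bijective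
    rw [← hbij.sum_comp]
    unfold Tcr
    rw [mul_sum]
    exact sum_congr rfl (fun w _ => h3 w)
  rw [h2, h4, ← hl]
  refine (norm_sub_le _ _).trans ?_
  rw [norm_one]
  gcongr
  rw [norm_mul]
  have h5 : ‖χ ((a - b) * κ) * (starRingEnd ℂ) (χ ((c - b) * κ)) * (starRingEnd ℂ) (χ ((d - b) * κ))‖ ≤ 1 := by
    rw [norm_mul, norm_mul, RCLike.norm_conj, RCLike.norm_conj]
    have a1 := DirichletCharacter.norm_le_one χ ((a - b) * κ)
    have a2 := DirichletCharacter.norm_le_one χ ((c - b) * κ)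
    have a3 := DirichletCharacter.norm_le_one χ ((d - b) * κ)
    exact mul_le_one₀ (mul_le_one₀ a1 (norm_nonneg _) a2) (norm_nonneg _) a3
  calc _ ≤ 1 * ‖Tcr χ l‖ := by gcongr
    _ = _ := one_mul _

end Pool.Agent.Lib.SPV
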