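import Pool.Agent.Lib.MP_7b7e48_nt.SPV.A3

/-!
# SPV A5: degenerate complete sums modulo a prime

PROOF. `S4_swap`, `S4_swap'`: commutativity; `S4_conj`: conjugate of `S4 χ a b c d` is `S4 χ c d a b`.
`S4_one`: `∑_x |χ(x+a)|² χ(x+b) conj χ(x+d)`, `b ≠ d`: `|χ(x+a)|² = 1` except at `x = -a`: it is `corr` (shifted, `-1`) minus one
term of norm `≤ 1`.
`S4_two`: `a ≠ c`, `a ≠ d`, `c ≠ d`. With `u = (x+a)⁻¹` as in A4 the sum is `∑_{u ≠ 0} conj χ(1+γu) conj χ(1+δu)`,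
`γ = c-a`, `δ = d-a`, both `≠ 0`, `γ ≠ δ`; adding `u = 0` (value 1), it is `unimodular * ∑_u conj χ(u+g) conj χ(u+h) - 1`, `g ≠ h`, and
`∑_u conj χ(u+g) conj χ(u+h) = conj χ(h-g)² K`, `K = ∑_w conj χ(w) conj χ(w+1)` (substitute `u + g = (h-g) w`).
`K`: `conv_sq` with `F w = conj χ(w)`: `∑_t ‖∑_w conj χ(w) conj χ(w+t)‖² ≤ p * p`, and for each of the `p - 1` values `t ≠ 0` the
inner sum has norm `‖K‖`; so `‖K‖² ≤ p²/(p-1) ≤ 2p` and `‖S4‖ ≤ √(2p) + 1 ≤ 3 √p`.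
-/

set_option autoImplicit false

open Finset

namespace Pool.Agent.Lib.SPV

private theorem A5_one {p : ℕ} [Fact p.Prime] (χ : DirichletCharacter ℂ p) (x : ZMod p) (hx : x ≠ 0) :
    ‖χ x‖ = 1 := by
  have h := DirichletCharacter.unit_norm_eq_one χ (Units.mk0 x hx)
  simpa using h

private theorem A5_norm {p : ℕ} [Fact p.Prime] (χ : DirichletCharacter ℂ p) (x : ZMod p) (hx : x ≠ 0) :
    χ x * (starRingEnd ℂ) (χ x) = 1 := by
  rw [Complex.mul_conj, Complex.normSq_eq_norm_sq, A5_one χ x hx]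
  simp

theorem S4_swap {q : ℕ} [NeZero q] (χ : DirichletCharacter ℂ q) (a b c d : ZMod q) :
    S4 χ a b c d = S4 χ b a c d := by
  unfold S4
  exact sum_congr rfl fun x _ => by ring

theorem S4_swap' {q : ℕ} [NeZero q] (χ : DirichletCharacter ℂ q) (a b c d : ZMod q) :
    S4 χ a b c d = S4 χ a b d c := by
  unfold S4
  exact sum_congr rfl fun x _ => by ring

theorem S4_conj {q : ℕ} [NeZero q] (χ : DirichletCharacter ℂ q) (a b c d : ZMod q) :
    ‖S4 χ a b c d‖ = ‖S4 χ c d a b‖ := by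
  have h : S4 χ c d a b = (starRingEnd ℂ) (S4 χ a b c d) := by
    unfold S4
    rw [map_sum]
    refine sum_congr rfl fun x _ => ?_
    simp only [map_mul, Complex.conj_conj]
    ring
  rw [h, RCLike.norm_conj]

theorem S4_one {p : ℕ} [Fact p.Prime] (χ : DirichletCharacter ℂ p) (hχ : χ ≠ 1) (a b d : ZMod p) (hbd : b ≠ d) :
    ‖S4 χ a b a d‖ ≤ 2 := by
  have h1 : ∀ x : ZMod p, χ (x + a) * χ (x + b) * (starRingEnd ℂ) (χ (x + a)) * (starRingEnd ℂ) (χ (x + d)) =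
      χ (x + b) * (starRingEnd ℂ) (χ (x + d)) -
        (if x = -a then χ (-a + b) * (starRingEnd ℂ) (χ (-a + d)) else 0) := by
    intro x
    by_cases hx : x = -a
    · subst hx
      have hz : χ 0 = 0 := MulChar.map_zero χ
      simp [hz]
    · rw [if_neg hx, sub_zero]
      have hx' : x + a ≠ 0 := fun h => hx (eq_neg_of_add_eq_zero_left h)
      have e := A5_norm χ (x + a) hx'
      calc χ (x + a) * χ (x + b) * (starRingEnd ℂ) (χ (x + a)) * (starRingEnd ℂ) (χ (x + d))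
          = (χ (x + a) * (starRingEnd ℂ) (χ (x + a))) * (χ (x + b) * (starRingEnd ℂ) (χ (x + d))) := by ring
        _ = _ := by rw [e, one_mul]
  have h2 : ∑ x : ZMod p, χ (x + b) * (starRingEnd ℂ) (χ (x + d)) = -1 := by
    rw [← corr χ hχ (d - b) (sub_ne_zero.mpr hbd.symm),
      ← Equiv.sum_comp (Equiv.addRight b) (fun s => χ s * (starRingEnd ℂ) (χ (s + (d - b))))]
    refine sum_congr rfl fun x _ => ?_
    rw [Equiv.coe_addRight]
    congr 3
    ring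
  unfold S4
  rw [sum_congr rfl fun x _ => h1 x, sum_sub_distrib, h2]
  simp only [sum_ite_eq', mem_univ, if_true]
  have a1 := DirichletCharacter.norm_le_one χ (-a + b)
  have a2 := DirichletCharacter.norm_le_one χ (-a + d)
  have h3 : ‖χ (-a + b) * (starRingEnd ℂ) (χ (-a + d))‖ ≤ 1 := by
    rw [norm_mul, RCLike.norm_conj]
    exact mul_le_one₀ a1 (norm_nonneg _) a2
  refine (norm_sub_le _ _).trans ?_
  rw [norm_neg, norm_one]
  linarith

/-- the sum `K` -/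
private noncomputable def A5_K {p : ℕ} [Fact p.Prime] (χ : DirichletCharacter ℂ p) : ℂ :=
  ∑ w : ZMod p, (starRingEnd ℂ) (χ w) * (starRingEnd ℂ) (χ (w + 1))

private theorem A5_K_sq {p : ℕ} [Fact p.Prime] (χ : DirichletCharacter ℂ p) (hχ : χ ≠ 1) :
    ‖A5_K χ‖ ^ 2 ≤ 2 * p := by
  have hp2 : 2 ≤ p := (Fact.out : p.Prime).two_le
  have h := conv_sq χ hχ (fun w => (starRingEnd ℂ) (χ w))
  have h1 : ∀ t : ZMod p, t ≠ 0 →
      ‖∑ w : ZMod p, (starRingEnd ℂ) (χ w) * (starRingEnd ℂ) (χ (w + t))‖ ^ 2 = ‖A5_K χ‖ ^ 2 := by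
    intro t ht
    have e : ∑ w : ZMod p, (starRingEnd ℂ) (χ w) * (starRingEnd ℂ) (χ (w + t)) =
        (starRingEnd ℂ) (χ t) * (starRingEnd ℂ) (χ t) * A5_K χ := by
      rw [← Equiv.sum_comp (Equiv.mulLeft₀ t ht)
        (fun w => (starRingEnd ℂ) (χ w) * (starRingEnd ℂ) (χ (w + t)))]
      unfold A5_K
      rw [mul_sum]
      refine sum_congr rfl fun w _ => ?_
      have e0 : (Equiv.mulLeft₀ t ht) w = t * w := rfl
      rw [e0]
      have e1 : t * w + t = t * (w + 1) := by ring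
      rw [e1, map_mul χ, map_mul χ, map_mul, map_mul]
      ring
    rw [e, norm_mul, norm_mul, RCLike.norm_conj, A5_one χ t ht]
    ring
  have h2 : ∑ w : ZMod p, ‖(starRingEnd ℂ) (χ w)‖ ^ 2 ≤ p := by
    have h3 : ∀ w ∈ (univ : Finset (ZMod p)), ‖(starRingEnd ℂ) (χ w)‖ ^ 2 ≤ (1 : ℝ) := by
      intro w _
      rw [RCLike.norm_conj]
      have a1 := DirichletCharacter.norm_le_one χ w
      have b1 := norm_nonneg (χ w)
      nlinarith
    have h4 := sum_le_card_nsmul _ _ _ h3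
    simpa [ZMod.card] using h4
  have h5 : ((p : ℝ) - 1) * ‖A5_K χ‖ ^ 2 ≤
      ∑ t : ZMod p, ‖∑ w : ZMod p, (starRingEnd ℂ) (χ w) * (starRingEnd ℂ) (χ (w + t))‖ ^ 2 := by
    have h6 : ∑ t ∈ univ.erase (0 : ZMod p),
        ‖∑ w : ZMod p, (starRingEnd ℂ) (χ w) * (starRingEnd ℂ) (χ (w + t))‖ ^ 2 =
        ((p : ℝ) - 1) * ‖A5_K χ‖ ^ 2 := by
      rw [sum_congr rfl fun t ht => h1 t (ne_of_mem_erase ht), sum_const,
        card_erase_of_mem (mem_univ _), card_univ, ZMod.card, nsmul_eq_mul,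
        Nat.cast_sub (by omega), Nat.cast_one]
    rw [← h6]
    exact sum_le_sum_of_subset_of_nonneg (erase_subset _ _) fun _ _ _ => by positivity
  have hp : (2 : ℝ) ≤ p := by exact_mod_cast hp2
  have h7 : ((p : ℝ) - 1) * ‖A5_K χ‖ ^ 2 ≤ p * p :=
    (h5.trans h).trans (mul_le_mul_of_nonneg_left h2 (by linarith))
  have h8 : (0 : ℝ) ≤ ‖A5_K χ‖ ^ 2 := by positivity
  nlinarith

theorem S4_two {p : ℕ} [Fact p.Prime] (χ : DirichletCharacter ℂ p) (hχ : χ ≠ 1) (a c d : ZMod p) (hac : a ≠ c)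
    (had : a ≠ d) (hcd : c ≠ d) : ‖S4 χ a a c d‖ ≤ 3 * Real.sqrt p := by
  have hγ : c - a ≠ 0 := sub_ne_zero.mpr (Ne.symm hac)
  have hδ : d - a ≠ 0 := sub_ne_zero.mpr (Ne.symm had)
  obtain ⟨κ, hκ⟩ : ∃ κ, κ = (d - a)⁻¹ - (c - a)⁻¹ := ⟨_, rfl⟩
  have hκ0 : κ ≠ 0 := by
    rw [hκ, sub_ne_zero]
    intro h
    have := inv_injective h
    exact hcd (sub_left_injective this).symm
  -- first substitution
  have h1 : ∀ u : ZMod p, χ (u⁻¹ - a + a) * χ (u⁻¹ - a + a) * (starRingEnd ℂ) (χ (u⁻¹ - a + c)) *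
      (starRingEnd ℂ) (χ (u⁻¹ - a + d)) =
      (starRingEnd ℂ) (χ (1 + (c - a) * u)) * (starRingEnd ℂ) (χ (1 + (d - a) * u)) -
        (if u = 0 then 1 else 0) := by
    intro u
    by_cases hu : u = 0
    · subst hu
      have hz : χ 0 = 0 := MulChar.map_zero χ
      simp [hz]
    · have e2 : u⁻¹ - a + a = u⁻¹ := by ring
      have e3 : u⁻¹ - a + c = u⁻¹ * (1 + (c - a) * u) := by field_simp; ring
      have e4 : u⁻¹ - a + d = u⁻¹ * (1 + (d - a) * u) := by field_simp; ring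
      rw [if_neg hu, sub_zero, e2, e3, e4, map_mul, map_mul, map_mul, map_mul]
      have e5 : χ u⁻¹ * (starRingEnd ℂ) (χ u⁻¹) = 1 := A5_norm χ u⁻¹ (inv_ne_zero hu)
      calc χ u⁻¹ * χ u⁻¹ * ((starRingEnd ℂ) (χ u⁻¹) * (starRingEnd ℂ) (χ (1 + (c - a) * u))) *
            ((starRingEnd ℂ) (χ u⁻¹) * (starRingEnd ℂ) (χ (1 + (d - a) * u)))
          = (χ u⁻¹ * (starRingEnd ℂ) (χ u⁻¹)) * (χ u⁻¹ * (starRingEnd ℂ) (χ u⁻¹)) *
            ((starRingEnd ℂ) (χ (1 + (c - a) * u)) * (starRingEnd ℂ) (χ (1 + (d - a) * u))) := by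
              ring
        _ = _ := by rw [e5, one_mul, one_mul]
  have h2 : S4 χ a a c d = (∑ u : ZMod p, (starRingEnd ℂ) (χ (1 + (c - a) * u)) *
      (starRingEnd ℂ) (χ (1 + (d - a) * u))) - 1 := by
    have hbij : Function.Bijective (fun u : ZMod p => u⁻¹ - a) :=
      (Equiv.subRight a).bijective.comp (inv_involutive (G := ZMod p)).bijective
    unfold S4
    rw [← hbij.sum_comp]
    rw [sum_congr rfl (fun u _ => h1 u), sum_sub_distrib]
    simp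
  -- second substitution
  have h3 : ∀ w : ZMod p, (starRingEnd ℂ) (χ (1 + (c - a) * (κ * w - (c - a)⁻¹))) *
      (starRingEnd ℂ) (χ (1 + (d - a) * (κ * w - (c - a)⁻¹))) =
      ((starRingEnd ℂ) (χ ((c - a) * κ)) * (starRingEnd ℂ) (χ ((d - a) * κ))) *
      ((starRingEnd ℂ) (χ w) * (starRingEnd ℂ) (χ (w + 1))) := by
    intro w
    have e2 : 1 + (c - a) * (κ * w - (c - a)⁻¹) = (c - a) * κ * w := by
      rw [mul_sub, mul_inv_cancel₀ hγ]
      ring
    have e3 : 1 + (d - a) * (κ * w - (c - a)⁻¹) = (d - a) * κ * (w + 1) := by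
      have e4 : (d - a) * (d - a)⁻¹ = 1 := mul_inv_cancel₀ hδ
      have e5 : (d - a) * κ = 1 - (d - a) * (c - a)⁻¹ := by rw [hκ, mul_sub, e4]
      calc 1 + (d - a) * (κ * w - (c - a)⁻¹) = (d - a) * κ * w + (1 - (d - a) * (c - a)⁻¹) := by ring
        _ = (d - a) * κ * w + (d - a) * κ := by rw [← e5]
        _ = (d - a) * κ * (w + 1) := by ring
    rw [e2, e3, map_mul χ ((c - a) * κ), map_mul χ ((d - a) * κ),
      map_mul (starRingEnd ℂ), map_mul (starRingEnd ℂ)]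
    ring
  have h4 : (∑ u : ZMod p, (starRingEnd ℂ) (χ (1 + (c - a) * u)) *
      (starRingEnd ℂ) (χ (1 + (d - a) * u))) =
      ((starRingEnd ℂ) (χ ((c - a) * κ)) * (starRingEnd ℂ) (χ ((d - a) * κ))) * A5_K χ := by
    have hbij : Function.Bijective (fun w : ZMod p => κ * w - (c - a)⁻¹) :=
      (Equiv.subRight (c - a)⁻¹).bijective.comp (Equiv.mulLeft₀ κ hκ0).bijective
    rw [← hbij.sum_comp]
    unfold A5_K
    rw [mul_sum]
    exact sum_congr rfl (fun w _ => h3 w)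
  have hK := A5_K_sq χ hχ
  have h5 : ‖A5_K χ‖ ≤ Real.sqrt (2 * p) := Real.le_sqrt_of_sq_le hK
  have hp2 : 2 ≤ p := (Fact.out : p.Prime).two_le
  have hp : (2 : ℝ) ≤ p := by exact_mod_cast hp2
  have h6 : Real.sqrt (2 * p) ≤ 2 * Real.sqrt p := by
    rw [show (2 : ℝ) * Real.sqrt p = Real.sqrt (2 ^ 2 * p) by
      rw [Real.sqrt_mul (by norm_num), Real.sqrt_sq (by norm_num)]]
    apply Real.sqrt_le_sqrt
    nlinarith
  have h7 : 1 ≤ Real.sqrt p := by
    rw [Real.one_le_sqrt]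
    linarith
  have h8 : ‖(starRingEnd ℂ) (χ ((c - a) * κ)) * (starRingEnd ℂ) (χ ((d - a) * κ))‖ = 1 := by
    rw [norm_mul, RCLike.norm_conj, RCLike.norm_conj, A5_one χ _ (mul_ne_zero hγ hκ0),
      A5_one χ _ (mul_ne_zero hδ hκ0), one_mul]
  rw [h2, h4]
  refine (norm_sub_le _ _).trans ?_
  rw [norm_one, norm_mul, h8, one_mul]
  linarith

end Pool.Agent.Lib.SPV
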