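import Pool.Agent.Lib.MP_7b7e48_nt.SPV.A7

/-!
# SPV A8: the energy of the cross ratio on `[1,B]^4`

`T4 B` = quadruples of pairwise different integers of `[1,B]`; the energy counts the pairs of quadruples with the same cross ratio
`(c-b)(a-d) / ((d-b)(a-c))`.

PROOF. For a quadruple `(a,b,c,d)` put `x₁ = c-b`, `x₂ = a-d`, `x₃ = d-b`, `x₄ = a-c`: all nonzero, `≤ B` in absolute value,
`x₁ - x₂ = x₃ - x₄`, and `x₁x₂ ≠ x₃x₄` because `x₁x₂ - x₃x₄ = (c-b)(a-d) - (d-b)(a-c) = (a-b)(c-d) ≠ 0`. Given the triple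
`(x₁,x₂,x₃)`, the quadruple is determined by `b` (`c = b + x₁`, `d = b + x₃`, `a = d + x₂`), at most `B` values. Hence
`energy ≤ B² F`, `F = ∑_{x ∈ XB B} crN B (x₁x₂) (x₃x₄)` [the condition `x₁x₂ y₃y₄ = x₃x₄ y₁y₂`].
`F`: let `g = B^(2/3)`, `e` small. Triples with `G ≥ g`: at most `C B^(3+e)/√g` (`gcd_count`), each has `crN ≤ C B^(1+e)` (`crN_a`):
`C² B^(4+2e-1/3)`. Triples with `G < g`: `crN ≤ C B^(2+e) g/|x₁x₂|` (`crN_b`), and `∑_{x ∈ XB} 1/|x₁x₂| ≤ (2B+1)(2(1+log B))²`: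
`C' B^(3+2e+2/3)`. So `F ≤ C'' B^(11/3+3e)`, energy `≤ C'' B^(17/3+3e) ≤ B^(5.8)` for large `B` (`17/3 = 5.667`).
-/

set_option autoImplicit false

open Finset

namespace Pool.Agent.Lib.SPV

/-- quadruples of pairwise different integers of `[1,B]` -/
noncomputable def T4 (B : ℕ) : Finset (ℤ × ℤ × ℤ × ℤ) := by
  classical
  exact ((Icc (1 : ℤ) B) ×ˢ (Icc (1 : ℤ) B) ×ˢ (Icc (1 : ℤ) B) ×ˢ (Icc (1 : ℤ) B)).filter (fun x =>
    x.1 ≠ x.2.1 ∧ x.1 ≠ x.2.2.1 ∧ x.1 ≠ x.2.2.2 ∧ x.2.1 ≠ x.2.2.1 ∧ x.2.1 ≠ x.2.2.2 ∧ x.2.2.1 ≠ x.2.2.2)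

/-- numerator of the cross ratio of `(a,b,c,d)` -/
def crnum (x : ℤ × ℤ × ℤ × ℤ) : ℤ := (x.2.2.1 - x.2.1) * (x.1 - x.2.2.2)

/-- denominator of the cross ratio of `(a,b,c,d)` -/
def crden (x : ℤ × ℤ × ℤ × ℤ) : ℤ := (x.2.2.2 - x.2.1) * (x.1 - x.2.2.1)

private theorem A8_memT (B : ℕ) (x : ℤ × ℤ × ℤ × ℤ) : x ∈ T4 B ↔
    ((1 ≤ x.1 ∧ x.1 ≤ B) ∧ (1 ≤ x.2.1 ∧ x.2.1 ≤ B) ∧ (1 ≤ x.2.2.1 ∧ x.2.2.1 ≤ B) ∧
      (1 ≤ x.2.2.2 ∧ x.2.2.2 ≤ B)) ∧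
    x.1 ≠ x.2.1 ∧ x.1 ≠ x.2.2.1 ∧ x.1 ≠ x.2.2.2 ∧ x.2.1 ≠ x.2.2.1 ∧ x.2.1 ≠ x.2.2.2 ∧
      x.2.2.1 ≠ x.2.2.2 := by
  unfold T4
  simp only [mem_filter, mem_product, mem_Icc]

private theorem A8_memX (B : ℕ) (x : ℤ × ℤ × ℤ) : x ∈ XB B ↔
    ((-(B : ℤ) ≤ x.1 ∧ x.1 ≤ B) ∧ (-(B : ℤ) ≤ x.2.1 ∧ x.2.1 ≤ B) ∧
      (-(B : ℤ) ≤ x.2.2 ∧ x.2.2 ≤ B)) ∧
    x.1 ≠ 0 ∧ x.2.1 ≠ 0 ∧ x.2.2 ≠ 0 ∧ x.2.2 - x.1 + x.2.1 ≠ 0 ∧ |x.2.2 - x.1 + x.2.1| ≤ B ∧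
      x.1 * x.2.1 ≠ x.2.2 * (x.2.2 - x.1 + x.2.1) := by
  unfold XB
  simp only [mem_filter, mem_product, mem_Icc]

/-- the triple of a quadruple -/
private def A8_f (x : ℤ × ℤ × ℤ × ℤ) : ℤ × ℤ × ℤ :=
  (x.2.2.1 - x.2.1, x.1 - x.2.2.2, x.2.2.2 - x.2.1)

private theorem A8_maps (B : ℕ) (x : ℤ × ℤ × ℤ × ℤ) (hx : x ∈ T4 B) : A8_f x ∈ XB B := by
  obtain ⟨a, b, c, d⟩ := x
  rw [A8_memT] at hx
  simp only at hx
  obtain ⟨⟨⟨h1, h2⟩, ⟨h3, h4⟩, ⟨h5, h6⟩, h7, h8⟩, n1, n2, n3, n4, n5, n6⟩ := hx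
  rw [A8_memX]
  unfold A8_f
  simp only
  refine ⟨⟨⟨by omega, by omega⟩, ⟨by omega, by omega⟩, by omega, by omega⟩, by omega, by omega,
    by omega, by omega, ?_, ?_⟩
  · rw [abs_le]
    constructor <;> omega
  · intro h
    have h9 : (a - b) * (c - d) = 0 := by linear_combination h
    rcases mul_eq_zero.mp h9 with h10 | h10
    · omega
    · omega

private theorem A8_num (x : ℤ × ℤ × ℤ × ℤ) : crnum x = (A8_f x).1 * (A8_f x).2.1 := rfl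

private theorem A8_den (x : ℤ × ℤ × ℤ × ℤ) :
    crden x = (A8_f x).2.2 * ((A8_f x).2.2 - (A8_f x).1 + (A8_f x).2.1) := by
  unfold crden A8_f
  ring

private theorem A8_card (B : ℕ) : (((T4 B) ×ˢ (T4 B)).filter
      (fun z => crnum z.1 * crden z.2 = crnum z.2 * crden z.1)).card ≤
    B ^ 2 * ∑ x ∈ XB B, crN B (x.1 * x.2.1) (x.2.2 * (x.2.2 - x.1 + x.2.1)) := by
  classical
  obtain ⟨S, hS⟩ : ∃ S : Finset ((ℤ × ℤ × ℤ) × (ℤ × ℤ × ℤ)), S = (XB B ×ˢ XB B).filter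
      (fun w => (w.1.1 * w.1.2.1) * (w.2.2.2 * (w.2.2.2 - w.2.1 + w.2.2.1)) =
        (w.1.2.2 * (w.1.2.2 - w.1.1 + w.1.2.1)) * (w.2.1 * w.2.2.1)) := ⟨_, rfl⟩
  have h1 : S.card = ∑ x ∈ XB B, crN B (x.1 * x.2.1) (x.2.2 * (x.2.2 - x.1 + x.2.1)) := by
    rw [hS, card_filter, sum_product]
    refine sum_congr rfl fun x _ => ?_
    unfold crN
    rw [card_filter]
  rw [← h1]
  have h2 : ((Icc (1 : ℤ) B) ×ˢ (Icc (1 : ℤ) B)).card = B ^ 2 := by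
    rw [card_product, Int.card_Icc]
    have : ((B : ℤ) + 1 - 1).toNat = B := by simp
    rw [this]
    ring
  rw [← h2, ← card_product]
  refine card_le_card_of_injOn
    (fun z => ((z.1.2.1, z.2.2.1), (A8_f z.1, A8_f z.2))) ?_ ?_
  · rintro ⟨x, y⟩ hz
    rw [Finset.mem_coe, mem_filter, mem_product] at hz
    obtain ⟨⟨hx, hy⟩, he⟩ := hz
    rw [Finset.mem_coe, mem_product, mem_product]
    refine ⟨⟨?_, ?_⟩, ?_⟩
    · rw [mem_Icc]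
      exact ((A8_memT B x).mp hx).1.2.1
    · rw [mem_Icc]
      exact ((A8_memT B y).mp hy).1.2.1
    · rw [hS, mem_filter, mem_product]
      refine ⟨⟨A8_maps B x hx, A8_maps B y hy⟩, ?_⟩
      have h3 : crnum x * crden y = crnum y * crden x := he
      rw [A8_num x, A8_num y, A8_den x, A8_den y] at h3
      simp only
      rw [h3, mul_comm]
  · rintro ⟨x, y⟩ _ ⟨x', y'⟩ _ h
    simp only [Prod.mk.injEq] at h
    obtain ⟨⟨h3, h4⟩, h5, h6⟩ := h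
    have key : ∀ u v : ℤ × ℤ × ℤ × ℤ, u.2.1 = v.2.1 → A8_f u = A8_f v → u = v := by
      rintro ⟨a, b, c, d⟩ ⟨a', b', c', d'⟩ k1 k2
      unfold A8_f at k2
      simp only [Prod.mk.injEq] at k1 k2 ⊢
      obtain ⟨k3, k4, k5⟩ := k2
      refine ⟨by omega, by omega, by omega, by omega⟩
    rw [key x x' h3 h5, key y y' h4 h6]

private theorem A8_inv (B : ℕ) (A : Finset ℤ) (hA : ∀ x ∈ A, x ≠ 0 ∧ |x| ≤ B)
    (hi : Set.InjOn Int.natAbs (A : Set ℤ)) : ∑ x ∈ A, 1 / |(x : ℝ)| ≤ 1 + Real.log B := by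
  have h1 : ∑ x ∈ A, 1 / |(x : ℝ)| = ∑ n ∈ A.image Int.natAbs, (1 : ℝ) / n := by
    rw [sum_image hi]
    refine sum_congr rfl fun x _ => ?_
    rw [Nat.cast_natAbs, Int.cast_abs]
  have h2 : ∑ n ∈ A.image Int.natAbs, (1 : ℝ) / n ≤ ∑ n ∈ Icc 1 B, (1 : ℝ) / n := by
    refine sum_le_sum_of_subset_of_nonneg ?_ fun n _ _ => by positivity
    intro n hn
    rw [mem_image] at hn
    obtain ⟨x, hx, rfl⟩ := hn
    obtain ⟨h3, h4⟩ := hA x hx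
    rw [mem_Icc]
    refine ⟨Nat.one_le_iff_ne_zero.mpr (Int.natAbs_ne_zero.mpr h3), ?_⟩
    rw [Int.abs_eq_natAbs] at h4
    exact_mod_cast h4
  have h3 : ∑ n ∈ Icc 1 B, (1 : ℝ) / n = ((harmonic B : ℚ) : ℝ) := by
    rw [harmonic_eq_sum_Icc, Rat.cast_sum]
    refine sum_congr rfl fun n _ => ?_
    rw [Rat.cast_inv, Rat.cast_natCast, one_div]
  rw [h1]
  refine h2.trans ?_
  rw [h3]
  exact harmonic_le_one_add_log B

private theorem A8_inv2 (B : ℕ) :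
    ∑ x ∈ (Icc (-(B : ℤ)) B).filter (fun x => x ≠ 0), 1 / |(x : ℝ)| ≤ 2 * (1 + Real.log B) := by
  classical
  rw [← sum_filter_add_sum_filter_not _ (fun x : ℤ => 0 < x)]
  have h1 := A8_inv B (((Icc (-(B : ℤ)) B).filter (fun x => x ≠ 0)).filter (fun x => 0 < x))
    (fun x hx => by
      rw [mem_filter, mem_filter, mem_Icc] at hx
      refine ⟨hx.1.2, ?_⟩
      rw [abs_le]
      exact hx.1.1)
    (fun x hx y hy h => by
      rw [Finset.mem_coe, mem_filter] at hx hy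
      have h3 := hx.2
      have h4 := hy.2
      omega)
  have h2 := A8_inv B (((Icc (-(B : ℤ)) B).filter (fun x => x ≠ 0)).filter (fun x => ¬ 0 < x))
    (fun x hx => by
      rw [mem_filter, mem_filter, mem_Icc] at hx
      refine ⟨hx.1.2, ?_⟩
      rw [abs_le]
      exact hx.1.1)
    (fun x hx y hy h => by
      rw [Finset.mem_coe, mem_filter] at hx hy
      have h3 := hx.2
      have h4 := hy.2
      omega)
  linarith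

private theorem A8_recip (B : ℕ) : ∑ x ∈ XB B, 1 / |((x.1 * x.2.1 : ℤ) : ℝ)| ≤
    (2 * B + 1) * (2 * (1 + Real.log B)) ^ 2 := by
  classical
  obtain ⟨D, hD⟩ : ∃ D : Finset ℤ, D = (Icc (-(B : ℤ)) B).filter (fun x => x ≠ 0) := ⟨_, rfl⟩
  have h0 := A8_inv2 B
  rw [← hD] at h0
  have hsub : XB B ⊆ D ×ˢ (D ×ˢ Icc (-(B : ℤ)) B) := by
    intro x hx
    rw [A8_memX] at hx
    rw [mem_product, mem_product, hD, mem_filter, mem_filter, mem_Icc, mem_Icc]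
    exact ⟨⟨hx.1.1, hx.2.1⟩, ⟨hx.1.2.1, hx.2.2.1⟩, mem_Icc.mpr hx.1.2.2⟩
  have h1 : ∑ x ∈ XB B, 1 / |((x.1 * x.2.1 : ℤ) : ℝ)| ≤
      ∑ x ∈ D ×ˢ (D ×ˢ Icc (-(B : ℤ)) B), 1 / |((x.1 * x.2.1 : ℤ) : ℝ)| :=
    sum_le_sum_of_subset_of_nonneg hsub fun x _ _ => by positivity
  refine h1.trans ?_
  have h2 : ∑ x ∈ D ×ˢ (D ×ˢ Icc (-(B : ℤ)) B), 1 / |((x.1 * x.2.1 : ℤ) : ℝ)| =
      (2 * B + 1) * (∑ x ∈ D, 1 / |(x : ℝ)|) ^ 2 := by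
    rw [sum_product]
    have h3 : ∀ a ∈ D, ∑ y ∈ D ×ˢ Icc (-(B : ℤ)) B, 1 / |((a * y.1 : ℤ) : ℝ)| =
        1 / |(a : ℝ)| * ((2 * B + 1) * ∑ x ∈ D, 1 / |(x : ℝ)|) := by
      intro a _
      rw [sum_product, mul_sum, mul_sum]
      refine sum_congr rfl fun b _ => ?_
      simp only
      rw [sum_const, Int.card_Icc, nsmul_eq_mul]
      have h4 : (((B : ℤ) + 1 - -(B : ℤ)).toNat : ℝ) = 2 * B + 1 := by
        have h5 : ((B : ℤ) + 1 - -(B : ℤ)).toNat = 2 * B + 1 := by omega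
        rw [h5]
        push_cast
        ring
      rw [h4, Int.cast_mul, abs_mul]
      ring
    rw [sum_congr rfl h3, ← sum_mul]
    ring
  rw [h2]
  have h5 : 0 ≤ ∑ x ∈ D, 1 / |(x : ℝ)| := sum_nonneg fun x _ => by positivity
  gcongr

theorem energy : ∃ B0 : ℕ, ∀ B : ℕ, B0 ≤ B →
    ((((T4 B) ×ˢ (T4 B)).filter (fun z => crnum z.1 * crden z.2 = crnum z.2 * crden z.1)).card : ℝ) ≤
      (B : ℝ) ^ (5.8 : ℝ) := by
  classical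
  obtain ⟨C1, hC1, k1⟩ := gcd_count (1 / 100) (by norm_num)
  obtain ⟨C2, hC2, k2⟩ := crN_a (1 / 100) (by norm_num)
  obtain ⟨C3, hC3, k3⟩ := crN_b (1 / 100) (by norm_num)
  obtain ⟨K, hK⟩ : ∃ K : ℝ, K = C1 * C2 + C3 * (3 * (2 * 101) ^ 2) := ⟨_, rfl⟩
  have hK1 : 1 ≤ K := by
    rw [hK]
    nlinarith
  obtain ⟨B0, hB0⟩ : ∃ B0 : ℕ, K ^ 10 ≤ (B0 : ℝ) := exists_nat_ge _
  refine ⟨B0 + 1, fun B hB => ?_⟩
  have hB1 : 1 ≤ B := by omega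
  obtain ⟨b, hb⟩ : ∃ b : ℝ, b = (B : ℝ) := ⟨_, rfl⟩
  have hb1 : 1 ≤ b := by
    rw [hb]
    exact_mod_cast hB1
  have hb0 : 0 < b := by linarith
  have hadd : ∀ u v : ℝ, b ^ u * b ^ v = b ^ (u + v) := fun u v => (Real.rpow_add hb0 u v).symm
  have hmono : ∀ u v : ℝ, u ≤ v → b ^ u ≤ b ^ v :=
    fun u v huv => Real.rpow_le_rpow_of_exponent_le hb1 huv
  have hpos : ∀ u : ℝ, 0 < b ^ u := fun u => Real.rpow_pos_of_pos hb0 u
  have hKb : K ≤ b ^ (1 / 10 : ℝ) := by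
    have h1 : K ^ 10 ≤ b := by
      have h2 : (B0 : ℝ) ≤ b := by
        rw [hb]
        exact_mod_cast (by omega : B0 ≤ B)
      linarith
    calc K = (K ^ 10) ^ (1 / 10 : ℝ) := by
          rw [← Real.rpow_natCast, ← Real.rpow_mul (by linarith)]
          norm_num
      _ ≤ b ^ (1 / 10 : ℝ) := Real.rpow_le_rpow (by positivity) h1 (by norm_num)
  -- the logarithm
  have hlog : 1 + Real.log B ≤ 101 * b ^ (1 / 100 : ℝ) := by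
    have h1 := Real.log_le_rpow_div hb0.le (show (0 : ℝ) < 1 / 100 by norm_num)
    have h2 : 1 ≤ b ^ (1 / 100 : ℝ) := Real.one_le_rpow hb1 (by norm_num)
    rw [← hb]
    have h3 : b ^ (1 / 100 : ℝ) / (1 / 100) = 100 * b ^ (1 / 100 : ℝ) := by ring
    rw [h3] at h1
    linarith
  obtain ⟨g, hg⟩ : ∃ g : ℝ, g = b ^ (2 / 3 : ℝ) := ⟨_, rfl⟩
  have hg1 : 1 ≤ g := by
    rw [hg]
    exact Real.one_le_rpow hb1 (by norm_num)
  -- the facts on a triple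
  have hXB : ∀ x ∈ XB B, x.1 * x.2.1 ≠ 0 ∧ x.2.2 * (x.2.2 - x.1 + x.2.1) ≠ 0 ∧
      x.1 * x.2.1 ≠ x.2.2 * (x.2.2 - x.1 + x.2.1) ∧ |x.1 * x.2.1| ≤ (B : ℤ) ^ 2 ∧
      |x.2.2 * (x.2.2 - x.1 + x.2.1)| ≤ (B : ℤ) ^ 2 := by
    intro x hx
    rw [A8_memX] at hx
    obtain ⟨⟨h1, h2, h3⟩, n1, n2, n3, n4, h4, h5⟩ := hx
    have a1 : |x.1| ≤ B := abs_le.mpr h1
    have a2 : |x.2.1| ≤ B := abs_le.mpr h2
    have a3 : |x.2.2| ≤ B := abs_le.mpr h3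
    refine ⟨mul_ne_zero n1 n2, mul_ne_zero n3 n4, h5, ?_, ?_⟩
    · rw [abs_mul, sq]
      exact mul_le_mul a1 a2 (abs_nonneg _) (by positivity)
    · rw [abs_mul, sq]
      exact mul_le_mul a3 h4 (abs_nonneg _) (by positivity)
  have hF : ∑ x ∈ XB B, (crN B (x.1 * x.2.1) (x.2.2 * (x.2.2 - x.1 + x.2.1)) : ℝ) ≤
      K * b ^ (11 / 3 + 3 / 100 : ℝ) := by
    rw [← sum_filter_add_sum_filter_not (XB B)
      (fun x => g ≤ (Int.gcd (x.1 * x.2.1) (x.2.2 * (x.2.2 - x.1 + x.2.1)) : ℝ))]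
    have p1 : ∑ x ∈ (XB B).filter
          (fun x => g ≤ (Int.gcd (x.1 * x.2.1) (x.2.2 * (x.2.2 - x.1 + x.2.1)) : ℝ)),
          (crN B (x.1 * x.2.1) (x.2.2 * (x.2.2 - x.1 + x.2.1)) : ℝ) ≤
        C1 * C2 * b ^ (11 / 3 + 3 / 100 : ℝ) := by
      have h1 : ∀ x ∈ (XB B).filter
          (fun x => g ≤ (Int.gcd (x.1 * x.2.1) (x.2.2 * (x.2.2 - x.1 + x.2.1)) : ℝ)),
          (crN B (x.1 * x.2.1) (x.2.2 * (x.2.2 - x.1 + x.2.1)) : ℝ) ≤ C2 * b ^ (1 + 1 / 100 : ℝ) := by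
        intro x hx
        rw [mem_filter] at hx
        obtain ⟨h2, h3, h4, h5, h6⟩ := hXB x hx.1
        rw [hb]
        exact k2 B hB1 _ _ h2 h3 h4 h5 h6
      have h2 := sum_le_card_nsmul _ _ _ h1
      rw [nsmul_eq_mul] at h2
      refine h2.trans ?_
      have h3 := k1 B hB1 g hg1
      rw [← hb] at h3
      have h4 : Real.sqrt g = b ^ (1 / 3 : ℝ) := by
        rw [hg, Real.sqrt_eq_rpow, ← Real.rpow_mul hb0.le]
        norm_num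
      rw [h4] at h3
      have h5 : C1 * b ^ (3 + 1 / 100 : ℝ) / b ^ (1 / 3 : ℝ) = C1 * b ^ (8 / 3 + 1 / 100 : ℝ) := by
        rw [div_eq_iff (hpos _).ne', mul_assoc, hadd]
        norm_num
      rw [h5] at h3
      calc _ ≤ C1 * b ^ (8 / 3 + 1 / 100 : ℝ) * (C2 * b ^ (1 + 1 / 100 : ℝ)) :=
            mul_le_mul_of_nonneg_right h3 (by positivity)
        _ = C1 * C2 * (b ^ (8 / 3 + 1 / 100 : ℝ) * b ^ (1 + 1 / 100 : ℝ)) := by ring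
        _ ≤ C1 * C2 * b ^ (11 / 3 + 3 / 100 : ℝ) := by
            rw [hadd]
            exact mul_le_mul_of_nonneg_left (hmono _ _ (by norm_num)) (by positivity)
    have p2 : ∑ x ∈ (XB B).filter
          (fun x => ¬ g ≤ (Int.gcd (x.1 * x.2.1) (x.2.2 * (x.2.2 - x.1 + x.2.1)) : ℝ)),
          (crN B (x.1 * x.2.1) (x.2.2 * (x.2.2 - x.1 + x.2.1)) : ℝ) ≤
        C3 * (3 * (2 * 101) ^ 2) * b ^ (11 / 3 + 3 / 100 : ℝ) := by
      have h1 : ∀ x ∈ (XB B).filter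
          (fun x => ¬ g ≤ (Int.gcd (x.1 * x.2.1) (x.2.2 * (x.2.2 - x.1 + x.2.1)) : ℝ)),
          (crN B (x.1 * x.2.1) (x.2.2 * (x.2.2 - x.1 + x.2.1)) : ℝ) ≤
            C3 * b ^ (2 + 1 / 100 : ℝ) * g * (1 / |((x.1 * x.2.1 : ℤ) : ℝ)|) := by
        intro x hx
        rw [mem_filter, not_le] at hx
        obtain ⟨h2, h3, h4, h5, h6⟩ := hXB x hx.1
        have h7 := k3 B hB1 _ _ h2 h3 h4 h5 h6
        rw [← hb] at h7
        refine h7.trans ?_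
        rw [mul_one_div]
        have h8 : (0 : ℝ) ≤ |((x.1 * x.2.1 : ℤ) : ℝ)| := abs_nonneg _
        have h9 := hx.2
        gcongr
      refine (sum_le_sum h1).trans ?_
      rw [← mul_sum]
      have h2 : ∑ x ∈ (XB B).filter
          (fun x => ¬ g ≤ (Int.gcd (x.1 * x.2.1) (x.2.2 * (x.2.2 - x.1 + x.2.1)) : ℝ)),
            1 / |((x.1 * x.2.1 : ℤ) : ℝ)| ≤ ∑ x ∈ XB B, 1 / |((x.1 * x.2.1 : ℤ) : ℝ)| :=
        sum_le_sum_of_subset_of_nonneg (filter_subset _ _) fun x _ _ => by positivity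
      have h3 := A8_recip B
      have h4 : (2 * (B : ℝ) + 1) * (2 * (1 + Real.log B)) ^ 2 ≤
          3 * (2 * 101) ^ 2 * b ^ (1 + 2 / 100 : ℝ) := by
        have h5 : 2 * (B : ℝ) + 1 ≤ 3 * b := by
          rw [← hb]
          linarith
        have h6 : 0 ≤ 1 + Real.log B := by
          have : 0 ≤ Real.log B := Real.log_natCast_nonneg B
          linarith
        calc (2 * (B : ℝ) + 1) * (2 * (1 + Real.log B)) ^ 2 ≤
              (3 * b) * (2 * (101 * b ^ (1 / 100 : ℝ))) ^ 2 := by gcongr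
          _ = 3 * (2 * 101) ^ 2 * (b ^ (1 : ℝ) * (b ^ (1 / 100 : ℝ) * b ^ (1 / 100 : ℝ))) := by
              rw [Real.rpow_one]
              ring
          _ = 3 * (2 * 101) ^ 2 * b ^ (1 + 2 / 100 : ℝ) := by
              rw [hadd, hadd]
              norm_num
      have h5 : 0 ≤ C3 * b ^ (2 + 1 / 100 : ℝ) * g := by positivity
      calc _ ≤ C3 * b ^ (2 + 1 / 100 : ℝ) * g * (3 * (2 * 101) ^ 2 * b ^ (1 + 2 / 100 : ℝ)) :=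
            mul_le_mul_of_nonneg_left (h2.trans (h3.trans h4)) h5
        _ = C3 * (3 * (2 * 101) ^ 2) * (b ^ (2 + 1 / 100 : ℝ) * (b ^ (2 / 3 : ℝ) *
              b ^ (1 + 2 / 100 : ℝ))) := by
            rw [hg]
            ring
        _ = C3 * (3 * (2 * 101) ^ 2) * b ^ (11 / 3 + 3 / 100 : ℝ) := by
            rw [hadd, hadd]
            norm_num
    rw [hK, add_mul]
    exact add_le_add p1 p2
  have h1 := A8_card B
  have h2 : ((((T4 B) ×ˢ (T4 B)).filter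
      (fun z => crnum z.1 * crden z.2 = crnum z.2 * crden z.1)).card : ℝ) ≤
      b ^ 2 * ∑ x ∈ XB B, (crN B (x.1 * x.2.1) (x.2.2 * (x.2.2 - x.1 + x.2.1)) : ℝ) := by
    rw [hb]
    exact_mod_cast h1
  refine h2.trans ?_
  rw [← hb]
  calc b ^ 2 * ∑ x ∈ XB B, (crN B (x.1 * x.2.1) (x.2.2 * (x.2.2 - x.1 + x.2.1)) : ℝ)
      ≤ b ^ 2 * (b ^ (1 / 10 : ℝ) * b ^ (11 / 3 + 3 / 100 : ℝ)) := by
        refine mul_le_mul_of_nonneg_left (hF.trans ?_) (by positivity)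
        exact mul_le_mul_of_nonneg_right hKb (hpos _).le
    _ = b ^ (2 : ℝ) * (b ^ (1 / 10 : ℝ) * b ^ (11 / 3 + 3 / 100 : ℝ)) := by
        rw [Real.rpow_two]
    _ ≤ b ^ (5.8 : ℝ) := by
        rw [hadd, hadd]
        exact hmono _ _ (by norm_num)

end Pool.Agent.Lib.SPV
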