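import Pool.Agent.Lib.MP_7b7e48_nt.SPV.A2
import Pool.Agent.Lib.MP_7b7e48_nt.SPV.A4
import Pool.Agent.Lib.MP_7b7e48_nt.SPV.A5
import Pool.Agent.Lib.MP_7b7e48_nt.SPV.A8

/-!
# SPV A9: the sum of the complete sums over `[1,B]^4` modulo a prime

PROOF. Here `2 B^4 < p`, so the casts of different integers of `[1,B]` are different mod `p`.
(1) Quadruples of `T4 B`: `‖S4‖ ≤ ‖Tcr λ‖ + 1`, `λ = crnum/crden mod p` (`S4_cr`). Let `N(t)` = number of quadruples of `T4 B` with `λ = t`.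
`∑ ‖Tcr λ‖ = ∑_t N(t) ‖Tcr t‖ ≤ (∑ N²)^{1/2} (∑ ‖Tcr‖²)^{1/2} ≤ (∑_t N(t)²)^{1/2} p` (`Tcr_sq`), and `∑_t N(t)²` = number of pairs with
`crnum z₁ crden z₂ = crnum z₂ crden z₁ mod p` (the denominators are units mod `p`), both sides have absolute value `< B^4 < p/2`, so this
is an equality of integers: `≤ B^5.8` (`energy`). Total of (1): `≤ B^2.9 p + B^4`.
(2) Quadruples with `a = b = ...` etc.: the rest of `[1,B]^4`. If `{a,b} = {c,d}` as multisets, or (`a = b` and `c = d`): at most `3 B²`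
quadruples, trivial bound `p` (`S4_le`). Otherwise, if one of `a, b` equals one of `c, d`: after swaps (`S4_swap`, `S4_swap'`) `S4_one`:
`≤ 2`, at most `4 B³` quadruples. Otherwise `a = b`, `c ≠ d` both `≠ a`, or `c = d`, `a ≠ b` both `≠ c` (`S4_two`, `S4_conj`): `≤ 3√p`, at most `2 B³`
quadruples. Total of (2): `3 B² p + 8 B³ + 6 B³ √p`. As `B^4 < p` (`√p > B²`), `(1) + (2) ≤ 2 p B^2.9` for large `B`
(`B^4 ≤ p`, `8B³ ≤ p`, `6 B³ √p ≤ 6 B p`, hence `(1)+(2) ≤ p (B^2.9 + 1 + 3B² + 1 + 6B)`).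
-/

set_option autoImplicit false

open Finset

namespace Pool.Agent.Lib.SPV

/-- the cross ratio modulo `p` -/
private def A9_l (p : ℕ) (z : ℤ × ℤ × ℤ × ℤ) : ZMod p := (crnum z : ZMod p) * ((crden z : ℤ) : ZMod p)⁻¹

private theorem A9_memT (B : ℕ) (x : ℤ × ℤ × ℤ × ℤ) : x ∈ T4 B ↔
    ((1 ≤ x.1 ∧ x.1 ≤ B) ∧ (1 ≤ x.2.1 ∧ x.2.1 ≤ B) ∧ (1 ≤ x.2.2.1 ∧ x.2.2.1 ≤ B) ∧
      (1 ≤ x.2.2.2 ∧ x.2.2.2 ≤ B)) ∧
    x.1 ≠ x.2.1 ∧ x.1 ≠ x.2.2.1 ∧ x.1 ≠ x.2.2.2 ∧ x.2.1 ≠ x.2.2.1 ∧ x.2.1 ≠ x.2.2.2 ∧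
      x.2.2.1 ≠ x.2.2.2 := by
  unfold T4
  simp only [mem_filter, mem_product, mem_Icc]

private theorem A9_abs_mul {B : ℕ} {x y : ℤ} (hx : |x| ≤ B) (hy : |y| ≤ B) : |x * y| ≤ (B : ℤ) ^ 2 := by
  rw [abs_mul, sq]
  exact mul_le_mul hx hy (abs_nonneg _) (by positivity)

private theorem A9_num_le {B : ℕ} {z : ℤ × ℤ × ℤ × ℤ} (hz : z ∈ T4 B) :
    |crnum z| ≤ (B : ℤ) ^ 2 ∧ |crden z| ≤ (B : ℤ) ^ 2 ∧ crden z ≠ 0 := by
  rw [A9_memT] at hz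
  obtain ⟨⟨h1, h2, h3, h4⟩, n1, n2, n3, n4, n5, n6⟩ := hz
  refine ⟨?_, ?_, ?_⟩
  · unfold crnum
    exact A9_abs_mul (by rw [abs_le]; omega) (by rw [abs_le]; omega)
  · unfold crden
    exact A9_abs_mul (by rw [abs_le]; omega) (by rw [abs_le]; omega)
  · unfold crden
    refine mul_ne_zero ?_ ?_ <;> omega

private theorem A9_cast_zero {p : ℕ} {k : ℤ} (hk : |k| < p) (h : ((k : ℤ) : ZMod p) = 0) : k = 0 := by
  rw [ZMod.intCast_zmod_eq_zero_iff_dvd] at h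
  exact Int.eq_zero_of_abs_lt_dvd h hk

private theorem A9_eq {B p : ℕ} [Fact p.Prime] (hB : 1 ≤ B) (hp : 2 * B ^ 4 < p) {z w : ℤ × ℤ × ℤ × ℤ} (hz : z ∈ T4 B)
    (hw : w ∈ T4 B) (h : A9_l p z = A9_l p w) : crnum z * crden w = crnum w * crden z := by
  obtain ⟨a1, a2, a3⟩ := A9_num_le hz
  obtain ⟨b1, b2, b3⟩ := A9_num_le hw
  have hB4 : (2 : ℤ) * (B : ℤ) ^ 4 < p := by exact_mod_cast hp
  have hB1 : (1 : ℤ) ≤ B := by exact_mod_cast hB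
  have hB2 : (B : ℤ) ^ 2 < p := by nlinarith [sq_nonneg ((B : ℤ) ^ 2 - 1), sq_nonneg ((B : ℤ))]
  have hdz : ((crden z : ℤ) : ZMod p) ≠ 0 := fun hc => a3 (A9_cast_zero (lt_of_le_of_lt a2 hB2) hc)
  have hdw : ((crden w : ℤ) : ZMod p) ≠ 0 := fun hc => b3 (A9_cast_zero (lt_of_le_of_lt b2 hB2) hc)
  have h1 : ((crnum z : ℤ) : ZMod p) * ((crden w : ℤ) : ZMod p) =
      ((crnum w : ℤ) : ZMod p) * ((crden z : ℤ) : ZMod p) := by
    unfold A9_l at h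
    field_simp at h
    linear_combination h
  have h2 : ((crnum z * crden w - crnum w * crden z : ℤ) : ZMod p) = 0 := by
    push_cast
    rw [h1, sub_self]
  have h3 : |crnum z * crden w| ≤ (B : ℤ) ^ 4 := by
    rw [abs_mul]
    calc |crnum z| * |crden w| ≤ (B : ℤ) ^ 2 * (B : ℤ) ^ 2 := mul_le_mul a1 b2 (abs_nonneg _) (by positivity)
      _ = (B : ℤ) ^ 4 := by ring
  have h4 : |crnum w * crden z| ≤ (B : ℤ) ^ 4 := by
    rw [abs_mul]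
    calc |crnum w| * |crden z| ≤ (B : ℤ) ^ 2 * (B : ℤ) ^ 2 := mul_le_mul b1 a2 (abs_nonneg _) (by positivity)
      _ = (B : ℤ) ^ 4 := by ring
  have h5 := A9_cast_zero (lt_of_le_of_lt ((abs_sub _ _).trans (add_le_add h3 h4)) (by linarith)) h2
  linarith

/-- part (1) without the constant terms -/
private theorem A9_main {B p : ℕ} [Fact p.Prime] (hB : 1 ≤ B) (hp : 2 * B ^ 4 < p) (χ : DirichletCharacter ℂ p)
    (hχ : χ ≠ 1)
    (hE : ((((T4 B) ×ˢ (T4 B)).filter (fun z => crnum z.1 * crden z.2 = crnum z.2 * crden z.1)).card : ℝ) ≤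
      (B : ℝ) ^ (5.8 : ℝ)) :
    ∑ z ∈ T4 B, ‖Tcr χ (A9_l p z)‖ ≤ (B : ℝ) ^ (2.9 : ℝ) * p := by
  classical
  have hB0 : (0 : ℝ) < B := by exact_mod_cast hB
  obtain ⟨N, hN⟩ : ∃ N : ZMod p → ℝ, N = fun t => (((T4 B).filter fun z => A9_l p z = t).card : ℝ) := ⟨_, rfl⟩
  have h1 : ∑ z ∈ T4 B, ‖Tcr χ (A9_l p z)‖ = ∑ t : ZMod p, N t * ‖Tcr χ t‖ := by
    rw [← Finset.sum_fiberwise (T4 B) (fun z => A9_l p z) (fun z => ‖Tcr χ (A9_l p z)‖)]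
    refine sum_congr rfl fun t _ => ?_
    rw [hN, Finset.sum_congr rfl (g := fun _ => ‖Tcr χ t‖)]
    · rw [sum_const, nsmul_eq_mul]
    · intro z hz
      rw [(mem_filter.1 hz).2]
  have h2 : ∑ t : ZMod p, N t ^ 2 ≤ (B : ℝ) ^ (5.8 : ℝ) := by
    refine le_trans ?_ hE
    have h3 : ∑ t : ZMod p, N t ^ 2 =
        ((((T4 B) ×ˢ (T4 B)).filter (fun z => A9_l p z.1 = A9_l p z.2)).card : ℝ) := by
      rw [card_filter, sum_product]
      push_cast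
      rw [← Finset.sum_fiberwise (T4 B) (fun z => A9_l p z)
        (fun z => ∑ w ∈ T4 B, if A9_l p z = A9_l p w then (1 : ℝ) else 0)]
      refine sum_congr rfl fun t _ => ?_
      rw [Finset.sum_congr rfl (g := fun _ => N t)]
      · rw [sum_const, nsmul_eq_mul, hN, sq]
      · intro z hz
        rw [(mem_filter.1 hz).2, hN]
        simp only
        rw [card_filter]
        push_cast
        refine sum_congr rfl fun w _ => ?_
        by_cases hw : A9_l p w = t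
        · rw [if_pos hw, if_pos hw.symm]
        · rw [if_neg hw, if_neg (fun h => hw h.symm)]
    rw [h3]
    have h4 : ((T4 B) ×ˢ (T4 B)).filter (fun z => A9_l p z.1 = A9_l p z.2) ⊆
        ((T4 B) ×ˢ (T4 B)).filter (fun z => crnum z.1 * crden z.2 = crnum z.2 * crden z.1) := by
      intro z hz
      rw [mem_filter, mem_product] at hz
      rw [mem_filter, mem_product]
      exact ⟨hz.1, A9_eq hB hp hz.1.1 hz.1.2 hz.2⟩
    exact_mod_cast card_le_card h4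
  have h5 := Tcr_sq χ hχ
  have h6 : (∑ t : ZMod p, N t * ‖Tcr χ t‖) ^ 2 ≤ ((B : ℝ) ^ (2.9 : ℝ) * p) ^ 2 := by
    refine (Finset.sum_mul_sq_le_sq_mul_sq univ N (fun t => ‖Tcr χ t‖)).trans ?_
    have h7 : ((B : ℝ) ^ (2.9 : ℝ) * p) ^ 2 = (B : ℝ) ^ (5.8 : ℝ) * (p : ℝ) ^ 2 := by
      rw [mul_pow, ← Real.rpow_natCast ((B : ℝ) ^ (2.9 : ℝ)) 2, ← Real.rpow_mul hB0.le]
      norm_num
    rw [h7]
    exact mul_le_mul h2 h5 (sum_nonneg fun _ _ => by positivity) (by positivity)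
  rw [h1]
  exact le_of_sq_le_sq h6 (by positivity)

/-- pointwise bound -/
private theorem A9_point {B p : ℕ} [Fact p.Prime] (hBp : B < p) (χ : DirichletCharacter ℂ p) (hχ : χ ≠ 1)
    {a b c d : ℕ} (ha : a ∈ Icc 1 B) (hb : b ∈ Icc 1 B) (hc : c ∈ Icc 1 B) (hd : d ∈ Icc 1 B) :
    ‖S4 χ (a : ZMod p) (b : ZMod p) (c : ZMod p) (d : ZMod p)‖ ≤
      (if a ≠ b ∧ a ≠ c ∧ a ≠ d ∧ b ≠ c ∧ b ≠ d ∧ c ≠ d then
        ‖Tcr χ (A9_l p ((a : ℤ), (b : ℤ), (c : ℤ), (d : ℤ)))‖ + 1 else 0) +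
      (((if a = c ∧ b = d then (p : ℝ) else 0) + (if a = d ∧ b = c then (p : ℝ) else 0) +
        (if a = b ∧ c = d then (p : ℝ) else 0)) +
      ((if a = c then 2 else 0) + (if a = d then 2 else 0) + (if b = c then 2 else 0) + (if b = d then 2 else 0)) +
      ((if a = b then 3 * Real.sqrt p else 0) + (if c = d then 3 * Real.sqrt p else 0))) := by
  have hinj : ∀ {x y : ℕ}, x ∈ Icc 1 B → y ∈ Icc 1 B → x ≠ y → (x : ZMod p) ≠ (y : ZMod p) := by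
    intro x y hx hy hxy h
    rw [mem_Icc] at hx hy
    rw [ZMod.natCast_eq_natCast_iff'] at h
    rw [Nat.mod_eq_of_lt (by omega), Nat.mod_eq_of_lt (by omega)] at h
    exact hxy h
  have e1 : (0 : ℝ) ≤ if a = c ∧ b = d then (p : ℝ) else 0 := by positivity
  have e2 : (0 : ℝ) ≤ if a = d ∧ b = c then (p : ℝ) else 0 := by positivity
  have e3 : (0 : ℝ) ≤ if a = b ∧ c = d then (p : ℝ) else 0 := by positivity
  have e4 : (0 : ℝ) ≤ if a = c then (2 : ℝ) else 0 := by positivity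
  have e5 : (0 : ℝ) ≤ if a = d then (2 : ℝ) else 0 := by positivity
  have e6 : (0 : ℝ) ≤ if b = c then (2 : ℝ) else 0 := by positivity
  have e7 : (0 : ℝ) ≤ if b = d then (2 : ℝ) else 0 := by positivity
  have e8 : (0 : ℝ) ≤ if a = b then 3 * Real.sqrt p else 0 := by positivity
  have e9 : (0 : ℝ) ≤ if c = d then 3 * Real.sqrt p else 0 := by positivity
  have e0 : (0 : ℝ) ≤ (if a ≠ b ∧ a ≠ c ∧ a ≠ d ∧ b ≠ c ∧ b ≠ d ∧ c ≠ d then
        ‖Tcr χ (A9_l p ((a : ℤ), (b : ℤ), (c : ℤ), (d : ℤ)))‖ + 1 else 0) := by positivity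
  by_cases hac : a = c
  · by_cases hbd : b = d
    · have h := S4_le χ (a : ZMod p) (b : ZMod p) (c : ZMod p) (d : ZMod p)
      rw [if_pos (⟨hac, hbd⟩ : a = c ∧ b = d)] at e1 ⊢
      linarith
    · have h := S4_one χ hχ (a : ZMod p) (b : ZMod p) (d : ZMod p) (hinj hb hd hbd)
      rw [← hac]
      rw [← hac] at e0 e1 e2 e3 e4 e6 e9
      rw [if_pos (rfl : a = a)] at e4 ⊢
      linarith
  by_cases had : a = d
  · by_cases hbc : b = c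
    · have h := S4_le χ (a : ZMod p) (b : ZMod p) (c : ZMod p) (d : ZMod p)
      rw [if_pos (⟨had, hbc⟩ : a = d ∧ b = c)] at e2 ⊢
      linarith
    · have h := S4_one χ hχ (a : ZMod p) (b : ZMod p) (c : ZMod p) (hinj hb hc hbc)
      rw [S4_swap'] at h
      rw [← had]
      rw [← had] at e0 e1 e2 e3 e5 e7 e9
      rw [if_pos (rfl : a = a)] at e5 ⊢
      linarith
  by_cases hbc : b = c
  · have h := S4_one χ hχ (b : ZMod p) (a : ZMod p) (d : ZMod p) (hinj ha hd had)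
    rw [S4_swap] at h
    rw [← hbc]
    rw [← hbc] at e0 e1 e2 e3 e4 e6 e9
    rw [if_pos (rfl : b = b)] at e6 ⊢
    linarith
  by_cases hbd : b = d
  · have h := S4_one χ hχ (b : ZMod p) (a : ZMod p) (c : ZMod p) (hinj ha hc hac)
    rw [S4_swap, S4_swap'] at h
    rw [← hbd]
    rw [← hbd] at e0 e1 e2 e3 e5 e7 e9
    rw [if_pos (rfl : b = b)] at e7 ⊢
    linarith
  by_cases hab : a = b
  · by_cases hcd : c = d
    · have h := S4_le χ (a : ZMod p) (b : ZMod p) (c : ZMod p) (d : ZMod p)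
      rw [if_pos (⟨hab, hcd⟩ : a = b ∧ c = d)] at e3 ⊢
      linarith
    · have h := S4_two χ hχ (a : ZMod p) (c : ZMod p) (d : ZMod p) (hinj ha hc hac) (hinj ha hd had)
        (hinj hc hd hcd)
      rw [← hab]
      rw [← hab] at e0 e1 e2 e3 e6 e7 e8
      rw [if_pos (rfl : a = a)] at e8 ⊢
      linarith
  by_cases hcd : c = d
  · have h := S4_two χ hχ (c : ZMod p) (a : ZMod p) (b : ZMod p) (hinj hc ha (Ne.symm hac))
      (hinj hc hb (Ne.symm hbc)) (hinj ha hb hab)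
    rw [S4_conj] at h
    rw [← hcd]
    rw [← hcd] at e0 e1 e2 e3 e5 e7 e9
    rw [if_pos (rfl : c = c)] at e9 ⊢
    linarith
  · have h := S4_cr χ (a : ZMod p) (b : ZMod p) (c : ZMod p) (d : ZMod p) (hinj ha hb hab) (hinj ha hc hac)
      (hinj ha hd had) (hinj hb hc hbc) (hinj hb hd hbd) (hinj hc hd hcd)
    rw [if_pos (⟨hab, hac, had, hbc, hbd, hcd⟩ : a ≠ b ∧ a ≠ c ∧ a ≠ d ∧ b ≠ c ∧ b ≠ d ∧ c ≠ d)] at e0 ⊢
    have h2 : A9_l p ((a : ℤ), (b : ℤ), (c : ℤ), (d : ℤ)) =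
        (((c : ZMod p) - b) * ((a : ZMod p) - d)) * (((d : ZMod p) - b) * ((a : ZMod p) - c))⁻¹ := by
      unfold A9_l crnum crden
      push_cast
      rfl
    rw [h2] at e0 ⊢
    linarith

/-- the sum over the quadruples with pairwise different entries -/
private theorem A9_T {B p : ℕ} [Fact p.Prime] (χ : DirichletCharacter ℂ p) :
    ∑ a ∈ Icc 1 B, ∑ b ∈ Icc 1 B, ∑ c ∈ Icc 1 B, ∑ d ∈ Icc 1 B,
      (if a ≠ b ∧ a ≠ c ∧ a ≠ d ∧ b ≠ c ∧ b ≠ d ∧ c ≠ d then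
        ‖Tcr χ (A9_l p ((a : ℤ), (b : ℤ), (c : ℤ), (d : ℤ)))‖ + 1 else 0) ≤
      ∑ z ∈ T4 B, (‖Tcr χ (A9_l p z)‖ + 1) := by
  classical
  have h1 : ∑ a ∈ Icc 1 B, ∑ b ∈ Icc 1 B, ∑ c ∈ Icc 1 B, ∑ d ∈ Icc 1 B,
      (if a ≠ b ∧ a ≠ c ∧ a ≠ d ∧ b ≠ c ∧ b ≠ d ∧ c ≠ d then
        ‖Tcr χ (A9_l p ((a : ℤ), (b : ℤ), (c : ℤ), (d : ℤ)))‖ + 1 else 0) =
      ∑ z ∈ (Icc 1 B ×ˢ Icc 1 B ×ˢ Icc 1 B ×ˢ Icc 1 B).filter (fun z : ℕ × ℕ × ℕ × ℕ =>
        z.1 ≠ z.2.1 ∧ z.1 ≠ z.2.2.1 ∧ z.1 ≠ z.2.2.2 ∧ z.2.1 ≠ z.2.2.1 ∧ z.2.1 ≠ z.2.2.2 ∧ z.2.2.1 ≠ z.2.2.2),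
        (‖Tcr χ (A9_l p ((z.1 : ℤ), (z.2.1 : ℤ), (z.2.2.1 : ℤ), (z.2.2.2 : ℤ)))‖ + 1) := by
    rw [sum_filter, sum_product]
    refine sum_congr rfl fun a _ => ?_
    rw [sum_product]
    refine sum_congr rfl fun b _ => ?_
    rw [sum_product]
  rw [h1]
  have hinj : Set.InjOn (fun z : ℕ × ℕ × ℕ × ℕ => (((z.1 : ℤ), (z.2.1 : ℤ), (z.2.2.1 : ℤ), (z.2.2.2 : ℤ)) :
      ℤ × ℤ × ℤ × ℤ)) ((Icc 1 B ×ˢ Icc 1 B ×ˢ Icc 1 B ×ˢ Icc 1 B).filter (fun z : ℕ × ℕ × ℕ × ℕ =>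
        z.1 ≠ z.2.1 ∧ z.1 ≠ z.2.2.1 ∧ z.1 ≠ z.2.2.2 ∧ z.2.1 ≠ z.2.2.1 ∧ z.2.1 ≠ z.2.2.2 ∧
          z.2.2.1 ≠ z.2.2.2)) := by
    rintro ⟨a, b, c, d⟩ _ ⟨a', b', c', d'⟩ _ h
    simp only [Prod.mk.injEq, Nat.cast_inj] at h ⊢
    exact h
  rw [← sum_image (f := fun z : ℤ × ℤ × ℤ × ℤ => ‖Tcr χ (A9_l p z)‖ + 1) hinj]
  refine sum_le_sum_of_subset_of_nonneg ?_ fun z _ _ => by positivity
  intro z hz
  obtain ⟨⟨a, b, c, d⟩, hw, rfl⟩ := mem_image.1 hz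
  rw [mem_filter, mem_product, mem_product, mem_product, mem_Icc, mem_Icc, mem_Icc, mem_Icc] at hw
  simp only at hw
  rw [A9_memT]
  simp only
  omega

private theorem A9_cardT (B : ℕ) : ((T4 B).card : ℝ) ≤ (B : ℝ) ^ 4 := by
  classical
  have h : (T4 B).card ≤ B ^ 4 := by
    unfold T4
    refine (card_filter_le _ _).trans ?_
    rw [card_product, card_product, card_product, Int.card_Icc]
    have : ((B : ℤ) + 1 - 1).toNat = B := by simp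
    rw [this]
    exact le_of_eq (by ring)
  exact_mod_cast h

private theorem A9_s1 (B : ℕ) (x : ℕ) (r : ℝ) (hr : 0 ≤ r) : ∑ y ∈ Icc 1 B, (if x = y then r else 0) ≤ r := by
  rw [sum_ite_eq]
  split_ifs
  · exact le_rfl
  · exact hr

private theorem A9_card (B : ℕ) (r : ℝ) : ∑ _y ∈ Icc 1 B, r = B * r := by
  rw [sum_const, Nat.card_Icc, nsmul_eq_mul]
  simp

theorem S4_sum_prime : ∃ B0 : ℕ, 1 ≤ B0 ∧ ∀ B : ℕ, B0 ≤ B → ∀ p : ℕ, ∀ _hp : Fact p.Prime, 2 * B ^ 4 < p →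
    ∀ χ : DirichletCharacter ℂ p, χ ≠ 1 →
    ∑ a ∈ Icc 1 B, ∑ b ∈ Icc 1 B, ∑ c ∈ Icc 1 B, ∑ d ∈ Icc 1 B,
      ‖S4 χ (a : ZMod p) (b : ZMod p) (c : ZMod p) (d : ZMod p)‖ ≤ 2 * p * (B : ℝ) ^ (2.9 : ℝ) := by
  obtain ⟨B1, hB1⟩ := energy
  refine ⟨max B1 400, le_trans (by norm_num) (le_max_right _ _), ?_⟩
  intro B hB p hpf hp χ hχ
  have hBB1 : B1 ≤ B := (le_max_left _ _).trans hB
  have hB400 : 400 ≤ B := (le_max_right _ _).trans hB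
  have hB1' : 1 ≤ B := by omega
  have hBp : B < p := by
    have : B ≤ B ^ 4 := Nat.le_self_pow (by norm_num) B
    omega
  have hmain := A9_main hB1' hp χ hχ (hB1 B hBB1)
  have hb0 : (400 : ℝ) ≤ B := by exact_mod_cast hB400
  have hbpos : (0 : ℝ) < B := by linarith
  have hp4 : (2 : ℝ) * (B : ℝ) ^ 4 < p := by exact_mod_cast hp
  have hppos : (0 : ℝ) < p := by nlinarith [pow_pos hbpos 4]
  have hsp : (B : ℝ) ^ 2 ≤ Real.sqrt p := by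
    apply Real.le_sqrt_of_sq_le
    nlinarith [pow_pos hbpos 4]
  have hsp0 : 0 ≤ Real.sqrt p := Real.sqrt_nonneg _
  have hsp2 : Real.sqrt p * Real.sqrt p = p := Real.mul_self_sqrt hppos.le
  -- sum the pointwise bound
  have hsum : ∑ a ∈ Icc 1 B, ∑ b ∈ Icc 1 B, ∑ c ∈ Icc 1 B, ∑ d ∈ Icc 1 B,
      ‖S4 χ (a : ZMod p) (b : ZMod p) (c : ZMod p) (d : ZMod p)‖ ≤
      ∑ z ∈ T4 B, (‖Tcr χ (A9_l p z)‖ + 1) + (3 * ((B : ℝ) ^ 2 * p) + 4 * ((B : ℝ) ^ 3 * 2) +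
        2 * ((B : ℝ) ^ 3 * (3 * Real.sqrt p))) := by
    refine (sum_le_sum fun a ha => sum_le_sum fun b hb => sum_le_sum fun c hc => sum_le_sum fun d hd =>
      A9_point hBp χ hχ ha hb hc hd).trans ?_
    simp only [sum_add_distrib]
    have k1 : ∑ a ∈ Icc 1 B, ∑ b ∈ Icc 1 B, ∑ c ∈ Icc 1 B, ∑ d ∈ Icc 1 B,
        (if a = c ∧ b = d then (p : ℝ) else 0) ≤ (B : ℝ) ^ 2 * p := by
      have : ∀ a ∈ Icc 1 B, ∀ b ∈ Icc 1 B, ∑ c ∈ Icc 1 B, ∑ d ∈ Icc 1 B,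
          (if a = c ∧ b = d then (p : ℝ) else 0) ≤ p := by
        intro a _ b _
        refine le_trans (sum_le_sum (g := fun c => if a = c then (p : ℝ) else 0) fun c _ => ?_)
          (A9_s1 B a p hppos.le)
        by_cases h : a = c
        · simp only [h, true_and, if_true]
          exact A9_s1 B b p hppos.le
        · simp [h]
      refine (sum_le_sum fun a ha => sum_le_sum fun b hb => this a ha b hb).trans ?_
      rw [A9_card, A9_card]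
      exact le_of_eq (by ring)
    have k2 : ∑ a ∈ Icc 1 B, ∑ b ∈ Icc 1 B, ∑ c ∈ Icc 1 B, ∑ d ∈ Icc 1 B,
        (if a = d ∧ b = c then (p : ℝ) else 0) ≤ (B : ℝ) ^ 2 * p := by
      have : ∀ a ∈ Icc 1 B, ∀ b ∈ Icc 1 B, ∑ c ∈ Icc 1 B, ∑ d ∈ Icc 1 B,
          (if a = d ∧ b = c then (p : ℝ) else 0) ≤ p := by
        intro a _ b _
        refine le_trans (sum_le_sum (g := fun c => if b = c then (p : ℝ) else 0) fun c _ => ?_)
          (A9_s1 B b p hppos.le)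
        by_cases h : b = c
        · simp only [h, and_true, if_true]
          exact A9_s1 B a p hppos.le
        · simp [h]
      refine (sum_le_sum fun a ha => sum_le_sum fun b hb => this a ha b hb).trans ?_
      rw [A9_card, A9_card]
      exact le_of_eq (by ring)
    have k3 : ∑ a ∈ Icc 1 B, ∑ b ∈ Icc 1 B, ∑ c ∈ Icc 1 B, ∑ d ∈ Icc 1 B,
        (if a = b ∧ c = d then (p : ℝ) else 0) ≤ (B : ℝ) ^ 2 * p := by
      have : ∀ a ∈ Icc 1 B, ∑ b ∈ Icc 1 B, ∑ c ∈ Icc 1 B, ∑ d ∈ Icc 1 B,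
          (if a = b ∧ c = d then (p : ℝ) else 0) ≤ B * p := by
        intro a _
        refine le_trans (sum_le_sum (g := fun b => if a = b then (B * p : ℝ) else 0) fun b _ => ?_)
          (A9_s1 B a _ (by positivity))
        by_cases h : a = b
        · simp only [h, true_and, if_true]
          refine (sum_le_sum fun c _ => A9_s1 B c p hppos.le).trans ?_
          rw [A9_card]
        · simp [h]
      refine (sum_le_sum fun a ha => this a ha).trans ?_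
      rw [A9_card]
      exact le_of_eq (by ring)
    have kd : ∀ r : ℝ, 0 ≤ r → ∀ a : ℕ, ∑ d ∈ Icc 1 B, (if a = d then r else 0) ≤ r := fun r hr a =>
      A9_s1 B a r hr
    have k4 : ∑ a ∈ Icc 1 B, ∑ b ∈ Icc 1 B, ∑ c ∈ Icc 1 B, ∑ d ∈ Icc 1 B,
        (if a = c then (2 : ℝ) else 0) ≤ (B : ℝ) ^ 3 * 2 := by
      have : ∀ a ∈ Icc 1 B, ∀ b ∈ Icc 1 B, ∑ c ∈ Icc 1 B, ∑ _d ∈ Icc 1 B, (if a = c then (2 : ℝ) else 0) ≤
          B * 2 := by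
        intro a _ b _
        simp only [A9_card]
        rw [← mul_sum]
        exact mul_le_mul_of_nonneg_left (kd 2 (by norm_num) a) hbpos.le
      refine (sum_le_sum fun a ha => sum_le_sum fun b hb => this a ha b hb).trans ?_
      rw [A9_card, A9_card]
      exact le_of_eq (by ring)
    have k5 : ∑ a ∈ Icc 1 B, ∑ b ∈ Icc 1 B, ∑ c ∈ Icc 1 B, ∑ d ∈ Icc 1 B,
        (if a = d then (2 : ℝ) else 0) ≤ (B : ℝ) ^ 3 * 2 := by
      refine (sum_le_sum fun a _ => sum_le_sum fun b _ => sum_le_sum fun c _ => kd 2 (by norm_num) a).trans ?_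
      rw [A9_card, A9_card, A9_card]
      exact le_of_eq (by ring)
    have k6 : ∑ a ∈ Icc 1 B, ∑ b ∈ Icc 1 B, ∑ c ∈ Icc 1 B, ∑ d ∈ Icc 1 B,
        (if b = c then (2 : ℝ) else 0) ≤ (B : ℝ) ^ 3 * 2 := by
      have : ∀ a ∈ Icc 1 B, ∀ b ∈ Icc 1 B, ∑ c ∈ Icc 1 B, ∑ _d ∈ Icc 1 B, (if b = c then (2 : ℝ) else 0) ≤
          B * 2 := by
        intro a _ b _
        simp only [A9_card]
        rw [← mul_sum]
        exact mul_le_mul_of_nonneg_left (kd 2 (by norm_num) b) hbpos.le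
      refine (sum_le_sum fun a ha => sum_le_sum fun b hb => this a ha b hb).trans ?_
      rw [A9_card, A9_card]
      exact le_of_eq (by ring)
    have k7 : ∑ a ∈ Icc 1 B, ∑ b ∈ Icc 1 B, ∑ c ∈ Icc 1 B, ∑ d ∈ Icc 1 B,
        (if b = d then (2 : ℝ) else 0) ≤ (B : ℝ) ^ 3 * 2 := by
      refine (sum_le_sum fun a _ => sum_le_sum fun b _ => sum_le_sum fun c _ => kd 2 (by norm_num) b).trans ?_
      rw [A9_card, A9_card, A9_card]
      exact le_of_eq (by ring)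
    have k8 : ∑ a ∈ Icc 1 B, ∑ b ∈ Icc 1 B, ∑ c ∈ Icc 1 B, ∑ d ∈ Icc 1 B,
        (if a = b then 3 * Real.sqrt p else 0) ≤ (B : ℝ) ^ 3 * (3 * Real.sqrt p) := by
      have : ∀ a ∈ Icc 1 B, ∑ b ∈ Icc 1 B, ∑ _c ∈ Icc 1 B, ∑ _d ∈ Icc 1 B,
          (if a = b then 3 * Real.sqrt p else 0) ≤ B * (B * (3 * Real.sqrt p)) := by
        intro a _
        simp only [A9_card]
        rw [← mul_sum, ← mul_sum]
        exact mul_le_mul_of_nonneg_left (mul_le_mul_of_nonneg_left (kd _ (by positivity) a) hbpos.le) hbpos.le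
      refine (sum_le_sum fun a ha => this a ha).trans ?_
      rw [A9_card]
      exact le_of_eq (by ring)
    have k9 : ∑ a ∈ Icc 1 B, ∑ b ∈ Icc 1 B, ∑ c ∈ Icc 1 B, ∑ d ∈ Icc 1 B,
        (if c = d then 3 * Real.sqrt p else 0) ≤ (B : ℝ) ^ 3 * (3 * Real.sqrt p) := by
      refine (sum_le_sum fun a _ => sum_le_sum fun b _ => sum_le_sum fun c _ => kd _ (by positivity) c).trans ?_
      rw [A9_card, A9_card, A9_card]
      exact le_of_eq (by ring)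
    have k0 := A9_T (B := B) χ
    rw [sum_add_distrib] at k0
    linarith
  refine hsum.trans ?_
  rw [sum_add_distrib, sum_const, nsmul_eq_mul, mul_one]
  have hcT := A9_cardT B
  -- final arithmetic
  have f1 : (B : ℝ) ^ 3 * Real.sqrt p ≤ B * p := by
    calc (B : ℝ) ^ 3 * Real.sqrt p = B * ((B : ℝ) ^ 2 * Real.sqrt p) := by ring
      _ ≤ B * (Real.sqrt p * Real.sqrt p) :=
        mul_le_mul_of_nonneg_left (mul_le_mul_of_nonneg_right hsp hsp0) hbpos.le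
      _ = B * p := by rw [hsp2]
  have f2 : 18 * (B : ℝ) ^ 2 ≤ (B : ℝ) ^ (2.9 : ℝ) := by
    have g1 : (B : ℝ) ^ (2.5 : ℝ) ≤ (B : ℝ) ^ (2.9 : ℝ) :=
      Real.rpow_le_rpow_of_exponent_le (by linarith) (by norm_num)
    have g2 : (B : ℝ) ^ (2.5 : ℝ) = (B : ℝ) ^ 2 * Real.sqrt B := by
      rw [Real.sqrt_eq_rpow, ← Real.rpow_natCast, ← Real.rpow_add hbpos]
      norm_num
    have g3 : (20 : ℝ) ≤ Real.sqrt B := by
      apply Real.le_sqrt_of_sq_le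
      linarith
    rw [g2] at g1
    nlinarith [pow_pos hbpos 2]
  have f3 : (B : ℝ) ^ 3 ≤ (B : ℝ) ^ 4 := by
    nlinarith [pow_pos hbpos 3]
  have f4 : (B : ℝ) ≤ (B : ℝ) ^ 2 := by nlinarith
  have f5 : (1 : ℝ) ≤ (B : ℝ) ^ 2 := by nlinarith
  have f6 : (p : ℝ) * (9 + 3 * (B : ℝ) ^ 2 + 6 * B) ≤ p * (B : ℝ) ^ (2.9 : ℝ) :=
    mul_le_mul_of_nonneg_left (by linarith) hppos.le
  nlinarith [hmain, hcT, f1, f2, f3, f6, hp4]

end Pool.Agent.Lib.SPV
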