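import Pool.Agent.Lib.MP_7b7e48_nt.SPV.A1
import Pool.Agent.Lib.MP_7b7e48_nt.SPV.A9
import Pool.Agent.Lib.MP_7b7e48_nt.SPV.A10

/-!
# SPV A11: fourth moment when a large prime divides the modulus exactly

PROOF. `crt_char'` with `m = p`: `χ = χ₁ χ₂`, `χ₁` mod `p` is `Prim`, hence `≠ 1` (take `d = 1` in `Prim`: some `x` coprime to `p` with
`χ₁ x ≠ 1`). `M4_le`, `S4_crt` (casts of naturals are casts of integers), `S4_le` for `χ₂` (`≤ n`), `S4_sum_prime` for `χ₁`.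
-/

set_option autoImplicit false

open Finset

namespace Pool.Agent.Lib.SPV

theorem M4_prime : ∃ B0 : ℕ, 1 ≤ B0 ∧ ∀ B : ℕ, B0 ≤ B → ∀ p n q : ℕ, ∀ _hq : NeZero q, p.Prime → 2 * B ^ 4 < p →
    q = p * n → p.Coprime n → ∀ χ : DirichletCharacter ℂ q, Prim χ → M4 χ B ≤ 2 * q * (B : ℝ) ^ (2.9 : ℝ) := by
  obtain ⟨B0, hB0, hmain⟩ := S4_sum_prime
  refine ⟨B0, hB0, ?_⟩
  intro B hB p n q hqz hp hpB hq hcop χ hχ
  haveI : Fact p.Prime := ⟨hp⟩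
  haveI : NeZero n := ⟨by
    rintro rfl
    exact hqz.out (by rw [hq, Nat.mul_zero])⟩
  obtain ⟨χ₁, χ₂, h1, h2, hs⟩ := crt_char' hq hcop χ hχ
  have hne : χ₁ ≠ 1 := by
    rintro rfl
    obtain ⟨x, _, hx, hx1⟩ := h1 1 (one_dvd _) hp.one_lt
    apply hx1
    exact MulChar.one_apply ((ZMod.coe_int_isUnit_iff_isCoprime x p).2 hx.symm)
  have h3 := hmain B hB p ⟨hp⟩ hpB χ₁ hne
  have h4 : ∀ a b c d : ℕ, ‖S4 χ ((a : ℕ) : ZMod q) ((b : ℕ) : ZMod q) ((c : ℕ) : ZMod q)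
      ((d : ℕ) : ZMod q)‖ ≤ n * ‖S4 χ₁ (a : ZMod p) (b : ZMod p) (c : ZMod p) (d : ZMod p)‖ := by
    intro a b c d
    have h5 := S4_crt hq hcop χ χ₁ χ₂ hs (a : ℤ) (b : ℤ) (c : ℤ) (d : ℤ)
    simp only [Int.cast_natCast] at h5
    rw [h5, norm_mul, mul_comm]
    exact mul_le_mul_of_nonneg_right (S4_le χ₂ _ _ _ _) (norm_nonneg _)
  have hn : (0 : ℝ) ≤ n := Nat.cast_nonneg n
  calc M4 χ B ≤ _ := M4_le χ B
    _ ≤ ∑ a ∈ Icc 1 B, ∑ b ∈ Icc 1 B, ∑ c ∈ Icc 1 B, ∑ d ∈ Icc 1 B,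
        n * ‖S4 χ₁ (a : ZMod p) (b : ZMod p) (c : ZMod p) (d : ZMod p)‖ := by
      refine Finset.sum_le_sum fun a _ => Finset.sum_le_sum fun b _ =>
        Finset.sum_le_sum fun c _ => Finset.sum_le_sum fun d _ => h4 a b c d
    _ = n * ∑ a ∈ Icc 1 B, ∑ b ∈ Icc 1 B, ∑ c ∈ Icc 1 B, ∑ d ∈ Icc 1 B,
        ‖S4 χ₁ (a : ZMod p) (b : ZMod p) (c : ZMod p) (d : ZMod p)‖ := by
      simp only [← Finset.mul_sum]
    _ ≤ n * (2 * p * (B : ℝ) ^ (2.9 : ℝ)) := mul_le_mul_of_nonneg_left h3 hn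
    _ = 2 * q * (B : ℝ) ^ (2.9 : ℝ) := by
      rw [hq]
      push_cast
      ring

end Pool.Agent.Lib.SPV
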