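import Pool.Agent.Lib.MP_7b7e48_nt.SPV.Defs

/-!
# SPV A2: the complete sums split along coprime factors

PROOF. `sum_crt`: `Fintype.sum_equiv (ZMod.chineseRemainder hmn)` turns the sum over `ZMod (m n)` into the sum over
`ZMod m × ZMod n`, where the summand at `x` is `f₁ (x mod m) f₂ (x mod n)` (hypothesis, with `x = (x.val : ℤ)`), then
`Fintype.sum_prod_type`, `Finset.sum_mul_sum`. (`ZMod.chineseRemainder` of a cast of an integer is the pair of casts: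
`map_intCast`.)
`S4_crt`: the summand at `x = (k : ZMod (mn))`, `k : ℤ`, is a product of values of `χ` at casts of integers `k + a`, ..., use `h`
and `map_mul` of the conjugation. Substitute `hq`.
-/

set_option autoImplicit false

open Finset

namespace Pool.Agent.Lib.SPV

private theorem a2_sum {R : Type*} [CommSemiring R] {m n : ℕ} [NeZero m] [NeZero n] (hmn : m.Coprime n)
    (f : ZMod (m * n) → R) (f₁ : ZMod m → R)
    (f₂ : ZMod n → R) (h : ∀ x : ℤ, f (x : ZMod (m * n)) = f₁ (x : ZMod m) * f₂ (x : ZMod n)) :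
    ∑ x : ZMod (m * n), f x = (∑ x : ZMod m, f₁ x) * ∑ x : ZMod n, f₂ x := by
  rw [Finset.sum_mul_sum, ← Fintype.sum_prod_type' (fun a b => f₁ a * f₂ b)]
  refine Fintype.sum_equiv (ZMod.chineseRemainder hmn).toEquiv _ _ fun x => ?_
  obtain ⟨k, rfl⟩ := ZMod.intCast_surjective x
  rw [h k]
  have h1 : (ZMod.chineseRemainder hmn).toEquiv ((k : ℤ) : ZMod (m * n)) = ((k : ℤ) : ZMod m × ZMod n) :=
    map_intCast (ZMod.chineseRemainder hmn) k
  rw [h1, Prod.fst_intCast, Prod.snd_intCast]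

theorem sum_crt {m n : ℕ} [NeZero m] [NeZero n] (hmn : m.Coprime n) (f : ZMod (m * n) → ℂ) (f₁ : ZMod m → ℂ)
    (f₂ : ZMod n → ℂ) (h : ∀ x : ℤ, f (x : ZMod (m * n)) = f₁ (x : ZMod m) * f₂ (x : ZMod n)) :
    ∑ x : ZMod (m * n), f x = (∑ x : ZMod m, f₁ x) * ∑ x : ZMod n, f₂ x := by
  exact a2_sum hmn f f₁ f₂ h

theorem S4_crt {q m n : ℕ} [NeZero q] [NeZero m] [NeZero n] (hq : q = m * n) (hmn : m.Coprime n)
    (χ : DirichletCharacter ℂ q) (χ₁ : DirichletCharacter ℂ m) (χ₂ : DirichletCharacter ℂ n)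
    (h : ∀ x : ℤ, χ (x : ZMod q) = χ₁ (x : ZMod m) * χ₂ (x : ZMod n)) (a b c d : ℤ) :
    S4 χ (a : ZMod q) (b : ZMod q) (c : ZMod q) (d : ZMod q) =
      S4 χ₁ (a : ZMod m) (b : ZMod m) (c : ZMod m) (d : ZMod m) *
        S4 χ₂ (a : ZMod n) (b : ZMod n) (c : ZMod n) (d : ZMod n) := by
  subst hq
  rw [S4, S4, S4]
  refine sum_crt hmn _ _ _ fun x => ?_
  have h1 : ∀ y : ℤ, χ ((x : ZMod (m * n)) + (y : ZMod (m * n))) =
      χ₁ ((x : ZMod m) + (y : ZMod m)) * χ₂ ((x : ZMod n) + (y : ZMod n)) := by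
    intro y
    have h2 := h (x + y)
    push_cast at h2
    exact h2
  rw [h1 a, h1 b, h1 c, h1 d, map_mul, map_mul]
  ring

/-- trivial bound -/
theorem S4_le {q : ℕ} [NeZero q] (χ : DirichletCharacter ℂ q) (a b c d : ZMod q) : ‖S4 χ a b c d‖ ≤ q := by
  rw [S4]
  refine (norm_sum_le _ _).trans ?_
  have h1 : ∀ x ∈ (Finset.univ : Finset (ZMod q)),
      ‖χ (x + a) * χ (x + b) * (starRingEnd ℂ) (χ (x + c)) * (starRingEnd ℂ) (χ (x + d))‖ ≤ 1 := by
    intro x _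
    rw [norm_mul, norm_mul, norm_mul, RCLike.norm_conj, RCLike.norm_conj]
    have e1 := DirichletCharacter.norm_le_one χ (x + a)
    have e2 := DirichletCharacter.norm_le_one χ (x + b)
    have e3 := DirichletCharacter.norm_le_one χ (x + c)
    have e4 := DirichletCharacter.norm_le_one χ (x + d)
    have f1 : ‖χ (x + a)‖ * ‖χ (x + b)‖ ≤ 1 := mul_le_one₀ e1 (norm_nonneg _) e2
    have f2 : ‖χ (x + a)‖ * ‖χ (x + b)‖ * ‖χ (x + c)‖ ≤ 1 := mul_le_one₀ f1 (norm_nonneg _) e3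
    exact mul_le_one₀ f2 (norm_nonneg _) e4
  refine (Finset.sum_le_card_nsmul _ _ 1 h1).trans ?_
  rw [Finset.card_univ, ZMod.card, nsmul_eq_mul, mul_one]

/-- the average over all parallelograms is multiplicative -/
theorem SP_avg_mul {q m n : ℕ} [NeZero q] [NeZero m] [NeZero n] (hq : q = m * n) (hmn : m.Coprime n)
    (χ : DirichletCharacter ℂ q) (χ₁ : DirichletCharacter ℂ m) (χ₂ : DirichletCharacter ℂ n)
    (h : ∀ x : ℤ, χ (x : ZMod q) = χ₁ (x : ZMod m) * χ₂ (x : ZMod n)) :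
    ∑ u : ZMod q, ∑ v : ZMod q, ‖SP χ u v‖ =
      (∑ u : ZMod m, ∑ v : ZMod m, ‖SP χ₁ u v‖) * ∑ u : ZMod n, ∑ v : ZMod n, ‖SP χ₂ u v‖ := by
  subst hq
  refine a2_sum hmn _ _ _ fun k => ?_
  refine a2_sum hmn _ _ _ fun l => ?_
  have h1 := S4_crt (q := m * n) rfl hmn χ χ₁ χ₂ h 0 (k + l) k l
  push_cast at h1
  rw [SP, SP, SP, h1, norm_mul]

end Pool.Agent.Lib.SPV
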