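import Pool.Agent.Lib.MP_7b7e48_nt.SPV.Defs

/-!
# SPV A3: correlations of a character modulo a prime, mean square of a convolution

PROOF. `corr`: `h ≠ 0`. The term `x = 0` vanishes; for `x ≠ 0` (a unit) `χ(x) conj χ(x+h) = conj χ(1 + h/x)`
(`conj χ(x) = χ(x)⁻¹`, norm one on units). `u = 1 + h/x` runs through all elements `≠ 1`, so the sum is
`conj (∑_u χ(u) - χ(1)) = 0 - 1` (`MulChar.sum_eq_zero_of_ne_one`). `conv_sq`: expand the square, sum over `t` first: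
`∑_t conj χ(w+t) χ(w'+t) = p - 1` for `w = w'`, `= -1` otherwise (`corr`, conjugated and shifted). So the left side is
`(p-1) ∑‖F‖² - ∑_{w≠w'} F(w) conj F(w') = p ∑‖F‖² - ‖∑F‖² ≤ p ∑‖F‖²`. `Tcr_sq`: `F(w) = χ(w) conj χ(w+1)`, norms `≤ 1`.
(Character values have norm `≤ 1`: `DirichletCharacter.norm_le_one`.)
-/

set_option autoImplicit false

open Finset

namespace Pool.Agent.Lib.SPV

private theorem A3_norm {p : ℕ} [Fact p.Prime] (χ : DirichletCharacter ℂ p) (x : ZMod p) (hx : x ≠ 0) :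
    χ x * (starRingEnd ℂ) (χ x) = 1 := by
  rw [Complex.mul_conj, Complex.normSq_eq_norm_sq]
  have : ‖χ x‖ = 1 := by
    have h := DirichletCharacter.unit_norm_eq_one χ (Units.mk0 x hx)
    simpa using h
  rw [this]; simp

theorem corr {p : ℕ} [Fact p.Prime] (χ : DirichletCharacter ℂ p) (hχ : χ ≠ 1) (h : ZMod p) (hh : h ≠ 0) :
    ∑ x : ZMod p, χ x * (starRingEnd ℂ) (χ (x + h)) = -1 := by
  have h1 : ∀ x : ZMod p, χ x * (starRingEnd ℂ) (χ (x + h)) =
      (starRingEnd ℂ) (χ (1 + h * x⁻¹)) - (if x = 0 then 1 else 0) := by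
    intro x
    by_cases hx : x = 0
    · subst hx
      have : χ 0 = 0 := MulChar.map_zero χ
      simp [this]
    · rw [if_neg hx, sub_zero]
      have e : x + h = x * (1 + h * x⁻¹) := by field_simp
      rw [e, map_mul χ, map_mul, ← mul_assoc, A3_norm χ x hx, one_mul]
  have h2 : ∑ x : ZMod p, (starRingEnd ℂ) (χ (1 + h * x⁻¹)) = 0 := by
    have e1 : ∑ x : ZMod p, (starRingEnd ℂ) (χ (1 + h * x⁻¹)) = ∑ x : ZMod p, (starRingEnd ℂ) (χ (1 + h * x)) :=
      Equiv.sum_comp (Equiv.inv (ZMod p)) (fun x => (starRingEnd ℂ) (χ (1 + h * x)))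
    have e2 : ∑ x : ZMod p, (starRingEnd ℂ) (χ (1 + h * x)) = ∑ x : ZMod p, (starRingEnd ℂ) (χ (1 + x)) :=
      Equiv.sum_comp (Equiv.mulLeft₀ h hh) (fun x => (starRingEnd ℂ) (χ (1 + x)))
    have e3 : ∑ x : ZMod p, (starRingEnd ℂ) (χ (1 + x)) = ∑ x : ZMod p, (starRingEnd ℂ) (χ x) :=
      Equiv.sum_comp (Equiv.addLeft (1 : ZMod p)) (fun x => (starRingEnd ℂ) (χ x))
    rw [e1, e2, e3, ← map_sum, MulChar.sum_eq_zero_of_ne_one hχ, map_zero]
  rw [Finset.sum_congr rfl fun x _ => h1 x, Finset.sum_sub_distrib, h2]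
  simp

private theorem A3_K {p : ℕ} [Fact p.Prime] (χ : DirichletCharacter ℂ p) (hχ : χ ≠ 1) (w w' : ZMod p) :
    ∑ t : ZMod p, (starRingEnd ℂ) (χ (w + t)) * χ (w' + t) = (if w = w' then (p : ℂ) else 0) - 1 := by
  by_cases hw : w = w'
  · subst hw
    rw [if_pos rfl]
    have e : ∑ t : ZMod p, (starRingEnd ℂ) (χ (w + t)) * χ (w + t) =
        ∑ t : ZMod p, (starRingEnd ℂ) (χ t) * χ t :=
      Equiv.sum_comp (Equiv.addLeft w) (fun x => (starRingEnd ℂ) (χ x) * χ x)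
    rw [e]
    have h1 : ∀ t : ZMod p, (starRingEnd ℂ) (χ t) * χ t = 1 - (if t = 0 then 1 else 0) := by
      intro t
      by_cases ht : t = 0
      · subst ht
        have : χ 0 = 0 := MulChar.map_zero χ
        simp [this]
      · rw [if_neg ht, sub_zero, mul_comm]
        exact A3_norm χ t ht
    rw [Finset.sum_congr rfl fun x _ => h1 x, Finset.sum_sub_distrib]
    simp [ZMod.card]
  · rw [if_neg hw, zero_sub]
    have e : ∑ t : ZMod p, (starRingEnd ℂ) (χ (w + t)) * χ (w' + t) =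
        ∑ s : ZMod p, χ s * (starRingEnd ℂ) (χ (s + (w - w'))) := by
      rw [← Equiv.sum_comp (Equiv.addLeft w') (fun s => χ s * (starRingEnd ℂ) (χ (s + (w - w'))))]
      refine Finset.sum_congr rfl fun t _ => ?_
      rw [Equiv.coe_addLeft, mul_comm]
      congr 3
      ring
    rw [e]
    exact corr χ hχ (w - w') (sub_ne_zero.2 hw)

theorem conv_sq {p : ℕ} [Fact p.Prime] (χ : DirichletCharacter ℂ p) (hχ : χ ≠ 1) (F : ZMod p → ℂ) :
    ∑ t : ZMod p, ‖∑ w : ZMod p, F w * (starRingEnd ℂ) (χ (w + t))‖ ^ 2 ≤ p * ∑ w : ZMod p, ‖F w‖ ^ 2 := by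
  have key : ((∑ t : ZMod p, ‖∑ w : ZMod p, F w * (starRingEnd ℂ) (χ (w + t))‖ ^ 2 : ℝ) : ℂ) =
      ((p * ∑ w : ZMod p, ‖F w‖ ^ 2 - ‖∑ w : ZMod p, F w‖ ^ 2 : ℝ) : ℂ) := by
    have hsq : ∀ z : ℂ, ((‖z‖ ^ 2 : ℝ) : ℂ) = z * (starRingEnd ℂ) z := by
      intro z
      rw [Complex.mul_conj, Complex.normSq_eq_norm_sq]
    have L : ∀ t : ZMod p, ((‖∑ w : ZMod p, F w * (starRingEnd ℂ) (χ (w + t))‖ ^ 2 : ℝ) : ℂ) =
        ∑ w : ZMod p, ∑ w' : ZMod p, F w * (starRingEnd ℂ) (F w') *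
          ((starRingEnd ℂ) (χ (w + t)) * χ (w' + t)) := by
      intro t
      rw [hsq, map_sum, Finset.sum_mul_sum]
      refine Finset.sum_congr rfl fun w _ => Finset.sum_congr rfl fun w' _ => ?_
      rw [map_mul, Complex.conj_conj]
      ring
    rw [Complex.ofReal_sum, Finset.sum_congr rfl fun t _ => L t, Finset.sum_comm]
    have L2 : ∀ w : ZMod p, ∑ t : ZMod p, ∑ w' : ZMod p, F w * (starRingEnd ℂ) (F w') *
          ((starRingEnd ℂ) (χ (w + t)) * χ (w' + t)) =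
        (p : ℂ) * ((‖F w‖ ^ 2 : ℝ) : ℂ) - F w * (starRingEnd ℂ) (∑ w' : ZMod p, F w') := by
      intro w
      rw [Finset.sum_comm]
      have L3 : ∀ w' : ZMod p, ∑ t : ZMod p, F w * (starRingEnd ℂ) (F w') *
          ((starRingEnd ℂ) (χ (w + t)) * χ (w' + t)) =
          (if w = w' then (p : ℂ) * (F w * (starRingEnd ℂ) (F w')) else 0) -
            F w * (starRingEnd ℂ) (F w') := by
        intro w'
        rw [← Finset.mul_sum, A3_K χ hχ w w']
        split_ifs <;> ring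
      rw [Finset.sum_congr rfl fun w' _ => L3 w', Finset.sum_sub_distrib, Finset.sum_ite_eq,
        if_pos (Finset.mem_univ w), map_sum, ← Finset.mul_sum, hsq]
    rw [Finset.sum_congr rfl fun w _ => L2 w, Finset.sum_sub_distrib, ← Finset.mul_sum, ← Finset.sum_mul,
      ← hsq]
    push_cast
    ring
  have key' := Complex.ofReal_injective key
  rw [key']
  have := sq_nonneg ‖∑ w : ZMod p, F w‖
  linarith

theorem Tcr_sq {p : ℕ} [Fact p.Prime] (χ : DirichletCharacter ℂ p) (hχ : χ ≠ 1) :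
    ∑ t : ZMod p, ‖Tcr χ t‖ ^ 2 ≤ (p : ℝ) ^ 2 := by
  have h := conv_sq χ hχ (fun w => χ w * (starRingEnd ℂ) (χ (w + 1)))
  refine le_trans (le_of_eq ?_) (le_trans h ?_)
  · rfl
  · have h1 : ∑ w : ZMod p, ‖χ w * (starRingEnd ℂ) (χ (w + 1))‖ ^ 2 ≤ p := by
      have h2 : ∀ w ∈ (Finset.univ : Finset (ZMod p)), ‖χ w * (starRingEnd ℂ) (χ (w + 1))‖ ^ 2 ≤ (1 : ℝ) := by
        intro w _
        rw [norm_mul, RCLike.norm_conj]
        have a1 := DirichletCharacter.norm_le_one χ w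
        have a2 := DirichletCharacter.norm_le_one χ (w + 1)
        have b1 := norm_nonneg (χ w)
        have b2 := norm_nonneg (χ (w + 1))
        have : ‖χ w‖ * ‖χ (w + 1)‖ ≤ 1 := by nlinarith
        have hn : 0 ≤ ‖χ w‖ * ‖χ (w + 1)‖ := by positivity
        nlinarith
      have h3 := Finset.sum_le_card_nsmul _ _ _ h2
      simpa [ZMod.card] using h3
    have hp : (0 : ℝ) ≤ p := Nat.cast_nonneg p
    nlinarith

end Pool.Agent.Lib.SPV
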