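import Pool.Agent.Lib.MP_7b7e48_nt.SPV.Defs
import Pool.Agent.Lib.MP_7b7e48_nt.RG.PV

/-!
# SPV A6: counting points with given cross ratio

Integers `x₁, x₂, x₃, x₄ ≠ 0` of absolute value `≤ B` with `x₁ - x₂ = x₃ - x₄` are written `(x₁, x₂, x₃)`, `x₄ = x₃ - x₁ + x₂`.
`XB B` = the set of these triples with moreover `x₁x₂ ≠ x₃x₄`. `crN B P Q` = number of `(y₁,y₂,y₃) ∈ XB B` with
`P y₃ y₄ = Q y₁ y₂`.

Divisor bound: for every `e > 0` there is `C` with `τ(n) ≤ C n^e` (`Pool.Agent.Lib.RG.divisor_bound`, file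
`MP_7b7e48_nt/RG/PV.lean`; import it). Hence: the number of pairs of integers `(s,t)` with `s t = n`, `n ≠ 0`, is `≤ 2 τ(|n|)`.

PROOF of `crN_a` (`P ≠ Q`, both nonzero, `|P|, |Q| ≤ B²`): fix `y₃ =: c` (at most `2B` values). `y₄ = c - y₁ + y₂`, and
`P c (c - y₁ + y₂) = Q y₁ y₂` gives `(Q y₁ - P c)(Q y₂ + P c) = Q (Q y₁y₂ + P c y₁ - P c y₂) - P²c² = QPc² - P²c² = P (Q - P) c² ≠ 0`,
an integer of absolute value `≤ 2 B^6`. Each factorisation determines `y₁` and `y₂` (as `Q ≠ 0`). So `crN ≤ 2B * 2 C (2B^6)^e`.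
PROOF of `crN_b`: `G = gcd(P,Q)`, `P = G u`, `Q = G v`, `u, v` coprime: `u y₃y₄ = v y₁y₂`, so `u ∣ y₁y₂`: `y₁y₂ = u m`, `y₃y₄ = v m`,
`m ≠ 0`, `|m| ≤ B²/|u| = B² G/|P|`. For each `m` at most `2τ(|um|)` pairs `(y₁,y₂)` and `2τ(|vm|)` pairs `(y₃,y₄)`, all arguments
`≤ B²`. So `crN ≤ (2 B² G/|P|) * (2 C B^(2e))²`.
(Constants: choose the exponent of the divisor bound `e/6` etc. so that the final power is `B^e`.)
-/

set_option autoImplicit false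

open Finset

namespace Pool.Agent.Lib.SPV

/-- triples `(x₁,x₂,x₃)` -/
noncomputable def XB (B : ℕ) : Finset (ℤ × ℤ × ℤ) := by
  classical
  exact ((Icc (-(B : ℤ)) B) ×ˢ (Icc (-(B : ℤ)) B) ×ˢ (Icc (-(B : ℤ)) B)).filter (fun x =>
    x.1 ≠ 0 ∧ x.2.1 ≠ 0 ∧ x.2.2 ≠ 0 ∧ x.2.2 - x.1 + x.2.1 ≠ 0 ∧ |x.2.2 - x.1 + x.2.1| ≤ B ∧
      x.1 * x.2.1 ≠ x.2.2 * (x.2.2 - x.1 + x.2.1))

/-- number of triples with the cross ratio `P : Q` -/
noncomputable def crN (B : ℕ) (P Q : ℤ) : ℕ := by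
  classical
  exact ((XB B).filter (fun y => P * (y.2.2 * (y.2.2 - y.1 + y.2.1)) = Q * (y.1 * y.2.1))).card

private theorem A6_pairs {α : Type} (S : Finset α) (f : α → ℤ × ℤ) (n : ℤ) (hn : n ≠ 0)
    (hf : ∀ x ∈ S, (f x).1 * (f x).2 = n) (hinj : ∀ x ∈ S, ∀ y ∈ S, f x = f y → x = y) :
    S.card ≤ 2 * n.natAbs.divisors.card := by
  classical
  have h1 : S.card ≤ ((Finset.univ : Finset Bool) ×ˢ n.natAbs.divisors).card := by
    refine Finset.card_le_card_of_injOn (fun x => (decide (0 < (f x).1), (f x).1.natAbs)) ?_ ?_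
    · intro x hx
      have h2 := hf x hx
      rw [mem_coe, mem_product]
      refine ⟨mem_univ _, ?_⟩
      rw [Nat.mem_divisors]
      refine ⟨?_, by omega⟩
      rw [← h2]
      exact Int.natAbs_dvd_natAbs.2 (dvd_mul_right _ _)
    · intro x hx y hy hxy
      have h2 := hf x hx
      have h3 := hf y hy
      have h4 : decide (0 < (f x).1) = decide (0 < (f y).1) := congrArg Prod.fst hxy
      have h5 : (f x).1.natAbs = (f y).1.natAbs := congrArg Prod.snd hxy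
      have h6 : (0 < (f x).1) ↔ (0 < (f y).1) := decide_eq_decide.1 h4
      have h7 : (f x).1 ≠ 0 := by
        intro h
        rw [h, zero_mul] at h2
        exact hn h2.symm
      have h8 : (f x).1 = (f y).1 := by omega
      have h9 : (f x).2 = (f y).2 := by
        apply mul_left_cancel₀ h7
        rw [h2, h8, h3]
      exact hinj x hx y hy (Prod.ext h8 h9)
  rw [card_product, card_univ, Fintype.card_bool] at h1
  exact h1

/-- the divisor bound for pairs -/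
private theorem A6_bound {α : Type} (C e : ℝ) (hC : 1 ≤ C) (he : 0 < e)
    (hdiv : ∀ N : ℕ, 1 ≤ N → (N.divisors.card : ℝ) ≤ C * (N : ℝ) ^ e)
    (S : Finset α) (f : α → ℤ × ℤ) (n : ℤ) (hn : n ≠ 0) (K : ℝ) (hK : |(n : ℝ)| ≤ K)
    (hf : ∀ x ∈ S, (f x).1 * (f x).2 = n) (hinj : ∀ x ∈ S, ∀ y ∈ S, f x = f y → x = y) :
    (S.card : ℝ) ≤ 2 * (C * K ^ e) := by
  have h1 := A6_pairs S f n hn hf hinj
  have h2 := hdiv n.natAbs (by omega)
  have h3 : (n.natAbs : ℝ) = |(n : ℝ)| := by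
    rw [Nat.cast_natAbs, Int.cast_abs]
  have h4 : (n.natAbs : ℝ) ^ e ≤ K ^ e := by
    rw [h3]
    exact Real.rpow_le_rpow (abs_nonneg _) hK he.le
  have h5 : (S.card : ℝ) ≤ 2 * (n.natAbs.divisors.card : ℝ) := by exact_mod_cast h1
  have h6 : C * (n.natAbs : ℝ) ^ e ≤ C * K ^ e := mul_le_mul_of_nonneg_left h4 (by linarith)
  linarith

private theorem A6_mem {B : ℕ} {P Q : ℤ} {y : ℤ × ℤ × ℤ}
    (h : y ∈ (XB B).filter (fun y => P * (y.2.2 * (y.2.2 - y.1 + y.2.1)) = Q * (y.1 * y.2.1))) :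
    |y.1| ≤ B ∧ |y.2.1| ≤ B ∧ |y.2.2| ≤ B ∧ y.1 ≠ 0 ∧ y.2.1 ≠ 0 ∧ y.2.2 ≠ 0 ∧
      |y.2.2 - y.1 + y.2.1| ≤ B ∧ P * (y.2.2 * (y.2.2 - y.1 + y.2.1)) = Q * (y.1 * y.2.1) := by
  classical
  rw [mem_filter] at h
  obtain ⟨h1, h2⟩ := h
  unfold XB at h1
  rw [mem_filter, mem_product, mem_product, mem_Icc, mem_Icc, mem_Icc] at h1
  obtain ⟨⟨h3, h4, h5⟩, h6, h7, h8, _, h10, _⟩ := h1
  exact ⟨abs_le.2 h3, abs_le.2 h4, abs_le.2 h5, h6, h7, h8, h10, h2⟩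

private theorem A6_cardIcc (B : ℕ) : ((Icc (-(B : ℤ)) B).card : ℝ) = 2 * B + 1 := by
  rw [Int.card_Icc]
  have : ((B : ℤ) + 1 - -(B : ℤ)).toNat = 2 * B + 1 := by omega
  rw [this]
  push_cast
  ring

theorem crN_a (e : ℝ) (he : 0 < e) : ∃ C : ℝ, 1 ≤ C ∧ ∀ B : ℕ, 1 ≤ B → ∀ P Q : ℤ, P ≠ 0 → Q ≠ 0 → P ≠ Q →
    |P| ≤ (B : ℤ) ^ 2 → |Q| ≤ (B : ℤ) ^ 2 → (crN B P Q : ℝ) ≤ C * (B : ℝ) ^ (1 + e) := by
  classical
  obtain ⟨C0, hC0, hdiv⟩ := Pool.Agent.Lib.RG.divisor_bound (e / 6) (by linarith)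
  have h2e : (1 : ℝ) ≤ 2 ^ (e / 6) := Real.one_le_rpow (by norm_num) (by linarith)
  refine ⟨6 * C0 * 2 ^ (e / 6), by nlinarith, fun B hB P Q hP hQ hPQ hPB hQB => ?_⟩
  have hBr : (1 : ℝ) ≤ B := by exact_mod_cast hB
  have hB0 : (0 : ℝ) < B := by linarith
  have hPr : |(P : ℝ)| ≤ (B : ℝ) ^ 2 := by exact_mod_cast hPB
  have hQr : |(Q : ℝ)| ≤ (B : ℝ) ^ 2 := by exact_mod_cast hQB
  set S : Finset (ℤ × ℤ × ℤ) :=
    (XB B).filter (fun y => P * (y.2.2 * (y.2.2 - y.1 + y.2.1)) = Q * (y.1 * y.2.1)) with hS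
  have hcr : crN B P Q = S.card := rfl
  have h1 : S.card = ∑ c ∈ Icc (-(B : ℤ)) B, (S.filter (fun y => y.2.2 = c)).card := by
    apply card_eq_sum_card_fiberwise
    intro y hy
    rw [mem_coe] at hy ⊢
    rw [mem_Icc]
    exact abs_le.1 (A6_mem hy).2.2.1
  have h2 : ∀ c ∈ Icc (-(B : ℤ)) B, ((S.filter (fun y => y.2.2 = c)).card : ℝ) ≤
      2 * (C0 * (2 * (B : ℝ) ^ 6) ^ (e / 6)) := by
    intro c hc
    by_cases hc0 : c = 0
    · have h3 : S.filter (fun y => y.2.2 = c) = ∅ := by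
        rw [filter_eq_empty_iff]
        intro y hy h
        exact (A6_mem hy).2.2.2.2.2.1 (h.trans hc0)
      rw [h3, card_empty, Nat.cast_zero]
      have : (0 : ℝ) ≤ (2 * (B : ℝ) ^ 6) ^ (e / 6) := by positivity
      nlinarith
    · have hcB : |(c : ℝ)| ≤ B := by
        have := abs_le.2 (mem_Icc.1 hc)
        exact_mod_cast this
      refine A6_bound C0 (e / 6) hC0 (by linarith) hdiv _
        (fun y => (Q * y.1 - P * c, Q * y.2.1 + P * c)) (P * (Q - P) * c ^ 2)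
        (mul_ne_zero (mul_ne_zero hP (sub_ne_zero.2 (Ne.symm hPQ))) (pow_ne_zero 2 hc0)) _ ?_ ?_ ?_
      · push_cast
        rw [abs_mul, abs_mul, abs_pow]
        have h3 : |(Q : ℝ) - P| ≤ 2 * (B : ℝ) ^ 2 := by
          have := abs_sub (Q : ℝ) P
          linarith
        have h4 : |(c : ℝ)| ^ 2 ≤ (B : ℝ) ^ 2 := pow_le_pow_left₀ (abs_nonneg _) hcB 2
        calc |(P : ℝ)| * |(Q : ℝ) - P| * |(c : ℝ)| ^ 2 ≤ (B : ℝ) ^ 2 * (2 * (B : ℝ) ^ 2) * (B : ℝ) ^ 2 := by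
              gcongr
          _ = 2 * (B : ℝ) ^ 6 := by ring
      · intro y hy
        rw [mem_filter] at hy
        have h3 := (A6_mem hy.1).2.2.2.2.2.2.2
        rw [hy.2] at h3
        change (Q * y.1 - P * c) * (Q * y.2.1 + P * c) = P * (Q - P) * c ^ 2
        linear_combination (-Q) * h3
      · intro y hy z hz hyz
        rw [mem_filter] at hy hz
        have h3 : Q * y.1 - P * c = Q * z.1 - P * c := congrArg Prod.fst hyz
        have h4 : Q * y.2.1 + P * c = Q * z.2.1 + P * c := congrArg Prod.snd hyz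
        have h5 : y.1 = z.1 := mul_left_cancel₀ hQ (by linarith)
        have h6 : y.2.1 = z.2.1 := mul_left_cancel₀ hQ (by linarith)
        exact Prod.ext h5 (Prod.ext h6 (hy.2.trans hz.2.symm))
  have h3 : (crN B P Q : ℝ) ≤ (2 * B + 1) * (2 * (C0 * (2 * (B : ℝ) ^ 6) ^ (e / 6))) := by
    rw [hcr, h1]
    push_cast
    refine (sum_le_sum h2).trans ?_
    rw [sum_const, nsmul_eq_mul, A6_cardIcc]
  have h4 : (2 * (B : ℝ) ^ 6) ^ (e / 6) = 2 ^ (e / 6) * (B : ℝ) ^ e := by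
    rw [Real.mul_rpow (by norm_num) (by positivity)]
    congr 1
    rw [← Real.rpow_natCast, ← Real.rpow_mul hB0.le]
    congr 1
    push_cast
    ring
  have h5 : (B : ℝ) ^ (1 + e) = B * (B : ℝ) ^ e := by
    rw [Real.rpow_add hB0, Real.rpow_one]
  rw [h4] at h3
  rw [h5]
  have h6 : (0 : ℝ) ≤ 2 * (C0 * (2 ^ (e / 6) * (B : ℝ) ^ e)) := by positivity
  have h7 : (2 * (B : ℝ) + 1) * (2 * (C0 * (2 ^ (e / 6) * (B : ℝ) ^ e))) ≤
      (3 * B) * (2 * (C0 * (2 ^ (e / 6) * (B : ℝ) ^ e))) :=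
    mul_le_mul_of_nonneg_right (by linarith) h6
  calc (crN B P Q : ℝ) ≤ (3 * B) * (2 * (C0 * (2 ^ (e / 6) * (B : ℝ) ^ e))) := h3.trans h7
    _ = 6 * C0 * 2 ^ (e / 6) * (B * (B : ℝ) ^ e) := by ring

theorem crN_b (e : ℝ) (he : 0 < e) : ∃ C : ℝ, 1 ≤ C ∧ ∀ B : ℕ, 1 ≤ B → ∀ P Q : ℤ, P ≠ 0 → Q ≠ 0 → P ≠ Q →
    |P| ≤ (B : ℤ) ^ 2 → |Q| ≤ (B : ℤ) ^ 2 →
    (crN B P Q : ℝ) ≤ C * (B : ℝ) ^ (2 + e) * (Int.gcd P Q : ℝ) / |(P : ℝ)| := by
  classical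
  obtain ⟨C0, hC0, hdiv⟩ := Pool.Agent.Lib.RG.divisor_bound (e / 4) (by linarith)
  refine ⟨8 * C0 ^ 2, by nlinarith, fun B hB P Q hP hQ _ hPB hQB => ?_⟩
  have hBr : (1 : ℝ) ≤ B := by exact_mod_cast hB
  have hB0 : (0 : ℝ) < B := by linarith
  obtain ⟨u, v, huv, hu, hv⟩ : ∃ u v : ℤ, IsCoprime u v ∧ P = u * (Int.gcd P Q : ℤ) ∧
      Q = v * (Int.gcd P Q : ℤ) := by
    have hg : 0 < Int.gcd P Q := Int.gcd_pos_of_ne_zero_left Q hP
    obtain ⟨u, v, h1, h2, h3⟩ := Int.exists_gcd_one hg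
    exact ⟨u, v, Int.isCoprime_iff_gcd_eq_one.2 h1, h2, h3⟩
  have hg : 0 < Int.gcd P Q := Int.gcd_pos_of_ne_zero_left Q hP
  have hgr : (0 : ℝ) < (Int.gcd P Q : ℝ) := by exact_mod_cast hg
  have hgz : (Int.gcd P Q : ℤ) ≠ 0 := by exact_mod_cast hg.ne'
  have hu0 : u ≠ 0 := by
    rintro rfl
    rw [zero_mul] at hu
    exact hP hu
  have hv0 : v ≠ 0 := by
    rintro rfl
    rw [zero_mul] at hv
    exact hQ hv
  have hur : (0 : ℝ) < |(u : ℝ)| := abs_pos.2 (by exact_mod_cast hu0)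
  set S : Finset (ℤ × ℤ × ℤ) :=
    (XB B).filter (fun y => P * (y.2.2 * (y.2.2 - y.1 + y.2.1)) = Q * (y.1 * y.2.1)) with hS
  have hcr : crN B P Q = S.card := rfl
  -- the parametrisation
  have hpar : ∀ y ∈ S, y.1 * y.2.1 = u * (y.1 * y.2.1 / u) ∧
      y.2.2 * (y.2.2 - y.1 + y.2.1) = v * (y.1 * y.2.1 / u) := by
    intro y hy
    have h1 := (A6_mem hy).2.2.2.2.2.2.2
    have h2 : u * (y.2.2 * (y.2.2 - y.1 + y.2.1)) = v * (y.1 * y.2.1) := by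
      apply mul_left_cancel₀ hgz
      have h1' : (u * (Int.gcd P Q : ℤ)) * (y.2.2 * (y.2.2 - y.1 + y.2.1)) =
          (v * (Int.gcd P Q : ℤ)) * (y.1 * y.2.1) := by
        rw [← hu, ← hv]
        exact h1
      linear_combination h1'
    have h3 : u ∣ y.1 * y.2.1 := by
      have h4 : u ∣ v * (y.1 * y.2.1) := by
        rw [← h2]
        exact dvd_mul_right _ _
      exact huv.dvd_of_dvd_mul_left h4
    have h4 : u * (y.1 * y.2.1 / u) = y.1 * y.2.1 := Int.mul_ediv_cancel' h3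
    refine ⟨h4.symm, ?_⟩
    apply mul_left_cancel₀ hu0
    rw [h2]
    calc v * (y.1 * y.2.1) = v * (u * (y.1 * y.2.1 / u)) := by rw [h4]
      _ = u * (v * (y.1 * y.2.1 / u)) := by ring
  set K : ℕ := B ^ 2 / u.natAbs with hK
  have hKr : (K : ℝ) ≤ (B : ℝ) ^ 2 / |(u : ℝ)| := by
    have h1 : (K : ℝ) ≤ ((B ^ 2 : ℕ) : ℝ) / (u.natAbs : ℝ) := Nat.cast_div_le
    have h2 : (u.natAbs : ℝ) = |(u : ℝ)| := by
      rw [Nat.cast_natAbs, Int.cast_abs]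
    rw [h2] at h1
    push_cast at h1
    exact h1
  have hyB : ∀ y ∈ S, |y.1 * y.2.1| ≤ (B : ℤ) ^ 2 := by
    intro y hy
    have h1 := A6_mem hy
    rw [abs_mul, sq]
    exact mul_le_mul h1.1 h1.2.1 (abs_nonneg _) (by positivity)
  have hyB2 : ∀ y ∈ S, |y.2.2 * (y.2.2 - y.1 + y.2.1)| ≤ (B : ℤ) ^ 2 := by
    intro y hy
    have h1 := A6_mem hy
    rw [abs_mul, sq]
    exact mul_le_mul h1.2.2.1 h1.2.2.2.2.2.2.1 (abs_nonneg _) (by positivity)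
  have hmem : ∀ y ∈ S, y.1 * y.2.1 / u ∈ (Icc (-(K : ℤ)) K).erase 0 := by
    intro y hy
    have h1 := A6_mem hy
    have h2 := (hpar y hy).1
    have h3 := hyB y hy
    set m : ℤ := y.1 * y.2.1 / u with hm
    rw [mem_erase, mem_Icc]
    refine ⟨?_, ?_⟩
    · intro h0
      rw [h0, mul_zero] at h2
      exact mul_ne_zero h1.2.2.2.1 h1.2.2.2.2.1 h2
    · rw [h2, abs_mul] at h3
      have h4 : m.natAbs ≤ K := by
        rw [hK, Nat.le_div_iff_mul_le (by omega)]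
        have h5 : ((m.natAbs * u.natAbs : ℕ) : ℤ) ≤ ((B ^ 2 : ℕ) : ℤ) := by
          push_cast
          rw [mul_comm]
          exact h3
        exact_mod_cast h5
      omega
  have h1 : S.card = ∑ m ∈ (Icc (-(K : ℤ)) K).erase 0,
      (S.filter (fun y => y.1 * y.2.1 / u = m)).card :=
    card_eq_sum_card_fiberwise (fun y hy => hmem y hy)
  have h2 : ∀ m ∈ (Icc (-(K : ℤ)) K).erase 0,
      ((S.filter (fun y => y.1 * y.2.1 / u = m)).card : ℝ) ≤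
        (2 * (C0 * ((B : ℝ) ^ 2) ^ (e / 4))) * (2 * (C0 * ((B : ℝ) ^ 2) ^ (e / 4))) := by
    intro m hm
    have hm0 : m ≠ 0 := (mem_erase.1 hm).1
    have hnn : (0 : ℝ) ≤ 2 * (C0 * ((B : ℝ) ^ 2) ^ (e / 4)) := by positivity
    rcases (S.filter (fun y => y.1 * y.2.1 / u = m)).eq_empty_or_nonempty with h3 | ⟨y0, hy0⟩
    · rw [h3, card_empty, Nat.cast_zero]
      exact mul_nonneg hnn hnn
    · rw [mem_filter] at hy0
      have hp := hpar y0 hy0.1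
      rw [hy0.2] at hp
      have hb1 := hyB y0 hy0.1
      have hb2 := hyB2 y0 hy0.1
      rw [hp.1] at hb1
      rw [hp.2] at hb2
      set D : ℤ → Finset (ℤ × ℤ) := fun n =>
        ((Icc (-(B : ℤ)) B) ×ˢ (Icc (-(B : ℤ)) B)).filter (fun p => p.1 * p.2 = n) with hD
      have hDb : ∀ n : ℤ, n ≠ 0 → |n| ≤ (B : ℤ) ^ 2 →
          ((D n).card : ℝ) ≤ 2 * (C0 * ((B : ℝ) ^ 2) ^ (e / 4)) := by
        intro n hn hnB
        refine A6_bound C0 (e / 4) hC0 (by linarith) hdiv _ (fun p => p) n hn _ ?_ ?_ ?_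
        · exact_mod_cast hnB
        · intro p hp
          rw [hD] at hp
          exact (mem_filter.1 hp).2
        · intro p _ q _ h
          exact h
      have h4 : (S.filter (fun y => y.1 * y.2.1 / u = m)).card ≤ (D (u * m) ×ˢ D (v * m)).card := by
        refine Finset.card_le_card_of_injOn
          (fun y => ((y.1, y.2.1), (y.2.2, y.2.2 - y.1 + y.2.1))) ?_ ?_
        · intro y hy
          rw [mem_coe, mem_filter] at hy
          have h5 := A6_mem hy.1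
          have h6 := hpar y hy.1
          rw [hy.2] at h6
          rw [mem_coe, mem_product, hD]
          refine ⟨mem_filter.2 ⟨mem_product.2 ⟨mem_Icc.2 (abs_le.1 h5.1),
            mem_Icc.2 (abs_le.1 h5.2.1)⟩, h6.1⟩, mem_filter.2 ⟨mem_product.2
            ⟨mem_Icc.2 (abs_le.1 h5.2.2.1), mem_Icc.2 (abs_le.1 h5.2.2.2.2.2.2.1)⟩, h6.2⟩⟩
        · intro y _ z _ hyz
          have h5 : (y.1, y.2.1) = (z.1, z.2.1) := congrArg Prod.fst hyz
          have h6 : (y.2.2, y.2.2 - y.1 + y.2.1) = (z.2.2, z.2.2 - z.1 + z.2.1) :=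
            congrArg Prod.snd hyz
          have h7 : y.1 = z.1 := (Prod.mk.inj h5).1
          have h8 : y.2.1 = z.2.1 := (Prod.mk.inj h5).2
          have h9 : y.2.2 = z.2.2 := (Prod.mk.inj h6).1
          exact Prod.ext h7 (Prod.ext h8 h9)
      rw [card_product] at h4
      have h5 : ((S.filter (fun y => y.1 * y.2.1 / u = m)).card : ℝ) ≤
          ((D (u * m)).card : ℝ) * ((D (v * m)).card : ℝ) := by exact_mod_cast h4
      refine h5.trans ?_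
      exact mul_le_mul (hDb _ (mul_ne_zero hu0 hm0) hb1) (hDb _ (mul_ne_zero hv0 hm0) hb2)
        (Nat.cast_nonneg _) hnn
  have h3 : ((B : ℝ) ^ 2) ^ (e / 4) * ((B : ℝ) ^ 2) ^ (e / 4) = (B : ℝ) ^ e := by
    rw [← Real.rpow_add (by positivity), ← Real.rpow_natCast, ← Real.rpow_mul hB0.le]
    congr 1
    push_cast
    ring
  have h4 : ((((Icc (-(K : ℤ)) K).erase 0).card : ℕ) : ℝ) = 2 * K := by
    have h5 : (0 : ℤ) ∈ Icc (-(K : ℤ)) K :=
      mem_Icc.2 ⟨neg_nonpos.2 (Nat.cast_nonneg K), Nat.cast_nonneg K⟩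
    have h6 := A6_cardIcc K
    have h7 := card_erase_add_one h5
    have h8 : ((((Icc (-(K : ℤ)) K).erase 0).card : ℕ) : ℝ) + 1 = ((Icc (-(K : ℤ)) K).card : ℝ) := by
      exact_mod_cast h7
    linarith
  have h5 : (crN B P Q : ℝ) ≤ 2 * K * (4 * C0 ^ 2 * (B : ℝ) ^ e) := by
    rw [hcr, h1]
    push_cast
    refine (sum_le_sum h2).trans ?_
    rw [sum_const, nsmul_eq_mul, h4]
    apply le_of_eq
    rw [← h3]
    ring
  have h6 : (B : ℝ) ^ (2 + e) = (B : ℝ) ^ 2 * (B : ℝ) ^ e := by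
    rw [Real.rpow_add hB0, Real.rpow_two]
  have h7 : |(P : ℝ)| = |(u : ℝ)| * (Int.gcd P Q : ℝ) := by
    have h8 : (P : ℝ) = (u : ℝ) * (Int.gcd P Q : ℝ) := by exact_mod_cast hu
    conv_lhs => rw [h8]
    rw [abs_mul, abs_of_pos hgr]
  rw [h6, h7]
  have h8 : 2 * (K : ℝ) * (4 * C0 ^ 2 * (B : ℝ) ^ e) ≤
      2 * ((B : ℝ) ^ 2 / |(u : ℝ)|) * (4 * C0 ^ 2 * (B : ℝ) ^ e) :=
    mul_le_mul_of_nonneg_right (by linarith) (by positivity)
  refine h5.trans (h8.trans (le_of_eq ?_))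
  field_simp
  ring

end Pool.Agent.Lib.SPV
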