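import Pool.Agent.Lib.MP_7b7e48_nt.SPV.A6
import Pool.Agent.Lib.MP_7b7e48_nt.RG.PV

/-!
# SPV A7: few triples have a large common divisor of `x₁x₂` and `x₃x₄`

PROOF. Let `G = gcd(x₁x₂, x₃x₄) ≥ g`. `G ∣ x₁x₂` implies `G ∣ gcd(G,x₁) gcd(G,x₂)`, so `gcd(G,x₁)² ≥ G` or `gcd(G,x₂)² ≥ G`; that
gcd is a divisor `d` of `x₁` (resp. `x₂`) and of `x₃x₄` with `d ≥ √g`. Count the triples with such a `d ∣ x₁`: `(x₃, x₄)` free
(at most `(2B)²` pairs, `x₃x₄ ≠ 0`), `d` one of the `≤ C B^(2e')` divisors of `|x₃x₄| ≤ B²`, `x₁` a nonzero multiple of `d`: `≤ 2B/d ≤ 2B/√g`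
values; `x₂ = x₁ - x₃ + x₄` is determined. The same for `x₂` (then `x₁ = x₂ + x₃ - x₄`). Total `≤ 2 * 4B² * C B^(2e') * 2B/√g`.
-/

set_option autoImplicit false

open Finset

namespace Pool.Agent.Lib.SPV

/-- nonzero multiples of `d` in `[-B, B]` -/
private noncomputable def A7_M (B d : ℕ) : Finset ℤ := by
  classical
  exact (Icc (-(B : ℤ)) B).filter (fun t => t ≠ 0 ∧ (d : ℤ) ∣ t)

private theorem A7_mem {B d : ℕ} {t : ℤ} :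
    t ∈ A7_M B d ↔ (-(B : ℤ) ≤ t ∧ t ≤ B) ∧ t ≠ 0 ∧ (d : ℤ) ∣ t := by
  classical
  unfold A7_M
  rw [mem_filter, mem_Icc]

private theorem A7_mult (B d : ℕ) (hd : 0 < d) : ((A7_M B d).card : ℝ) ≤ 2 * B / d := by
  have hd' : (0 : ℤ) < d := by exact_mod_cast hd
  have h1 : A7_M B d ⊆
      ((Icc (-((B / d : ℕ) : ℤ)) ((B / d : ℕ) : ℤ)).erase 0).image (fun s => (d : ℤ) * s) := by
    intro t ht
    rw [A7_mem] at ht
    obtain ⟨⟨h1, h2⟩, h3, s, rfl⟩ := ht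
    rw [mem_image]
    refine ⟨s, ?_, rfl⟩
    rw [mem_erase, mem_Icc]
    refine ⟨fun h => h3 (by rw [h, mul_zero]), ?_, ?_⟩
    · rw [neg_le, Int.natCast_div, Int.le_ediv_iff_mul_le hd']
      nlinarith
    · rw [Int.natCast_div, Int.le_ediv_iff_mul_le hd']
      nlinarith
  have h2 : (A7_M B d).card ≤ 2 * (B / d) := by
    refine (card_le_card h1).trans (card_image_le.trans ?_)
    have hnn : (0 : ℤ) ≤ ((B / d : ℕ) : ℤ) := Int.natCast_nonneg _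
    generalize (B / d : ℕ) = r at hnn ⊢
    rw [card_erase_of_mem (by rw [mem_Icc]; omega), Int.card_Icc]
    omega
  have h3 : ((B / d : ℕ) : ℝ) ≤ (B : ℝ) / d := Nat.cast_div_le
  calc ((A7_M B d).card : ℝ) ≤ ((2 * (B / d) : ℕ) : ℝ) := by exact_mod_cast h2
    _ = 2 * ((B / d : ℕ) : ℝ) := by push_cast; ring
    _ ≤ 2 * ((B : ℝ) / d) := by linarith
    _ = 2 * B / d := by ring

/-- the divisors `d` of `n` with `d² ≥ g` -/
private noncomputable def A7_D (g : ℝ) (n : ℕ) : Finset ℕ := by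
  classical
  exact n.divisors.filter (fun d => g ≤ (d : ℝ) ^ 2)

private theorem A7_memD {g : ℝ} {n d : ℕ} : d ∈ A7_D g n ↔ (d ∣ n ∧ n ≠ 0) ∧ g ≤ (d : ℝ) ^ 2 := by
  classical
  unfold A7_D
  rw [mem_filter, Nat.mem_divisors]

/-- pairs of nonzero integers -/
private noncomputable def A7_P (B : ℕ) : Finset (ℤ × ℤ) := by
  classical
  exact ((Icc (-(B : ℤ)) B) ×ˢ (Icc (-(B : ℤ)) B)).filter (fun y => y.1 ≠ 0 ∧ y.2 ≠ 0)

private theorem A7_memP {B : ℕ} {y : ℤ × ℤ} :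
    y ∈ A7_P B ↔ ((-(B : ℤ) ≤ y.1 ∧ y.1 ≤ B) ∧ (-(B : ℤ) ≤ y.2 ∧ y.2 ≤ B)) ∧ y.1 ≠ 0 ∧ y.2 ≠ 0 := by
  classical
  unfold A7_P
  rw [mem_filter, mem_product, mem_Icc, mem_Icc]

private theorem A7_cardP {B : ℕ} (hB : 1 ≤ B) : ((A7_P B).card : ℝ) ≤ 9 * (B : ℝ) ^ 2 := by
  classical
  have h1 : (A7_P B).card ≤ (2 * B + 1) * (2 * B + 1) := by
    unfold A7_P
    refine (card_filter_le _ _).trans ?_
    rw [card_product, Int.card_Icc]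
    have : ((B : ℤ) + 1 - -(B : ℤ)).toNat = 2 * B + 1 := by omega
    rw [this]
  have h2 : (1 : ℝ) ≤ B := by exact_mod_cast hB
  calc ((A7_P B).card : ℝ) ≤ (((2 * B + 1) * (2 * B + 1) : ℕ) : ℝ) := by exact_mod_cast h1
    _ = (2 * (B : ℝ) + 1) * (2 * B + 1) := by push_cast; ring
    _ ≤ 9 * (B : ℝ) ^ 2 := by nlinarith

/-- the common bound for the two families -/
private theorem A7_fam {e C0 : ℝ} (hC0 : 0 ≤ C0)
    (hC : ∀ n : ℕ, 1 ≤ n → ((n.divisors.card : ℕ) : ℝ) ≤ C0 * (n : ℝ) ^ (e / 2)) (he : 0 < e)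
    {B : ℕ} (hB : 1 ≤ B) {g : ℝ} (hg : 1 ≤ g) (f : ℤ × ℤ → ℤ → ℤ × ℤ × ℤ)
    (S : Finset (ℤ × ℤ × ℤ)) (hS : ∀ x ∈ S, ∃ y ∈ A7_P B, ∃ d ∈ A7_D g (y.1 * y.2).natAbs,
      ∃ t ∈ A7_M B d, f y t = x) :
    (S.card : ℝ) ≤ 18 * C0 * (B : ℝ) ^ (3 + e) / Real.sqrt g := by
  classical
  have hB1 : (1 : ℝ) ≤ B := by exact_mod_cast hB
  have hB0 : (0 : ℝ) < B := by linarith
  have hsg : 0 < Real.sqrt g := Real.sqrt_pos.2 (by linarith)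
  have hsub : S ⊆ (A7_P B).biUnion fun y => (A7_D g (y.1 * y.2).natAbs).biUnion fun d =>
      (A7_M B d).image (f y) := by
    intro x hx
    obtain ⟨y, hy, d, hd, t, ht, h⟩ := hS x hx
    rw [mem_biUnion]
    refine ⟨y, hy, ?_⟩
    rw [mem_biUnion]
    refine ⟨d, hd, ?_⟩
    rw [mem_image]
    exact ⟨t, ht, h⟩
  have h1 : S.card ≤ ∑ y ∈ A7_P B, ∑ d ∈ A7_D g (y.1 * y.2).natAbs, (A7_M B d).card := by
    refine (card_le_card hsub).trans (card_biUnion_le.trans (sum_le_sum fun y _ => ?_))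
    exact card_biUnion_le.trans (sum_le_sum fun d _ => card_image_le)
  have h2 : ∀ y ∈ A7_P B, ((∑ d ∈ A7_D g (y.1 * y.2).natAbs, (A7_M B d).card : ℕ) : ℝ) ≤
      C0 * (B : ℝ) ^ e * (2 * B / Real.sqrt g) := by
    intro y hy
    obtain ⟨⟨⟨a1, a2⟩, b1, b2⟩, c1, c2⟩ := A7_memP.1 hy
    have hn0 : (y.1 * y.2).natAbs ≠ 0 := Int.natAbs_ne_zero.2 (mul_ne_zero c1 c2)
    have hnB : (y.1 * y.2).natAbs ≤ B ^ 2 := by
      rw [Int.natAbs_mul, sq]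
      exact Nat.mul_le_mul (by omega) (by omega)
    have hcard : ((A7_D g (y.1 * y.2).natAbs).card : ℝ) ≤ C0 * (B : ℝ) ^ e := by
      have h3 : (A7_D g (y.1 * y.2).natAbs).card ≤ (y.1 * y.2).natAbs.divisors.card := by
        unfold A7_D
        exact card_filter_le _ _
      calc ((A7_D g (y.1 * y.2).natAbs).card : ℝ) ≤ ((y.1 * y.2).natAbs.divisors.card : ℝ) := by
            exact_mod_cast h3
        _ ≤ C0 * ((y.1 * y.2).natAbs : ℝ) ^ (e / 2) := hC _ (Nat.one_le_iff_ne_zero.2 hn0)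
        _ ≤ C0 * ((B : ℝ) ^ 2) ^ (e / 2) := by
            refine mul_le_mul_of_nonneg_left ?_ hC0
            refine Real.rpow_le_rpow (Nat.cast_nonneg _) ?_ (by linarith)
            exact_mod_cast hnB
        _ = C0 * (B : ℝ) ^ e := by
            rw [← Real.rpow_natCast, ← Real.rpow_mul hB0.le]
            congr 2
            push_cast
            ring
    rw [Nat.cast_sum]
    calc ∑ d ∈ A7_D g (y.1 * y.2).natAbs, ((A7_M B d).card : ℝ)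
        ≤ ∑ d ∈ A7_D g (y.1 * y.2).natAbs, (2 * B / Real.sqrt g) := by
          refine sum_le_sum fun d hd => ?_
          obtain ⟨⟨e1, -⟩, e2⟩ := A7_memD.1 hd
          have hd0 : 0 < d := Nat.pos_of_dvd_of_pos e1 (Nat.pos_of_ne_zero hn0)
          refine (A7_mult B d hd0).trans ?_
          have h4 : Real.sqrt g ≤ d := by
            rw [← Real.sqrt_sq (Nat.cast_nonneg d)]
            exact Real.sqrt_le_sqrt e2
          exact div_le_div_of_nonneg_left (by positivity) hsg h4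
      _ = ((A7_D g (y.1 * y.2).natAbs).card : ℝ) * (2 * B / Real.sqrt g) := by
          rw [sum_const, nsmul_eq_mul]
      _ ≤ C0 * (B : ℝ) ^ e * (2 * B / Real.sqrt g) :=
          mul_le_mul_of_nonneg_right hcard (by positivity)
  calc (S.card : ℝ)
      ≤ ((∑ y ∈ A7_P B, ∑ d ∈ A7_D g (y.1 * y.2).natAbs, (A7_M B d).card : ℕ) : ℝ) := by
        exact_mod_cast h1
    _ = ∑ y ∈ A7_P B, ((∑ d ∈ A7_D g (y.1 * y.2).natAbs, (A7_M B d).card : ℕ) : ℝ) := by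
        rw [Nat.cast_sum]
    _ ≤ ∑ y ∈ A7_P B, C0 * (B : ℝ) ^ e * (2 * B / Real.sqrt g) := sum_le_sum h2
    _ = ((A7_P B).card : ℝ) * (C0 * (B : ℝ) ^ e * (2 * B / Real.sqrt g)) := by
        rw [sum_const, nsmul_eq_mul]
    _ ≤ (9 * (B : ℝ) ^ 2) * (C0 * (B : ℝ) ^ e * (2 * B / Real.sqrt g)) :=
        mul_le_mul_of_nonneg_right (A7_cardP hB) (by positivity)
    _ = 18 * C0 * (B : ℝ) ^ (3 + e) / Real.sqrt g := by
        rw [Real.rpow_add hB0]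
        have : (B : ℝ) ^ (3 : ℝ) = (B : ℝ) ^ 3 := by
          rw [← Real.rpow_natCast]
          norm_num
        rw [this]
        ring

private theorem A7_exd {a b c : ℕ} (hc : c ≠ 0) (ha : a ≠ 0) (hb : b ≠ 0) {g : ℝ}
    (h : g ≤ (Nat.gcd (a * b) c : ℝ)) :
    ∃ d, (d ∣ c ∧ c ≠ 0) ∧ g ≤ (d : ℝ) ^ 2 ∧ (d ∣ a ∨ d ∣ b) := by
  set G := Nat.gcd (a * b) c with hG
  have hGc : G ∣ c := Nat.gcd_dvd_right _ _
  have hGab : G ∣ a * b := Nat.gcd_dvd_left _ _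
  have hG0 : 0 < G := Nat.pos_of_dvd_of_pos hGc (Nat.pos_of_ne_zero hc)
  have h1 : G ∣ Nat.gcd G a * Nat.gcd G b := by
    have h2 := Nat.gcd_mul_right_dvd_mul_gcd G a b
    rwa [Nat.gcd_eq_left hGab] at h2
  have ha1 : 0 < Nat.gcd G a := Nat.gcd_pos_of_pos_left _ hG0
  have hb1 : 0 < Nat.gcd G b := Nat.gcd_pos_of_pos_left _ hG0
  have h3 : G ≤ Nat.gcd G a * Nat.gcd G b := Nat.le_of_dvd (Nat.mul_pos ha1 hb1) h1
  have h4 : G ≤ Nat.gcd G a ^ 2 ∨ G ≤ Nat.gcd G b ^ 2 := by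
    rcases le_total (Nat.gcd G a) (Nat.gcd G b) with h5 | h5
    · right
      rw [sq]
      exact h3.trans (Nat.mul_le_mul_right _ h5)
    · left
      rw [sq]
      exact h3.trans (Nat.mul_le_mul_left _ h5)
  rcases h4 with h4 | h4
  · refine ⟨Nat.gcd G a, ⟨(Nat.gcd_dvd_left _ _).trans hGc, hc⟩, h.trans ?_,
      Or.inl (Nat.gcd_dvd_right _ _)⟩
    exact_mod_cast h4
  · refine ⟨Nat.gcd G b, ⟨(Nat.gcd_dvd_left _ _).trans hGc, hc⟩, h.trans ?_,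
      Or.inr (Nat.gcd_dvd_right _ _)⟩
    exact_mod_cast h4

theorem gcd_count (e : ℝ) (he : 0 < e) : ∃ C : ℝ, 1 ≤ C ∧ ∀ B : ℕ, 1 ≤ B → ∀ g : ℝ, 1 ≤ g →
    ((((XB B).filter (fun x => g ≤ (Int.gcd (x.1 * x.2.1) (x.2.2 * (x.2.2 - x.1 + x.2.1)) : ℝ))).card : ℕ) : ℝ) ≤
      C * (B : ℝ) ^ (3 + e) / Real.sqrt g := by
  classical
  obtain ⟨C0, hC1, hC⟩ := Pool.Agent.Lib.RG.divisor_bound (e / 2) (by linarith)
  refine ⟨36 * C0, by linarith, fun B hB g hg => ?_⟩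
  set S := (XB B).filter (fun x => g ≤ (Int.gcd (x.1 * x.2.1) (x.2.2 * (x.2.2 - x.1 + x.2.1)) : ℝ))
    with hSdef
  set S1 := S.filter (fun x => ∃ d ∈ A7_D g (x.2.2 * (x.2.2 - x.1 + x.2.1)).natAbs, (d : ℤ) ∣ x.1)
    with hS1
  set S2 := S.filter (fun x => ∃ d ∈ A7_D g (x.2.2 * (x.2.2 - x.1 + x.2.1)).natAbs, (d : ℤ) ∣ x.2.1)
    with hS2
  have hX : ∀ x ∈ S, ((-(B : ℤ) ≤ x.1 ∧ x.1 ≤ B) ∧ (-(B : ℤ) ≤ x.2.1 ∧ x.2.1 ≤ B) ∧
      (-(B : ℤ) ≤ x.2.2 ∧ x.2.2 ≤ B)) ∧ x.1 ≠ 0 ∧ x.2.1 ≠ 0 ∧ x.2.2 ≠ 0 ∧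
      x.2.2 - x.1 + x.2.1 ≠ 0 ∧ |x.2.2 - x.1 + x.2.1| ≤ B ∧
      g ≤ (Int.gcd (x.1 * x.2.1) (x.2.2 * (x.2.2 - x.1 + x.2.1)) : ℝ) := by
    intro x hx
    rw [hSdef, mem_filter] at hx
    obtain ⟨h1, h2⟩ := hx
    unfold XB at h1
    rw [mem_filter, mem_product, mem_product, mem_Icc, mem_Icc, mem_Icc] at h1
    obtain ⟨⟨a1, a2, a3⟩, b1, b2, b3, b4, b5, -⟩ := h1
    exact ⟨⟨a1, a2, a3⟩, b1, b2, b3, b4, b5, h2⟩
  have hsub : S ⊆ S1 ∪ S2 := by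
    intro x hx
    obtain ⟨-, b1, b2, b3, b4, -, h2⟩ := hX x hx
    have h3 : g ≤ (Nat.gcd (x.1.natAbs * x.2.1.natAbs) (x.2.2 * (x.2.2 - x.1 + x.2.1)).natAbs : ℝ) := by
      rw [← Int.natAbs_mul]
      exact h2
    obtain ⟨d, hd1, hd2, hd3⟩ := A7_exd (Int.natAbs_ne_zero.2 (mul_ne_zero b3 b4))
      (Int.natAbs_ne_zero.2 b1) (Int.natAbs_ne_zero.2 b2) h3
    rw [mem_union]
    rcases hd3 with h | h
    · left
      rw [hS1, mem_filter]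
      exact ⟨hx, d, A7_memD.2 ⟨hd1, hd2⟩, Int.natCast_dvd.2 h⟩
    · right
      rw [hS2, mem_filter]
      exact ⟨hx, d, A7_memD.2 ⟨hd1, hd2⟩, Int.natCast_dvd.2 h⟩
  have h1 : (S1.card : ℝ) ≤ 18 * C0 * (B : ℝ) ^ (3 + e) / Real.sqrt g := by
    refine A7_fam (by linarith) hC he hB hg (fun y t => (t, t - y.1 + y.2, y.1)) S1 ?_
    intro x hx
    rw [hS1, mem_filter] at hx
    obtain ⟨hx1, d, hd, hdx⟩ := hx
    obtain ⟨⟨a1, a2, a3⟩, b1, b2, b3, b4, b5, -⟩ := hX x hx1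
    refine ⟨(x.2.2, x.2.2 - x.1 + x.2.1), A7_memP.2 ⟨⟨a3, abs_le.1 b5⟩, b3, b4⟩, d, hd, x.1,
      A7_mem.2 ⟨a1, b1, hdx⟩, ?_⟩
    refine Prod.ext rfl (Prod.ext ?_ rfl)
    show x.1 - x.2.2 + (x.2.2 - x.1 + x.2.1) = x.2.1
    ring
  have h2 : (S2.card : ℝ) ≤ 18 * C0 * (B : ℝ) ^ (3 + e) / Real.sqrt g := by
    refine A7_fam (by linarith) hC he hB hg (fun y t => (t + y.1 - y.2, t, y.1)) S2 ?_
    intro x hx
    rw [hS2, mem_filter] at hx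
    obtain ⟨hx1, d, hd, hdx⟩ := hx
    obtain ⟨⟨a1, a2, a3⟩, b1, b2, b3, b4, b5, -⟩ := hX x hx1
    refine ⟨(x.2.2, x.2.2 - x.1 + x.2.1), A7_memP.2 ⟨⟨a3, abs_le.1 b5⟩, b3, b4⟩, d, hd, x.2.1,
      A7_mem.2 ⟨a2, b2, hdx⟩, ?_⟩
    refine Prod.ext ?_ rfl
    show x.2.1 + x.2.2 - (x.2.2 - x.1 + x.2.1) = x.1
    ring
  calc ((S.card : ℕ) : ℝ) ≤ ((S1.card + S2.card : ℕ) : ℝ) := by
        exact_mod_cast (card_le_card hsub).trans (card_union_le _ _)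
    _ = (S1.card : ℝ) + S2.card := by push_cast; ring
    _ ≤ 18 * C0 * (B : ℝ) ^ (3 + e) / Real.sqrt g + 18 * C0 * (B : ℝ) ^ (3 + e) / Real.sqrt g :=
        add_le_add h1 h2
    _ = 36 * C0 * (B : ℝ) ^ (3 + e) / Real.sqrt g := by ring

end Pool.Agent.Lib.SPV
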