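import Pool.Agent.Lib.MP_7b7e48_nt.SPV.Defs

/-!
# SPV B1: stationary phase, elementary

`q = M p^g`, `g ≥ 1`, `q ∣ M²` (so every prime factor of `q` divides `M`).

PROOF. `ψ(z) = χ(1 + M z)`, `z : ZMod q`. As `M² = 0` in `ZMod q`, `(1+Mz)(1+Mz') = 1 + M(z+z')`, so `ψ` is additive: `ψ(z+z') = ψ(z)ψ(z')`,
`ψ(0) = 1`, `‖ψ‖ = 1` (`1+Mz` is a unit: its inverse is `1 - Mz`), and `ψ(p^g z) = χ(1 + q z) = 1`.
KEY: if `ψ(t G) = 1` for all `t : ZMod q` then `p^g ∣ G.val`. Otherwise `G.val = p^j k`, `j < g`, `p ∤ k`. `Prim` with `d = M p^(g-1)` (a proper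
divisor of `q`): there is `x = 1 + M p^(g-1) z₀` with `χ(x) ≠ 1`, i.e. `ψ(p^(g-1) z₀) ≠ 1`. Choose `k'` with `k k' = 1 mod p^g`; `t = p^(g-1-j) z₀ k'`:
`t G = p^(g-1) z₀ k k'  = p^(g-1) z₀ + (multiple of p^g)`, so `ψ(tG) = ψ(p^(g-1) z₀) ≠ 1`, contradiction.
Sum: `∑_t ψ(tG) = q` if `p^g ∣ G.val`, `0` otherwise (multiply by a value `ψ(t₀G) ≠ 1`), so its norm is `≤ q 1[p^g ∣ G.val]`.
MAIN. Let `F(x)` be the summand of `S4`. For `t : ZMod q`: `S4 = ∑_x F(x + M t)` (shift), so `q S4 = ∑_x ∑_t F(x+Mt)`. `x + a + Mt` is a unit iff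
`x + a` is a unit (`M` nilpotent: `M² = 0`, unit + nilpotent is a unit). If one of `x+a, x+b, x+c, x+d` is not a unit all `F(x+Mt) = 0`. If all are units,
`χ(x+a+Mt) = χ(x+a) ψ(t (x+a)⁻¹)` etc., so `F(x+Mt) = F(x) ψ(t G(x))`, `G(x) = (x+a)⁻¹ + (x+b)⁻¹ - (x+c)⁻¹ - (x+d)⁻¹` (`conj ψ(z) = ψ(-z)`). `G(x)` times the unit
`(x+a)(x+b)(x+c)(x+d)` is `N(x) = (x+c)(x+d)(2x+a+b) - (x+a)(x+b)(2x+c+d)`, and `p^g ∣ G.val` iff `p^g ∣ N.val` (`p^g ∣ q`; `p^g ∣ z.val` iff `z` is
`p^g` times an element of `ZMod q`). So `q ‖S4‖ ≤ q #{x : p^g ∣ N(x).val}`.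
-/

set_option autoImplicit false

open Finset

namespace Pool.Agent.Lib.SPV

section

variable {q : ℕ} [NeZero q] (χ : DirichletCharacter ℂ q) (m : ZMod q)

private noncomputable def B1_psi (z : ZMod q) : ℂ := χ (1 + m * z)

private theorem B1_add (hm : m * m = 0) (z z' : ZMod q) :
    B1_psi χ m (z + z') = B1_psi χ m z * B1_psi χ m z' := by
  unfold B1_psi
  rw [← map_mul]
  congr 1
  linear_combination (-(z * z')) * hm

private theorem B1_zero : B1_psi χ m 0 = 1 := by
  unfold B1_psi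
  rw [mul_zero, add_zero, map_one]

private theorem B1_conj (hm : m * m = 0) (z : ZMod q) :
    (starRingEnd ℂ) (B1_psi χ m z) = B1_psi χ m (-z) := by
  have h1 : B1_psi χ m z * B1_psi χ m (-z) = 1 := by
    rw [← B1_add χ m hm, add_neg_cancel, B1_zero]
  have n1 : ‖B1_psi χ m z‖ ≤ 1 := χ.norm_le_one _
  have n2 : ‖B1_psi χ m (-z)‖ ≤ 1 := χ.norm_le_one _
  have n3 : ‖B1_psi χ m z‖ * ‖B1_psi χ m (-z)‖ = 1 := by rw [← norm_mul, h1, norm_one]
  have n4 : ‖B1_psi χ m z‖ = 1 := by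
    nlinarith [norm_nonneg (B1_psi χ m z), norm_nonneg (B1_psi χ m (-z))]
  have h2 : B1_psi χ m z * (starRingEnd ℂ) (B1_psi χ m z) = 1 := by
    rw [Complex.mul_conj, Complex.normSq_eq_norm_sq, n4]
    norm_num
  have h3 : B1_psi χ m z ≠ 0 := by
    intro h
    rw [h, norm_zero] at n4
    exact zero_ne_one n4
  exact mul_left_cancel₀ h3 (h2.trans h1.symm)

private theorem B1_sum0 (hm : m * m = 0) (G : ZMod q) (t₀ : ZMod q)
    (h : B1_psi χ m (t₀ * G) ≠ 1) : ∑ t : ZMod q, B1_psi χ m (t * G) = 0 := by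
  have h1 : ∑ t : ZMod q, B1_psi χ m (t * G) =
      B1_psi χ m (t₀ * G) * ∑ t : ZMod q, B1_psi χ m (t * G) := by
    rw [Finset.mul_sum, ← Equiv.sum_comp (Equiv.addLeft t₀)]
    refine Finset.sum_congr rfl fun t _ => ?_
    rw [← B1_add χ m hm]
    congr 1
    show (t₀ + t) * G = _
    ring
  have h2 : (B1_psi χ m (t₀ * G) - 1) * ∑ t : ZMod q, B1_psi χ m (t * G) = 0 := by
    rw [sub_mul, ← h1, one_mul, sub_self]
  rcases mul_eq_zero.1 h2 with h3 | h3
  · exact absurd (sub_eq_zero.1 h3) h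
  · exact h3

end

private theorem B1_dvd_mul {q P : ℕ} [NeZero q] (hPq : P ∣ q) (z u : ZMod q) (h : P ∣ z.val) :
    P ∣ (z * u).val := by
  rw [ZMod.val_mul]
  exact (Nat.dvd_mod_iff hPq).2 (h.mul_right _)

/-- the key: `ψ(t G) = 1` for all `t` only if `p^g` divides `G` -/
private theorem B1_key {q M g p : ℕ} [NeZero q] (hp : p.Prime) (hq : q = M * p ^ g) (hg : 1 ≤ g)
    (χ : DirichletCharacter ℂ q) (hχ : Prim χ) (G : ZMod q) (hG : ¬ p ^ g ∣ G.val) :
    ∃ t : ZMod q, B1_psi χ (M : ZMod q) (t * G) ≠ 1 := by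
  have hM0 : 0 < M := by
    rcases Nat.eq_zero_or_pos M with h | h
    · exact absurd (by rw [hq, h, zero_mul]) (NeZero.ne q)
    · exact h
  have hpg : p ^ g = p ^ (g - 1) * p := by
    rw [← pow_succ]
    congr 1
    omega
  obtain ⟨x, hx1, -, hx2⟩ := hχ (M * p ^ (g - 1)) ⟨p, by rw [hq, hpg]; ring⟩ (by
    rw [hq, hpg, ← mul_assoc]
    have h1 : 0 < M * p ^ (g - 1) := Nat.mul_pos hM0 (pow_pos hp.pos _)
    exact lt_mul_of_one_lt_right h1 hp.one_lt)
  obtain ⟨z₀, hz₀⟩ := hx1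
  have hx3 : ((x : ℤ) : ZMod q) = 1 + (M : ZMod q) * ((p : ZMod q) ^ (g - 1) * (z₀ : ZMod q)) := by
    have : x = 1 + (M : ℤ) * ((p : ℤ) ^ (g - 1) * z₀) := by
      push_cast at hz₀
      linarith
    rw [this]
    push_cast
    ring
  -- the gcd
  obtain ⟨j, hj, hgcd⟩ : ∃ j ≤ g, Nat.gcd G.val (p ^ g) = p ^ j :=
    (Nat.dvd_prime_pow hp).1 (Nat.gcd_dvd_right _ _)
  have hjg : j < g := by
    rcases Nat.lt_or_ge j g with h | h
    · exact h
    · exfalso
      have : j = g := le_antisymm hj h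
      rw [this] at hgcd
      exact hG (hgcd ▸ Nat.gcd_dvd_left _ _)
  have hbez := Nat.gcd_eq_gcd_ab G.val (p ^ g)
  rw [hgcd] at hbez
  set k' : ℤ := Nat.gcdA G.val (p ^ g) with hk'
  set l : ℤ := Nat.gcdB G.val (p ^ g) with hl
  have hbez' : ((p : ZMod q)) ^ j = G * (k' : ZMod q) + (p : ZMod q) ^ g * (l : ZMod q) := by
    have h1 := congrArg (fun n : ℤ => (n : ZMod q)) hbez
    push_cast at h1
    rw [ZMod.natCast_zmod_val] at h1
    exact h1
  have hMp : (M : ZMod q) * (p : ZMod q) ^ g = 0 := by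
    have : ((M * p ^ g : ℕ) : ZMod q) = 0 := by
      rw [← hq]
      exact ZMod.natCast_self q
    rw [← this]
    push_cast
    ring
  refine ⟨(p : ZMod q) ^ (g - 1 - j) * (z₀ : ZMod q) * (k' : ZMod q), ?_⟩
  have h2 : (M : ZMod q) * ((p : ZMod q) ^ (g - 1 - j) * (z₀ : ZMod q) * (k' : ZMod q) * G) =
      (M : ZMod q) * ((p : ZMod q) ^ (g - 1) * (z₀ : ZMod q)) := by
    have h3 : (p : ZMod q) ^ (g - 1) = (p : ZMod q) ^ (g - 1 - j) * (p : ZMod q) ^ j := by
      rw [← pow_add]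
      congr 1
      omega
    rw [h3, hbez']
    linear_combination (-((p : ZMod q) ^ (g - 1 - j) * (z₀ : ZMod q) * (l : ZMod q))) * hMp
  unfold B1_psi
  rw [h2, ← hx3]
  exact hx2

private theorem B1_unit {q : ℕ} (m z t : ZMod q) (hm : m * m = 0) (h : IsUnit (z + m * t)) :
    IsUnit z := by
  obtain ⟨v, hv⟩ := h.exists_right_inv
  refine IsUnit.of_mul_eq_one (v * (1 + m * t * v)) ?_
  linear_combination (1 + m * t * v) * hv - t * t * v * v * hm

theorem S4_stat {q M g p : ℕ} [NeZero q] (hp : p.Prime) (hq : q = M * p ^ g) (hg : 1 ≤ g) (hM : q ∣ M * M)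
    (χ : DirichletCharacter ℂ q) (hχ : Prim χ) (a b c d : ZMod q) :
    ‖S4 χ a b c d‖ ≤ ((univ.filter (fun x : ZMod q => p ^ g ∣
      ((x + c) * (x + d) * (2 * x + a + b) - (x + a) * (x + b) * (2 * x + c + d)).val)).card : ℝ) := by
  set m : ZMod q := (M : ZMod q) with hmdef
  have hm : m * m = 0 := by
    have : ((M * M : ℕ) : ZMod q) = 0 := (ZMod.natCast_eq_zero_iff _ _).2 hM
    rw [← this]
    push_cast
    rfl
  have hPq : p ^ g ∣ q := ⟨M, by rw [hq]; ring⟩
  set F : ZMod q → ℂ := fun x =>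
    χ (x + a) * χ (x + b) * (starRingEnd ℂ) (χ (x + c)) * (starRingEnd ℂ) (χ (x + d)) with hF
  have hS : S4 χ a b c d = ∑ x : ZMod q, F x := rfl
  have hq0 : (0 : ℝ) < q := by exact_mod_cast Nat.pos_of_ne_zero (NeZero.ne q)
  have hshift : (q : ℂ) * S4 χ a b c d = ∑ x : ZMod q, ∑ t : ZMod q, F (x + m * t) := by
    rw [Finset.sum_comm]
    have h1 : ∀ t : ZMod q, ∑ x : ZMod q, F (x + m * t) = S4 χ a b c d := fun t => by
      rw [hS]
      exact Equiv.sum_comp (Equiv.addRight (m * t)) F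
    rw [Finset.sum_congr rfl fun t _ => h1 t, Finset.sum_const, Finset.card_univ, ZMod.card,
      nsmul_eq_mul]
  have hle1 : ∀ z : ZMod q, ‖χ z‖ ≤ 1 := fun z => χ.norm_le_one z
  have hFle : ∀ x, ‖F x‖ ≤ 1 := by
    intro x
    rw [hF]
    simp only
    rw [norm_mul, norm_mul, norm_mul, RCLike.norm_conj, RCLike.norm_conj]
    have h1 := mul_le_one₀ (hle1 (x + a)) (norm_nonneg _) (hle1 (x + b))
    have h2 := mul_le_one₀ h1 (norm_nonneg _) (hle1 (x + c))
    exact mul_le_one₀ h2 (norm_nonneg _) (hle1 (x + d))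
  have hmain : ∀ x : ZMod q, ‖∑ t : ZMod q, F (x + m * t)‖ ≤ (q : ℝ) * (if p ^ g ∣
      ((x + c) * (x + d) * (2 * x + a + b) - (x + a) * (x + b) * (2 * x + c + d)).val
      then 1 else 0) := by
    intro x
    by_cases hun : IsUnit (x + a) ∧ IsUnit (x + b) ∧ IsUnit (x + c) ∧ IsUnit (x + d)
    · obtain ⟨ua, ub, uc, ud⟩ := hun
      obtain ⟨a', ha'⟩ := ua.exists_right_inv
      obtain ⟨b', hb'⟩ := ub.exists_right_inv
      obtain ⟨c', hc'⟩ := uc.exists_right_inv
      obtain ⟨d', hd'⟩ := ud.exists_right_inv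
      have hfac : ∀ z z' t : ZMod q, z * z' = 1 → χ (z + m * t) = χ z * B1_psi χ m (t * z') := by
        intro z z' t h
        unfold B1_psi
        rw [← map_mul]
        congr 1
        linear_combination (-(m * t)) * h
      have hsum : ∑ t : ZMod q, F (x + m * t) =
          F x * ∑ t : ZMod q, B1_psi χ m (t * (a' + b' - c' - d')) := by
        rw [Finset.mul_sum]
        refine Finset.sum_congr rfl fun t _ => ?_
        have e1 : x + m * t + a = x + a + m * t := by ring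
        have e2 : x + m * t + b = x + b + m * t := by ring
        have e3 : x + m * t + c = x + c + m * t := by ring
        have e4 : x + m * t + d = x + d + m * t := by ring
        have e5 : B1_psi χ m (t * (a' + b' - c' - d')) = B1_psi χ m (t * a') * B1_psi χ m (t * b') *
            (starRingEnd ℂ) (B1_psi χ m (t * c')) * (starRingEnd ℂ) (B1_psi χ m (t * d')) := by
          rw [B1_conj χ m hm, B1_conj χ m hm, ← B1_add χ m hm, ← B1_add χ m hm, ← B1_add χ m hm]
          congr 1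
          ring
        rw [hF]
        simp only
        rw [e1, e2, e3, e4, hfac _ a' t ha', hfac _ b' t hb', hfac _ c' t hc', hfac _ d' t hd', e5,
          map_mul, map_mul]
        ring
      rw [hsum, norm_mul]
      by_cases hG : p ^ g ∣ (a' + b' - c' - d').val
      · have hN : p ^ g ∣ ((x + c) * (x + d) * (2 * x + a + b) -
            (x + a) * (x + b) * (2 * x + c + d)).val := by
          have h1 : (x + c) * (x + d) * (2 * x + a + b) - (x + a) * (x + b) * (2 * x + c + d) =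
              (a' + b' - c' - d') * ((x + a) * (x + b) * (x + c) * (x + d)) := by
            linear_combination (-((x + b) * (x + c) * (x + d))) * ha' -
              (x + a) * (x + c) * (x + d) * hb' + (x + a) * (x + b) * (x + d) * hc' +
              (x + a) * (x + b) * (x + c) * hd'
          rw [h1]
          exact B1_dvd_mul hPq _ _ hG
        rw [if_pos hN, mul_one]
        have h2 : ‖∑ t : ZMod q, B1_psi χ m (t * (a' + b' - c' - d'))‖ ≤ q := by
          refine (norm_sum_le _ _).trans ?_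
          refine (Finset.sum_le_sum fun t _ => (χ.norm_le_one _ :
            ‖B1_psi χ m (t * (a' + b' - c' - d'))‖ ≤ 1)).trans (le_of_eq ?_)
          rw [Finset.sum_const, Finset.card_univ, ZMod.card, nsmul_eq_mul, mul_one]
        calc ‖F x‖ * ‖∑ t : ZMod q, B1_psi χ m (t * (a' + b' - c' - d'))‖ ≤ 1 * q :=
              mul_le_mul (hFle x) h2 (norm_nonneg _) zero_le_one
          _ = q := one_mul _
      · obtain ⟨t₀, ht₀⟩ := B1_key hp hq hg χ hχ _ hG
        rw [B1_sum0 χ m hm _ t₀ ht₀, norm_zero, mul_zero]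
        split_ifs
        · rw [mul_one]; exact hq0.le
        · rw [mul_zero]
    · have h0 : ∑ t : ZMod q, F (x + m * t) = 0 := by
        refine Finset.sum_eq_zero fun t _ => ?_
        have e1 : x + m * t + a = x + a + m * t := by ring
        have e2 : x + m * t + b = x + b + m * t := by ring
        have e3 : x + m * t + c = x + c + m * t := by ring
        have e4 : x + m * t + d = x + d + m * t := by ring
        rw [hF]
        simp only
        rw [e1, e2, e3, e4]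
        by_cases u1 : IsUnit (x + a + m * t)
        · by_cases u2 : IsUnit (x + b + m * t)
          · by_cases u3 : IsUnit (x + c + m * t)
            · by_cases u4 : IsUnit (x + d + m * t)
              · exact absurd ⟨B1_unit m _ t hm u1, B1_unit m _ t hm u2, B1_unit m _ t hm u3,
                  B1_unit m _ t hm u4⟩ hun
              · rw [χ.map_nonunit u4, map_zero, mul_zero]
            · rw [χ.map_nonunit u3, map_zero, mul_zero, zero_mul]
          · rw [χ.map_nonunit u2, mul_zero, zero_mul, zero_mul]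
        · rw [χ.map_nonunit u1, zero_mul, zero_mul, zero_mul]
      rw [h0, norm_zero]
      split_ifs
      · rw [mul_one]; exact hq0.le
      · rw [mul_zero]
  have h1 : (q : ℝ) * ‖S4 χ a b c d‖ ≤ (q : ℝ) * ((univ.filter (fun x : ZMod q => p ^ g ∣
      ((x + c) * (x + d) * (2 * x + a + b) - (x + a) * (x + b) * (2 * x + c + d)).val)).card : ℝ) := by
    have h2 : (q : ℝ) * ‖S4 χ a b c d‖ = ‖(q : ℂ) * S4 χ a b c d‖ := by
      rw [norm_mul, Complex.norm_natCast]
    rw [h2, hshift]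
    refine (norm_sum_le _ _).trans ((Finset.sum_le_sum fun x _ => hmain x).trans (le_of_eq ?_))
    rw [← Finset.mul_sum, Finset.sum_boole]
  exact le_of_mul_le_mul_left h1 hq0

end Pool.Agent.Lib.SPV
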