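import Pool.Agent.Lib.MP_7b7e48_nt.SPV.Defs

/-!
# SPV B2: roots of a quadratic polynomial modulo a prime power

PROOF. The condition depends on `x.val mod p^g`; each residue mod `p^g` has `M` lifts in `ZMod q` (`q = M p^g`). So it is enough that the
number of `x ∈ range (p^g)` with `p^g ∣ c2 x² + c1 x + c0` is `≤ 4 C p^(g/2)` (floor).
`c2 = 0`: then `c1 ≠ 0`: two solutions differ by `δ` with `p^g ∣ c1 δ`, so `p^g/gcd(c1,p^g) ∣ δ`: at most `gcd(c1,p^g) ≤ |c1| ≤ C` solutions.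
`c2 ≠ 0`: `z = 2 c2 x + c1` satisfies `z² = Δ mod p^g`, `Δ = c1² - 4 c2 c0` (as `4 c2 (c2x²+c1x+c0) = z² - Δ`). The map `x ↦ z mod p^g` has fibres
`≤ gcd(2c2, p^g) ≤ 2C`. If there is a solution `z₀`, every solution has `p^g ∣ (z-z₀)(z+z₀)`, hence `p^⌈g/2⌉ ∣ z - z₀` or `p^⌈g/2⌉ ∣ z + z₀`
(the sum of the valuations is `≥ g`; for `p = 2` no change), at most `2 p^(g - ⌈g/2⌉) = 2 p^(g/2)` classes mod `p^g`. Total `≤ 4 C p^(g/2)`.
-/

set_option autoImplicit false

open Finset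

namespace Pool.Agent.Lib.SPV

private theorem B2_lin (P m : ℕ) (hP : 0 < P) (A C : ℤ) :
    ((range (m * P)).filter (fun r : ℕ => (P : ℤ) ∣ A * (r : ℤ) + C)).card ≤
      m * Int.gcd A (P : ℤ) := by
  classical
  rcases ((range (m * P)).filter (fun r : ℕ => (P : ℤ) ∣ A * (r : ℤ) + C)).eq_empty_or_nonempty
    with h0 | ⟨r0, hr0⟩
  · rw [h0, card_empty]
    exact Nat.zero_le _
  · set G : ℕ := Int.gcd A (P : ℤ) with hG
    have hGpos : 0 < G := Int.gcd_pos_of_ne_zero_right _ (by exact_mod_cast hP.ne')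
    have hGP : G ∣ P := by
      have h1 : ((G : ℕ) : ℤ) ∣ (P : ℤ) := Int.gcd_dvd_right _ _
      exact_mod_cast h1
    obtain ⟨P', hP'⟩ := hGP
    have hP'pos : 0 < P' := by
      rcases Nat.eq_zero_or_pos P' with h | h
      · rw [h, Nat.mul_zero] at hP'; omega
      · exact h
    obtain ⟨A', hA'⟩ : ((G : ℕ) : ℤ) ∣ A := Int.gcd_dvd_left _ _
    have hcop : IsCoprime ((P' : ℕ) : ℤ) A' := by
      rw [Int.isCoprime_iff_gcd_eq_one]
      have h1 : Int.gcd A (P : ℤ) = G * Int.gcd A' (P' : ℤ) := by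
        rw [hA', hP']
        push_cast
        rw [Int.gcd_mul_left, Int.natAbs_natCast]
      rw [← hG] at h1
      have h2 : G * 1 = G * Int.gcd A' (P' : ℤ) := by rw [← h1, Nat.mul_one]
      rw [Int.gcd_comm]
      exact (Nat.eq_of_mul_eq_mul_left hGpos h2).symm
    have key : ∀ r ∈ (range (m * P)).filter (fun r : ℕ => (P : ℤ) ∣ A * (r : ℤ) + C),
        r % P' = r0 % P' := by
      intro r hr
      have h1 := (mem_filter.1 hr).2
      have h2 := (mem_filter.1 hr0).2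
      have h3 : (P : ℤ) ∣ A * ((r : ℤ) - r0) := by
        have := dvd_sub h1 h2
        rwa [show A * (r : ℤ) + C - (A * (r0 : ℤ) + C) = A * ((r : ℤ) - r0) by ring] at this
      rw [hA', hP'] at h3
      push_cast at h3
      rw [mul_assoc] at h3
      have h4 : ((P' : ℕ) : ℤ) ∣ A' * ((r : ℤ) - r0) :=
        (mul_dvd_mul_iff_left (by exact_mod_cast hGpos.ne')).1 h3
      have h5 : ((P' : ℕ) : ℤ) ∣ (r : ℤ) - r0 := hcop.dvd_of_dvd_mul_left h4
      have h6 : (r0 : ℤ) ≡ (r : ℤ) [ZMOD (P' : ℤ)] := (Int.modEq_iff_dvd).2 h5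
      have h7 : r0 ≡ r [MOD P'] := (Int.natCast_modEq_iff).1 h6
      exact h7.symm
    have hcard : (range (m * G)).card = m * G := card_range _
    rw [← hcard]
    apply card_le_card_of_injOn (fun r => r / P')
    · intro r hr
      have h1 := mem_range.1 (mem_filter.1 hr).1
      refine mem_coe.2 (mem_range.2 ?_)
      rw [Nat.div_lt_iff_lt_mul hP'pos, Nat.mul_assoc, ← hP']
      exact h1
    · intro r hr r' hr' h
      have h1 := key r hr
      have h2 := key r' hr'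
      have h3 : r / P' = r' / P' := h
      rw [← Nat.div_add_mod r P', ← Nat.div_add_mod r' P', h1, h2, h3]

private theorem B2_val {q : ℕ} [NeZero q] (f : ℕ → Prop) [DecidablePred f] :
    (univ.filter (fun x : ZMod q => f x.val)).card ≤ ((range q).filter f).card := by
  apply card_le_card_of_injOn (fun x : ZMod q => x.val)
  · intro x hx
    exact mem_coe.2 (mem_filter.2 ⟨mem_range.2 (ZMod.val_lt x), (mem_filter.1 hx).2⟩)
  · intro x _ y _ h
    exact ZMod.val_injective q h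

/-- number of solutions of a linear congruence -/
theorem roots_lin {q M g p : ℕ} [NeZero q] (hp : p.Prime) (hq : q = M * p ^ g) (A C : ℤ) :
    (univ.filter (fun x : ZMod q => ((p : ℤ) ^ g) ∣ A * (x.val : ℤ) + C)).card ≤ M * Int.gcd A ((p : ℤ) ^ g) := by
  classical
  refine (B2_val (fun r : ℕ => ((p : ℤ) ^ g) ∣ A * (r : ℤ) + C)).trans ?_
  have h := B2_lin (p ^ g) M (pow_pos hp.pos g) A C
  rw [← hq] at h
  push_cast at h
  exact h

/-- splitting of a prime power dividing a product -/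
private theorem B2_split {p g : ℕ} (hp : p.Prime) (u v : ℤ) (h : ((p : ℤ) ^ g) ∣ u * v) :
    ((p : ℤ) ^ (g - g / 2)) ∣ u ∨ ((p : ℤ) ^ (g - g / 2)) ∣ v := by
  have hpz : Prime (p : ℤ) := Nat.prime_iff_prime_int.1 hp
  obtain ⟨d1, d2, hd1, hd2, hd⟩ := exists_dvd_and_dvd_of_dvd_mul h
  obtain ⟨i, hi, hai⟩ := (dvd_prime_pow hpz g).1 (Dvd.intro d2 hd.symm)
  obtain ⟨j, hj, haj⟩ := (dvd_prime_pow hpz g).1 (Dvd.intro_left d1 hd.symm)
  have hij : g = i + j := by
    have h1 : Associated ((p : ℤ) ^ g) ((p : ℤ) ^ (i + j)) := by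
      rw [pow_add, hd]
      exact hai.mul_mul haj
    have h2 := Int.associated_iff_natAbs.1 h1
    rw [Int.natAbs_pow, Int.natAbs_pow, Int.natAbs_natCast] at h2
    exact Nat.pow_right_injective hp.two_le h2
  by_cases h1 : g - g / 2 ≤ i
  · exact Or.inl ((pow_dvd_pow _ h1).trans (hai.symm.dvd.trans hd1))
  · exact Or.inr ((pow_dvd_pow _ (by omega)).trans (haj.symm.dvd.trans hd2))

theorem roots_quad {q M g p C : ℕ} [NeZero q] (hp : p.Prime) (hq : q = M * p ^ g) (c2 c1 c0 : ℤ)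
    (h2 : |c2| ≤ C) (h1 : |c1| ≤ C) (h : c2 ≠ 0 ∨ c1 ≠ 0) :
    (univ.filter (fun x : ZMod q => ((p : ℤ) ^ g) ∣ c2 * (x.val : ℤ) ^ 2 + c1 * (x.val : ℤ) + c0)).card ≤
      M * (4 * C * p ^ (g / 2)) := by
  classical
  have hpp : 0 < p ^ (g / 2) := pow_pos hp.pos _
  by_cases hc2 : c2 = 0
  · have hc1 : c1 ≠ 0 := by
      rcases h with h | h
      · exact absurd hc2 h
      · exact h
    have h3 := roots_lin hp hq c1 c0
    simp only [hc2, zero_mul, zero_add]
    refine h3.trans (Nat.mul_le_mul_left _ ?_)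
    have h4 : Int.gcd c1 ((p : ℤ) ^ g) ≤ c1.natAbs :=
      Nat.le_of_dvd (Int.natAbs_pos.2 hc1) (Int.gcd_dvd_natAbs_left _ _)
    have h5 : c1.natAbs ≤ C := by
      rw [Int.abs_eq_natAbs] at h1
      exact_mod_cast h1
    calc Int.gcd c1 ((p : ℤ) ^ g) ≤ C := h4.trans h5
      _ ≤ 4 * C := by omega
      _ ≤ 4 * C * p ^ (g / 2) := Nat.le_mul_of_pos_right _ hpp
  · refine (B2_val (fun r : ℕ => ((p : ℤ) ^ g) ∣ c2 * (r : ℤ) ^ 2 + c1 * (r : ℤ) + c0)).trans ?_
    rcases ((range q).filter (fun r : ℕ => ((p : ℤ) ^ g) ∣ c2 * (r : ℤ) ^ 2 + c1 * (r : ℤ) + c0)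
      ).eq_empty_or_nonempty with h0 | ⟨r0, hr0⟩
    · rw [h0, card_empty]
      exact Nat.zero_le _
    · have hr0' := (mem_filter.1 hr0).2
      set z0 : ℤ := 2 * c2 * r0 + c1 with hz0
      have hsub : (range q).filter
          (fun r : ℕ => ((p : ℤ) ^ g) ∣ c2 * (r : ℤ) ^ 2 + c1 * (r : ℤ) + c0) ⊆
          (range q).filter (fun r : ℕ => (((p ^ (g - g / 2) : ℕ) : ℕ) : ℤ) ∣
            (2 * c2) * (r : ℤ) + (c1 - z0)) ∪
          (range q).filter (fun r : ℕ => (((p ^ (g - g / 2) : ℕ) : ℕ) : ℤ) ∣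
            (2 * c2) * (r : ℤ) + (c1 + z0)) := by
        intro r hr
        have hr' := (mem_filter.1 hr).2
        have h3 : ((p : ℤ) ^ g) ∣ ((2 * c2) * (r : ℤ) + (c1 - z0)) *
            ((2 * c2) * (r : ℤ) + (c1 + z0)) := by
          have h4 := dvd_sub (hr'.mul_left (4 * c2)) (hr0'.mul_left (4 * c2))
          refine h4.trans (dvd_of_eq ?_)
          rw [hz0]
          ring
        rw [mem_union, mem_filter, mem_filter]
        push_cast
        rcases B2_split hp _ _ h3 with h4 | h4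
        · exact Or.inl ⟨(mem_filter.1 hr).1, h4⟩
        · exact Or.inr ⟨(mem_filter.1 hr).1, h4⟩
      have hqq : q = (M * p ^ (g / 2)) * p ^ (g - g / 2) := by
        rw [hq, Nat.mul_assoc, ← pow_add]
        congr 2
        omega
      have hgcd : Int.gcd (2 * c2) (((p ^ (g - g / 2) : ℕ) : ℕ) : ℤ) ≤ 2 * C := by
        have h4 : Int.gcd (2 * c2) (((p ^ (g - g / 2) : ℕ) : ℕ) : ℤ) ≤ (2 * c2).natAbs :=
          Nat.le_of_dvd (Int.natAbs_pos.2 (mul_ne_zero two_ne_zero hc2))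
            (Int.gcd_dvd_natAbs_left _ _)
        have h5 : c2.natAbs ≤ C := by
          rw [Int.abs_eq_natAbs] at h2
          exact_mod_cast h2
        rw [Int.natAbs_mul] at h4
        have h6 : (2 : ℤ).natAbs = 2 := rfl
        rw [h6] at h4
        omega
      have hl1 := B2_lin (p ^ (g - g / 2)) (M * p ^ (g / 2)) (pow_pos hp.pos _) (2 * c2) (c1 - z0)
      have hl2 := B2_lin (p ^ (g - g / 2)) (M * p ^ (g / 2)) (pow_pos hp.pos _) (2 * c2) (c1 + z0)
      rw [← hqq] at hl1 hl2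
      have hg1 : (M * p ^ (g / 2)) * Int.gcd (2 * c2) (((p ^ (g - g / 2) : ℕ) : ℕ) : ℤ) ≤
          (M * p ^ (g / 2)) * (2 * C) := Nat.mul_le_mul_left _ hgcd
      calc _ ≤ _ := card_le_card hsub
        _ ≤ _ := card_union_le _ _
        _ ≤ (M * p ^ (g / 2)) * (2 * C) + (M * p ^ (g / 2)) * (2 * C) :=
          Nat.add_le_add (hl1.trans hg1) (hl2.trans hg1)
        _ = M * (4 * C * p ^ (g / 2)) := by ring

end Pool.Agent.Lib.SPV
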