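import Pool.Agent.Lib.MP_7b7e48_nt.SPV.A10
import Pool.Agent.Lib.MP_7b7e48_nt.SPV.A2
import Pool.Agent.Lib.MP_7b7e48_nt.SPV.B1
import Pool.Agent.Lib.MP_7b7e48_nt.SPV.B2

/-!
# SPV B3: fourth moment when a square of a large prime power divides the modulus

PROOF. `p^(2g) ∣ q`, `g ≥ 1`: `M = q/p^g` satisfies `q = M p^g`, `q ∣ M²` (`q = p^(2g) r`, `M = p^g r`, `M² = q r`). `M4_le`. For `a, b, c, d ∈ [1,B]`:
the polynomial `N(x) = (x+c)(x+d)(2x+a+b) - (x+a)(x+b)(2x+c+d) = c2 x² + c1 x + c0` with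
`c2 = (c+d) - (a+b)`, `c1 = 2(cd - ab)`, `c0 = cd(a+b) - ab(c+d)` (check: `ring`). If `c2 = c1 = 0` then `{a,b} = {c,d}`: at most `2B²` quadruples, bound `q`
(`S4_le`). Otherwise `|c2| ≤ 2B ≤ 4B²`, `|c1| ≤ 4B²` (indeed `≤ 2B²`), so `S4_stat` + `roots_quad` with `C = 4B²`: `‖S4‖ ≤ M (16 B² p^(g/2))`
(`p^g ∣ (N x).val` iff `p^g ∣` the integer `c2 x.val² + ...`, as `p^g ∣ q`), `M p^(g/2) ≤ q / p^(g/2 real)`. At most `B^4` quadruples.
-/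

set_option autoImplicit false

open Finset

namespace Pool.Agent.Lib.SPV

private lemma b3_dvd {q P : ℕ} [NeZero q] (hP : P ∣ q) (k : ℤ) (h : P ∣ (k : ZMod q).val) : (P : ℤ) ∣ k := by
  have h1 : (((k : ZMod q).val : ℕ) : ℤ) = k % (q : ℤ) := ZMod.val_intCast k
  have h2 : (P : ℤ) ∣ k % (q : ℤ) := by
    rw [← h1]
    exact_mod_cast h
  have h3 : (P : ℤ) ∣ (q : ℤ) := by exact_mod_cast hP
  have h4 : k = k % (q : ℤ) + (q : ℤ) * (k / (q : ℤ)) := (Int.emod_add_mul_ediv k q).symm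
  rw [h4]
  exact dvd_add h2 (dvd_mul_of_dvd_left h3 _)

private lemma b3_real {q M p g : ℕ} (hp : p.Prime) (hq : q = M * p ^ g) :
    (M : ℝ) * (p : ℝ) ^ (g / 2) ≤ q / (p : ℝ) ^ ((g : ℝ) / 2) := by
  have hp0 : (0 : ℝ) < p := by exact_mod_cast hp.pos
  have hp1 : (1 : ℝ) ≤ p := by exact_mod_cast hp.one_lt.le
  have hpos : 0 < (p : ℝ) ^ ((g : ℝ) / 2) := Real.rpow_pos_of_pos hp0 _
  rw [le_div_iff₀ hpos, hq]
  push_cast
  have h1 : (p : ℝ) ^ (g / 2) ≤ (p : ℝ) ^ ((g : ℝ) / 2) := by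
    rw [← Real.rpow_natCast]
    apply Real.rpow_le_rpow_of_exponent_le hp1
    exact Nat.cast_div_le
  have h2 : (p : ℝ) ^ ((g : ℝ) / 2) * (p : ℝ) ^ ((g : ℝ) / 2) = (p : ℝ) ^ g := by
    rw [← Real.rpow_add hp0, add_halves, Real.rpow_natCast]
  calc (M : ℝ) * (p : ℝ) ^ (g / 2) * (p : ℝ) ^ ((g : ℝ) / 2)
      ≤ (M : ℝ) * (p : ℝ) ^ ((g : ℝ) / 2) * (p : ℝ) ^ ((g : ℝ) / 2) := by gcongr
    _ = (M : ℝ) * (p : ℝ) ^ g := by rw [mul_assoc, h2]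

private lemma b3_point {q p g B : ℕ} [NeZero q] (hp : p.Prime) (hg : 1 ≤ g) (hpq : p ^ (2 * g) ∣ q)
    (χ : DirichletCharacter ℂ q) (hχ : Prim χ) (a b c d : ℕ) (ha : a ∈ Icc 1 B) (hb : b ∈ Icc 1 B)
    (hc : c ∈ Icc 1 B) (hd : d ∈ Icc 1 B) :
    ‖S4 χ ((a : ℕ) : ZMod q) ((b : ℕ) : ZMod q) ((c : ℕ) : ZMod q) ((d : ℕ) : ZMod q)‖ ≤
      (if a = c then (if b = d then (q : ℝ) else 0) else 0) + (if a = d then (if b = c then (q : ℝ) else 0) else 0) +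
        16 * (B : ℝ) ^ 2 * (q / (p : ℝ) ^ ((g : ℝ) / 2)) := by
  have hp0 : (0 : ℝ) < p := by exact_mod_cast hp.pos
  have hq0 : (0 : ℝ) ≤ q := Nat.cast_nonneg q
  have hK : 0 ≤ 16 * (B : ℝ) ^ 2 * (q / (p : ℝ) ^ ((g : ℝ) / 2)) := by
    have := Real.rpow_pos_of_pos hp0 ((g : ℝ) / 2)
    positivity
  have hi1 : 0 ≤ (if a = c then (if b = d then (q : ℝ) else 0) else 0) := by
    split_ifs <;> simp
  have hi2 : 0 ≤ (if a = d then (if b = c then (q : ℝ) else 0) else 0) := by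
    split_ifs <;> simp
  by_cases h1 : a = c ∧ b = d
  · have : (if a = c then (if b = d then (q : ℝ) else 0) else 0) = q := by
      rw [if_pos h1.1, if_pos h1.2]
    have h2 := S4_le χ ((a : ℕ) : ZMod q) ((b : ℕ) : ZMod q) ((c : ℕ) : ZMod q) ((d : ℕ) : ZMod q)
    linarith
  by_cases h2 : a = d ∧ b = c
  · have : (if a = d then (if b = c then (q : ℝ) else 0) else 0) = q := by
      rw [if_pos h2.1, if_pos h2.2]
    have h2 := S4_le χ ((a : ℕ) : ZMod q) ((b : ℕ) : ZMod q) ((c : ℕ) : ZMod q) ((d : ℕ) : ZMod q)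
    linarith
  obtain ⟨r, hr⟩ := hpq
  have hqM : q = (p ^ g * r) * p ^ g := by rw [hr]; ring
  have hM : q ∣ (p ^ g * r) * (p ^ g * r) := by
    refine ⟨r, ?_⟩
    rw [hr]; ring
  have hstat := S4_stat hp hqM hg hM χ hχ ((a : ℕ) : ZMod q) ((b : ℕ) : ZMod q) ((c : ℕ) : ZMod q) ((d : ℕ) : ZMod q)
  rw [mem_Icc] at ha hb hc hd
  set c2 : ℤ := ((c : ℤ) + d) - (a + b) with hc2
  set c1 : ℤ := 2 * ((c : ℤ) * d - a * b) with hc1
  set c0 : ℤ := (c : ℤ) * d * (a + b) - a * b * (c + d) with hc0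
  have hne : c2 ≠ 0 ∨ c1 ≠ 0 := by
    by_contra hcon
    push Not at hcon
    obtain ⟨e2, e1⟩ := hcon
    have e3 : (c : ℤ) * d = a * b := by
      have : 2 * ((c : ℤ) * d - a * b) = 0 := e1
      linarith
    have e4 : (c : ℤ) + d = a + b := by
      have : ((c : ℤ) + d) - (a + b) = 0 := e2
      linarith
    have e5 : ((a : ℤ) - c) * (a - d) = 0 := by
      have : ((a : ℤ) - c) * (a - d) = a * a - a * (c + d) + c * d := by ring
      rw [this, e4, e3]; ring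
    rcases mul_eq_zero.mp e5 with e6 | e6
    · apply h1
      constructor <;> omega
    · apply h2
      constructor <;> omega
  have haZ : (1 : ℤ) ≤ a ∧ (a : ℤ) ≤ B := by omega
  have hbZ : (1 : ℤ) ≤ b ∧ (b : ℤ) ≤ B := by omega
  have hcZ : (1 : ℤ) ≤ c ∧ (c : ℤ) ≤ B := by omega
  have hdZ : (1 : ℤ) ≤ d ∧ (d : ℤ) ≤ B := by omega
  have hBB : (B : ℤ) ≤ B ^ 2 := by nlinarith
  have hab : (0 : ℤ) ≤ a * b ∧ (a : ℤ) * b ≤ B ^ 2 := by
    constructor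
    · exact mul_nonneg (by omega) (by omega)
    · nlinarith
  have hcd : (0 : ℤ) ≤ c * d ∧ (c : ℤ) * d ≤ B ^ 2 := by
    constructor
    · exact mul_nonneg (by omega) (by omega)
    · nlinarith
  have hb2 : |c2| ≤ ((4 * B ^ 2 : ℕ) : ℤ) := by
    push_cast
    rw [abs_le, hc2]
    constructor <;> nlinarith
  have hb1 : |c1| ≤ ((4 * B ^ 2 : ℕ) : ℤ) := by
    push_cast
    rw [abs_le, hc1]
    constructor <;> nlinarith
  have hroots := roots_quad (M := p ^ g * r) hp hqM c2 c1 c0 hb2 hb1 hne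
  have hsub : (univ.filter (fun x : ZMod q => p ^ g ∣
      ((x + ((c : ℕ) : ZMod q)) * (x + ((d : ℕ) : ZMod q)) * (2 * x + ((a : ℕ) : ZMod q) + ((b : ℕ) : ZMod q)) -
        (x + ((a : ℕ) : ZMod q)) * (x + ((b : ℕ) : ZMod q)) * (2 * x + ((c : ℕ) : ZMod q) + ((d : ℕ) : ZMod q))).val)) ⊆
      (univ.filter (fun x : ZMod q => ((p : ℤ) ^ g) ∣ c2 * (x.val : ℤ) ^ 2 + c1 * (x.val : ℤ) + c0)) := by
    intro x hx
    rw [mem_filter] at hx ⊢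
    refine ⟨mem_univ _, ?_⟩
    have hPq : p ^ g ∣ q := ⟨p ^ g * r, by rw [hqM]; ring⟩
    have hxe : ((x + ((c : ℕ) : ZMod q)) * (x + ((d : ℕ) : ZMod q)) * (2 * x + ((a : ℕ) : ZMod q) + ((b : ℕ) : ZMod q)) -
        (x + ((a : ℕ) : ZMod q)) * (x + ((b : ℕ) : ZMod q)) * (2 * x + ((c : ℕ) : ZMod q) + ((d : ℕ) : ZMod q))) =
        ((c2 * (x.val : ℤ) ^ 2 + c1 * (x.val : ℤ) + c0 : ℤ) : ZMod q) := by
      rw [hc2, hc1, hc0]
      push_cast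
      rw [ZMod.natCast_zmod_val]
      ring
    have h3 := hx.2
    rw [hxe] at h3
    have h4 := b3_dvd hPq _ h3
    push_cast at h4
    exact h4
  have hcard := (card_le_card hsub).trans hroots
  have hcardR : ((univ.filter (fun x : ZMod q => p ^ g ∣
      ((x + ((c : ℕ) : ZMod q)) * (x + ((d : ℕ) : ZMod q)) * (2 * x + ((a : ℕ) : ZMod q) + ((b : ℕ) : ZMod q)) -
        (x + ((a : ℕ) : ZMod q)) * (x + ((b : ℕ) : ZMod q)) * (2 * x + ((c : ℕ) : ZMod q) + ((d : ℕ) : ZMod q))).val)).card : ℝ) ≤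
      ((p ^ g * r : ℕ) : ℝ) * (4 * (4 * (B : ℝ) ^ 2) * (p : ℝ) ^ (g / 2)) := by
    exact_mod_cast hcard
  have hreal := b3_real hp hqM
  have hfin : ((p ^ g * r : ℕ) : ℝ) * (4 * (4 * (B : ℝ) ^ 2) * (p : ℝ) ^ (g / 2)) ≤
      16 * (B : ℝ) ^ 2 * (q / (p : ℝ) ^ ((g : ℝ) / 2)) := by
    calc ((p ^ g * r : ℕ) : ℝ) * (4 * (4 * (B : ℝ) ^ 2) * (p : ℝ) ^ (g / 2))
        = 16 * (B : ℝ) ^ 2 * (((p ^ g * r : ℕ) : ℝ) * (p : ℝ) ^ (g / 2)) := by ring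
      _ ≤ _ := by gcongr
  linarith

theorem M4_pow {q p g B : ℕ} [NeZero q] (hp : p.Prime) (hg : 1 ≤ g) (hpq : p ^ (2 * g) ∣ q) (hB : 1 ≤ B)
    (χ : DirichletCharacter ℂ q) (hχ : Prim χ) :
    M4 χ B ≤ 2 * (B : ℝ) ^ 2 * q + 16 * (B : ℝ) ^ 6 * q / (p : ℝ) ^ ((g : ℝ) / 2) := by
  refine (M4_le χ B).trans ?_
  have h1 : ∑ a ∈ Icc 1 B, ∑ b ∈ Icc 1 B, ∑ c ∈ Icc 1 B, ∑ d ∈ Icc 1 B,
      ‖S4 χ ((a : ℕ) : ZMod q) ((b : ℕ) : ZMod q) ((c : ℕ) : ZMod q) ((d : ℕ) : ZMod q)‖ ≤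
      ∑ a ∈ Icc 1 B, ∑ b ∈ Icc 1 B, ∑ c ∈ Icc 1 B, ∑ d ∈ Icc 1 B,
      ((if a = c then (if b = d then (q : ℝ) else 0) else 0) + (if a = d then (if b = c then (q : ℝ) else 0) else 0) +
        16 * (B : ℝ) ^ 2 * (q / (p : ℝ) ^ ((g : ℝ) / 2))) := by
    refine sum_le_sum fun a ha => sum_le_sum fun b hb => sum_le_sum fun c hc => sum_le_sum fun d hd => ?_
    exact b3_point hp hg hpq χ hχ a b c d ha hb hc hd
  refine h1.trans (le_of_eq ?_)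
  have hcard : (Icc 1 B).card = B := by simp
  have e1 : ∑ a ∈ Icc 1 B, ∑ b ∈ Icc 1 B, ∑ c ∈ Icc 1 B, ∑ d ∈ Icc 1 B,
      (if a = c then (if b = d then (q : ℝ) else 0) else 0) = (B : ℝ) ^ 2 * q := by
    have : ∀ a ∈ Icc 1 B, ∀ b ∈ Icc 1 B, ∑ c ∈ Icc 1 B, ∑ d ∈ Icc 1 B,
        (if a = c then (if b = d then (q : ℝ) else 0) else 0) = q := by
      intro a ha b hb
      have h2 : ∀ c ∈ Icc 1 B, ∑ d ∈ Icc 1 B, (if a = c then (if b = d then (q : ℝ) else 0) else 0) =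
          if a = c then (q : ℝ) else 0 := by
        intro c _
        by_cases hac : a = c
        · simp only [hac, if_true]
          rw [Finset.sum_ite_eq, if_pos hb]
        · simp [hac]
      rw [sum_congr rfl h2, Finset.sum_ite_eq, if_pos ha]
    rw [sum_congr rfl (fun a ha => sum_congr rfl (fun b hb => this a ha b hb))]
    rw [sum_const, sum_const, hcard]
    simp only [nsmul_eq_mul]
    ring
  have e2 : ∑ a ∈ Icc 1 B, ∑ b ∈ Icc 1 B, ∑ c ∈ Icc 1 B, ∑ d ∈ Icc 1 B,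
      (if a = d then (if b = c then (q : ℝ) else 0) else 0) = (B : ℝ) ^ 2 * q := by
    have : ∀ a ∈ Icc 1 B, ∀ b ∈ Icc 1 B, ∑ c ∈ Icc 1 B, ∑ d ∈ Icc 1 B,
        (if a = d then (if b = c then (q : ℝ) else 0) else 0) = q := by
      intro a ha b hb
      have h2 : ∀ c ∈ Icc 1 B, ∑ d ∈ Icc 1 B, (if a = d then (if b = c then (q : ℝ) else 0) else 0) =
          if b = c then (q : ℝ) else 0 := by
        intro c _
        rw [Finset.sum_ite_eq, if_pos ha]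
      rw [sum_congr rfl h2, Finset.sum_ite_eq, if_pos hb]
    rw [sum_congr rfl (fun a ha => sum_congr rfl (fun b hb => this a ha b hb))]
    rw [sum_const, sum_const, hcard]
    simp only [nsmul_eq_mul]
    ring
  simp only [sum_add_distrib]
  rw [e1, e2]
  simp only [sum_const, hcard, nsmul_eq_mul]
  ring

end Pool.Agent.Lib.SPV
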