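import Pool.Agent.Lib.MP_7b7e48_nt.SPV.Defs

/-!
# SPV B4: Burgess's inequality (fourth moment)

PROOF. For `a ∈ S`, `b ∈ [1,B]`: `‖∑_{n≤y} χ(n) - ∑_{n≤y} χ(n+ab)‖ ≤ 2ab ≤ 4AB` (the two sums differ by `≤ 2ab` terms). Average over `a ∈ S`, `b ≤ B`:
`‖csum‖ ≤ 4AB + V/(#S B)`, `V = ∑_{a∈S} ∑_{n≤y} ‖∑_{b≤B} χ(n+ab)‖`. `a` is a unit mod `q` (prime, not dividing `q`):
`‖∑_b χ(n+ab)‖ = ‖∑_b χ(n a⁻¹ + b)‖`. Let `v(x)` = number of `(a,n)`, `a ∈ S`, `1 ≤ n ≤ y`, with `n = a x` in `ZMod q`: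
`V = ∑_x v(x) ‖s(x)‖`, `s(x) = ∑_b χ(x+b)`. `∑ v = #S y`. `∑ v²` = number of `(a,n,a',n')` with `n a' = n' a mod q`; both products are `≤ 2Ay < q`,
so `n a' = n' a`. `a = a'`: `n = n'`: `#S y` solutions. `a ≠ a'` (different primes): `a ∣ n`, `n = a t`, `n' = a' t`, `t ≤ y/a < y/A`: at most
`#S² y/A ≤ #S y` (as `#S ≤ A`). So `∑ v² ≤ 2 #S y`. Cauchy-Schwarz twice: `V ≤ (∑v)^{1/2} (∑ v‖s‖²)^{1/2} ≤ (∑v)^{1/2} ((∑v²)^{1/2} M4^{1/2})^{1/2}
≤ (2 #S y)^{3/4} M4^{1/4} ≤ 2 (#S y)^{3/4} M4^{1/4}`. Then `V/(#S B) ≤ 2 y (M4/(B⁴ #S y))^{1/4}`.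
-/

set_option autoImplicit false

open Finset

namespace Pool.Agent.Lib.SPV

private theorem B4_tel (h : ℕ → ℂ) (y : ℕ) :
    ∑ n ∈ Icc 1 y, (h n - h (n + 1)) = h 1 - h (y + 1) := by
  induction y with
  | zero => simp
  | succ y ih =>
    rw [Finset.sum_Icc_succ_top (by omega), ih]
    ring

private theorem B4_shift {q : ℕ} (χ : DirichletCharacter ℂ q) (y c : ℕ) :
    ‖csum χ y - ∑ n ∈ Icc 1 y, χ (((n + c : ℕ) : ℕ) : ZMod q)‖ ≤ 2 * c := by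
  induction c with
  | zero => simp [csum]
  | succ c ih =>
    have h1 : csum χ y - ∑ n ∈ Icc 1 y, χ (((n + (c + 1) : ℕ) : ℕ) : ZMod q) =
        (csum χ y - ∑ n ∈ Icc 1 y, χ (((n + c : ℕ) : ℕ) : ZMod q)) +
        (χ (((1 + c : ℕ) : ℕ) : ZMod q) - χ (((y + 1 + c : ℕ) : ℕ) : ZMod q)) := by
      have h2 := B4_tel (fun n => χ (((n + c : ℕ) : ℕ) : ZMod q)) y
      rw [sum_sub_distrib] at h2
      have h3 : ∑ n ∈ Icc 1 y, χ (((n + (c + 1) : ℕ) : ℕ) : ZMod q) =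
          ∑ n ∈ Icc 1 y, χ (((n + 1 + c : ℕ) : ℕ) : ZMod q) := by
        refine sum_congr rfl fun n _ => ?_
        rw [Nat.add_right_comm, Nat.add_assoc n c 1]
      rw [h3, ← h2]
      ring
    rw [h1]
    have h4 := DirichletCharacter.norm_le_one χ (((1 + c : ℕ) : ℕ) : ZMod q)
    have h5 := DirichletCharacter.norm_le_one χ (((y + 1 + c : ℕ) : ℕ) : ZMod q)
    refine (norm_add_le _ _).trans ?_
    have h6 := norm_sub_le (χ (((1 + c : ℕ) : ℕ) : ZMod q)) (χ (((y + 1 + c : ℕ) : ℕ) : ZMod q))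
    push_cast at h4 h5 h6 ih ⊢
    linarith

/-- the class of `n/a` -/
private def B4_f (q : ℕ) (r : ℕ × ℕ) : ZMod q := (r.2 : ZMod q) * (r.1 : ZMod q)⁻¹

private theorem B4_eq {q A y : ℕ} (hAy : 2 * A * y < q) {S : Finset ℕ}
    (hS : ∀ a ∈ S, a.Prime ∧ A < a ∧ a ≤ 2 * A ∧ ¬ a ∣ q) {r r' : ℕ × ℕ}
    (hr : r ∈ S ×ˢ Icc 1 y) (hr' : r' ∈ S ×ˢ Icc 1 y) (h : B4_f q r = B4_f q r') :
    r.2 * r'.1 = r'.2 * r.1 := by
  rw [mem_product, mem_Icc] at hr hr'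
  obtain ⟨h1, h2, h3, h4⟩ := hS _ hr.1
  obtain ⟨h1', h2', h3', h4'⟩ := hS _ hr'.1
  have e1 := ZMod.coe_mul_inv_eq_one (n := q) r.1 ((Nat.Prime.coprime_iff_not_dvd h1).2 h4)
  have e2 := ZMod.coe_mul_inv_eq_one (n := q) r'.1 ((Nat.Prime.coprime_iff_not_dvd h1').2 h4')
  unfold B4_f at h
  have e3 : ((r.2 * r'.1 : ℕ) : ZMod q) = ((r'.2 * r.1 : ℕ) : ZMod q) := by
    push_cast
    calc (r.2 : ZMod q) * r'.1 = (r.2 : ZMod q) * r'.1 * ((r.1 : ZMod q) * (r.1 : ZMod q)⁻¹) := by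
          rw [e1, mul_one]
      _ = ((r.2 : ZMod q) * (r.1 : ZMod q)⁻¹) * r'.1 * r.1 := by ring
      _ = ((r'.2 : ZMod q) * (r'.1 : ZMod q)⁻¹) * r'.1 * r.1 := by rw [h]
      _ = (r'.2 : ZMod q) * r.1 * ((r'.1 : ZMod q) * (r'.1 : ZMod q)⁻¹) := by ring
      _ = (r'.2 : ZMod q) * r.1 := by rw [e2, mul_one]
  rw [ZMod.natCast_eq_natCast_iff'] at e3
  have b1 : r.2 * r'.1 < q := by
    calc r.2 * r'.1 ≤ y * (2 * A) := Nat.mul_le_mul hr.2.2 h3'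
      _ = 2 * A * y := by ring
      _ < q := hAy
  have b2 : r'.2 * r.1 < q := by
    calc r'.2 * r.1 ≤ y * (2 * A) := Nat.mul_le_mul hr'.2.2 h3
      _ = 2 * A * y := by ring
      _ < q := hAy
  rwa [Nat.mod_eq_of_lt b1, Nat.mod_eq_of_lt b2] at e3

private theorem B4_card {q A y : ℕ} (hA : 1 ≤ A) (hAy : 2 * A * y < q) {S : Finset ℕ}
    (hS : ∀ a ∈ S, a.Prime ∧ A < a ∧ a ≤ 2 * A ∧ ¬ a ∣ q) :
    (((S ×ˢ Icc 1 y) ×ˢ (S ×ˢ Icc 1 y)).filter (fun r => B4_f q r.1 = B4_f q r.2)).card ≤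
      2 * (S.card * y) := by
  classical
  have hSA : S.card ≤ A := by
    have h1 : S ⊆ Ioc A (2 * A) := fun a ha => mem_Ioc.2 ⟨(hS a ha).2.1, (hS a ha).2.2.1⟩
    have h2 := card_le_card h1
    rw [Nat.card_Ioc] at h2
    omega
  set E := ((S ×ˢ Icc 1 y) ×ˢ (S ×ˢ Icc 1 y)).filter (fun r => B4_f q r.1 = B4_f q r.2) with hE
  have hmem : ∀ r ∈ E, r.1 ∈ S ×ˢ Icc 1 y ∧ r.2 ∈ S ×ˢ Icc 1 y ∧ r.1.2 * r.2.1 = r.2.2 * r.1.1 := by
    intro r hr
    rw [hE, mem_filter, mem_product] at hr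
    exact ⟨hr.1.1, hr.1.2, B4_eq hAy hS hr.1.1 hr.1.2 hr.2⟩
  have hsplit := card_filter_add_card_filter_not (s := E) (fun r => r.1.1 = r.2.1)
  have c1 : (E.filter (fun r => r.1.1 = r.2.1)).card ≤ S.card * y := by
    have h1 : (E.filter (fun r => r.1.1 = r.2.1)).card ≤ (S ×ˢ Icc 1 y).card := by
      refine card_le_card_of_injOn (fun r => r.1) ?_ ?_
      · intro r hr
        rw [mem_coe, mem_filter] at hr
        exact (hmem r hr.1).1
      · rintro ⟨⟨a, n⟩, ⟨a', n'⟩⟩ hr ⟨⟨b, m⟩, ⟨b', m'⟩⟩ hr' he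
        rw [mem_coe, mem_filter] at hr hr'
        obtain ⟨h2, h3, h4⟩ := hmem _ hr.1
        obtain ⟨h2', h3', h4'⟩ := hmem _ hr'.1
        have h5 := hr.2
        have h5' := hr'.2
        simp only at h4 h4' h5 h5' he
        rw [Prod.mk.injEq] at he
        obtain ⟨rfl, rfl⟩ := he
        subst h5 h5'
        have h6 : 0 < a := ((hS a (mem_product.1 h2).1).1).pos
        have h7 := Nat.eq_of_mul_eq_mul_right h6 h4
        have h8 := Nat.eq_of_mul_eq_mul_right h6 h4'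
        rw [← h7, ← h8]
    rwa [card_product, Nat.card_Icc, Nat.add_sub_cancel] at h1
  have c2 : (E.filter (fun r => ¬ r.1.1 = r.2.1)).card ≤ S.card * y := by
    have hdvd : ∀ r ∈ E.filter (fun r => ¬ r.1.1 = r.2.1), r.1.1 ∣ r.1.2 := by
      intro r hr
      rw [mem_filter] at hr
      obtain ⟨h2, h3, h4⟩ := hmem r hr.1
      have p1 := (hS _ (mem_product.1 h2).1).1
      have p2 := (hS _ (mem_product.1 h3).1).1
      have h5 : Nat.Coprime r.1.1 r.2.1 := (Nat.coprime_primes p1 p2).2 hr.2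
      exact h5.dvd_of_dvd_mul_right (Dvd.intro_left _ h4.symm)
    have h1 : (E.filter (fun r => ¬ r.1.1 = r.2.1)).card ≤
        ((S ×ˢ S) ×ˢ Icc 1 (y / A)).card := by
      refine card_le_card_of_injOn (fun r => ((r.1.1, r.2.1), r.1.2 / r.1.1)) ?_ ?_
      · intro r hr
        rw [mem_coe] at hr
        have hd := hdvd r hr
        rw [mem_filter] at hr
        obtain ⟨h2, h3, h4⟩ := hmem r hr.1
        rw [mem_product, mem_Icc] at h2 h3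
        rw [mem_coe, mem_product, mem_product, mem_Icc]
        refine ⟨⟨h2.1, h3.1⟩, ?_, ?_⟩
        · exact Nat.div_pos (Nat.le_of_dvd (by omega) hd) (hS _ h2.1).1.pos
        · calc r.1.2 / r.1.1 ≤ y / r.1.1 := Nat.div_le_div_right h2.2.2
            _ ≤ y / A := Nat.div_le_div_left (hS _ h2.1).2.1.le (by omega)
      · rintro ⟨⟨a, n⟩, ⟨a', n'⟩⟩ hr ⟨⟨b, m⟩, ⟨b', m'⟩⟩ hr' he
        rw [mem_coe] at hr hr'
        have hd := hdvd _ hr
        have hd' := hdvd _ hr'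
        rw [mem_filter] at hr hr'
        obtain ⟨h2, h3, h4⟩ := hmem _ hr.1
        obtain ⟨h2', h3', h4'⟩ := hmem _ hr'.1
        simp only at h2 h3 h4 h4' hd hd' he
        rw [Prod.mk.injEq, Prod.mk.injEq] at he
        obtain ⟨⟨rfl, rfl⟩, h5⟩ := he
        have h6 : 0 < a := ((hS a (mem_product.1 h2).1).1).pos
        have h7 : n = m := by
          rw [← Nat.div_mul_cancel hd, ← Nat.div_mul_cancel hd', h5]
        subst h7
        have h8 : n' = m' := Nat.eq_of_mul_eq_mul_right h6 (h4.symm.trans h4')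
        rw [h8]
    rw [card_product, card_product, Nat.card_Icc, Nat.add_sub_cancel] at h1
    calc _ ≤ S.card * S.card * (y / A) := h1
      _ = S.card * (S.card * (y / A)) := by ring
      _ ≤ S.card * (A * (y / A)) :=
          Nat.mul_le_mul_left _ (Nat.mul_le_mul_right _ hSA)
      _ ≤ S.card * y := Nat.mul_le_mul_left _ (Nat.mul_div_le _ _)
  omega

/-- Hölder's inequality -/
private theorem B4_hol {q : ℕ} [NeZero q] (T : Finset (ℕ × ℕ)) (f : ℕ × ℕ → ZMod q)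
    (g : ZMod q → ℝ) :
    (∑ r ∈ T, g (f r)) ^ 4 ≤ (T.card : ℝ) ^ 2 *
      (((T ×ˢ T).filter (fun r => f r.1 = f r.2)).card * ∑ x, g x ^ 4) := by
  classical
  let v : ZMod q → ℝ := fun x => ((T.filter (fun r => f r = x)).card : ℝ)
  have h1 : (∑ r ∈ T, g (f r)) ^ 2 ≤ T.card * ∑ r ∈ T, g (f r) ^ 2 := sq_sum_le_card_mul_sum_sq
  have h2 : ∑ r ∈ T, g (f r) ^ 2 = ∑ x, v x * g x ^ 2 := by
    rw [← sum_fiberwise T f (fun r => g (f r) ^ 2)]
    refine sum_congr rfl fun x _ => ?_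
    rw [sum_congr rfl (g := fun _ => g x ^ 2) (fun r hr => by rw [(mem_filter.1 hr).2]),
      sum_const, nsmul_eq_mul]
  have h3 : (∑ x, v x * g x ^ 2) ^ 2 ≤ (∑ x, v x ^ 2) * ∑ x, (g x ^ 2) ^ 2 :=
    sum_mul_sq_le_sq_mul_sq _ _ _
  have h4 : ∑ x, v x ^ 2 = (((T ×ˢ T).filter (fun r => f r.1 = f r.2)).card : ℝ) := by
    have h5 : ∑ x, v x ^ 2 = ∑ r ∈ T, v (f r) := by
      rw [← sum_fiberwise T f (fun r => v (f r))]
      refine sum_congr rfl fun x _ => ?_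
      rw [sum_congr rfl (g := fun _ => v x) (fun r hr => by rw [(mem_filter.1 hr).2]),
        sum_const, nsmul_eq_mul, sq]
    rw [h5, card_filter, sum_product]
    push_cast
    refine sum_congr rfl fun r _ => ?_
    show ((T.filter (fun r' => f r' = f r)).card : ℝ) = _
    rw [card_filter]
    push_cast
    refine sum_congr rfl fun r' _ => ?_
    by_cases h6 : f r' = f r
    · rw [if_pos h6, if_pos h6.symm]
    · rw [if_neg h6, if_neg (Ne.symm h6)]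
  have h5 : (∑ r ∈ T, g (f r)) ^ 4 = ((∑ r ∈ T, g (f r)) ^ 2) ^ 2 := by ring
  rw [h5]
  calc ((∑ r ∈ T, g (f r)) ^ 2) ^ 2 ≤ (T.card * ∑ r ∈ T, g (f r) ^ 2) ^ 2 :=
        pow_le_pow_left₀ (sq_nonneg _) h1 2
    _ = (T.card : ℝ) ^ 2 * (∑ x, v x * g x ^ 2) ^ 2 := by rw [h2, mul_pow]
    _ ≤ (T.card : ℝ) ^ 2 * ((∑ x, v x ^ 2) * ∑ x, (g x ^ 2) ^ 2) :=
        mul_le_mul_of_nonneg_left h3 (sq_nonneg _)
    _ = _ := by
        rw [h4]
        congr 2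
        exact sum_congr rfl fun x _ => by ring

theorem burgess {q : ℕ} [NeZero q] (χ : DirichletCharacter ℂ q) (A B y : ℕ) (hA : 1 ≤ A) (hB : 1 ≤ B) (hy : 1 ≤ y)
    (hAy : 2 * A * y < q) (S : Finset ℕ) (hS : ∀ a ∈ S, a.Prime ∧ A < a ∧ a ≤ 2 * A ∧ ¬ a ∣ q) (hne : S.Nonempty) :
    ‖csum χ y‖ ≤ 4 * A * B + 2 * y * (M4 χ B / ((B : ℝ) ^ 4 * S.card * y)) ^ (1 / 4 : ℝ) := by
  classical
  set T := S ×ˢ Icc 1 y with hT
  let s : ZMod q → ℂ := fun x => ∑ b ∈ Icc 1 B, χ (x + ((b : ℕ) : ZMod q))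
  have hk : (0 : ℝ) < S.card := by exact_mod_cast hne.card_pos
  have hB0 : (0 : ℝ) < B := by exact_mod_cast hB
  have hy0 : (0 : ℝ) < y := by exact_mod_cast hy
  have hTc : (T.card : ℝ) = S.card * y := by
    rw [hT, card_product, Nat.card_Icc, Nat.add_sub_cancel]
    push_cast
    ring
  have hM0 : 0 ≤ M4 χ B := sum_nonneg fun x _ => by positivity
  -- the averaged sum
  have h1 : (S.card * B : ℝ) * ‖csum χ y‖ ≤
      (S.card * B : ℝ) * (4 * A * B) + ∑ r ∈ T, ‖s (B4_f q r)‖ := by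
    have e1 : ((S.card : ℂ) * B) * csum χ y =
        (∑ a ∈ S, ∑ b ∈ Icc 1 B, (csum χ y - ∑ n ∈ Icc 1 y, χ (((n + a * b : ℕ) : ℕ) : ZMod q))) +
        ∑ r ∈ T, ∑ b ∈ Icc 1 B, χ (((r.2 + r.1 * b : ℕ) : ℕ) : ZMod q) := by
      rw [hT, sum_product]
      simp only [sum_sub_distrib, sum_const, Nat.card_Icc, Nat.add_sub_cancel, nsmul_eq_mul]
      have e2 : ∀ a, ∑ b ∈ Icc 1 B, ∑ n ∈ Icc 1 y, χ (((n + a * b : ℕ) : ℕ) : ZMod q) =
          ∑ n ∈ Icc 1 y, ∑ b ∈ Icc 1 B, χ (((n + a * b : ℕ) : ℕ) : ZMod q) := fun a => sum_comm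
      simp only [e2]
      ring
    have e3 : (S.card * B : ℝ) * ‖csum χ y‖ = ‖((S.card : ℂ) * B) * csum χ y‖ := by
      rw [norm_mul, norm_mul, Complex.norm_natCast, Complex.norm_natCast]
    rw [e3, e1]
    refine (norm_add_le _ _).trans (add_le_add ?_ ?_)
    · refine (norm_sum_le _ _).trans ?_
      have e4 : ∀ a ∈ S, ‖∑ b ∈ Icc 1 B, (csum χ y -
          ∑ n ∈ Icc 1 y, χ (((n + a * b : ℕ) : ℕ) : ZMod q))‖ ≤ B * (4 * A * B) := by
        intro a ha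
        refine (norm_sum_le _ _).trans ?_
        have e5 : ∀ b ∈ Icc 1 B, ‖csum χ y - ∑ n ∈ Icc 1 y, χ (((n + a * b : ℕ) : ℕ) : ZMod q)‖ ≤
            4 * A * B := by
          intro b hb
          refine (B4_shift χ y (a * b)).trans ?_
          have e6 : (a : ℝ) ≤ 2 * A := by exact_mod_cast (hS a ha).2.2.1
          have e7 : (b : ℝ) ≤ B := by exact_mod_cast (mem_Icc.1 hb).2
          push_cast
          have e8 : (a : ℝ) * b ≤ 2 * A * B := mul_le_mul e6 e7 (by positivity) (by positivity)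
          linarith
        refine (sum_le_card_nsmul _ _ _ e5).trans ?_
        rw [Nat.card_Icc, Nat.add_sub_cancel, nsmul_eq_mul]
      refine (sum_le_card_nsmul _ _ _ e4).trans (le_of_eq ?_)
      rw [nsmul_eq_mul]
      ring
    · refine (norm_sum_le _ _).trans (sum_le_sum fun r hr => ?_)
      obtain ⟨h2, h3⟩ := mem_product.1 hr
      obtain ⟨g1, _, _, g4⟩ := hS _ h2
      have e1 := ZMod.coe_mul_inv_eq_one (n := q) r.1 ((Nat.Prime.coprime_iff_not_dvd g1).2 g4)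
      have e4 : ∑ b ∈ Icc 1 B, χ (((r.2 + r.1 * b : ℕ) : ℕ) : ZMod q) =
          χ (r.1 : ZMod q) * s (B4_f q r) := by
        show _ = χ (r.1 : ZMod q) * ∑ b ∈ Icc 1 B, χ (B4_f q r + ((b : ℕ) : ZMod q))
        rw [mul_sum]
        refine sum_congr rfl fun b _ => ?_
        rw [← map_mul]
        congr 1
        unfold B4_f
        push_cast
        calc (r.2 : ZMod q) + r.1 * b = r.2 * ((r.1 : ZMod q) * (r.1 : ZMod q)⁻¹) + r.1 * b := by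
              rw [e1, mul_one]
          _ = _ := by ring
      rw [e4, norm_mul]
      exact mul_le_of_le_one_left (norm_nonneg _) (DirichletCharacter.norm_le_one χ _)
  -- the fourth power
  have h2 : (∑ r ∈ T, ‖s (B4_f q r)‖) ^ 4 ≤ 2 * (S.card * y : ℝ) ^ 3 * M4 χ B := by
    refine (B4_hol T (B4_f q) (fun x => ‖s x‖)).trans ?_
    rw [hTc]
    have h3 : ((((T ×ˢ T).filter (fun r => B4_f q r.1 = B4_f q r.2)).card : ℕ) : ℝ) ≤
        2 * (S.card * y) := by exact_mod_cast B4_card hA hAy hS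
    calc (S.card * y : ℝ) ^ 2 * (((T ×ˢ T).filter (fun r => B4_f q r.1 = B4_f q r.2)).card *
        ∑ x, ‖s x‖ ^ 4) ≤ (S.card * y : ℝ) ^ 2 * ((2 * (S.card * y)) * M4 χ B) :=
          mul_le_mul_of_nonneg_left (mul_le_mul_of_nonneg_right h3 hM0) (by positivity)
      _ = _ := by ring
  set t := M4 χ B / ((B : ℝ) ^ 4 * S.card * y) with ht
  have ht0 : 0 ≤ t := by positivity
  have h3 : ∑ r ∈ T, ‖s (B4_f q r)‖ ≤ (S.card * B : ℝ) * (2 * y * t ^ (1 / 4 : ℝ)) := by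
    rw [← pow_le_pow_iff_left₀ (sum_nonneg fun r _ => norm_nonneg _) (by positivity)
      (by norm_num : (4 : ℕ) ≠ 0)]
    refine h2.trans ?_
    have e1 : (t ^ (1 / 4 : ℝ)) ^ 4 = t := by
      rw [← Real.rpow_natCast, ← Real.rpow_mul ht0]
      norm_num
    have e2 : M4 χ B = t * ((B : ℝ) ^ 4 * S.card * y) := by
      rw [ht]
      field_simp
    have e3 : (0 : ℝ) ≤ (S.card : ℝ) ^ 4 * (B : ℝ) ^ 4 * (y : ℝ) ^ 4 * t :=
      mul_nonneg (mul_nonneg (mul_nonneg (pow_nonneg hk.le 4) (pow_nonneg hB0.le 4))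
        (pow_nonneg hy0.le 4)) ht0
    have e4 : 2 * (S.card * y : ℝ) ^ 3 * (t * ((B : ℝ) ^ 4 * S.card * y)) =
        2 * ((S.card : ℝ) ^ 4 * (B : ℝ) ^ 4 * (y : ℝ) ^ 4 * t) := by ring
    have e5 : ((S.card * B : ℝ) * (2 * y * t ^ (1 / 4 : ℝ))) ^ 4 =
        16 * ((S.card : ℝ) ^ 4 * (B : ℝ) ^ 4 * (y : ℝ) ^ 4 * t) := by
      rw [mul_pow, mul_pow (2 * y : ℝ), e1]
      ring
    rw [e2, e4, e5]
    linarith
  have h4 : (S.card * B : ℝ) * ‖csum χ y‖ ≤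
      (S.card * B : ℝ) * (4 * A * B + 2 * y * t ^ (1 / 4 : ℝ)) := by
    rw [mul_add]
    linarith
  exact le_of_mul_le_mul_left h4 (mul_pos hk hB0)

end Pool.Agent.Lib.SPV
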