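import Pool.Agent.Lib.MP_7b7e48_nt.SPV.B4
import Pool.Agent.Lib.SW.SWFinal

/-!
# SPV B5: Burgess, final form

PROOF. `B = ⌊q^b⌋`, `y² = q^(1+2η)`, `-b/100 ≤ η ≤ b/4`. `A = ⌊y/(B q^(b/50))⌋` (a positive power of `q`). `2Ay ≤ 2y²/(B q^(b/50)) ≤ 2 q^(1+b/2)/(q^b/2) < q`.
`4AB ≤ 4 y q^(-b/50)`. `S` = primes of `(A, 2A]` not dividing `q`: `#S ≥ A/(log q)²` for large `q` (number of primes in `(A,2A]` is `≥ c A/log A`, e.g.
from the prime number theorem `SW.pnt 1` of the library, used that way in `PQ/C9m.lean`, `PQ/E4p.lean`; at most `log q/log 2` primes divide `q`; `A ≥ q^(1/4)`).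
`M4/(B⁴ #S y) ≤ 3 q B^2.9 (log q)²/(B⁴ A y) ≤ 6 q (log q)² q^(b/50)/(B^0.1 y²) ≤ 12 (log q)² q^(b/50 - b/10 + b/50)` (`B ≥ q^b/2`, `A ≥ y/(2 B q^(b/50))`,
`y² ≥ q^(1 - b/50)`) `= 12 (log q)² q^(-0.06 b)`; fourth root `≤ 2 (log q)^(1/2) q^(-0.015 b)`. Total
`≤ y (4 q^(-0.02 b) + 4 (log q)^(1/2) q^(-0.015 b)) ≤ y q^(-b/100)` for `q` large.
-/

set_option autoImplicit false

open Finset

namespace Pool.Agent.Lib.SPV

/-- the prime number theorem for `theta` -/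
private theorem b5_theta : ∃ X0 : ℝ, ∀ x : ℝ, X0 ≤ x → |Chebyshev.theta x - x| ≤ x / 100 := by
  obtain ⟨C, hC, h⟩ := SW.pnt 1
  have h1 : ∀ᶠ x : ℝ in Filter.atTop, 200 * C ≤ Real.log x :=
    Real.tendsto_log_atTop.eventually_ge_atTop (200 * C)
  have h2 := (isLittleO_log_rpow_atTop (show (0 : ℝ) < 1 / 2 by norm_num)).bound
    (show (0 : ℝ) < 1 / 400 by norm_num)
  have h3 := Filter.eventually_ge_atTop (2 : ℝ)
  obtain ⟨X, hX⟩ := Filter.eventually_atTop.mp (h1.and (h2.and h3))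
  refine ⟨X, fun x hx => ?_⟩
  obtain ⟨g1, g2, g3⟩ := hX x hx
  have hxpos : 0 < x := by linarith
  have hl : 0 < Real.log x := by nlinarith
  have e1 : |Chebyshev.psi x - x| ≤ C * x / (Real.log x) ^ 1 := by
    have := h x g3
    have e : Chebyshev.psi x = ∑ n ∈ Finset.Icc 1 ⌊x⌋₊, ArithmeticFunction.vonMangoldt n := by
      unfold Chebyshev.psi
      rfl
    rw [e]
    exact this
  have e2 := Chebyshev.abs_psi_sub_theta_le_sqrt_mul_log (show (1 : ℝ) ≤ x by linarith)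
  rw [Real.norm_eq_abs, Real.norm_eq_abs, abs_of_pos hl, abs_of_nonneg (by positivity),
    ← Real.sqrt_eq_rpow] at g2
  have e3 : C * x / (Real.log x) ^ 1 ≤ x / 200 := by
    rw [pow_one, div_le_div_iff₀ hl (by norm_num)]
    nlinarith
  have e4 : 2 * x.sqrt * x.log ≤ x / 200 := by
    have := Real.mul_self_sqrt hxpos.le
    have hs : 0 < x.sqrt := Real.sqrt_pos.mpr hxpos
    nlinarith
  have e5 : Chebyshev.theta x - x =
      (Chebyshev.psi x - x) - (Chebyshev.psi x - Chebyshev.theta x) := by ring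
  rw [e5]
  refine (abs_sub _ _).trans ?_
  linarith

private theorem b5_diff (x y : ℝ) (hxy : x ≤ y) : Chebyshev.theta y - Chebyshev.theta x =
    ∑ p ∈ (Finset.Ioc ⌊x⌋₊ ⌊y⌋₊).filter Nat.Prime, Real.log p := by
  unfold Chebyshev.theta
  have hf : ⌊x⌋₊ ≤ ⌊y⌋₊ := Nat.floor_le_floor hxy
  have h : Finset.Ioc 0 ⌊y⌋₊ = Finset.Ioc 0 ⌊x⌋₊ ∪ Finset.Ioc ⌊x⌋₊ ⌊y⌋₊ := by
    rw [Finset.Ioc_union_Ioc_eq_Ioc (by omega) hf]
  rw [h, Finset.filter_union, Finset.sum_union]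
  · ring
  · apply Finset.disjoint_filter_filter
    rw [Finset.disjoint_left]
    intro a ha hb
    rw [Finset.mem_Ioc] at ha hb
    omega

private theorem b5_div (N : ℕ) (hN : 1 ≤ N) : ∑ p ∈ N.primeFactors, Real.log p ≤ Real.log N := by
  rw [← Real.log_prod (fun p hp => by
    have := (Nat.prime_of_mem_primeFactors hp).pos
    positivity)]
  apply Real.log_le_log
  · apply Finset.prod_pos
    intro p hp
    have := (Nat.prime_of_mem_primeFactors hp).pos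
    exact_mod_cast this
  · have h := Nat.le_of_dvd (by omega) (Nat.prod_primeFactors_dvd N)
    have h' : ((∏ p ∈ N.primeFactors, p : ℕ) : ℝ) ≤ N := by exact_mod_cast h
    rw [Nat.cast_prod] at h'
    exact h'

private theorem b5_key (x y Z : ℝ) (N : ℕ) (T : Finset ℕ) (hx : 0 ≤ x) (hxy : x ≤ y)
    (hT : ∀ p : ℕ, p.Prime → x < p → (p : ℝ) ≤ y → ¬ p ∣ N → p ∈ T)
    (hTp : ∀ p ∈ T, p.Prime ∧ (p : ℝ) ≤ N)
    (h : Z / 4 ≤ Chebyshev.theta y - Chebyshev.theta x) (hN : 2 ≤ N)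
    (hZ : 8 * Real.log N ≤ Z) : Z / (8 * Real.log N) ≤ (T.card : ℝ) := by
  classical
  have hNr : (2 : ℝ) ≤ N := by exact_mod_cast hN
  have hl : 0 < Real.log N := Real.log_pos (by linarith)
  rw [b5_diff x y hxy] at h
  have h1 : (Finset.Ioc ⌊x⌋₊ ⌊y⌋₊).filter Nat.Prime ⊆ T ∪ N.primeFactors := by
    intro p hp
    rw [Finset.mem_filter, Finset.mem_Ioc] at hp
    obtain ⟨⟨p1, p2⟩, p3⟩ := hp
    rw [Finset.mem_union]
    by_cases hd : p ∣ N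
    · right
      rw [Nat.mem_primeFactors]
      exact ⟨p3, hd, by omega⟩
    · left
      exact hT p p3 ((Nat.floor_lt hx).mp p1)
        ((Nat.le_floor_iff (hx.trans hxy)).mp p2) hd
  have hnn : ∀ p : ℕ, 0 ≤ Real.log (p : ℝ) := fun p => Real.log_natCast_nonneg p
  have h2 : ∑ p ∈ (Finset.Ioc ⌊x⌋₊ ⌊y⌋₊).filter Nat.Prime, Real.log p ≤
      ∑ p ∈ T, Real.log p + ∑ p ∈ N.primeFactors, Real.log p := by
    refine (Finset.sum_le_sum_of_subset_of_nonneg h1 (fun p _ _ => hnn p)).trans ?_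
    have := Finset.sum_union_inter (s₁ := T) (s₂ := N.primeFactors) (f := fun p : ℕ => Real.log (p : ℝ))
    have h3 : 0 ≤ ∑ p ∈ T ∩ N.primeFactors, Real.log (p : ℝ) := Finset.sum_nonneg (fun p _ => hnn p)
    linarith
  have h3 : ∑ p ∈ T, Real.log p ≤ T.card * Real.log N := by
    rw [← nsmul_eq_mul]
    apply Finset.sum_le_card_nsmul
    intro p hp
    obtain ⟨p1, p2⟩ := hTp p hp
    apply Real.log_le_log _ p2
    exact_mod_cast p1.pos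
  have h4 := b5_div N (by omega)
  rw [div_le_iff₀ (by positivity)]
  nlinarith

/-- the inequality `2 A y < q` -/
private lemma b5_small {Q b A B y : ℝ} (hQ : 1 ≤ Q) (hA0 : 0 ≤ A) (hB0 : 0 < B) (hy : 0 < y)
    (hB : Q ^ b ≤ 2 * B) (hAy : A * (B * Q ^ (b / 50)) ≤ y) (hyu : y ≤ Q ^ (1 / 2 + b / 4))
    (hbig : 4 < Q ^ (13 * b / 25)) : 2 * A * y < Q := by
  have hQ0 : 0 < Q := by linarith
  have e1 : y * y ≤ Q ^ (1 + b / 2) := by
    calc y * y ≤ Q ^ (1 / 2 + b / 4) * Q ^ (1 / 2 + b / 4) := by gcongr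
      _ = Q ^ (1 + b / 2) := by rw [← Real.rpow_add hQ0]; ring_nf
  have e2 : Q ^ (1 + b / 2) * Q ^ (13 * b / 25) = Q * (Q ^ b * Q ^ (b / 50)) := by
    rw [← Real.rpow_add hQ0, ← Real.rpow_add hQ0]
    nth_rw 2 [← Real.rpow_one Q]
    rw [← Real.rpow_add hQ0]
    ring_nf
  have p1 : 0 < Q ^ (b / 50) := Real.rpow_pos_of_pos hQ0 _
  have p2 : 0 < Q ^ b := Real.rpow_pos_of_pos hQ0 _
  have p3 : 0 < Q ^ (1 + b / 2) := Real.rpow_pos_of_pos hQ0 _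
  have e3 : (2 * A * y) * (Q ^ b * Q ^ (b / 50)) ≤ 4 * Q ^ (1 + b / 2) := by
    calc (2 * A * y) * (Q ^ b * Q ^ (b / 50)) ≤ (2 * A * y) * ((2 * B) * Q ^ (b / 50)) := by gcongr
      _ = 4 * (A * (B * Q ^ (b / 50))) * y := by ring
      _ ≤ 4 * y * y := by gcongr
      _ = 4 * (y * y) := by ring
      _ ≤ _ := by gcongr
  have e4 : 4 * Q ^ (1 + b / 2) < Q * (Q ^ b * Q ^ (b / 50)) := by
    rw [← e2, mul_comm (4 : ℝ)]
    exact mul_lt_mul_of_pos_left hbig p3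
  have e5 : (2 * A * y) * (Q ^ b * Q ^ (b / 50)) < Q * (Q ^ b * Q ^ (b / 50)) := by linarith
  exact lt_of_mul_lt_mul_right e5 (by positivity)

/-- the fourth moment term -/
private lemma b5_moment {Q b A B y L S M : ℝ} (hQ : 1 ≤ Q) (hA0 : 0 < A) (hB1 : 1 ≤ B) (hy : 0 < y)
    (hL : 0 < L) (hS : A / (8 * L) ≤ S) (hM : M ≤ 3 * Q * B ^ (2.9 : ℝ))
    (hB : Q ^ b ≤ 2 * B) (hAy : y ≤ 2 * A * (B * Q ^ (b / 50))) (hyl : Q ^ (1 / 2 - b / 100) ≤ y)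
    (hbig : 96 * L ≤ Q ^ (b / 200)) : M / (B ^ 4 * S * y) ≤ Q ^ (-(11 * b / 200)) := by
  have hQ0 : 0 < Q := by linarith
  have hB0 : 0 < B := by linarith
  have hS0 : 0 < S := lt_of_lt_of_le (by positivity) hS
  have p1 : 0 < Q ^ (b / 50) := Real.rpow_pos_of_pos hQ0 _
  have p2 : 0 < Q ^ b := Real.rpow_pos_of_pos hQ0 _
  have p3 : 0 < Q ^ (-(11 * b / 200)) := Real.rpow_pos_of_pos hQ0 _
  have p4 : 0 < B ^ (2.9 : ℝ) := Real.rpow_pos_of_pos hB0 _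
  have p5 : 0 < B ^ (0.1 : ℝ) := Real.rpow_pos_of_pos hB0 _
  rw [div_le_iff₀ (by positivity)]
  refine hM.trans ?_
  -- powers of B
  have hB4 : B ^ 4 = B ^ (2.9 : ℝ) * B ^ (0.1 : ℝ) * B := by
    rw [← Real.rpow_natCast, ← Real.rpow_add hB0]
    nth_rw 3 [← Real.rpow_one B]
    rw [← Real.rpow_add hB0]
    norm_num
  have hB01 : Q ^ (b / 10) ≤ 2 * B ^ (0.1 : ℝ) := by
    have h1 : (Q ^ b) ^ (0.1 : ℝ) ≤ (2 * B) ^ (0.1 : ℝ) := Real.rpow_le_rpow p2.le hB (by norm_num)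
    rw [← Real.rpow_mul hQ0.le, Real.mul_rpow (by norm_num) hB0.le] at h1
    have h2 : (2 : ℝ) ^ (0.1 : ℝ) ≤ 2 := by
      calc (2 : ℝ) ^ (0.1 : ℝ) ≤ 2 ^ (1 : ℝ) := Real.rpow_le_rpow_of_exponent_le (by norm_num) (by norm_num)
        _ = 2 := Real.rpow_one 2
    have h3 : b * 0.1 = b / 10 := by ring
    rw [h3] at h1
    calc Q ^ (b / 10) ≤ 2 ^ (0.1 : ℝ) * B ^ (0.1 : ℝ) := h1
      _ ≤ _ := by gcongr
  have hyy : Q ^ (1 - b / 50) ≤ y * y := by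
    calc Q ^ (1 - b / 50) = Q ^ (1 / 2 - b / 100) * Q ^ (1 / 2 - b / 100) := by
          rw [← Real.rpow_add hQ0]; ring_nf
      _ ≤ y * y := by
          have := Real.rpow_pos_of_pos hQ0 (1 / 2 - b / 100)
          gcongr
  -- exponents
  have hexp : Q ^ (-(11 * b / 200)) * (Q ^ (b / 10) * Q ^ (1 - b / 50)) = Q * Q ^ (b / 200) * Q ^ (b / 50) := by
    rw [← Real.rpow_add hQ0, ← Real.rpow_add hQ0]
    nth_rw 2 [← Real.rpow_one Q]
    rw [← Real.rpow_add hQ0, ← Real.rpow_add hQ0]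
    ring_nf
  have hkey : Q * (96 * L) * Q ^ (b / 50) ≤ Q ^ (-(11 * b / 200)) * ((2 * B ^ (0.1 : ℝ)) * (y * (2 * A * (B * Q ^ (b / 50))))) := by
    calc Q * (96 * L) * Q ^ (b / 50) ≤ Q * Q ^ (b / 200) * Q ^ (b / 50) := by gcongr
      _ = Q ^ (-(11 * b / 200)) * (Q ^ (b / 10) * Q ^ (1 - b / 50)) := hexp.symm
      _ ≤ Q ^ (-(11 * b / 200)) * ((2 * B ^ (0.1 : ℝ)) * (y * y)) := by gcongr
      _ ≤ _ := by gcongr
  have hkey2 : Q * (24 * L) ≤ Q ^ (-(11 * b / 200)) * (B ^ (0.1 : ℝ) * (y * (A * B))) := by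
    have : (4 * Q ^ (b / 50)) * (Q * (24 * L)) ≤
        (4 * Q ^ (b / 50)) * (Q ^ (-(11 * b / 200)) * (B ^ (0.1 : ℝ) * (y * (A * B)))) := by
      calc (4 * Q ^ (b / 50)) * (Q * (24 * L)) = Q * (96 * L) * Q ^ (b / 50) := by ring
        _ ≤ _ := hkey
        _ = _ := by ring
    exact le_of_mul_le_mul_left this (by positivity)
  have hkey3 : 3 * Q ≤ Q ^ (-(11 * b / 200)) * (B ^ (0.1 : ℝ) * (y * ((A / (8 * L)) * B))) := by
    have : (8 * L) * (3 * Q) ≤ (8 * L) * (Q ^ (-(11 * b / 200)) * (B ^ (0.1 : ℝ) * (y * ((A / (8 * L)) * B)))) := by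
      calc (8 * L) * (3 * Q) = Q * (24 * L) := by ring
        _ ≤ _ := hkey2
        _ = _ := by field_simp
    exact le_of_mul_le_mul_left this (by positivity)
  calc 3 * Q * B ^ (2.9 : ℝ)
      ≤ (Q ^ (-(11 * b / 200)) * (B ^ (0.1 : ℝ) * (y * ((A / (8 * L)) * B)))) * B ^ (2.9 : ℝ) := by gcongr
    _ ≤ (Q ^ (-(11 * b / 200)) * (B ^ (0.1 : ℝ) * (y * (S * B)))) * B ^ (2.9 : ℝ) := by gcongr
    _ = Q ^ (-(11 * b / 200)) * (B ^ 4 * S * y) := by rw [hB4]; ring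

theorem burgess_fin (b : ℝ) (hb : 0 < b) (hb1 : b ≤ 1 / 10) : ∃ q0 : ℕ, ∀ q : ℕ, q0 ≤ q → ∀ _hq : NeZero q,
    ∀ χ : DirichletCharacter ℂ q, M4 χ ⌊(q : ℝ) ^ b⌋₊ ≤ 3 * q * ((⌊(q : ℝ) ^ b⌋₊ : ℕ) : ℝ) ^ (2.9 : ℝ) →
    ∀ y : ℕ, (q : ℝ) ^ (1 / 2 - b / 100) ≤ y → (y : ℝ) ≤ (q : ℝ) ^ (1 / 2 + b / 4) →
    ‖csum χ y‖ ≤ y * (q : ℝ) ^ (-(b / 100)) := by
  obtain ⟨X0, hX0⟩ := b5_theta
  have a1 : ∀ᶠ x : ℝ in Filter.atTop, 2 ≤ x ^ b := (tendsto_rpow_atTop hb).eventually_ge_atTop _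
  have a2 : ∀ᶠ x : ℝ in Filter.atTop, 4 < x ^ (13 * b / 25) :=
    (tendsto_rpow_atTop (show 0 < 13 * b / 25 by positivity)).eventually_gt_atTop _
  have a3 : ∀ᶠ x : ℝ in Filter.atTop, X0 + 2 ≤ x ^ (1 / 4 : ℝ) :=
    (tendsto_rpow_atTop (show (0 : ℝ) < 1 / 4 by norm_num)).eventually_ge_atTop _
  have a3' : ∀ᶠ x : ℝ in Filter.atTop, 2 ≤ x ^ (1 / 4 : ℝ) :=
    (tendsto_rpow_atTop (show (0 : ℝ) < 1 / 4 by norm_num)).eventually_ge_atTop _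
  have a4 := (isLittleO_log_rpow_atTop (show (0 : ℝ) < 1 / 4 by norm_num)).bound
    (show (0 : ℝ) < 1 / 16 by norm_num)
  have a5 := (isLittleO_log_rpow_atTop (show 0 < b / 200 by positivity)).bound
    (show (0 : ℝ) < 1 / 96 by norm_num)
  have a6 : ∀ᶠ x : ℝ in Filter.atTop, 6 ≤ x ^ (3 * b / 800) :=
    (tendsto_rpow_atTop (show 0 < 3 * b / 800 by positivity)).eventually_ge_atTop _
  have a7 := Filter.eventually_ge_atTop (2 : ℝ)
  obtain ⟨X, hX⟩ := Filter.eventually_atTop.mp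
    (a1.and (a2.and (a3.and (a3'.and (a4.and (a5.and (a6.and a7)))))))
  refine ⟨max 2 ⌈X⌉₊, fun q hq _ χ hM y hyl hyu => ?_⟩
  have hq2 : 2 ≤ q := (le_max_left _ _).trans hq
  have hqX : X ≤ q := (Nat.le_ceil X).trans (by exact_mod_cast (le_max_right _ _).trans hq)
  obtain ⟨g1, g2, g3, g3', g4, g5, g6, g7⟩ := hX q hqX
  clear hX hqX a1 a2 a3 a3' a4 a5 a6 a7
  have hQ0 : (0 : ℝ) < q := by linarith
  have hQ1 : (1 : ℝ) ≤ q := by linarith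
  have hl : 0 < Real.log q := Real.log_pos (by linarith)
  rw [Real.norm_eq_abs, Real.norm_eq_abs, abs_of_pos hl, abs_of_nonneg (by positivity)] at g4 g5
  set B : ℕ := ⌊(q : ℝ) ^ b⌋₊ with hBdef
  have hBle : (B : ℝ) ≤ (q : ℝ) ^ b := Nat.floor_le (by positivity)
  have hBlt : (q : ℝ) ^ b < B + 1 := Nat.lt_floor_add_one _
  have hB1 : (1 : ℝ) ≤ B := by
    have : 1 ≤ B := by
      rw [hBdef]
      apply Nat.le_floor
      push_cast
      linarith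
    exact_mod_cast this
  have hB2 : (q : ℝ) ^ b ≤ 2 * B := by linarith
  have hBN : 1 ≤ B := by exact_mod_cast hB1
  have hy1 : (1 : ℝ) ≤ y := by
    refine le_trans ?_ hyl
    exact Real.one_le_rpow hQ1 (by linarith)
  have hyN : 1 ≤ y := by exact_mod_cast hy1
  have hy0 : (0 : ℝ) < y := by linarith
  have pQ : 0 < (q : ℝ) ^ (b / 50) := Real.rpow_pos_of_pos hQ0 _
  set D : ℝ := B * (q : ℝ) ^ (b / 50) with hD
  have hD0 : 0 < D := by positivity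
  set t : ℝ := y / D with ht
  have ht1 : (q : ℝ) ^ (1 / 4 : ℝ) ≤ t := by
    rw [ht, le_div_iff₀ hD0, hD]
    calc (q : ℝ) ^ (1 / 4 : ℝ) * (B * (q : ℝ) ^ (b / 50))
        ≤ (q : ℝ) ^ (1 / 4 : ℝ) * ((q : ℝ) ^ b * (q : ℝ) ^ (b / 50)) := by gcongr
      _ = (q : ℝ) ^ (1 / 4 + (b + b / 50)) := by rw [← Real.rpow_add hQ0, ← Real.rpow_add hQ0]
      _ ≤ (q : ℝ) ^ (1 / 2 - b / 100) := by
          apply Real.rpow_le_rpow_of_exponent_le hQ1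
          linarith
      _ ≤ y := hyl
  set A : ℕ := ⌊t⌋₊ with hAdef
  have ht2 : 2 ≤ t := g3'.trans ht1
  have hAle : (A : ℝ) ≤ t := Nat.floor_le (by linarith)
  have hAlt : t < A + 1 := Nat.lt_floor_add_one _
  have hA1 : (1 : ℝ) ≤ A := by
    have : 1 ≤ A := by
      rw [hAdef]
      apply Nat.le_floor
      push_cast
      linarith
    exact_mod_cast this
  have hAN : 1 ≤ A := by exact_mod_cast hA1
  have hA0 : (0 : ℝ) < A := by linarith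
  have hAy1 : (A : ℝ) * (B * (q : ℝ) ^ (b / 50)) ≤ y := by
    rw [← hD]
    rw [ht, le_div_iff₀ hD0] at hAle
    exact hAle
  have hAy2 : (y : ℝ) ≤ 2 * A * (B * (q : ℝ) ^ (b / 50)) := by
    rw [← hD]
    have : t ≤ 2 * A := by linarith
    rw [ht, div_le_iff₀ hD0] at this
    exact this
  have hsmall : 2 * (A : ℝ) * y < q :=
    b5_small hQ1 hA0.le (by linarith) hy0 hB2 hAy1 hyu g2
  have hsmallN : 2 * A * y < q := by exact_mod_cast hsmall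
  -- the primes
  set S : Finset ℕ := (Ioc A (2 * A)).filter (fun a => a.Prime ∧ ¬ a ∣ q) with hSdef
  have hS : ∀ a ∈ S, a.Prime ∧ A < a ∧ a ≤ 2 * A ∧ ¬ a ∣ q := by
    intro a ha
    rw [hSdef, mem_filter, mem_Ioc] at ha
    exact ⟨ha.2.1, ha.1.1, ha.1.2, ha.2.2⟩
  have h2Aq : 2 * (A : ℝ) ≤ q := by
    have : 2 * (A : ℝ) * 1 ≤ 2 * (A : ℝ) * y := by gcongr
    linarith
  have hAX : X0 ≤ A := by linarith
  have hAl : 8 * Real.log q ≤ A := by linarith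
  have hScard : (A : ℝ) / (8 * Real.log q) ≤ (S.card : ℝ) := by
    apply b5_key (A : ℝ) (2 * A) A q S hA0.le (by linarith) _ _ _ hq2 hAl
    · intro p p1 p2 p3 p4
      rw [hSdef, mem_filter, mem_Ioc]
      refine ⟨⟨by exact_mod_cast p2, by exact_mod_cast p3⟩, p1, p4⟩
    · intro p hp
      refine ⟨(hS p hp).1, ?_⟩
      have h1 : (p : ℝ) ≤ 2 * A := by exact_mod_cast (hS p hp).2.2.1
      linarith
    · have e1 := hX0 (A : ℝ) hAX
      have e2 := hX0 (2 * (A : ℝ)) (by linarith)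
      rw [abs_le] at e1 e2
      linarith
  have hSpos : (0 : ℝ) < S.card := lt_of_lt_of_le (by positivity) hScard
  have hSne : S.Nonempty := by
    rw [← Finset.card_pos]
    exact_mod_cast hSpos
  have hbur := burgess χ A B y hAN hBN hyN hsmallN S hS hSne
  have hmom := b5_moment hQ1 hA0 hB1 hy0 hl hScard hM hB2 hAy2 hyl (by linarith)
  have hM0 : 0 ≤ M4 χ B / ((B : ℝ) ^ 4 * S.card * y) := by
    apply div_nonneg
    · unfold M4
      exact sum_nonneg fun x _ => by positivity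
    · positivity
  have hroot : (M4 χ B / ((B : ℝ) ^ 4 * S.card * y)) ^ (1 / 4 : ℝ) ≤ (q : ℝ) ^ (-(11 * b / 800)) := by
    refine (Real.rpow_le_rpow hM0 hmom (by norm_num)).trans (le_of_eq ?_)
    rw [← Real.rpow_mul hQ0.le]
    ring_nf
  have hAB : 4 * (A : ℝ) * B ≤ 4 * y * (q : ℝ) ^ (-(b / 50)) := by
    rw [Real.rpow_neg hQ0.le]
    have : (A : ℝ) * B ≤ y * ((q : ℝ) ^ (b / 50))⁻¹ := by
      rw [← div_eq_mul_inv, le_div_iff₀ pQ]
      calc (A : ℝ) * B * (q : ℝ) ^ (b / 50) = (A : ℝ) * (B * (q : ℝ) ^ (b / 50)) := by ring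
        _ ≤ y := hAy1
    linarith
  have hs1 : 6 * (q : ℝ) ^ (-(b / 50)) ≤ (q : ℝ) ^ (-(b / 100)) := by
    have h1 : (q : ℝ) ^ (-(b / 100)) = (q : ℝ) ^ (-(b / 50)) * (q : ℝ) ^ (b / 100) := by
      rw [← Real.rpow_add hQ0]; ring_nf
    have h2 : (6 : ℝ) ≤ (q : ℝ) ^ (b / 100) := by
      refine g6.trans ?_
      apply Real.rpow_le_rpow_of_exponent_le hQ1
      linarith
    rw [h1, mul_comm]
    have := Real.rpow_pos_of_pos hQ0 (-(b / 50))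
    gcongr
  have hs2 : 6 * (q : ℝ) ^ (-(11 * b / 800)) ≤ (q : ℝ) ^ (-(b / 100)) := by
    have h1 : (q : ℝ) ^ (-(b / 100)) = (q : ℝ) ^ (-(11 * b / 800)) * (q : ℝ) ^ (3 * b / 800) := by
      rw [← Real.rpow_add hQ0]; ring_nf
    rw [h1, mul_comm]
    have := Real.rpow_pos_of_pos hQ0 (-(11 * b / 800))
    gcongr
  calc ‖csum χ y‖ ≤ 4 * A * B + 2 * y * (M4 χ B / ((B : ℝ) ^ 4 * S.card * y)) ^ (1 / 4 : ℝ) := hbur
    _ ≤ 4 * y * (q : ℝ) ^ (-(b / 50)) + 2 * y * (q : ℝ) ^ (-(11 * b / 800)) := by gcongr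
    _ = (y : ℝ) * (4 / 6 * (6 * (q : ℝ) ^ (-(b / 50))) + 2 / 6 * (6 * (q : ℝ) ^ (-(11 * b / 800)))) := by ring
    _ ≤ (y : ℝ) * (4 / 6 * (q : ℝ) ^ (-(b / 100)) + 2 / 6 * (q : ℝ) ^ (-(b / 100))) := by gcongr
    _ = y * (q : ℝ) ^ (-(b / 100)) := by ring

end Pool.Agent.Lib.SPV
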