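import Pool.Agent.Lib.MP_7b7e48_nt.SPV.A3
import Pool.Agent.Lib.MP_7b7e48_nt.SPV.A4
import Pool.Agent.Lib.MP_7b7e48_nt.SPV.A2

/-!
# SPV C1: average over parallelograms, modulo a prime

PROOF. Pairs `(u,v)` with `u = 0` or `v = 0` or `u = v` or `u = -v`: at most `4p` pairs, `‖SP‖ ≤ p` (`S4_le`): `≤ 4p²`. The others: `0, u+v, u, v` are
pairwise different, `S4_cr` with `a = 0`, `b = u+v`, `c = u`, `d = v`: `(c-b)(a-d)/((d-b)(a-c)) = (-v)(-v)/((-u)(-u)) = (v/u)²`, so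
`‖SP‖ ≤ ‖Tcr ((v/u)²)‖ + 1`. For fixed `u ≠ 0`, `v = r u`: `∑_r (‖Tcr(r²)‖ + 1) ≤ 2 ∑_t ‖Tcr t‖ + p ≤ 2 √p (∑‖Tcr‖²)^{1/2} + p ≤ 2 p^{3/2} + p`
(`r ↦ r²` has fibres `≤ 2`; Cauchy-Schwarz; `Tcr_sq`). Sum over `u`: `2p^{5/2} + p²`. Total `≤ 5p² + 2p^{5/2} ≤ 6 p^{5/2}` (`5 ≤ 4√p`).
-/

set_option autoImplicit false

open Finset

namespace Pool.Agent.Lib.SPV

private theorem C1_sq {p : ℕ} [Fact p.Prime] (f : ZMod p → ℝ) (hf : ∀ t, 0 ≤ f t) :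
    ∑ r : ZMod p, f (r ^ 2) ≤ 2 * ∑ t : ZMod p, f t := by
  classical
  have h1 : ∑ r : ZMod p, f (r ^ 2) =
      ∑ t : ZMod p, ∑ r ∈ univ.filter (fun r : ZMod p => r ^ 2 = t), f (r ^ 2) :=
    (Finset.sum_fiberwise univ (fun r : ZMod p => r ^ 2) (fun r => f (r ^ 2))).symm
  rw [h1, Finset.mul_sum]
  refine Finset.sum_le_sum fun t _ => ?_
  have h2 : ∑ r ∈ univ.filter (fun r : ZMod p => r ^ 2 = t), f (r ^ 2) =
      ((univ.filter (fun r : ZMod p => r ^ 2 = t)).card : ℝ) * f t := by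
    rw [Finset.sum_congr rfl (fun r hr => by rw [(Finset.mem_filter.1 hr).2]),
      Finset.sum_const, nsmul_eq_mul]
  rw [h2]
  refine mul_le_mul_of_nonneg_right ?_ (hf t)
  have h3 : (univ.filter (fun r : ZMod p => r ^ 2 = t)).card ≤ 2 := by
    rcases (univ.filter (fun r : ZMod p => r ^ 2 = t)).eq_empty_or_nonempty with h | ⟨r0, h0⟩
    · rw [h, Finset.card_empty]
      norm_num
    · have h4 : univ.filter (fun r : ZMod p => r ^ 2 = t) ⊆ {r0, -r0} := by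
        intro r hr
        have h5 := (Finset.mem_filter.1 hr).2
        have h6 := (Finset.mem_filter.1 h0).2
        rw [Finset.mem_insert, Finset.mem_singleton]
        exact sq_eq_sq_iff_eq_or_eq_neg.1 (h5.trans h6.symm)
      exact (Finset.card_le_card h4).trans Finset.card_le_two
  exact_mod_cast h3

private theorem C1_Tcr {p : ℕ} [Fact p.Prime] (χ : DirichletCharacter ℂ p) (hχ : χ ≠ 1) {s : ℝ}
    (hs : 0 ≤ s) (hs2 : s ^ 2 = p) : ∑ t : ZMod p, ‖Tcr χ t‖ ≤ s ^ 3 := by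
  have h1 := sq_sum_le_card_mul_sum_sq (s := (univ : Finset (ZMod p))) (f := fun t => ‖Tcr χ t‖)
  rw [Finset.card_univ, ZMod.card] at h1
  have h2 := Tcr_sq χ hχ
  have hp : (0 : ℝ) ≤ p := Nat.cast_nonneg p
  have h3 : (∑ t : ZMod p, ‖Tcr χ t‖) ^ 2 ≤ (s ^ 3) ^ 2 := by
    calc (∑ t : ZMod p, ‖Tcr χ t‖) ^ 2 ≤ (p : ℝ) * ∑ t : ZMod p, ‖Tcr χ t‖ ^ 2 := h1
      _ ≤ (p : ℝ) * (p : ℝ) ^ 2 := mul_le_mul_of_nonneg_left h2 hp
      _ = (s ^ 3) ^ 2 := by rw [← hs2]; ring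
  exact (pow_le_pow_iff_left₀ (Finset.sum_nonneg fun _ _ => norm_nonneg _) (by positivity)
    two_ne_zero).1 h3

private theorem C1_pt {p : ℕ} [Fact p.Prime] (χ : DirichletCharacter ℂ p) {u : ZMod p}
    (hu : u ≠ 0) (v : ZMod p) : ‖SP χ u v‖ ≤ (if v = 0 then (p : ℝ) else 0) +
      (if v = u then (p : ℝ) else 0) + (if v = -u then (p : ℝ) else 0) +
      (‖Tcr χ ((v * u⁻¹) ^ 2)‖ + 1) := by
  have hp : (0 : ℝ) ≤ p := Nat.cast_nonneg p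
  have hle : ‖SP χ u v‖ ≤ p := S4_le χ _ _ _ _
  have hT : 0 ≤ ‖Tcr χ ((v * u⁻¹) ^ 2)‖ := norm_nonneg _
  by_cases h0 : v = 0
  · rw [if_pos h0]
    have h1 : 0 ≤ (if v = u then (p : ℝ) else 0) := by split_ifs <;> linarith
    have h2 : 0 ≤ (if v = -u then (p : ℝ) else 0) := by split_ifs <;> linarith
    linarith
  by_cases h1 : v = u
  · rw [if_neg h0, if_pos h1]
    have h2 : 0 ≤ (if v = -u then (p : ℝ) else 0) := by split_ifs <;> linarith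
    linarith
  by_cases h2 : v = -u
  · rw [if_neg h0, if_neg h1, if_pos h2]
    linarith
  rw [if_neg h0, if_neg h1, if_neg h2]
  have h3 := S4_cr χ 0 (u + v) u v
    (fun h => h2 (eq_neg_of_add_eq_zero_right h.symm)) hu.symm (fun h => h0 h.symm)
    (fun h => h0 (by simpa using h)) (fun h => hu (by simpa using h)) (fun h => h1 h.symm)
  have h4 : ((u - (u + v)) * (0 - v)) * ((v - (u + v)) * (0 - u))⁻¹ = (v * u⁻¹) ^ 2 := by
    have e1 : (u - (u + v)) * (0 - v) = v ^ 2 := by ring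
    have e2 : (v - (u + v)) * (0 - u) = u ^ 2 := by ring
    rw [e1, e2, mul_pow, inv_pow]
  rw [h4] at h3
  have h5 : ‖SP χ u v‖ ≤ ‖Tcr χ ((v * u⁻¹) ^ 2)‖ + 1 := h3
  linarith

private theorem C1_row {p : ℕ} [Fact p.Prime] (χ : DirichletCharacter ℂ p) (hχ : χ ≠ 1) {s : ℝ}
    (hs : 0 ≤ s) (hs2 : s ^ 2 = p) (u : ZMod p) :
    ∑ v : ZMod p, ‖SP χ u v‖ ≤ (if u = 0 then (p : ℝ) * p else 0) + (4 * p + 2 * s ^ 3) := by
  have hp : (0 : ℝ) ≤ p := Nat.cast_nonneg p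
  by_cases hu : u = 0
  · rw [if_pos hu]
    have h1 : ∑ v : ZMod p, ‖SP χ u v‖ ≤ ∑ _v : ZMod p, (p : ℝ) :=
      Finset.sum_le_sum fun v _ => S4_le χ _ _ _ _
    rw [Finset.sum_const, Finset.card_univ, ZMod.card, nsmul_eq_mul] at h1
    have h2 : 0 ≤ s ^ 3 := by positivity
    linarith
  · rw [if_neg hu]
    have h1 : ∑ v : ZMod p, ‖SP χ u v‖ ≤ ∑ v : ZMod p, ((if v = 0 then (p : ℝ) else 0) +
      (if v = u then (p : ℝ) else 0) + (if v = -u then (p : ℝ) else 0) +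
      (‖Tcr χ ((v * u⁻¹) ^ 2)‖ + 1)) := Finset.sum_le_sum fun v _ => C1_pt χ hu v
    have h2 : ∑ v : ZMod p, ‖Tcr χ ((v * u⁻¹) ^ 2)‖ = ∑ r : ZMod p, ‖Tcr χ (r ^ 2)‖ :=
      Equiv.sum_comp (Equiv.mulRight₀ u⁻¹ (inv_ne_zero hu)) fun r => ‖Tcr χ (r ^ 2)‖
    have h3 := C1_sq (fun t => ‖Tcr χ t‖) fun t => norm_nonneg _
    have h4 := C1_Tcr χ hχ hs hs2
    rw [Finset.sum_add_distrib, Finset.sum_add_distrib, Finset.sum_add_distrib,
      Finset.sum_add_distrib, Finset.sum_ite_eq', Finset.sum_ite_eq', Finset.sum_ite_eq', h2,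
      if_pos (Finset.mem_univ _), if_pos (Finset.mem_univ _), if_pos (Finset.mem_univ _),
      Finset.sum_const, Finset.card_univ, ZMod.card, nsmul_eq_mul, mul_one] at h1
    linarith

theorem SP_avg_prime {p : ℕ} [Fact p.Prime] (χ : DirichletCharacter ℂ p) (hχ : χ ≠ 1) :
    ∑ u : ZMod p, ∑ v : ZMod p, ‖SP χ u v‖ ≤ 6 * (p : ℝ) ^ (5 / 2 : ℝ) := by
  have hp2 : (2 : ℝ) ≤ p := by exact_mod_cast (Fact.out : p.Prime).two_le
  have hp0 : (0 : ℝ) ≤ p := by linarith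
  set s : ℝ := Real.sqrt p with hsdef
  have hs : 0 ≤ s := Real.sqrt_nonneg _
  have hs2 : s ^ 2 = p := Real.sq_sqrt hp0
  have h5 : (p : ℝ) ^ (5 / 2 : ℝ) = s ^ 5 := by
    rw [hsdef, Real.sqrt_eq_rpow, ← Real.rpow_natCast, ← Real.rpow_mul hp0]
    norm_num
  have h1 : ∑ u : ZMod p, ∑ v : ZMod p, ‖SP χ u v‖ ≤
      ∑ u : ZMod p, ((if u = 0 then (p : ℝ) * p else 0) + (4 * p + 2 * s ^ 3)) :=
    Finset.sum_le_sum fun u _ => C1_row χ hχ hs hs2 u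
  rw [Finset.sum_add_distrib, Finset.sum_ite_eq', if_pos (Finset.mem_univ _), Finset.sum_const,
    Finset.card_univ, ZMod.card, nsmul_eq_mul, ← hs2] at h1
  rw [h5]
  have hs1 : 5 / 4 ≤ s := by
    by_contra hcon
    push Not at hcon
    nlinarith
  have h6 : 0 ≤ s ^ 4 := by positivity
  nlinarith [mul_le_mul_of_nonneg_left hs1 h6]

end Pool.Agent.Lib.SPV
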