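import Pool.Agent.Lib.MP_7b7e48_nt.SPV.B1
import Pool.Agent.Lib.MP_7b7e48_nt.SPV.B2
import Pool.Agent.Lib.MP_7b7e48_nt.SPV.A2

/-!
# SPV C2: average over parallelograms, modulo a prime power

PROOF. `e ≥ 2`, `g = e/2 ≥ 1`, `M = p^(e-g)`: `p^e = M p^g`, `p^e ∣ M²`. For `a = 0`, `b = u+v`, `c = u`, `d = v` the polynomial of `S4_stat` is
`(x+u)(x+v)(2x+u+v) - x(x+u+v)(2x+u+v) = (2x+u+v) u v`. So `‖SP χ u v‖ ≤ #{x : p^g ∣ ((2x+u+v)uv).val} ≤ p^(e-g) gcd(2 u v, p^g)` (`roots_lin` with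
`A = 2 u.val v.val`, `C = (u.val+v.val) u.val v.val`) `≤ p^(e-g) * 2 gcd(u.val,p^g) gcd(v.val,p^g)`. And `∑_{u : ZMod p^e} gcd(u.val,p^g) ≤
∑_{j ≤ g} p^j #{u : p^j ∣ u.val} = (g+1) p^e`. Product: `2 (g+1)² p^(2e) p^(e-g)`.
-/

set_option autoImplicit false

open Finset

namespace Pool.Agent.Lib.SPV

private theorem C2_count {p e j : ℕ} [NeZero (p ^ e)] (hp : p.Prime) (hj : j ≤ e) :
    (univ.filter (fun x : ZMod (p ^ e) => p ^ j ∣ x.val)).card ≤ p ^ (e - j) := by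
  have hq : p ^ e = p ^ (e - j) * p ^ j := by rw [← pow_add, Nat.sub_add_cancel hj]
  have h := roots_lin (q := p ^ e) (M := p ^ (e - j)) (g := j) hp hq 1 0
  have h1 : (univ.filter (fun x : ZMod (p ^ e) => p ^ j ∣ x.val)) =
      (univ.filter (fun x : ZMod (p ^ e) => ((p : ℤ) ^ j) ∣ 1 * (x.val : ℤ) + 0)) := by
    apply Finset.filter_congr
    intro x _
    rw [one_mul, add_zero, ← Nat.cast_pow, Int.natCast_dvd_natCast]
  rw [h1]
  refine h.trans (le_of_eq ?_)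
  rw [Int.gcd_one_left, mul_one]

private theorem C2_gcd {p e g : ℕ} [NeZero (p ^ e)] (hp : p.Prime) (hg : g ≤ e) :
    ∑ u : ZMod (p ^ e), Nat.gcd u.val (p ^ g) ≤ (g + 1) * p ^ e := by
  have h1 : ∀ u : ZMod (p ^ e), Nat.gcd u.val (p ^ g) ≤
      ∑ j ∈ range (g + 1), if p ^ j ∣ u.val then p ^ j else 0 := by
    intro u
    obtain ⟨j, hj, hj2⟩ := (Nat.dvd_prime_pow hp).1 (Nat.gcd_dvd_right u.val (p ^ g))
    rw [hj2]
    have hd : p ^ j ∣ u.val := by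
      rw [← hj2]
      exact Nat.gcd_dvd_left _ _
    have h2 := Finset.single_le_sum (f := fun j => if p ^ j ∣ u.val then p ^ j else 0)
      (fun _ _ => Nat.zero_le _) (mem_range.2 (Nat.lt_succ_of_le hj))
    simp only [if_pos hd] at h2
    exact h2
  calc ∑ u : ZMod (p ^ e), Nat.gcd u.val (p ^ g)
      ≤ ∑ u : ZMod (p ^ e), ∑ j ∈ range (g + 1), (if p ^ j ∣ u.val then p ^ j else 0) :=
        sum_le_sum fun u _ => h1 u
    _ = ∑ j ∈ range (g + 1), ∑ u : ZMod (p ^ e), (if p ^ j ∣ u.val then p ^ j else 0) := sum_comm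
    _ ≤ ∑ j ∈ range (g + 1), p ^ e := by
        refine sum_le_sum fun j hj => ?_
        have hj1 : j ≤ e := (Nat.le_of_lt_succ (mem_range.1 hj)).trans hg
        rw [← sum_filter, sum_const, smul_eq_mul]
        calc _ ≤ p ^ (e - j) * p ^ j := Nat.mul_le_mul_right _ (C2_count hp hj1)
          _ = p ^ e := by rw [← pow_add, Nat.sub_add_cancel hj1]
    _ = (g + 1) * p ^ e := by rw [sum_const, card_range, smul_eq_mul]

private theorem C2_ngcd (a b n : ℕ) (hn : 0 < n) :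
    Nat.gcd (2 * a * b) n ≤ 2 * (Nat.gcd a n * Nat.gcd b n) := by
  have h1 : Nat.gcd n (2 * (a * b)) ∣ Nat.gcd n 2 * Nat.gcd n (a * b) :=
    Nat.gcd_mul_right_dvd_mul_gcd n 2 (a * b)
  have h2 : Nat.gcd n (a * b) ∣ Nat.gcd n a * Nat.gcd n b :=
    Nat.gcd_mul_right_dvd_mul_gcd n a b
  have p1 : 0 < Nat.gcd n 2 := Nat.gcd_pos_of_pos_left _ hn
  have p2 : 0 < Nat.gcd n (a * b) := Nat.gcd_pos_of_pos_left _ hn
  have p3 : 0 < Nat.gcd n a * Nat.gcd n b :=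
    Nat.mul_pos (Nat.gcd_pos_of_pos_left _ hn) (Nat.gcd_pos_of_pos_left _ hn)
  have h3 := Nat.le_of_dvd (Nat.mul_pos p1 p2) h1
  have h4 := Nat.le_of_dvd p3 h2
  have h5 : Nat.gcd n 2 ≤ 2 := Nat.gcd_le_right _ (by norm_num)
  rw [Nat.gcd_comm (2 * a * b), Nat.gcd_comm a, Nat.gcd_comm b, mul_assoc]
  exact h3.trans (Nat.mul_le_mul h5 h4)

private theorem C2_SP {p e : ℕ} [NeZero (p ^ e)] (hp : p.Prime) (he : 2 ≤ e)
    (χ : DirichletCharacter ℂ (p ^ e)) (hχ : Prim χ) (u v : ZMod (p ^ e)) :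
    ‖SP χ u v‖ ≤ ((p ^ (e - e / 2) *
      (2 * (Nat.gcd u.val (p ^ (e / 2)) * Nat.gcd v.val (p ^ (e / 2)))) : ℕ) : ℝ) := by
  have hg : 1 ≤ e / 2 := by omega
  have hge : e / 2 ≤ e := by omega
  have hq : p ^ e = p ^ (e - e / 2) * p ^ (e / 2) := by rw [← pow_add, Nat.sub_add_cancel hge]
  have hM : p ^ e ∣ p ^ (e - e / 2) * p ^ (e - e / 2) := by
    rw [← pow_add]
    exact pow_dvd_pow _ (by omega)
  have h1 := S4_stat hp hq hg hM χ hχ 0 (u + v) u v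
  have h2 := roots_lin (q := p ^ e) (M := p ^ (e - e / 2)) (g := e / 2) hp hq
    (2 * (u.val : ℤ) * v.val) (((u.val : ℤ) + v.val) * (u.val * v.val))
  refine (le_of_eq (by rw [SP])).trans (h1.trans ?_)
  rw [Nat.cast_le]
  refine le_trans (Finset.card_le_card ?_) (h2.trans (Nat.mul_le_mul_left _ ?_))
  · intro x hx
    rw [mem_filter] at hx ⊢
    refine ⟨mem_univ _, ?_⟩
    obtain ⟨z, hz⟩ : ∃ z : ZMod (p ^ e), (x + u) * (x + v) * (2 * x + 0 + (u + v)) -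
      (x + 0) * (x + (u + v)) * (2 * x + u + v) = z := ⟨_, rfl⟩
    have hx2 := hx.2
    rw [hz] at hx2
    have h3 : ((z.val : ℤ) : ZMod (p ^ e)) =
        ((2 * (u.val : ℤ) * v.val * (x.val : ℤ) + ((u.val : ℤ) + v.val) * (u.val * v.val) : ℤ) :
          ZMod (p ^ e)) := by
      push_cast
      rw [ZMod.natCast_zmod_val, ZMod.natCast_zmod_val, ZMod.natCast_zmod_val,
        ZMod.natCast_zmod_val, ← hz]
      ring
    have h4 := (ZMod.intCast_eq_intCast_iff_dvd_sub _ _ _).1 h3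
    have h5 : ((p : ℤ) ^ (e / 2)) ∣ ((p ^ e : ℕ) : ℤ) := by
      rw [Nat.cast_pow]
      exact pow_dvd_pow _ hge
    have h6 : ((p : ℤ) ^ (e / 2)) ∣ (z.val : ℤ) := by
      rw [← Nat.cast_pow, Int.natCast_dvd_natCast]
      exact hx2
    have h7 := dvd_add (h5.trans h4) h6
    rw [sub_add_cancel] at h7
    exact h7
  · have e1 : 2 * (u.val : ℤ) * v.val = ((2 * u.val * v.val : ℕ) : ℤ) := by push_cast; ring
    have e2 : (p : ℤ) ^ (e / 2) = ((p ^ (e / 2) : ℕ) : ℤ) := by push_cast; ring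
    rw [e1, e2, Int.gcd_natCast_natCast]
    exact C2_ngcd _ _ _ (pow_pos hp.pos _)

theorem SP_avg_pow {p e : ℕ} [NeZero (p ^ e)] (hp : p.Prime) (he : 2 ≤ e) (χ : DirichletCharacter ℂ (p ^ e)) (hχ : Prim χ) :
    ∑ u : ZMod (p ^ e), ∑ v : ZMod (p ^ e), ‖SP χ u v‖ ≤
      2 * ((e / 2 : ℕ) + 1 : ℝ) ^ 2 * (p : ℝ) ^ (3 * e - e / 2 : ℕ) := by
  have hge : e / 2 ≤ e := by omega
  have h1 := C2_gcd (p := p) (e := e) (g := e / 2) hp hge
  have h2 : ∑ u : ZMod (p ^ e), ∑ v : ZMod (p ^ e), ‖SP χ u v‖ ≤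
      ((∑ u : ZMod (p ^ e), ∑ v : ZMod (p ^ e), p ^ (e - e / 2) *
        (2 * (Nat.gcd u.val (p ^ (e / 2)) * Nat.gcd v.val (p ^ (e / 2)))) : ℕ) : ℝ) := by
    rw [Nat.cast_sum]
    refine sum_le_sum fun u _ => ?_
    rw [Nat.cast_sum]
    exact sum_le_sum fun v _ => C2_SP hp he χ hχ u v
  refine h2.trans ?_
  have h3 : ∑ u : ZMod (p ^ e), ∑ v : ZMod (p ^ e), p ^ (e - e / 2) *
      (2 * (Nat.gcd u.val (p ^ (e / 2)) * Nat.gcd v.val (p ^ (e / 2)))) =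
      p ^ (e - e / 2) * (2 * ((∑ u : ZMod (p ^ e), Nat.gcd u.val (p ^ (e / 2))) *
        ∑ v : ZMod (p ^ e), Nat.gcd v.val (p ^ (e / 2)))) := by
    rw [sum_mul_sum, mul_sum, mul_sum]
    refine sum_congr rfl fun u _ => ?_
    rw [mul_sum, mul_sum]
  rw [h3]
  have h4 : p ^ (e - e / 2) * (2 * ((∑ u : ZMod (p ^ e), Nat.gcd u.val (p ^ (e / 2))) *
        ∑ v : ZMod (p ^ e), Nat.gcd v.val (p ^ (e / 2)))) ≤
      p ^ (e - e / 2) * (2 * (((e / 2 + 1) * p ^ e) * ((e / 2 + 1) * p ^ e))) :=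
    Nat.mul_le_mul_left _ (Nat.mul_le_mul_left _ (Nat.mul_le_mul h1 h1))
  have h5 : p ^ (e - e / 2) * (2 * (((e / 2 + 1) * p ^ e) * ((e / 2 + 1) * p ^ e))) =
      2 * (e / 2 + 1) ^ 2 * p ^ (3 * e - e / 2) := by
    have h6 : 3 * e - e / 2 = (e - e / 2) + e + e := by omega
    rw [h6, pow_add, pow_add]
    ring
  rw [h5] at h4
  have h7 : ((p ^ (e - e / 2) * (2 * ((∑ u : ZMod (p ^ e), Nat.gcd u.val (p ^ (e / 2))) *
        ∑ v : ZMod (p ^ e), Nat.gcd v.val (p ^ (e / 2)))) : ℕ) : ℝ) ≤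
      ((2 * (e / 2 + 1) ^ 2 * p ^ (3 * e - e / 2) : ℕ) : ℝ) := by exact_mod_cast h4
  refine h7.trans (le_of_eq ?_)
  rw [Nat.cast_mul, Nat.cast_mul, Nat.cast_pow, Nat.cast_pow, Nat.cast_add, Nat.cast_one,
    Nat.cast_ofNat]

end Pool.Agent.Lib.SPV
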