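import Pool.Agent.Lib.MP_7b7e48_nt.SPV.A1
import Pool.Agent.Lib.MP_7b7e48_nt.SPV.C1
import Pool.Agent.Lib.MP_7b7e48_nt.SPV.C2

/-!
# SPV C3: average over parallelograms, all moduli

PROOF. Claim: there is `K ≥ 1` with `∑_{u,v} ‖SP χ u v‖ ≤ K^(#primeFactors of q below p0) q^(3-1/8)` for `Prim χ` mod `q`, `p0 = 1000`; then `C0 = K^p0`.
Induction with `Nat.recOnPosPrimePosCoprime`: `q = 0` excluded, `q = 1`: the sum has one term of norm `≤ 1`. Prime power `q = p^e`: `e = 1`: `C1` gives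
`6 p^(5/2)` (`Prim` implies `χ ≠ 1`; `p^1 = p` needs a transport) and the trivial bound `p³`; `6 p^(5/2) ≤ p^(3-1/8)` iff `6 ≤ p^(3/8)`: true for
`p ≥ 1000`; for `p < 1000` use `p³ ≤ 1000^(1/8) p^(3-1/8)`. `e ≥ 2`: `C2` gives `2 (g+1)² p^(3e-g)`, `g = e/2 ≥ (e-1)/2`; it is `≤ p^((3-1/8)e)` if
`2(g+1)² ≤ p^(g - e/8)`, and `g - e/8 ≥ 3g/4 - 1/8 ≥ 5g/8` (as `e ≤ 2g+1`, `g ≥ 1`); for `p ≥ 1000`: `1000^(5g/8) ≥ 75^g ≥ 2 (g+1)²`. For `p < 1000`:
`2(g+1)² ≤ K 2^(5g/8)` with an absolute `K`. Coprime product: `crt_char`, `SP_avg_mul`, product of the bounds, the prime factors of `mn` are the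
disjoint union.
-/

set_option autoImplicit false

open Finset

namespace Pool.Agent.Lib.SPV

/-- the number of small prime factors -/
private def C3_om (q : ℕ) : ℕ := (q.primeFactors.filter (· < 1000)).card

private theorem C3_om_le (q : ℕ) : C3_om q ≤ 1000 := by
  unfold C3_om
  calc (q.primeFactors.filter (· < 1000)).card ≤ (range 1000).card := by
        apply card_le_card
        intro p hp
        rw [mem_filter] at hp
        exact mem_range.2 hp.2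
    _ = 1000 := card_range _

private theorem C3_om_mul {a b : ℕ} (h : a.Coprime b) : C3_om (a * b) = C3_om a + C3_om b := by
  unfold C3_om
  rw [h.primeFactors_mul, filter_union, card_union_of_disjoint]
  exact disjoint_filter_filter h.disjoint_primeFactors

private theorem C3_om_pow {p e : ℕ} (hp : p.Prime) (he : 0 < e) (h : p < 1000) :
    C3_om (p ^ e) = 1 := by
  unfold C3_om
  rw [Nat.primeFactors_prime_pow he.ne' hp, filter_singleton, if_pos h, card_singleton]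

private theorem C3_om_pow' {p e : ℕ} (hp : p.Prime) (he : 0 < e) (h : ¬ p < 1000) :
    C3_om (p ^ e) = 0 := by
  unfold C3_om
  rw [Nat.primeFactors_prime_pow he.ne' hp, filter_singleton, if_neg h, card_empty]

private theorem C3_triv {q : ℕ} [NeZero q] (χ : DirichletCharacter ℂ q) :
    ∑ u : ZMod q, ∑ v : ZMod q, ‖SP χ u v‖ ≤ (q : ℝ) ^ 3 := by
  calc ∑ u : ZMod q, ∑ v : ZMod q, ‖SP χ u v‖ ≤ ∑ u : ZMod q, ∑ v : ZMod q, (q : ℝ) :=
        sum_le_sum fun u _ => sum_le_sum fun v _ => S4_le χ _ _ _ _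
    _ = (q : ℝ) ^ 3 := by
        rw [sum_const, sum_const, card_univ, ZMod.card, nsmul_eq_mul, nsmul_eq_mul]
        ring

private theorem C3_ne_one {q : ℕ} (hq : 1 < q) (χ : DirichletCharacter ℂ q) (h : Prim χ) :
    χ ≠ 1 := by
  rintro rfl
  obtain ⟨x, -, h1, h2⟩ := h 1 (one_dvd q) hq
  apply h2
  apply MulChar.one_apply
  obtain ⟨a, b, hab⟩ := h1
  have h3 : (a : ZMod q) * (x : ZMod q) = 1 := by
    have h4 := congrArg (fun z : ℤ => (z : ZMod q)) hab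
    simp only [Int.cast_add, Int.cast_mul, Int.cast_natCast, ZMod.natCast_self, mul_zero,
      add_zero, Int.cast_one] at h4
    exact h4
  exact IsUnit.of_mul_eq_one_right (a : ZMod q) h3

private theorem C3_prime {q p : ℕ} (hp : p.Prime) (hq : q = p) [NeZero q]
    (χ : DirichletCharacter ℂ q) (h : χ ≠ 1) :
    ∑ u : ZMod q, ∑ v : ZMod q, ‖SP χ u v‖ ≤ 6 * (p : ℝ) ^ (5 / 2 : ℝ) := by
  subst hq
  have : Fact q.Prime := ⟨hp⟩
  exact SP_avg_prime χ h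

private theorem C3_poly (g : ℕ) : (2 : ℝ) * ((g : ℝ) + 1) ^ 2 ≤ 20 * (3 / 2 : ℝ) ^ g := by
  have key : ∀ g : ℕ, (g : ℝ) ^ 2 + 4 * g + 10 ≤ 10 * (3 / 2 : ℝ) ^ g := by
    intro g
    induction g with
    | zero => norm_num
    | succ n ih =>
      rw [pow_succ (3 / 2 : ℝ)]
      push_cast
      nlinarith [sq_nonneg (n : ℝ)]
  have := key g
  have h : (0 : ℝ) ≤ g := Nat.cast_nonneg g
  nlinarith

private theorem C3_poly' (g : ℕ) (hg : 1 ≤ g) : (2 : ℝ) * ((g : ℝ) + 1) ^ 2 ≤ (8 : ℝ) ^ g := by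
  induction g, hg using Nat.le_induction with
  | base => norm_num
  | succ n hn ih =>
    have h : (1 : ℝ) ≤ n := by exact_mod_cast hn
    rw [pow_succ (8 : ℝ)]
    push_cast
    nlinarith

private theorem C3_root {b P : ℝ} (hb : 0 ≤ b) (hP : 0 ≤ P) (h : b ^ 8 ≤ P ^ 5) :
    b ≤ P ^ (5 / 8 : ℝ) := by
  have h1 : (P ^ (5 / 8 : ℝ)) ^ 8 = P ^ 5 := by
    rw [← Real.rpow_natCast, ← Real.rpow_mul hP, ← Real.rpow_natCast]
    norm_num
  rw [← h1] at h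
  exact le_of_pow_le_pow_left₀ (by norm_num) (Real.rpow_nonneg hP _) h

private theorem C3_exp {P C b : ℝ} (hP : 1 ≤ P) (hb : 0 ≤ b) (hbP : b ^ 8 ≤ P ^ 5) {e : ℕ}
    (he : 2 ≤ e) (hC : (2 : ℝ) * (((e / 2 : ℕ) : ℝ) + 1) ^ 2 ≤ C * b ^ (e / 2)) :
    2 * (((e / 2 : ℕ) : ℝ) + 1) ^ 2 * P ^ (3 * e - e / 2 : ℕ) ≤ C * (P ^ e) ^ (3 - 1 / 8 : ℝ) := by
  have hP0 : 0 < P := by linarith
  obtain ⟨g, hg⟩ : ∃ g, g = e / 2 := ⟨_, rfl⟩
  rw [← hg] at hC ⊢
  have h1 : e ≤ 3 * g := by omega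
  have h2 : g ≤ 3 * e := by omega
  have hC0 : 0 ≤ C := by
    by_contra hneg
    push Not at hneg
    have h3 : C * b ^ g ≤ 0 := mul_nonpos_of_nonpos_of_nonneg hneg.le (by positivity)
    have h4 : (0 : ℝ) < 2 * ((g : ℝ) + 1) ^ 2 := by positivity
    linarith
  have e1 : (P ^ e) ^ (3 - 1 / 8 : ℝ) = P ^ (3 * e - g : ℕ) * P ^ ((g : ℝ) - e / 8) := by
    rw [← Real.rpow_natCast P (3 * e - g), ← Real.rpow_add hP0, ← Real.rpow_natCast P e,
      ← Real.rpow_mul hP0.le, Nat.cast_sub h2]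
    congr 1
    push_cast
    ring
  have e2 : b ^ g ≤ P ^ ((g : ℝ) - e / 8) := by
    calc b ^ g ≤ (P ^ (5 / 8 : ℝ)) ^ g := pow_le_pow_left₀ hb (C3_root hb hP0.le hbP) g
      _ = P ^ (5 / 8 * (g : ℝ)) := by rw [← Real.rpow_natCast, ← Real.rpow_mul hP0.le]
      _ ≤ P ^ ((g : ℝ) - e / 8) := by
          apply Real.rpow_le_rpow_of_exponent_le hP
          have h3 : (e : ℝ) ≤ 3 * g := by exact_mod_cast h1
          linarith
  rw [e1]
  calc 2 * ((g : ℝ) + 1) ^ 2 * P ^ (3 * e - g : ℕ) ≤ (C * b ^ g) * P ^ (3 * e - g : ℕ) :=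
        mul_le_mul_of_nonneg_right hC (by positivity)
    _ ≤ (C * P ^ ((g : ℝ) - e / 8)) * P ^ (3 * e - g : ℕ) :=
        mul_le_mul_of_nonneg_right (mul_le_mul_of_nonneg_left e2 hC0) (by positivity)
    _ = C * (P ^ (3 * e - g : ℕ) * P ^ ((g : ℝ) - e / 8)) := by ring

private theorem C3_pp {p e : ℕ} (hp : p.Prime) (he : 0 < e) [NeZero (p ^ e)]
    (χ : DirichletCharacter ℂ (p ^ e)) (hχ : Prim χ) :
    ∑ u : ZMod (p ^ e), ∑ v : ZMod (p ^ e), ‖SP χ u v‖ ≤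
      (1000 : ℝ) ^ C3_om (p ^ e) * ((p ^ e : ℕ) : ℝ) ^ (3 - 1 / 8 : ℝ) := by
  have hP2 : (2 : ℝ) ≤ p := by exact_mod_cast hp.two_le
  have hP0 : (0 : ℝ) < p := by linarith
  rcases Nat.lt_or_ge e 2 with he2 | he2
  · have he1 : e = 1 := by omega
    subst he1
    by_cases h : p < 1000
    · rw [C3_om_pow hp he h, pow_one (1000 : ℝ)]
      refine (C3_triv χ).trans ?_
      have h1 : ((p ^ 1 : ℕ) : ℝ) = p := by rw [pow_one]
      rw [h1]
      have h2 : (p : ℝ) ^ 3 = (p : ℝ) ^ (1 / 8 : ℝ) * (p : ℝ) ^ (3 - 1 / 8 : ℝ) := by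
        rw [← Real.rpow_add hP0, ← Real.rpow_natCast]
        norm_num
      rw [h2]
      refine mul_le_mul_of_nonneg_right ?_ (by positivity)
      calc (p : ℝ) ^ (1 / 8 : ℝ) ≤ (p : ℝ) ^ (1 : ℝ) :=
            Real.rpow_le_rpow_of_exponent_le (by linarith) (by norm_num)
        _ = p := Real.rpow_one _
        _ ≤ 1000 := by exact_mod_cast h.le
    · rw [C3_om_pow' hp he h, pow_zero, one_mul]
      have hne : χ ≠ 1 := C3_ne_one (by rw [pow_one]; exact hp.one_lt) χ hχ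
      refine (C3_prime hp (pow_one p) χ hne).trans ?_
      have h1 : ((p ^ 1 : ℕ) : ℝ) = p := by rw [pow_one]
      rw [h1]
      have hP3 : (1000 : ℝ) ≤ p := by exact_mod_cast (not_lt.1 h)
      have h2 : (p : ℝ) ^ (3 - 1 / 8 : ℝ) = (p : ℝ) ^ (3 / 8 : ℝ) * (p : ℝ) ^ (5 / 2 : ℝ) := by
        rw [← Real.rpow_add hP0]
        norm_num
      rw [h2]
      refine mul_le_mul_of_nonneg_right ?_ (by positivity)
      have h3 : ((p : ℝ) ^ (3 / 8 : ℝ)) ^ 8 = (p : ℝ) ^ 3 := by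
        rw [← Real.rpow_natCast, ← Real.rpow_mul hP0.le, ← Real.rpow_natCast]
        norm_num
      have h4 : (6 : ℝ) ^ 8 ≤ ((p : ℝ) ^ (3 / 8 : ℝ)) ^ 8 := by
        rw [h3]
        calc (6 : ℝ) ^ 8 ≤ 1000 ^ 3 := by norm_num
          _ ≤ (p : ℝ) ^ 3 := pow_le_pow_left₀ (by norm_num) hP3 3
      exact le_of_pow_le_pow_left₀ (by norm_num) (by positivity) h4
  · refine (SP_avg_pow hp he2 χ hχ).trans ?_
    rw [Nat.cast_pow]
    by_cases h : p < 1000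
    · rw [C3_om_pow hp he h, pow_one]
      refine C3_exp (b := 3 / 2) (by linarith) (by norm_num) ?_ he2 ?_
      · calc (3 / 2 : ℝ) ^ 8 ≤ 2 ^ 5 := by norm_num
          _ ≤ (p : ℝ) ^ 5 := pow_le_pow_left₀ (by norm_num) hP2 5
      · refine (C3_poly _).trans ?_
        exact mul_le_mul_of_nonneg_right (by norm_num) (by positivity)
    · rw [C3_om_pow' hp he h, pow_zero]
      have hP3 : (1000 : ℝ) ≤ p := by exact_mod_cast (not_lt.1 h)
      refine C3_exp (b := 8) (by linarith) (by norm_num) ?_ he2 ?_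
      · calc (8 : ℝ) ^ 8 ≤ 1000 ^ 5 := by norm_num
          _ ≤ (p : ℝ) ^ 5 := pow_le_pow_left₀ (by norm_num) hP3 5
      · rw [one_mul]
        exact C3_poly' _ (by omega)

private theorem C3_all (q : ℕ) : ∀ (_ : NeZero q) (χ : DirichletCharacter ℂ q), Prim χ →
    ∑ u : ZMod q, ∑ v : ZMod q, ‖SP χ u v‖ ≤
      (1000 : ℝ) ^ C3_om q * (q : ℝ) ^ (3 - 1 / 8 : ℝ) := by
  induction q using Nat.recOnPosPrimePosCoprime with
  | prime_pow p n hp hn =>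
    intro _ χ hχ
    exact C3_pp hp hn χ hχ
  | zero =>
    intro h
    exact absurd rfl h.out
  | one =>
    intro _ χ _
    refine (C3_triv χ).trans ?_
    rw [Nat.cast_one, Real.one_rpow, one_pow, mul_one]
    exact one_le_pow₀ (by norm_num)
  | coprime a b ha hb hab iha ihb =>
    intro _ χ hχ
    have : NeZero a := ⟨by omega⟩
    have : NeZero b := ⟨by omega⟩
    obtain ⟨χ₁, χ₂, h1, h2, h3⟩ := crt_char' rfl hab χ hχ
    rw [SP_avg_mul rfl hab χ χ₁ χ₂ h3, C3_om_mul hab, pow_add, Nat.cast_mul,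
      Real.mul_rpow (Nat.cast_nonneg a) (Nat.cast_nonneg b)]
    calc (∑ u : ZMod a, ∑ v : ZMod a, ‖SP χ₁ u v‖) * ∑ u : ZMod b, ∑ v : ZMod b, ‖SP χ₂ u v‖ ≤
          ((1000 : ℝ) ^ C3_om a * (a : ℝ) ^ (3 - 1 / 8 : ℝ)) *
            ((1000 : ℝ) ^ C3_om b * (b : ℝ) ^ (3 - 1 / 8 : ℝ)) :=
          mul_le_mul (iha _ χ₁ h1) (ihb _ χ₂ h2) (by positivity) (by positivity)
      _ = _ := by ring

theorem SP_avg : ∃ C0 : ℝ, 1 ≤ C0 ∧ ∀ q : ℕ, ∀ _hq : NeZero q, ∀ χ : DirichletCharacter ℂ q, Prim χ →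
    ∑ u : ZMod q, ∑ v : ZMod q, ‖SP χ u v‖ ≤ C0 * (q : ℝ) ^ (3 - 1 / 8 : ℝ) := by
  obtain ⟨K, hK⟩ : ∃ K : ℝ, K = 1000 := ⟨_, rfl⟩
  have hK1 : 1 ≤ K := by rw [hK]; norm_num
  refine ⟨K ^ 1000, one_le_pow₀ hK1, fun q hq χ hχ => ?_⟩
  refine (C3_all q hq χ hχ).trans ?_
  rw [← hK]
  exact mul_le_mul_of_nonneg_right (pow_le_pow_right₀ hK1 (C3_om_le q)) (by positivity)

end Pool.Agent.Lib.SPV
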