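import Pool.Agent.Lib.MP_7b7e48_nt.SPV.Defs

/-!
# SPV C4: factorisation of a modulus without large prime powers

PROOF. `greedy`: induction on the number of prime factors (or `Nat.recOnPosPrimePosCoprime`-style: order the prime powers `p^v ∥ q`, multiply them one
by one; the partial products start at `1 ≤ t`, end at `q ≥ t`, each step multiplies by at most `R`; take the first partial product `≥ t`; if `t ≤ 1` take
`d = 1`; the first one `≥ t` is `≤ t R`). For `d = ∏_{p ∈ T} p^(v_p q)`, `d' = ∏_{p ∉ T}`: coprime, and the hypothesis passes to `d'`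
(`v_p(d') = v_p(q)` for `p ∣ d'`).
`factor4`: `R = q^(1/100)`. Greedy on `q` with `t = q^(1/3)`: `q₁ ∈ [q^(1/3), q^(1/3+1/100)]`; on the rest (`≥ q^(2/3-1/100) ≥ q^(1/3)`) with the same `t`: `q₂`; the
rest `q₀ = q/(q₁q₂) ∈ [q^(1/3-2/100), q^(1/3)]`; greedy on `q₀` with `t = q^(1/60)`: `q₀₀ ∈ [q^(1/60), q^(1/60+1/100)]`, `q₀ = q₀₀ q₀'`.
-/

set_option autoImplicit false

open Finset

namespace Pool.Agent.Lib.SPV

theorem greedy (q : ℕ) (hq : 1 ≤ q) (R : ℝ) (hR : 1 ≤ R) (h : ∀ p ∈ q.primeFactors, ((p ^ q.factorization p : ℕ) : ℝ) ≤ R)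
    (t : ℝ) (ht : 1 ≤ t) (htq : t ≤ q) : ∃ d d' : ℕ, q = d * d' ∧ d.Coprime d' ∧ t ≤ d ∧ (d : ℝ) ≤ t * R ∧
      ∀ p ∈ d'.primeFactors, ((p ^ d'.factorization p : ℕ) : ℝ) ≤ R := by
  classical
  have hq0 : q ≠ 0 := by omega
  obtain ⟨Sx, hSx⟩ : ∃ Sx : Finset (Finset ℕ), Sx = q.primeFactors.powerset.filter
      (fun T => t ≤ ((∏ p ∈ T, p ^ q.factorization p : ℕ) : ℝ)) := ⟨_, rfl⟩
  have hall : ∏ p ∈ q.primeFactors, p ^ q.factorization p = q :=
    Nat.factorization_prod_pow_eq_self hq0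
  have hne : Sx.Nonempty := by
    refine ⟨q.primeFactors, ?_⟩
    rw [hSx, mem_filter]
    refine ⟨mem_powerset.mpr (Subset.refl _), ?_⟩
    rw [hall]
    exact htq
  obtain ⟨T, hT, hmin⟩ := exists_min_image Sx (fun T => T.card) hne
  rw [hSx, mem_filter, mem_powerset] at hT
  obtain ⟨hTs, hTt⟩ := hT
  obtain ⟨d, hd⟩ : ∃ d : ℕ, d = ∏ p ∈ T, p ^ q.factorization p := ⟨_, rfl⟩
  obtain ⟨d', hd'⟩ : ∃ d' : ℕ, d' = ∏ p ∈ q.primeFactors \ T, p ^ q.factorization p := ⟨_, rfl⟩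
  have hmul : q = d * d' := by
    rw [hd, hd', mul_comm, prod_sdiff hTs, hall]
  have hcop : d.Coprime d' := by
    rw [hd, hd']
    refine Nat.Coprime.prod_left fun p hp => Nat.Coprime.prod_right fun r hr => ?_
    rw [mem_sdiff] at hr
    have hne : p ≠ r := by
      rintro rfl
      exact hr.2 hp
    exact Nat.coprime_pow_primes _ _ (Nat.prime_of_mem_primeFactors (hTs hp))
      (Nat.prime_of_mem_primeFactors hr.1) hne
  refine ⟨d, d', hmul, hcop, ?_, ?_, ?_⟩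
  · rw [hd]
    exact hTt
  · rcases T.eq_empty_or_nonempty with hT0 | ⟨p, hp⟩
    · rw [hd, hT0, prod_empty, Nat.cast_one]
      nlinarith
    · have h1 : ¬ t ≤ ((∏ r ∈ T.erase p, r ^ q.factorization r : ℕ) : ℝ) := by
        intro h2
        have h3 := hmin (T.erase p) (by
          rw [hSx, mem_filter, mem_powerset]
          exact ⟨(erase_subset _ _).trans hTs, h2⟩)
        have h4 := card_erase_lt_of_mem hp
        exact absurd h3 (not_le.mpr h4)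
      rw [not_le] at h1
      have h2 := h p (hTs hp)
      have h3 : d = p ^ q.factorization p * ∏ r ∈ T.erase p, r ^ q.factorization r := by
        rw [hd]
        exact (mul_prod_erase T (fun r => r ^ q.factorization r) hp).symm
      rw [h3, Nat.cast_mul, mul_comm]
      exact mul_le_mul h1.le h2 (Nat.cast_nonneg _) (by linarith)
  · intro p hp
    have hpp := Nat.prime_of_mem_primeFactors hp
    have hpd' := Nat.dvd_of_mem_primeFactors hp
    have hd0 : d ≠ 0 := by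
      rintro rfl
      rw [zero_mul] at hmul
      exact hq0 hmul
    have hd0' : d' ≠ 0 := by
      rintro rfl
      rw [mul_zero] at hmul
      exact hq0 hmul
    have hpd : ¬ p ∣ d := by
      intro h1
      have h2 := Nat.dvd_gcd h1 hpd'
      rw [hcop] at h2
      exact hpp.one_lt.ne' (Nat.dvd_one.mp h2)
    have h1 : q.factorization p = d'.factorization p := by
      rw [hmul, Nat.factorization_mul hd0 hd0', Finsupp.add_apply,
        Nat.factorization_eq_zero_of_not_dvd hpd, zero_add]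
    rw [← h1]
    refine h p ?_
    rw [Nat.mem_primeFactors]
    exact ⟨hpp, hmul ▸ Dvd.dvd.mul_left hpd' d, hq0⟩

theorem factor4 : ∃ Q0 : ℕ, ∀ q : ℕ, Q0 ≤ q →
    (∀ p ∈ q.primeFactors, ((p ^ q.factorization p : ℕ) : ℝ) ≤ (q : ℝ) ^ (1 / 100 : ℝ)) →
    ∃ r s q1 q2 : ℕ, q = r * s * q1 * q2 ∧ r.Coprime s ∧ (r * s).Coprime q1 ∧ (r * s * q1).Coprime q2 ∧
      0 < r ∧ 0 < s ∧ 0 < q1 ∧ 0 < q2 ∧
      (q : ℝ) ^ (1 / 60 : ℝ) ≤ r ∧ (r : ℝ) ≤ (q : ℝ) ^ (1 / 60 + 1 / 100 : ℝ) ∧ ((r * s : ℕ) : ℝ) ≤ (q : ℝ) ^ (1 / 3 : ℝ) ∧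
      (q1 : ℝ) ≤ (q : ℝ) ^ (1 / 3 + 1 / 100 : ℝ) ∧ (q2 : ℝ) ≤ (q : ℝ) ^ (1 / 3 + 1 / 100 : ℝ) := by
  refine ⟨1, fun q hq h => ?_⟩
  obtain ⟨x, hx⟩ : ∃ x : ℝ, x = (q : ℝ) := ⟨_, rfl⟩
  have hx1 : 1 ≤ x := by
    rw [hx]
    exact_mod_cast hq
  have hx0 : 0 < x := by linarith
  have hmono : ∀ a b : ℝ, a ≤ b → x ^ a ≤ x ^ b :=
    fun a b hab => Real.rpow_le_rpow_of_exponent_le hx1 hab
  have hone : ∀ a : ℝ, 0 ≤ a → 1 ≤ x ^ a := fun a ha => Real.one_le_rpow hx1 ha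
  have hadd : ∀ a b : ℝ, x ^ a * x ^ b = x ^ (a + b) := fun a b => (Real.rpow_add hx0 a b).symm
  rw [← hx] at h ⊢
  obtain ⟨q1, m1, e1, c1, l1, u1, f1⟩ := greedy q hq (x ^ (1 / 100 : ℝ)) (hone _ (by norm_num)) h
    (x ^ (1 / 3 : ℝ)) (hone _ (by norm_num)) (by
      rw [← hx]
      calc x ^ (1 / 3 : ℝ) ≤ x ^ (1 : ℝ) := hmono _ _ (by norm_num)
        _ = x := Real.rpow_one x)
  have hq1 : 0 < q1 := by
    rcases Nat.eq_zero_or_pos q1 with h0 | h0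
    · rw [h0, zero_mul] at e1
      omega
    · exact h0
  have hm1 : 0 < m1 := by
    rcases Nat.eq_zero_or_pos m1 with h0 | h0
    · rw [h0, mul_zero] at e1
      omega
    · exact h0
  have hq1R : (0 : ℝ) < q1 := by exact_mod_cast hq1
  have hm1R : (0 : ℝ) < m1 := by exact_mod_cast hm1
  have e1R : x = (q1 : ℝ) * m1 := by
    rw [hx, e1, Nat.cast_mul]
  rw [hadd] at u1
  have lm1 : x ^ (2 / 3 - 1 / 100 : ℝ) ≤ m1 := by
    have h1 : x ^ (2 / 3 - 1 / 100 : ℝ) * x ^ (1 / 3 + 1 / 100 : ℝ) ≤ m1 * x ^ (1 / 3 + 1 / 100 : ℝ) := by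
      rw [hadd, show (2 / 3 - 1 / 100 + (1 / 3 + 1 / 100) : ℝ) = 1 by norm_num, Real.rpow_one]
      calc x = m1 * q1 := by rw [e1R, mul_comm]
        _ ≤ m1 * x ^ (1 / 3 + 1 / 100 : ℝ) := mul_le_mul_of_nonneg_left u1 hm1R.le
    exact le_of_mul_le_mul_right h1 (Real.rpow_pos_of_pos hx0 _)
  obtain ⟨q2, m2, e2, c2, l2, u2, f2⟩ := greedy m1 hm1 (x ^ (1 / 100 : ℝ)) (hone _ (by norm_num)) f1
    (x ^ (1 / 3 : ℝ)) (hone _ (by norm_num)) ((hmono _ _ (by norm_num)).trans lm1)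
  have hq2 : 0 < q2 := by
    rcases Nat.eq_zero_or_pos q2 with h0 | h0
    · rw [h0, zero_mul] at e2
      omega
    · exact h0
  have hm2 : 0 < m2 := by
    rcases Nat.eq_zero_or_pos m2 with h0 | h0
    · rw [h0, mul_zero] at e2
      omega
    · exact h0
  have hq2R : (0 : ℝ) < q2 := by exact_mod_cast hq2
  have hm2R : (0 : ℝ) < m2 := by exact_mod_cast hm2
  have e2R : x = (q1 : ℝ) * (q2 * m2) := by
    rw [hx, e1, e2, Nat.cast_mul, Nat.cast_mul]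
  rw [hadd] at u2
  have lm2 : x ^ (1 / 3 - 2 / 100 : ℝ) ≤ m2 := by
    have h1 : x ^ (1 / 3 - 2 / 100 : ℝ) * (x ^ (1 / 3 + 1 / 100 : ℝ) * x ^ (1 / 3 + 1 / 100 : ℝ)) ≤
        m2 * (x ^ (1 / 3 + 1 / 100 : ℝ) * x ^ (1 / 3 + 1 / 100 : ℝ)) := by
      calc x ^ (1 / 3 - 2 / 100 : ℝ) * (x ^ (1 / 3 + 1 / 100 : ℝ) * x ^ (1 / 3 + 1 / 100 : ℝ))
          = x ^ (1 : ℝ) := by
            rw [hadd, hadd]
            norm_num
        _ = m2 * (q1 * q2) := by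
            rw [Real.rpow_one]
            nth_rewrite 1 [e2R]
            ring
        _ ≤ m2 * (x ^ (1 / 3 + 1 / 100 : ℝ) * x ^ (1 / 3 + 1 / 100 : ℝ)) := by gcongr
    exact le_of_mul_le_mul_right h1 (by positivity)
  have um2 : (m2 : ℝ) ≤ x ^ (1 / 3 : ℝ) := by
    have h1 : (m2 : ℝ) * (x ^ (1 / 3 : ℝ) * x ^ (1 / 3 : ℝ)) ≤
        x ^ (1 / 3 : ℝ) * (x ^ (1 / 3 : ℝ) * x ^ (1 / 3 : ℝ)) := by
      calc (m2 : ℝ) * (x ^ (1 / 3 : ℝ) * x ^ (1 / 3 : ℝ)) ≤ m2 * (q1 * q2) := by gcongr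
        _ = x := by
            nth_rewrite 1 [e2R]
            ring
        _ = x ^ (1 : ℝ) := (Real.rpow_one x).symm
        _ = x ^ (1 / 3 : ℝ) * (x ^ (1 / 3 : ℝ) * x ^ (1 / 3 : ℝ)) := by
            rw [hadd, hadd]
            norm_num
    exact le_of_mul_le_mul_right h1 (by positivity)
  obtain ⟨r, s, e3, c3, l3, u3, -⟩ := greedy m2 hm2 (x ^ (1 / 100 : ℝ)) (hone _ (by norm_num)) f2
    (x ^ (1 / 60 : ℝ)) (hone _ (by norm_num)) ((hmono _ _ (by norm_num)).trans lm2)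
  rw [hadd] at u3
  have hr : 0 < r := by
    rcases Nat.eq_zero_or_pos r with h0 | h0
    · rw [h0, zero_mul] at e3
      omega
    · exact h0
  have hs : 0 < s := by
    rcases Nat.eq_zero_or_pos s with h0 | h0
    · rw [h0, mul_zero] at e3
      omega
    · exact h0
  have k1 : q1.Coprime q2 := by
    rw [e2] at c1
    exact Nat.Coprime.coprime_mul_right_right c1
  have k2 : q1.Coprime m2 := by
    rw [e2] at c1
    exact Nat.Coprime.coprime_mul_left_right c1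
  refine ⟨r, s, q1, q2, ?_, c3, ?_, ?_, hr, hs, hq1, hq2, l3, u3, ?_, u1, u2⟩
  · rw [e1, e2, e3]
    ring
  · rw [← e3]
    exact k2.symm
  · rw [← e3]
    exact Nat.Coprime.mul_left c2.symm k1
  · rw [← e3]
    exact um2

end Pool.Agent.Lib.SPV
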