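import Pool.Agent.Lib.MP_7b7e48_nt.SPV.A2

/-!
# SPV C5: two differencing steps (van der Corput) with shifts by multiples of `q₁` and `q₂`

`χ(x) = χ₀(x) χ₁(x) χ₂(x)` for integers `x` (`q₀, q₁, q₂` need not be coprime here).

PROOF. All sums over `1 ≤ n ≤ y`, `h, h', k, k' ∈ [1,H]`.
Step 1. `‖csum χ y - ∑_n χ(n+hq₁)‖ ≤ 2 H q₁`. `χ(n+hq₁) = χ₁(n) · χ₀(n+hq₁) χ₂(n+hq₁)`. Average over `h`:
`‖csum‖ ≤ 2Hq₁ + (1/H) ∑_n ‖∑_h χ₀χ₂(n+hq₁)‖ ≤ 2Hq₁ + (1/H) (y ∑_n ‖∑_h χ₀χ₂(n+hq₁)‖²)^{1/2} ≤ 2Hq₁ + (1/H)(y ∑_{h,h'} ‖T(h,h')‖)^{1/2}`,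
`T(h,h') = ∑_n χ₀χ₂(n+hq₁) conj χ₀χ₂(n+h'q₁)`.
Step 2. Shift `n` by `k q₂` (error `≤ 2Hq₂`; the factor `χ₂(n+hq₁) conj χ₂(n+h'q₁)` does not change and has norm `≤ 1`), average over `k`, Cauchy:
`‖T(h,h')‖ ≤ 2Hq₂ + (1/H) (y ∑_{k,k'} ‖∑_n G(n)‖)^{1/2}`, `G(n) = χ₀(n+hq₁+kq₂) conj χ₀(n+h'q₁+kq₂) conj χ₀(n+hq₁+k'q₂) χ₀(n+h'q₁+k'q₂)`.
Step 3. `G` has period `q₀`: `‖∑_{n≤y} G(n)‖ ≤ (y/q₀) ‖∑_{x mod q₀} G(x)‖ + q₀`, and (substitute `x + h'q₁ + k'q₂`) the complete sum is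
`S4 χ₀ (a) 0 (c) (d)` with `a = (h-h')q₁ + (k-k')q₂`, `c = (k-k')q₂`, `d = (h-h')q₁`, i.e. `SP χ₀ ((k-k')q₂) ((h-h')q₁)` (commutativity).
Step 4. `∑_{h,h'} ‖T‖ ≤ 2H³q₂ + (1/H) ∑_{h,h'} (...)^{1/2} ≤ 2H³q₂ + (y ∑_{h,h',k,k'} ‖∑_n G‖)^{1/2}` (Cauchy over the `H²` pairs).
-/

set_option autoImplicit false

open Finset

namespace Pool.Agent.Lib.SPV

/-- the sum over all shifts -/
noncomputable def Ssum {q0 : ℕ} [NeZero q0] (χ₀ : DirichletCharacter ℂ q0) (H q1 q2 : ℕ) : ℝ :=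
  ∑ h ∈ Icc 1 H, ∑ h' ∈ Icc 1 H, ∑ k ∈ Icc 1 H, ∑ k' ∈ Icc 1 H,
    ‖SP χ₀ ((((k : ℤ) - (k' : ℤ)) * (q2 : ℤ) : ℤ) : ZMod q0) ((((h : ℤ) - (h' : ℤ)) * (q1 : ℤ) : ℤ) : ZMod q0)‖

private theorem C5_icc (f : ℕ → ℂ) (y : ℕ) :
    ∑ n ∈ Icc 1 y, f n = ∑ i ∈ range y, f (i + 1) := by
  induction y with
  | zero => simp
  | succ y ih => rw [sum_Icc_succ_top (by omega), sum_range_succ, ih]

private theorem C5_shift (g : ℕ → ℂ) (hg : ∀ n, ‖g n‖ ≤ 1) (y m : ℕ) :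
    ‖∑ n ∈ Icc 1 y, g n - ∑ n ∈ Icc 1 y, g (n + m)‖ ≤ 2 * m := by
  have hr : ∀ (f : ℕ → ℂ), ∑ n ∈ Icc 1 y, f n = ∑ i ∈ range y, f (i + 1) :=
    fun f => C5_icc f y
  have hone : ∀ m, ∑ n ∈ Icc 1 y, g (n + m) - ∑ n ∈ Icc 1 y, g (n + (m + 1)) =
      g (m + 1) - g (y + 1 + m) := by
    intro m
    rw [hr, hr]
    have h1 := sum_range_succ (fun i => g (i + 1 + m)) y
    have h2 := sum_range_succ' (fun i => g (i + 1 + m)) y
    have h3 : ∑ i ∈ range y, g (i + 1 + (m + 1)) = ∑ i ∈ range y, g (i + 1 + 1 + m) :=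
      sum_congr rfl fun i _ => by rw [show i + 1 + (m + 1) = i + 1 + 1 + m by ring]
    have h4 : g (0 + 1 + m) = g (m + 1) := by rw [show 0 + 1 + m = m + 1 by ring]
    rw [h1, h4] at h2
    rw [h3]
    linear_combination h2
  induction m with
  | zero => simp
  | succ m ih =>
    have h1 : ∑ n ∈ Icc 1 y, g n - ∑ n ∈ Icc 1 y, g (n + (m + 1)) =
        (∑ n ∈ Icc 1 y, g n - ∑ n ∈ Icc 1 y, g (n + m)) + (g (m + 1) - g (y + 1 + m)) := by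
      rw [← hone m]
      ring
    rw [h1]
    refine (norm_add_le _ _).trans ?_
    have h2 : ‖g (m + 1) - g (y + 1 + m)‖ ≤ 2 := by
      refine (norm_sub_le _ _).trans ?_
      linarith [hg (m + 1), hg (y + 1 + m)]
    push_cast
    linarith

private theorem C5_sq (s t : Finset ℕ) (v : ℕ → ℕ → ℂ) :
    ∑ n ∈ t, ‖∑ h ∈ s, v n h‖ ^ 2 ≤
      ∑ h ∈ s, ∑ h' ∈ s, ‖∑ n ∈ t, v n h * (starRingEnd ℂ) (v n h')‖ := by
  have h1 : ((∑ n ∈ t, ‖∑ h ∈ s, v n h‖ ^ 2 : ℝ) : ℂ) =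
      ∑ h ∈ s, ∑ h' ∈ s, ∑ n ∈ t, v n h * (starRingEnd ℂ) (v n h') := by
    rw [Complex.ofReal_sum]
    have h2 : ∀ n ∈ t, ((‖∑ h ∈ s, v n h‖ ^ 2 : ℝ) : ℂ) =
        ∑ h ∈ s, ∑ h' ∈ s, v n h * (starRingEnd ℂ) (v n h') := by
      intro n _
      rw [Complex.ofReal_pow, ← Complex.mul_conj', map_sum, sum_mul_sum]
    rw [sum_congr rfl h2, sum_comm]
    refine sum_congr rfl fun h _ => ?_
    rw [sum_comm]
  have h3 : 0 ≤ ∑ n ∈ t, ‖∑ h ∈ s, v n h‖ ^ 2 := sum_nonneg fun n _ => by positivity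
  calc ∑ n ∈ t, ‖∑ h ∈ s, v n h‖ ^ 2 =
        ‖((∑ n ∈ t, ‖∑ h ∈ s, v n h‖ ^ 2 : ℝ) : ℂ)‖ := by
        rw [Complex.norm_real, Real.norm_of_nonneg h3]
    _ ≤ _ := by
        rw [h1]
        exact (norm_sum_le _ _).trans (sum_le_sum fun h _ => norm_sum_le _ _)

private theorem C5_step (g u v : ℕ → ℂ) (r H y : ℕ) (hH : 1 ≤ H) (hg : ∀ n, ‖g n‖ ≤ 1)
    (hu : ∀ n, ‖u n‖ ≤ 1) (hgv : ∀ n h, g (n + h * r) = u n * v (n + h * r)) :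
    ‖∑ n ∈ Icc 1 y, g n‖ ≤ 2 * H * r + (1 / H) * Real.sqrt (y * ∑ h ∈ Icc 1 H,
      ∑ h' ∈ Icc 1 H, ‖∑ n ∈ Icc 1 y, v (n + h * r) * (starRingEnd ℂ) (v (n + h' * r))‖) := by
  have hH0 : (0 : ℝ) < H := by exact_mod_cast hH
  obtain ⟨R, hR⟩ : ∃ R : ℝ, R = ∑ h ∈ Icc 1 H, ∑ h' ∈ Icc 1 H,
    ‖∑ n ∈ Icc 1 y, v (n + h * r) * (starRingEnd ℂ) (v (n + h' * r))‖ := ⟨_, rfl⟩
  rw [← hR]
  -- the averaged sum
  have h1 : ‖∑ h ∈ Icc 1 H, ∑ n ∈ Icc 1 y, g (n + h * r)‖ ≤ Real.sqrt (y * R) := by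
    have h2 : ∑ h ∈ Icc 1 H, ∑ n ∈ Icc 1 y, g (n + h * r) =
        ∑ n ∈ Icc 1 y, u n * ∑ h ∈ Icc 1 H, v (n + h * r) := by
      rw [sum_comm]
      refine sum_congr rfl fun n _ => ?_
      rw [mul_sum]
      exact sum_congr rfl fun h _ => hgv n h
    rw [h2]
    have h3 : ‖∑ n ∈ Icc 1 y, u n * ∑ h ∈ Icc 1 H, v (n + h * r)‖ ≤
        ∑ n ∈ Icc 1 y, ‖∑ h ∈ Icc 1 H, v (n + h * r)‖ := by
      refine (norm_sum_le _ _).trans (sum_le_sum fun n _ => ?_)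
      rw [norm_mul]
      exact mul_le_of_le_one_left (norm_nonneg _) (hu n)
    refine h3.trans (Real.le_sqrt_of_sq_le ?_)
    have h4 := sq_sum_le_card_mul_sum_sq (s := Icc 1 y)
      (f := fun n => ‖∑ h ∈ Icc 1 H, v (n + h * r)‖)
    have h5 : ((Icc 1 y).card : ℝ) = y := by
      rw [Nat.card_Icc, Nat.add_sub_cancel]
    rw [h5] at h4
    refine h4.trans (mul_le_mul_of_nonneg_left ?_ (Nat.cast_nonneg _))
    rw [hR]
    exact C5_sq (Icc 1 H) (Icc 1 y) (fun n h => v (n + h * r))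
  have h6 : (H : ℝ) * ‖∑ n ∈ Icc 1 y, g n‖ ≤ H * (2 * H * r) + Real.sqrt (y * R) := by
    calc (H : ℝ) * ‖∑ n ∈ Icc 1 y, g n‖ = ‖∑ _h ∈ Icc 1 H, ∑ n ∈ Icc 1 y, g n‖ := by
          rw [sum_const, Nat.card_Icc, Nat.add_sub_cancel, nsmul_eq_mul, norm_mul,
            Complex.norm_natCast]
      _ = ‖∑ h ∈ Icc 1 H, (∑ n ∈ Icc 1 y, g n - ∑ n ∈ Icc 1 y, g (n + h * r)) +
            ∑ h ∈ Icc 1 H, ∑ n ∈ Icc 1 y, g (n + h * r)‖ := by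
          rw [← sum_add_distrib]
          congr 1
          exact sum_congr rfl fun h _ => by ring
      _ ≤ ‖∑ h ∈ Icc 1 H, (∑ n ∈ Icc 1 y, g n - ∑ n ∈ Icc 1 y, g (n + h * r))‖ +
            ‖∑ h ∈ Icc 1 H, ∑ n ∈ Icc 1 y, g (n + h * r)‖ := norm_add_le _ _
      _ ≤ H * (2 * H * r) + Real.sqrt (y * R) := by
          refine add_le_add ?_ h1
          calc ‖∑ h ∈ Icc 1 H, (∑ n ∈ Icc 1 y, g n - ∑ n ∈ Icc 1 y, g (n + h * r))‖ ≤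
                ∑ h ∈ Icc 1 H, (2 * H * r : ℝ) := by
                refine (norm_sum_le _ _).trans (sum_le_sum fun h hh => ?_)
                refine (C5_shift g hg y (h * r)).trans ?_
                have h7 : (h : ℝ) ≤ H := by exact_mod_cast (mem_Icc.1 hh).2
                push_cast
                have h8 : (h : ℝ) * r ≤ H * r := mul_le_mul_of_nonneg_right h7 (Nat.cast_nonneg _)
                linarith
            _ = H * (2 * H * r) := by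
                rw [sum_const, Nat.card_Icc, Nat.add_sub_cancel, nsmul_eq_mul]
  calc ‖∑ n ∈ Icc 1 y, g n‖ = 1 / H * (H * ‖∑ n ∈ Icc 1 y, g n‖) := by
        field_simp
    _ ≤ 1 / H * (H * (2 * H * r) + Real.sqrt (y * R)) :=
        mul_le_mul_of_nonneg_left h6 (by positivity)
    _ = 2 * H * r + 1 / H * Real.sqrt (y * R) := by
        field_simp

private theorem C5_range {q : ℕ} [NeZero q] (F : ZMod q → ℂ) :
    ∑ i ∈ range q, F ((i : ℕ) : ZMod q) = ∑ x : ZMod q, F x := by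
  refine sum_bij' (fun n _ => ((n : ℕ) : ZMod q)) (fun x _ => x.val) ?_ ?_ ?_ ?_ ?_
  · intro n _
    exact mem_univ _
  · intro x _
    exact mem_range.2 (ZMod.val_lt x)
  · intro n hn
    exact ZMod.val_cast_of_lt (mem_range.1 hn)
  · intro x _
    exact ZMod.natCast_zmod_val x
  · intro n _
    rfl

private theorem C5_per {q : ℕ} [NeZero q] (F : ZMod q → ℂ) (hF : ∀ x, ‖F x‖ ≤ 1) (y : ℕ) :
    ‖∑ n ∈ Icc 1 y, F ((n : ℕ) : ZMod q)‖ ≤ (y / q) * ‖∑ x : ZMod q, F x‖ + q := by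
  have hq : 0 < q := Nat.pos_of_ne_zero (NeZero.ne q)
  have hq0 : (0 : ℝ) < q := by exact_mod_cast hq
  have hr : ∀ y, ∑ n ∈ Icc 1 y, F ((n : ℕ) : ZMod q) =
      ∑ i ∈ range y, F (((i : ℕ) : ZMod q) + 1) := by
    intro y
    rw [C5_icc]
    refine sum_congr rfl fun i _ => ?_
    push_cast
    rfl
  rw [hr]
  have hG : ∀ x, ‖F (x + 1)‖ ≤ 1 := fun x => hF _
  have htot : ∑ x : ZMod q, F (x + 1) = ∑ x : ZMod q, F x :=
    Equiv.sum_comp (Equiv.addRight (1 : ZMod q)) F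
  rw [← htot]
  induction y using Nat.strong_induction_on with
  | _ y ih =>
    by_cases hy : y < q
    · have h1 : ‖∑ i ∈ range y, F (((i : ℕ) : ZMod q) + 1)‖ ≤ y := by
        refine (norm_sum_le _ _).trans ((sum_le_sum fun i _ => hG _).trans ?_)
        rw [sum_const, card_range, nsmul_eq_mul, mul_one]
      have h2 : (y : ℝ) ≤ q := by exact_mod_cast hy.le
      have h3 : 0 ≤ (y / q : ℝ) * ‖∑ x : ZMod q, F (x + 1)‖ := by positivity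
      linarith
    · push Not at hy
      obtain ⟨m, rfl⟩ := Nat.exists_eq_add_of_le hy
      have h1 : ∑ i ∈ range (q + m), F (((i : ℕ) : ZMod q) + 1) =
          ∑ x : ZMod q, F (x + 1) + ∑ i ∈ range m, F (((i : ℕ) : ZMod q) + 1) := by
        rw [sum_range_add]
        congr 1
        · exact C5_range (fun x => F (x + 1))
        · refine sum_congr rfl fun i _ => ?_
          push_cast
          rw [ZMod.natCast_self, zero_add]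
      rw [h1]
      refine (norm_add_le _ _).trans ?_
      have h2 := ih m (by omega)
      have h3 : (((q + m : ℕ) : ℝ) / q) * ‖∑ x : ZMod q, F (x + 1)‖ =
          ‖∑ x : ZMod q, F (x + 1)‖ + (m / q) * ‖∑ x : ZMod q, F (x + 1)‖ := by
        push_cast
        field_simp
      rw [h3]
      linarith

private theorem C5_cs {ι : Type} (s : Finset ι) (A : ι → ℝ) (hA : ∀ i ∈ s, 0 ≤ A i) :
    ∑ i ∈ s, Real.sqrt (A i) ≤ Real.sqrt (s.card * ∑ i ∈ s, A i) := by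
  refine Real.le_sqrt_of_sq_le ?_
  have h1 := sq_sum_le_card_mul_sum_sq (s := s) (f := fun i => Real.sqrt (A i))
  have h2 : ∑ i ∈ s, Real.sqrt (A i) ^ 2 = ∑ i ∈ s, A i :=
    sum_congr rfl fun i hi => Real.sq_sqrt (hA i hi)
  rw [h2] at h1
  exact h1

private theorem C5_nconj (z : ℂ) : ‖(starRingEnd ℂ) z‖ = ‖z‖ := RCLike.norm_conj z

/-- the incomplete sum over `n` for given shifts -/
private theorem C5_inner {q0 : ℕ} [NeZero q0] (χ₀ : DirichletCharacter ℂ q0) (q1 q2 y : ℕ)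
    (h h' k k' : ℕ) :
    ‖∑ n ∈ Icc 1 y, (χ₀ (((n + k * q2 + h * q1 : ℕ)) : ZMod q0) *
        (starRingEnd ℂ) (χ₀ (((n + k * q2 + h' * q1 : ℕ)) : ZMod q0))) *
      (starRingEnd ℂ) (χ₀ (((n + k' * q2 + h * q1 : ℕ)) : ZMod q0) *
        (starRingEnd ℂ) (χ₀ (((n + k' * q2 + h' * q1 : ℕ)) : ZMod q0)))‖ ≤
    (y / q0) * ‖SP χ₀ ((((k : ℤ) - (k' : ℤ)) * (q2 : ℤ) : ℤ) : ZMod q0)
      ((((h : ℤ) - (h' : ℤ)) * (q1 : ℤ) : ℤ) : ZMod q0)‖ + q0 := by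
  obtain ⟨F, hF⟩ : ∃ F : ZMod q0 → ℂ, ∀ x, F x =
      (χ₀ (x + (k * q2 + h * q1)) * (starRingEnd ℂ) (χ₀ (x + (k * q2 + h' * q1)))) *
      (starRingEnd ℂ) (χ₀ (x + (k' * q2 + h * q1)) *
        (starRingEnd ℂ) (χ₀ (x + (k' * q2 + h' * q1)))) := ⟨fun x => _, fun x => rfl⟩
  have h1 : ∀ z : ZMod q0, ‖χ₀ z‖ ≤ 1 := fun z => DirichletCharacter.norm_le_one χ₀ z
  have hF1 : ∀ x, ‖F x‖ ≤ 1 := by
    intro x
    rw [hF, norm_mul, norm_mul, C5_nconj, C5_nconj, norm_mul, C5_nconj]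
    exact mul_le_one₀ (mul_le_one₀ (h1 _) (norm_nonneg _) (h1 _))
      (mul_nonneg (norm_nonneg _) (norm_nonneg _)) (mul_le_one₀ (h1 _) (norm_nonneg _) (h1 _))
  have h2 := C5_per F hF1 y
  have h3 : ∑ x : ZMod q0, F x = SP χ₀ ((((k : ℤ) - (k' : ℤ)) * (q2 : ℤ) : ℤ) : ZMod q0)
      ((((h : ℤ) - (h' : ℤ)) * (q1 : ℤ) : ℤ) : ZMod q0) := by
    unfold SP S4
    refine Eq.trans (sum_congr rfl fun x _ => ?_)
      (Equiv.sum_comp (Equiv.addRight ((k' * q2 + h' * q1 : ZMod q0))) _)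
    rw [hF, Equiv.coe_addRight, map_mul, Complex.conj_conj]
    have e1 : x + (k' * q2 + h' * q1 : ZMod q0) + 0 = x + (k' * q2 + h' * q1) := add_zero _
    have e2 : x + (k' * q2 + h' * q1 : ZMod q0) +
        (((((k : ℤ) - (k' : ℤ)) * (q2 : ℤ) : ℤ) : ZMod q0) +
          ((((h : ℤ) - (h' : ℤ)) * (q1 : ℤ) : ℤ) : ZMod q0)) = x + (k * q2 + h * q1) := by
      push_cast
      ring
    have e3 : x + (k' * q2 + h' * q1 : ZMod q0) +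
        ((((k : ℤ) - (k' : ℤ)) * (q2 : ℤ) : ℤ) : ZMod q0) = x + (k * q2 + h' * q1) := by
      push_cast
      ring
    have e4 : x + (k' * q2 + h' * q1 : ZMod q0) +
        ((((h : ℤ) - (h' : ℤ)) * (q1 : ℤ) : ℤ) : ZMod q0) = x + (k' * q2 + h * q1) := by
      push_cast
      ring
    show _ = χ₀ (x + (k' * q2 + h' * q1 : ZMod q0) + 0) *
        χ₀ (x + (k' * q2 + h' * q1 : ZMod q0) +
        (((((k : ℤ) - (k' : ℤ)) * (q2 : ℤ) : ℤ) : ZMod q0) +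
          ((((h : ℤ) - (h' : ℤ)) * (q1 : ℤ) : ℤ) : ZMod q0))) *
        (starRingEnd ℂ) (χ₀ (x + (k' * q2 + h' * q1 : ZMod q0) +
        ((((k : ℤ) - (k' : ℤ)) * (q2 : ℤ) : ℤ) : ZMod q0))) *
        (starRingEnd ℂ) (χ₀ (x + (k' * q2 + h' * q1 : ZMod q0) +
        ((((h : ℤ) - (h' : ℤ)) * (q1 : ℤ) : ℤ) : ZMod q0)))
    rw [e1, e2, e3, e4]
    ring
  rw [h3] at h2
  refine le_trans (le_of_eq ?_) h2
  congr 1
  refine sum_congr rfl fun n _ => ?_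
  rw [hF]
  push_cast
  simp only [add_assoc]

theorem vdc {q q0 q1 q2 : ℕ} [NeZero q] [NeZero q0] [NeZero q1] [NeZero q2] (χ : DirichletCharacter ℂ q)
    (χ₀ : DirichletCharacter ℂ q0) (χ₁ : DirichletCharacter ℂ q1) (χ₂ : DirichletCharacter ℂ q2)
    (h : ∀ x : ℤ, χ (x : ZMod q) = χ₀ (x : ZMod q0) * χ₁ (x : ZMod q1) * χ₂ (x : ZMod q2))
    (H y : ℕ) (hH : 1 ≤ H) (hy : 1 ≤ y) :
    ‖csum χ y‖ ≤ 2 * H * q1 + (1 / H) * Real.sqrt (y * (2 * (H : ℝ) ^ 3 * q2 +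
      Real.sqrt (y * ((y / q0) * Ssum χ₀ H q1 q2 + (H : ℝ) ^ 4 * q0)))) := by
  have hH0 : (0 : ℝ) < H := by exact_mod_cast hH
  have n0 : ∀ z : ZMod q0, ‖χ₀ z‖ ≤ 1 := fun z => DirichletCharacter.norm_le_one χ₀ z
  have n2 : ∀ z : ZMod q2, ‖χ₂ z‖ ≤ 1 := fun z => DirichletCharacter.norm_le_one χ₂ z
  obtain ⟨v, hv⟩ : ∃ v : ℕ → ℂ, ∀ n, v n = χ₀ ((n : ℕ) : ZMod q0) * χ₂ ((n : ℕ) : ZMod q2) :=
    ⟨fun n => _, fun n => rfl⟩
  have hv1 : ∀ n, ‖v n‖ ≤ 1 := by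
    intro n
    rw [hv, norm_mul]
    exact mul_le_one₀ (n0 _) (norm_nonneg _) (n2 _)
  have s1 := C5_step (fun n => χ ((n : ℕ) : ZMod q)) (fun n => χ₁ ((n : ℕ) : ZMod q1)) v q1 H y
    hH (fun n => DirichletCharacter.norm_le_one χ _) (fun n => DirichletCharacter.norm_le_one χ₁ _)
    (fun n m => by
      have h1 := h ((n + m * q1 : ℕ) : ℤ)
      rw [Int.cast_natCast, Int.cast_natCast, Int.cast_natCast, Int.cast_natCast] at h1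
      have h2 : ((n + m * q1 : ℕ) : ZMod q1) = ((n : ℕ) : ZMod q1) := by
        push_cast
        rw [ZMod.natCast_self, mul_zero, add_zero]
      show χ ((n + m * q1 : ℕ) : ZMod q) = χ₁ ((n : ℕ) : ZMod q1) * v (n + m * q1)
      rw [h1, hv, h2]
      ring)
  unfold csum
  refine s1.trans ?_
  refine add_le_add_right (mul_le_mul_of_nonneg_left (Real.sqrt_le_sqrt
    (mul_le_mul_of_nonneg_left ?_ (Nat.cast_nonneg _))) (by positivity)) _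
  -- the second step
  obtain ⟨A, hA⟩ : ∃ A : ℕ → ℕ → ℝ, ∀ i i', A i i' = ∑ k ∈ Icc 1 H, ∑ k' ∈ Icc 1 H,
    ‖∑ n ∈ Icc 1 y, (χ₀ (((n + k * q2 + i * q1 : ℕ)) : ZMod q0) *
        (starRingEnd ℂ) (χ₀ (((n + k * q2 + i' * q1 : ℕ)) : ZMod q0))) *
      (starRingEnd ℂ) (χ₀ (((n + k' * q2 + i * q1 : ℕ)) : ZMod q0) *
        (starRingEnd ℂ) (χ₀ (((n + k' * q2 + i' * q1 : ℕ)) : ZMod q0)))‖ :=
    ⟨fun i i' => _, fun i i' => rfl⟩
  have hA0 : ∀ i i', 0 ≤ A i i' := by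
    intro i i'
    rw [hA]
    exact sum_nonneg fun _ _ => sum_nonneg fun _ _ => norm_nonneg _
  have s2 : ∀ i i', ‖∑ n ∈ Icc 1 y, v (n + i * q1) * (starRingEnd ℂ) (v (n + i' * q1))‖ ≤
      2 * H * q2 + (1 / H) * Real.sqrt (y * A i i') := by
    intro i i'
    rw [hA]
    refine C5_step (fun n => v (n + i * q1) * (starRingEnd ℂ) (v (n + i' * q1)))
      (fun n => χ₂ (((n + i * q1 : ℕ)) : ZMod q2) *
        (starRingEnd ℂ) (χ₂ (((n + i' * q1 : ℕ)) : ZMod q2)))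
      (fun n => χ₀ (((n + i * q1 : ℕ)) : ZMod q0) *
        (starRingEnd ℂ) (χ₀ (((n + i' * q1 : ℕ)) : ZMod q0))) q2 H y hH ?_ ?_ ?_
    · intro n
      show ‖v (n + i * q1) * (starRingEnd ℂ) (v (n + i' * q1))‖ ≤ 1
      rw [norm_mul, C5_nconj]
      exact mul_le_one₀ (hv1 _) (norm_nonneg _) (hv1 _)
    · intro n
      show ‖χ₂ (((n + i * q1 : ℕ)) : ZMod q2) *
        (starRingEnd ℂ) (χ₂ (((n + i' * q1 : ℕ)) : ZMod q2))‖ ≤ 1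
      rw [norm_mul, C5_nconj]
      exact mul_le_one₀ (n2 _) (norm_nonneg _) (n2 _)
    · intro n k
      show v (n + k * q2 + i * q1) * (starRingEnd ℂ) (v (n + k * q2 + i' * q1)) =
        χ₂ (((n + i * q1 : ℕ)) : ZMod q2) * (starRingEnd ℂ) (χ₂ (((n + i' * q1 : ℕ)) : ZMod q2)) *
        (χ₀ (((n + k * q2 + i * q1 : ℕ)) : ZMod q0) *
          (starRingEnd ℂ) (χ₀ (((n + k * q2 + i' * q1 : ℕ)) : ZMod q0)))
      have h2 : ∀ j : ℕ, ((n + k * q2 + j * q1 : ℕ) : ZMod q2) =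
          ((n + j * q1 : ℕ) : ZMod q2) := by
        intro j
        push_cast
        rw [ZMod.natCast_self, mul_zero, add_zero]
      rw [hv, hv, h2, h2, map_mul]
      ring
  have s3 : ∑ i ∈ Icc 1 H, ∑ i' ∈ Icc 1 H, A i i' ≤
      (y / q0) * Ssum χ₀ H q1 q2 + (H : ℝ) ^ 4 * q0 := by
    calc ∑ i ∈ Icc 1 H, ∑ i' ∈ Icc 1 H, A i i' ≤
          ∑ i ∈ Icc 1 H, ∑ i' ∈ Icc 1 H, ∑ k ∈ Icc 1 H, ∑ k' ∈ Icc 1 H,
            ((y / q0 : ℝ) * ‖SP χ₀ ((((k : ℤ) - (k' : ℤ)) * (q2 : ℤ) : ℤ) : ZMod q0)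
              ((((i : ℤ) - (i' : ℤ)) * (q1 : ℤ) : ℤ) : ZMod q0)‖ + q0) := by
          refine sum_le_sum fun i _ => sum_le_sum fun i' _ => ?_
          rw [hA]
          exact sum_le_sum fun k _ => sum_le_sum fun k' _ => C5_inner χ₀ q1 q2 y i i' k k'
      _ = (y / q0) * Ssum χ₀ H q1 q2 + (H : ℝ) ^ 4 * q0 := by
          unfold Ssum
          simp only [sum_add_distrib, sum_const, Nat.card_Icc, Nat.add_sub_cancel, nsmul_eq_mul,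
            mul_sum]
          ring
  have hSS : 0 ≤ (y / q0 : ℝ) * Ssum χ₀ H q1 q2 + (H : ℝ) ^ 4 * q0 :=
    le_trans (sum_nonneg fun _ _ => sum_nonneg fun _ _ => hA0 _ _) s3
  calc ∑ i ∈ Icc 1 H, ∑ i' ∈ Icc 1 H,
        ‖∑ n ∈ Icc 1 y, v (n + i * q1) * (starRingEnd ℂ) (v (n + i' * q1))‖ ≤
        ∑ i ∈ Icc 1 H, ∑ i' ∈ Icc 1 H, (2 * H * q2 + (1 / H) * Real.sqrt (y * A i i')) :=
        sum_le_sum fun i _ => sum_le_sum fun i' _ => s2 i i'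
    _ = 2 * (H : ℝ) ^ 3 * q2 + (1 / H) * ∑ i ∈ Icc 1 H, ∑ i' ∈ Icc 1 H,
          Real.sqrt (y * A i i') := by
        simp only [sum_add_distrib, sum_const, Nat.card_Icc, Nat.add_sub_cancel, nsmul_eq_mul,
          mul_sum]
        ring
    _ ≤ 2 * (H : ℝ) ^ 3 * q2 + (1 / H) * (H * Real.sqrt (y * ((y / q0) * Ssum χ₀ H q1 q2 +
          (H : ℝ) ^ 4 * q0))) := by
        refine add_le_add_right (mul_le_mul_of_nonneg_left ?_ (by positivity)) _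
        rw [← sum_product']
        refine (C5_cs (Icc 1 H ×ˢ Icc 1 H) (fun p => y * A p.1 p.2)
          (fun p _ => mul_nonneg (Nat.cast_nonneg _) (hA0 _ _))).trans ?_
        rw [card_product, Nat.card_Icc, Nat.add_sub_cancel]
        have h3 : (((H * H : ℕ)) : ℝ) * ∑ p ∈ Icc 1 H ×ˢ Icc 1 H, (y : ℝ) * A p.1 p.2 =
            (H : ℝ) ^ 2 * (y * ∑ i ∈ Icc 1 H, ∑ i' ∈ Icc 1 H, A i i') := by
          rw [← mul_sum, sum_product]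
          push_cast
          ring
        rw [h3, Real.sqrt_mul (by positivity), Real.sqrt_sq hH0.le]
        refine mul_le_mul_of_nonneg_left (Real.sqrt_le_sqrt ?_) hH0.le
        exact mul_le_mul_of_nonneg_left s3 (Nat.cast_nonneg _)
    _ = 2 * (H : ℝ) ^ 3 * q2 + Real.sqrt (y * ((y / q0) * Ssum χ₀ H q1 q2 +
          (H : ℝ) ^ 4 * q0)) := by
        congr 1
        field_simp

end Pool.Agent.Lib.SPV
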