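import Pool.Agent.Lib.MP_7b7e48_nt.SPV.C5
import Pool.Agent.Lib.MP_7b7e48_nt.SPV.C3

/-!
# SPV C6: the sum over shifts

PROOF. `χ₀` mod `q₀ = r s`, coprime, splits (`crt_char'`): `χ₀ = χ_r χ_s`. `‖SP χ₀ u v‖ ≤ s ‖SP χ_r u v‖` for integers `u, v` (`S4_crt`, `S4_le`). `r ≤ H`.
Fix `h', k'`: `u = (k-k')q₂ mod r`, and `k ↦ u` hits each class mod `r` at most `H/r + 1 ≤ 2H/r` times (`q₂` is a unit mod `r`), the same for `v`; so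
`∑_{h,k} ‖SP χ_r u v‖ ≤ (2H/r)² ∑_{u,v : ZMod r} ‖SP χ_r u v‖ ≤ (2H/r)² C0 r^(3-1/8)` (`SP_avg`). Sum over `h', k'`: `≤ H² s (4H²/r²) C0 r^(3-1/8)
= 4 C0 H⁴ s r r^(-1/8)`.
-/

set_option autoImplicit false

open Finset

namespace Pool.Agent.Lib.SPV

private theorem C6_card {r : ℕ} (m H : ℕ) (hm : r.Coprime m) (c : ℤ) (u : ZMod r) :
    ((Icc 1 H).filter (fun k : ℕ => ((((k : ℤ) - c) * (m : ℤ) : ℤ) : ZMod r) = u)).card ≤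
      H / r + 1 := by
  have hu : IsUnit ((m : ℕ) : ZMod r) := by
    rw [ZMod.isUnit_iff_coprime]
    exact hm.symm
  rw [← Finset.card_range (H / r + 1)]
  refine Finset.card_le_card_of_injOn (fun k => k / r) ?_ ?_
  · intro k hk
    rw [Finset.mem_coe, mem_filter, mem_Icc] at hk
    rw [Finset.mem_coe, mem_range]
    exact Nat.lt_succ_of_le (Nat.div_le_div_right hk.1.2)
  · intro k hk k' hk' he
    rw [Finset.mem_coe, mem_filter] at hk hk'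
    have h1 := hk.2.trans hk'.2.symm
    push_cast at h1
    have h2 := hu.mul_right_cancel h1
    have h3 : ((k : ℕ) : ZMod r) = ((k' : ℕ) : ZMod r) := by
      have h4 := congrArg (fun z : ZMod r => z + (c : ZMod r)) h2
      simpa using h4
    rw [ZMod.natCast_eq_natCast_iff] at h3
    have h5 : k % r = k' % r := h3
    have h6 : k / r = k' / r := he
    rw [← Nat.div_add_mod k r, ← Nat.div_add_mod k' r, h5, h6]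

private theorem C6_sum {r : ℕ} [NeZero r] (m H : ℕ) (hm : r.Coprime m) (hr : r ≤ H)
    (G : ZMod r → ℝ) (hG : ∀ u, 0 ≤ G u) (c : ℤ) :
    ∑ k ∈ Icc 1 H, G ((((k : ℤ) - c) * (m : ℤ) : ℤ) : ZMod r) ≤
      2 * (H : ℝ) / r * ∑ u : ZMod r, G u := by
  have hr0 : (0 : ℝ) < r := by exact_mod_cast Nat.pos_of_ne_zero (NeZero.ne r)
  have hrH : (r : ℝ) ≤ H := by exact_mod_cast hr
  have h1 : ∑ k ∈ Icc 1 H, G ((((k : ℤ) - c) * (m : ℤ) : ℤ) : ZMod r) =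
      ∑ u : ZMod r, ∑ k ∈ (Icc 1 H).filter
        (fun k : ℕ => ((((k : ℤ) - c) * (m : ℤ) : ℤ) : ZMod r) = u),
          G ((((k : ℤ) - c) * (m : ℤ) : ℤ) : ZMod r) :=
    (Finset.sum_fiberwise _ _ _).symm
  rw [h1, mul_sum]
  refine sum_le_sum fun u _ => ?_
  have h2 : ∑ k ∈ (Icc 1 H).filter
        (fun k : ℕ => ((((k : ℤ) - c) * (m : ℤ) : ℤ) : ZMod r) = u),
          G ((((k : ℤ) - c) * (m : ℤ) : ℤ) : ZMod r) =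
      ∑ k ∈ (Icc 1 H).filter
        (fun k : ℕ => ((((k : ℤ) - c) * (m : ℤ) : ℤ) : ZMod r) = u), G u := by
    refine sum_congr rfl fun k hk => ?_
    rw [(mem_filter.1 hk).2]
  rw [h2, sum_const, nsmul_eq_mul]
  refine mul_le_mul_of_nonneg_right ?_ (hG u)
  have h3 : (((Icc 1 H).filter
      (fun k : ℕ => ((((k : ℤ) - c) * (m : ℤ) : ℤ) : ZMod r) = u)).card : ℝ) ≤
      ((H / r + 1 : ℕ) : ℝ) := by exact_mod_cast C6_card m H hm c u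
  refine h3.trans ?_
  push_cast
  have h4 : ((H / r : ℕ) : ℝ) ≤ (H : ℝ) / r := Nat.cast_div_le
  have h5 : (1 : ℝ) ≤ (H : ℝ) / r := by rw [le_div_iff₀ hr0]; linarith
  have h6 : 2 * (H : ℝ) / r = (H : ℝ) / r + (H : ℝ) / r := by ring
  rw [h6]
  linarith

private theorem C6_dbl {r : ℕ} [NeZero r] (m H : ℕ) (hm : r.Coprime m) (hr : r ≤ H)
    (G : ZMod r → ℝ) (hG : ∀ u, 0 ≤ G u) :
    ∑ k ∈ Icc 1 H, ∑ k' ∈ Icc 1 H, G ((((k : ℤ) - (k' : ℤ)) * (m : ℤ) : ℤ) : ZMod r) ≤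
      2 * (H : ℝ) ^ 2 / r * ∑ u : ZMod r, G u := by
  rw [sum_comm]
  calc ∑ k' ∈ Icc 1 H, ∑ k ∈ Icc 1 H, G ((((k : ℤ) - (k' : ℤ)) * (m : ℤ) : ℤ) : ZMod r)
      ≤ ∑ k' ∈ Icc 1 H, 2 * (H : ℝ) / r * ∑ u : ZMod r, G u :=
        sum_le_sum fun k' _ => C6_sum m H hm hr G hG (k' : ℤ)
    _ = 2 * (H : ℝ) ^ 2 / r * ∑ u : ZMod r, G u := by
        rw [sum_const, Nat.card_Icc, nsmul_eq_mul, Nat.add_sub_cancel]
        ring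

private theorem C6_SP {q0 r s : ℕ} [NeZero q0] [NeZero r] [NeZero s] (hq : q0 = r * s)
    (hrs : r.Coprime s) (χ₀ : DirichletCharacter ℂ q0) (χ₁ : DirichletCharacter ℂ r)
    (χ₂ : DirichletCharacter ℂ s)
    (h : ∀ x : ℤ, χ₀ (x : ZMod q0) = χ₁ (x : ZMod r) * χ₂ (x : ZMod s)) (U W : ℤ) :
    ‖SP χ₀ (U : ZMod q0) (W : ZMod q0)‖ ≤ s * ‖SP χ₁ (U : ZMod r) (W : ZMod r)‖ := by
  have h1 := S4_crt hq hrs χ₀ χ₁ χ₂ h 0 (U + W) U W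
  have e0 : SP χ₀ (U : ZMod q0) (W : ZMod q0) =
      S4 χ₀ ((0 : ℤ) : ZMod q0) ((U + W : ℤ) : ZMod q0) (U : ZMod q0) (W : ZMod q0) := by
    rw [SP, Int.cast_zero, Int.cast_add]
  have e1 : SP χ₁ (U : ZMod r) (W : ZMod r) =
      S4 χ₁ ((0 : ℤ) : ZMod r) ((U + W : ℤ) : ZMod r) (U : ZMod r) (W : ZMod r) := by
    rw [SP, Int.cast_zero, Int.cast_add]
  rw [e0, h1, norm_mul, e1, mul_comm]
  exact mul_le_mul_of_nonneg_right (S4_le χ₂ _ _ _ _) (norm_nonneg _)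

theorem Ssum_le : ∃ C0 : ℝ, 1 ≤ C0 ∧ ∀ q0 r s H q1 q2 : ℕ, ∀ _h0 : NeZero q0, q0 = r * s → r.Coprime s → r.Coprime q1 →
    r.Coprime q2 → r ≤ H → ∀ χ₀ : DirichletCharacter ℂ q0, Prim χ₀ →
    Ssum χ₀ H q1 q2 ≤ C0 * (H : ℝ) ^ 4 * q0 * (r : ℝ) ^ (-(1 / 8) : ℝ) := by
  obtain ⟨C, hC1, hC⟩ := SP_avg
  refine ⟨4 * C, by linarith, ?_⟩
  intro q0 r s H q1 q2 h0 hq hrs h1 h2 hrH χ₀ hχ
  have hr0 : r ≠ 0 := by
    rintro rfl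
    exact h0.out (by rw [hq, zero_mul])
  have hs0 : s ≠ 0 := by
    rintro rfl
    exact h0.out (by rw [hq, mul_zero])
  have : NeZero r := ⟨hr0⟩
  have : NeZero s := ⟨hs0⟩
  obtain ⟨χ₁, χ₂, hp1, _, hch⟩ := crt_char' hq hrs χ₀ hχ
  have hr1 : (0 : ℝ) < r := by exact_mod_cast Nat.pos_of_ne_zero hr0
  have hs1 : (0 : ℝ) ≤ s := Nat.cast_nonneg _
  have step1 : Ssum χ₀ H q1 q2 ≤ s * ∑ h ∈ Icc 1 H, ∑ h' ∈ Icc 1 H, ∑ k ∈ Icc 1 H,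
      ∑ k' ∈ Icc 1 H, ‖SP χ₁ ((((k : ℤ) - (k' : ℤ)) * (q2 : ℤ) : ℤ) : ZMod r)
        ((((h : ℤ) - (h' : ℤ)) * (q1 : ℤ) : ℤ) : ZMod r)‖ := by
    rw [Ssum, mul_sum]
    refine sum_le_sum fun h _ => ?_
    rw [mul_sum]
    refine sum_le_sum fun h' _ => ?_
    rw [mul_sum]
    refine sum_le_sum fun k _ => ?_
    rw [mul_sum]
    refine sum_le_sum fun k' _ => ?_
    exact C6_SP hq hrs χ₀ χ₁ χ₂ hch _ _
  have step2 : ∑ h ∈ Icc 1 H, ∑ h' ∈ Icc 1 H, ∑ k ∈ Icc 1 H,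
      ∑ k' ∈ Icc 1 H, ‖SP χ₁ ((((k : ℤ) - (k' : ℤ)) * (q2 : ℤ) : ℤ) : ZMod r)
        ((((h : ℤ) - (h' : ℤ)) * (q1 : ℤ) : ℤ) : ZMod r)‖ ≤
      ∑ h ∈ Icc 1 H, ∑ h' ∈ Icc 1 H, 2 * (H : ℝ) ^ 2 / r *
        ∑ u : ZMod r, ‖SP χ₁ u ((((h : ℤ) - (h' : ℤ)) * (q1 : ℤ) : ℤ) : ZMod r)‖ :=
    sum_le_sum fun h _ => sum_le_sum fun h' _ =>
      C6_dbl q2 H h2 hrH (fun u => ‖SP χ₁ u ((((h : ℤ) - (h' : ℤ)) * (q1 : ℤ) : ℤ) : ZMod r)‖)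
        (fun u => norm_nonneg _)
  have step3 := C6_dbl q1 H h1 hrH (fun v => 2 * (H : ℝ) ^ 2 / r *
        ∑ u : ZMod r, ‖SP χ₁ u v‖)
        (fun v => mul_nonneg (by positivity) (sum_nonneg fun u _ => norm_nonneg _))
  have step4 : ∑ v : ZMod r, 2 * (H : ℝ) ^ 2 / r * ∑ u : ZMod r, ‖SP χ₁ u v‖ =
      2 * (H : ℝ) ^ 2 / r * ∑ u : ZMod r, ∑ v : ZMod r, ‖SP χ₁ u v‖ := by
    rw [← mul_sum, sum_comm]
  have step5 := hC r ‹NeZero r› χ₁ hp1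
  have hrp : (r : ℝ) ^ (3 - 1 / 8 : ℝ) = (r : ℝ) ^ 3 * (r : ℝ) ^ (-(1 / 8) : ℝ) := by
    rw [← Real.rpow_natCast, ← Real.rpow_add hr1]
    norm_num
  rw [hrp] at step5
  rw [step4] at step3
  have hH : (0 : ℝ) ≤ 2 * (H : ℝ) ^ 2 / r := by positivity
  calc Ssum χ₀ H q1 q2 ≤ s * (2 * (H : ℝ) ^ 2 / r * (2 * (H : ℝ) ^ 2 / r *
        ∑ u : ZMod r, ∑ v : ZMod r, ‖SP χ₁ u v‖)) :=
        step1.trans (mul_le_mul_of_nonneg_left (step2.trans step3) hs1)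
    _ ≤ s * (2 * (H : ℝ) ^ 2 / r * (2 * (H : ℝ) ^ 2 / r *
        (C * ((r : ℝ) ^ 3 * (r : ℝ) ^ (-(1 / 8) : ℝ))))) :=
        mul_le_mul_of_nonneg_left (mul_le_mul_of_nonneg_left (mul_le_mul_of_nonneg_left step5 hH)
          hH) hs1
    _ = 4 * C * (H : ℝ) ^ 4 * q0 * (r : ℝ) ^ (-(1 / 8) : ℝ) := by
        rw [hq]
        push_cast
        field_simp
        ring

end Pool.Agent.Lib.SPV
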