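import Pool.Agent.Lib.MP_7b7e48_nt.SPV.C4
import Pool.Agent.Lib.MP_7b7e48_nt.SPV.C6

/-!
# SPV C7: moduli without large prime powers

PROOF. `factor4` gives `q = r s q₁ q₂`, `q₀ = r s`. Split the character twice (`crt_char'`): `q = (r s q₁) q₂`, then `r s q₁ = (r s) q₁`; all parts
are `Prim`. `H = ⌊q^(1/20)⌋ ≥ r` (`1/60 + 1/100 < 1/20`). `vdc` + `Ssum_le`: with `y ≥ q^0.49`:
`2Hq₁ ≤ 2 q^(0.05+0.3434) ≤ y q^(-0.09)`; `‖csum‖ ≤ 2Hq₁ + y (2Hq₂/y + (C0 r^(-1/8) + q₀/y)^{1/2})^{1/2}` [the square root in `vdc`: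
`(1/H) √(y(2H³q₂ + √(y²C0 H⁴ r^(-1/8) + y H⁴ q₀))) = √(2 y H q₂ + y² √(C0 r^(-1/8) + q₀/y))`]. `Hq₂/y ≤ q^(-0.09)`, `q₀/y ≤ q^(-0.15)`,
`r^(-1/8) ≤ q^(-1/480)`. So the whole is `≤ y C q^(-1/1920) ≤ y q^(-1/2000)` for `q` large.
-/

set_option autoImplicit false

open Finset

namespace Pool.Agent.Lib.SPV

private lemma c7_num {Q r q0 q1 q2 H y S C0 : ℝ} (hQ : 1 ≤ Q) (hq0 : 0 < q0) (hH : 1 ≤ H)
    (hHQ : H ≤ Q ^ (1 / 20 : ℝ)) (hy : Q ^ (0.49 : ℝ) ≤ y) (hC : 1 ≤ C0) (hq10 : 0 ≤ q1) (hq20 : 0 ≤ q2)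
    (hS : S ≤ C0 * H ^ 4 * q0 * r ^ (-(1 / 8) : ℝ)) (hr : Q ^ (1 / 60 : ℝ) ≤ r) (h0 : q0 ≤ Q ^ (1 / 3 : ℝ))
    (h1 : q1 ≤ Q ^ (1 / 3 + 1 / 100 : ℝ)) (h2 : q2 ≤ Q ^ (1 / 3 + 1 / 100 : ℝ))
    (hbig : C0 + 5 ≤ Q ^ (1 / 48000 : ℝ)) :
    2 * H * q1 + (1 / H) * Real.sqrt (y * (2 * H ^ 3 * q2 +
      Real.sqrt (y * ((y / q0) * S + H ^ 4 * q0)))) ≤ y * Q ^ (-(1 / 2000) : ℝ) := by
  have hQ0 : 0 < Q := by linarith
  have hH0 : 0 < H := by linarith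
  have hy0 : 0 < y := lt_of_lt_of_le (Real.rpow_pos_of_pos hQ0 _) hy
  have pw : ∀ e : ℝ, 0 < Q ^ e := fun e => Real.rpow_pos_of_pos hQ0 e
  have hr8 : r ^ (-(1 / 8) : ℝ) ≤ Q ^ (-(1 / 480) : ℝ) := by
    have e1 : (Q ^ (1 / 60 : ℝ)) ^ (-(1 / 8) : ℝ) = Q ^ (-(1 / 480) : ℝ) := by
      rw [← Real.rpow_mul hQ0.le]
      norm_num
    rw [← e1]
    exact Real.rpow_le_rpow_of_nonpos (pw _) hr (by norm_num)
  -- product of a power and a bound by y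
  have hyb : ∀ (a e : ℝ), a ≤ 0.49 + e → Q ^ a ≤ y * Q ^ e := by
    intro a e hae
    calc Q ^ a ≤ Q ^ (0.49 + e) := Real.rpow_le_rpow_of_exponent_le hQ hae
      _ = Q ^ (0.49 : ℝ) * Q ^ e := Real.rpow_add hQ0 _ _
      _ ≤ y * Q ^ e := by
          have := pw e
          gcongr
  have hHq1 : H * q1 ≤ y * Q ^ (-(1 / 1920) : ℝ) := by
    calc H * q1 ≤ Q ^ (1 / 20 : ℝ) * Q ^ (1 / 3 + 1 / 100 : ℝ) := by
          have := pw (1 / 20)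
          gcongr
      _ = Q ^ (1 / 20 + (1 / 3 + 1 / 100) : ℝ) := by rw [← Real.rpow_add hQ0]
      _ ≤ _ := hyb _ _ (by norm_num)
  have hHq2 : H * q2 ≤ y * Q ^ (-(1 / 960) : ℝ) := by
    calc H * q2 ≤ Q ^ (1 / 20 : ℝ) * Q ^ (1 / 3 + 1 / 100 : ℝ) := by
          have := pw (1 / 20)
          gcongr
      _ = Q ^ (1 / 20 + (1 / 3 + 1 / 100) : ℝ) := by rw [← Real.rpow_add hQ0]
      _ ≤ _ := hyb _ _ (by norm_num)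
  have hq0y : q0 ≤ y * Q ^ (-(1 / 480) : ℝ) := h0.trans (hyb _ _ (by norm_num))
  -- inner root
  have hin : Real.sqrt (y * ((y / q0) * S + H ^ 4 * q0)) ≤ H ^ 2 * y * ((C0 + 1) * Q ^ (-(1 / 960) : ℝ)) := by
    rw [Real.sqrt_le_left (by
      have := pw (-(1 / 960))
      positivity)]
    have e1 : (y / q0) * S ≤ y * (C0 * H ^ 4 * Q ^ (-(1 / 480) : ℝ)) := by
      calc (y / q0) * S ≤ (y / q0) * (C0 * H ^ 4 * q0 * r ^ (-(1 / 8) : ℝ)) := by gcongr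
        _ ≤ (y / q0) * (C0 * H ^ 4 * q0 * Q ^ (-(1 / 480) : ℝ)) := by gcongr
        _ = y * (C0 * H ^ 4 * Q ^ (-(1 / 480) : ℝ)) := by field_simp
    have e2 : Q ^ (-(1 / 960) : ℝ) * Q ^ (-(1 / 960) : ℝ) = Q ^ (-(1 / 480) : ℝ) := by
      rw [← Real.rpow_add hQ0]; norm_num
    calc y * ((y / q0) * S + H ^ 4 * q0)
        ≤ y * (y * (C0 * H ^ 4 * Q ^ (-(1 / 480) : ℝ)) + H ^ 4 * (y * Q ^ (-(1 / 480) : ℝ))) := by gcongr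
      _ = (H ^ 2 * y) ^ 2 * ((C0 + 1) * Q ^ (-(1 / 480) : ℝ)) := by ring
      _ ≤ (H ^ 2 * y) ^ 2 * ((C0 + 1) ^ 2 * Q ^ (-(1 / 480) : ℝ)) := by
          have := pw (-(1 / 480))
          gcongr
          nlinarith
      _ = (H ^ 2 * y * ((C0 + 1) * Q ^ (-(1 / 960) : ℝ))) ^ 2 := by rw [← e2]; ring
  have hout : Real.sqrt (y * (2 * H ^ 3 * q2 + Real.sqrt (y * ((y / q0) * S + H ^ 4 * q0)))) ≤
      H * y * ((C0 + 3) * Q ^ (-(1 / 1920) : ℝ)) := by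
    rw [Real.sqrt_le_left (by
      have := pw (-(1 / 1920))
      positivity)]
    have e2 : Q ^ (-(1 / 1920) : ℝ) * Q ^ (-(1 / 1920) : ℝ) = Q ^ (-(1 / 960) : ℝ) := by
      rw [← Real.rpow_add hQ0]; norm_num
    calc y * (2 * H ^ 3 * q2 + Real.sqrt (y * ((y / q0) * S + H ^ 4 * q0)))
        ≤ y * (2 * H ^ 3 * q2 + H ^ 2 * y * ((C0 + 1) * Q ^ (-(1 / 960) : ℝ))) := by gcongr
      _ = y * (2 * H ^ 2 * (H * q2) + H ^ 2 * y * ((C0 + 1) * Q ^ (-(1 / 960) : ℝ))) := by ring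
      _ ≤ y * (2 * H ^ 2 * (y * Q ^ (-(1 / 960) : ℝ)) + H ^ 2 * y * ((C0 + 1) * Q ^ (-(1 / 960) : ℝ))) := by gcongr
      _ = (H * y) ^ 2 * ((C0 + 3) * Q ^ (-(1 / 960) : ℝ)) := by ring
      _ ≤ (H * y) ^ 2 * ((C0 + 3) ^ 2 * Q ^ (-(1 / 960) : ℝ)) := by
          have := pw (-(1 / 960))
          gcongr
          nlinarith
      _ = (H * y * ((C0 + 3) * Q ^ (-(1 / 1920) : ℝ))) ^ 2 := by rw [← e2]; ring
  have hfin : (C0 + 5) * Q ^ (-(1 / 1920) : ℝ) ≤ Q ^ (-(1 / 2000) : ℝ) := by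
    calc (C0 + 5) * Q ^ (-(1 / 1920) : ℝ) ≤ Q ^ (1 / 48000 : ℝ) * Q ^ (-(1 / 1920) : ℝ) := by
          have := pw (-(1 / 1920))
          gcongr
      _ = Q ^ (-(1 / 2000) : ℝ) := by rw [← Real.rpow_add hQ0]; norm_num
  calc 2 * H * q1 + (1 / H) * Real.sqrt (y * (2 * H ^ 3 * q2 +
      Real.sqrt (y * ((y / q0) * S + H ^ 4 * q0))))
      ≤ 2 * (H * q1) + (1 / H) * (H * y * ((C0 + 3) * Q ^ (-(1 / 1920) : ℝ))) := by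
        rw [mul_assoc]
        gcongr
    _ ≤ 2 * (y * Q ^ (-(1 / 1920) : ℝ)) + (1 / H) * (H * y * ((C0 + 3) * Q ^ (-(1 / 1920) : ℝ))) := by gcongr
    _ = y * ((C0 + 5) * Q ^ (-(1 / 1920) : ℝ)) := by field_simp; ring
    _ ≤ y * Q ^ (-(1 / 2000) : ℝ) := by gcongr

theorem spv_smooth : ∃ Q0 : ℕ, ∀ q : ℕ, Q0 ≤ q → ∀ _hq : NeZero q,
    (∀ p ∈ q.primeFactors, ((p ^ q.factorization p : ℕ) : ℝ) ≤ (q : ℝ) ^ (1 / 100 : ℝ)) →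
    ∀ χ : DirichletCharacter ℂ q, Prim χ → ∀ y : ℕ, (q : ℝ) ^ (0.49 : ℝ) ≤ y →
    ‖csum χ y‖ ≤ y * (q : ℝ) ^ (-(1 / 2000) : ℝ) := by
  obtain ⟨Q1, hQ1⟩ := factor4
  obtain ⟨C0, hC0, hSs⟩ := Ssum_le
  have a1 : ∀ᶠ x : ℝ in Filter.atTop, C0 + 5 ≤ x ^ (1 / 48000 : ℝ) :=
    (tendsto_rpow_atTop (show (0 : ℝ) < 1 / 48000 by norm_num)).eventually_ge_atTop _
  obtain ⟨X, hX⟩ := Filter.eventually_atTop.mp a1
  refine ⟨max (max 2 ⌈X⌉₊) Q1, fun q hq _ hsm χ hχ y hy => ?_⟩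
  have hq' : max 2 ⌈X⌉₊ ≤ q := (le_max_left _ _).trans hq
  have hq2 : 2 ≤ q := (le_max_left _ _).trans hq'
  have hqX : X ≤ q := (Nat.le_ceil X).trans (by exact_mod_cast (le_max_right _ _).trans hq')
  have g1 := hX q hqX
  have hqr : (2 : ℝ) ≤ q := by exact_mod_cast hq2
  have hqr1 : (1 : ℝ) ≤ q := by linarith
  have hq0 : (0 : ℝ) < q := by linarith
  obtain ⟨r, s, q1, q2, hqe, c1, c2, c3, r0, s0, q10, q20, b1, b2, b3, b4, b5⟩ :=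
    hQ1 q ((le_max_right _ _).trans hq) hsm
  haveI : NeZero r := ⟨by omega⟩
  haveI : NeZero s := ⟨by omega⟩
  haveI : NeZero q1 := ⟨by omega⟩
  haveI : NeZero q2 := ⟨by omega⟩
  haveI hrs : NeZero (r * s) := ⟨Nat.mul_ne_zero (by omega) (by omega)⟩
  haveI hrsq : NeZero (r * s * q1) := ⟨Nat.mul_ne_zero (NeZero.ne _) (by omega)⟩
  obtain ⟨χ', χ₂, hp', -, hsp⟩ := crt_char' hqe c3 χ hχ
  obtain ⟨χ₀, χ₁, hp0, -, hsp'⟩ := crt_char' (q := r * s * q1) rfl c2 χ' hp'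
  have hsplit : ∀ x : ℤ, χ (x : ZMod q) = χ₀ (x : ZMod (r * s)) * χ₁ (x : ZMod q1) * χ₂ (x : ZMod q2) := by
    intro x
    rw [hsp, hsp']
  set H : ℕ := ⌊(q : ℝ) ^ (1 / 20 : ℝ)⌋₊ with hHdef
  have hHle : (H : ℝ) ≤ (q : ℝ) ^ (1 / 20 : ℝ) := Nat.floor_le (by positivity)
  have hrH : r ≤ H := by
    rw [hHdef]
    apply Nat.le_floor
    refine b2.trans ?_
    exact Real.rpow_le_rpow_of_exponent_le hqr1 (by norm_num)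
  have hH1 : 1 ≤ H := le_trans r0 hrH
  have hH1r : (1 : ℝ) ≤ H := by exact_mod_cast hH1
  have hy1 : (1 : ℝ) ≤ y := le_trans (Real.one_le_rpow hqr1 (by norm_num)) hy
  have hyN : 1 ≤ y := by exact_mod_cast hy1
  have hv := vdc χ χ₀ χ₁ χ₂ hsplit H y hH1 hyN
  have hcr1 : r.Coprime q1 := Nat.Coprime.coprime_dvd_left (dvd_mul_right r s) c2
  have hcr2 : r.Coprime q2 := by
    refine Nat.Coprime.coprime_dvd_left ?_ c3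
    exact (dvd_mul_right r s).trans (dvd_mul_right (r * s) q1)
  have hS := hSs (r * s) r s H q1 q2 hrs rfl c1 hcr1 hcr2 hrH χ₀ hp0
  have hrs0 : (0 : ℝ) < ((r * s : ℕ) : ℝ) := by
    have : 0 < r * s := Nat.mul_pos r0 s0
    exact_mod_cast this
  refine hv.trans ?_
  exact c7_num (q0 := ((r * s : ℕ) : ℝ)) hqr1 hrs0 hH1r hHle hy hC0 (Nat.cast_nonneg q1) (Nat.cast_nonneg q2)
    hS b1 b3 b4 b5 g1

end Pool.Agent.Lib.SPV
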