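import Pool.Agent.Lib.MP_7b7e48_nt.SPV.A11
import Pool.Agent.Lib.MP_7b7e48_nt.SPV.B3
import Pool.Agent.Lib.MP_7b7e48_nt.SPV.B5
import Pool.Agent.Lib.MP_7b7e48_nt.SPV.C7
import Pool.Agent.Lib.MP_7b7e48_nt.RG.PV

/-!
# SPV D1: the bound for primitive characters

PROOF. `β = 1/300000`, `b = 1/3000` (`b/100 = β`). For `y ≥ q^(1/2+b/4)`: Polya-Vinogradov `RG.PVall` (`q ≥ 2`, `Prim χ` implies `χ ≠ 1` as `d = 1 < q`) and
`RG.divisor_bound`: `≤ C q^(1/2+b/16) ≤ y q^(-β)`. For `q^(1/2-β) ≤ y ≤ q^(1/2+b/4)`: if all `p^v ∥ q` are `≤ q^(1/100)`: `spv_smooth`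
(`1/2 - β ≥ 0.49`). Otherwise take `p` with `p^v > q^(1/100)`, `v = v_p(q)`, `B = ⌊q^b⌋`. `v = 1`: `q = p n`, coprime, `2B⁴ ≤ 2 q^(4/3000) < q^(1/100) < p`:
`M4_prime`: `M4 ≤ 2 q B^2.9`. `v ≥ 2`: `g = v/2 ≥ v/3`, `p^(2g) ∣ q`, `p^(g/2) ≥ (p^v)^(1/6) ≥ q^(1/600)`; `M4_pow`: `M4 ≤ 2B²q + 16 B⁶ q q^(-1/600) ≤ 3 q B^2.9`
since `16 B⁴ ≤ 16 q^(4/3000) ≤ q^(1/600)`. Then `burgess_fin`.
-/

set_option autoImplicit false

open Finset

namespace Pool.Agent.Lib.SPV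

private theorem D1_big (c K : ℝ) (hc : 0 < c) : ∃ Q : ℕ, ∀ q : ℕ, Q ≤ q → K ≤ (q : ℝ) ^ c := by
  have h := (tendsto_rpow_atTop hc).comp (tendsto_natCast_atTop_atTop (R := ℝ))
  exact Filter.eventually_atTop.1 (h.eventually_ge_atTop K)

private theorem D1_ne {q : ℕ} (hq : 1 < q) (χ : DirichletCharacter ℂ q) (h : Prim χ) : χ ≠ 1 := by
  obtain ⟨x, -, ⟨u, v, huv⟩, hx⟩ := h 1 (one_dvd q) hq
  rintro rfl
  apply hx
  have h1 : ((u : ℤ) : ZMod q) * ((x : ℤ) : ZMod q) = 1 := by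
    have h2 := congrArg (Int.cast : ℤ → ZMod q) huv
    push_cast at h2
    rw [ZMod.natCast_self, mul_zero, add_zero] at h2
    exact h2
  have h3 : IsUnit ((x : ℤ) : ZMod q) := by
    rw [mul_comm] at h1
    exact IsUnit.of_mul_eq_one _ h1
  exact MulChar.one_apply h3

/-- long sums: Polya-Vinogradov -/
private theorem D1_long : ∃ Q : ℕ, ∀ q : ℕ, Q ≤ q → ∀ _hq : NeZero q,
    ∀ χ : DirichletCharacter ℂ q, Prim χ → ∀ y : ℕ, (q : ℝ) ^ (1 / 2 + 1 / 12000 : ℝ) ≤ y →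
    ‖csum χ y‖ ≤ y * (q : ℝ) ^ (-(1 / 300000) : ℝ) := by
  obtain ⟨C, hC, hdiv⟩ := RG.divisor_bound (1 / 48000) (by norm_num)
  obtain ⟨Q, hQ⟩ := D1_big (1 / 12500 - 1 / 24000) (C * (1 + 48000)) (by norm_num)
  refine ⟨max Q 2, fun q hq _hq χ hχ y hy => ?_⟩
  have hq1 : Q ≤ q := (le_max_left _ _).trans hq
  have hq2 : 2 ≤ q := (le_max_right _ _).trans hq
  have hq0 : (0 : ℝ) < q := by
    have : 0 < q := by omega
    exact_mod_cast this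
  have hq1r : (1 : ℝ) ≤ q := by
    have : 1 ≤ q := by omega
    exact_mod_cast this
  have h1 := RG.PVall q hq2 χ (D1_ne (by omega) χ hχ) y
  have hlog : Real.log q ≤ (q : ℝ) ^ (1 / 48000 : ℝ) / (1 / 48000) :=
    Real.log_le_rpow_div hq0.le (by norm_num)
  have hone : (1 : ℝ) ≤ (q : ℝ) ^ (1 / 48000 : ℝ) := Real.one_le_rpow hq1r (by norm_num)
  have h2 : 1 + Real.log q ≤ (1 + 48000) * (q : ℝ) ^ (1 / 48000 : ℝ) := by
    have : (q : ℝ) ^ (1 / 48000 : ℝ) / (1 / 48000) = 48000 * (q : ℝ) ^ (1 / 48000 : ℝ) := by ring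
    rw [this] at hlog
    linarith
  have hlog0 : 0 ≤ Real.log q := Real.log_nonneg hq1r
  have h3 : RG.PB q ≤ (C * (1 + 48000)) * (q : ℝ) ^ (1 / 2 + 1 / 24000 : ℝ) := by
    unfold RG.PB
    calc ((q.divisors.card : ℝ)) * Real.sqrt q * (1 + Real.log q)
        ≤ (C * (q : ℝ) ^ (1 / 48000 : ℝ)) * Real.sqrt q *
          ((1 + 48000) * (q : ℝ) ^ (1 / 48000 : ℝ)) := by
          gcongr
          exact hdiv q (by omega)
      _ = (C * (1 + 48000)) * (((q : ℝ) ^ (1 / 48000 : ℝ) * (q : ℝ) ^ (1 / 2 : ℝ)) *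
          (q : ℝ) ^ (1 / 48000 : ℝ)) := by
          rw [Real.sqrt_eq_rpow]
          ring
      _ = _ := by
          rw [← Real.rpow_add hq0, ← Real.rpow_add hq0]
          norm_num
  have h4 : (q : ℝ) ^ (1 / 2 + 1 / 12500 : ℝ) ≤ y * (q : ℝ) ^ (-(1 / 300000) : ℝ) := by
    calc (q : ℝ) ^ (1 / 2 + 1 / 12500 : ℝ)
        = (q : ℝ) ^ (1 / 2 + 1 / 12000 : ℝ) * (q : ℝ) ^ (-(1 / 300000) : ℝ) := by
          rw [← Real.rpow_add hq0]
          norm_num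
      _ ≤ _ := by gcongr
  refine h1.trans (h3.trans (le_trans ?_ h4))
  calc (C * (1 + 48000)) * (q : ℝ) ^ (1 / 2 + 1 / 24000 : ℝ)
      ≤ (q : ℝ) ^ (1 / 12500 - 1 / 24000 : ℝ) * (q : ℝ) ^ (1 / 2 + 1 / 24000 : ℝ) := by
        have := hQ q hq1
        gcongr
    _ = _ := by
        rw [← Real.rpow_add hq0]
        norm_num

/-- the fourth moment if a large prime power divides the modulus -/
private theorem D1_M4 : ∃ Q : ℕ, ∀ q : ℕ, Q ≤ q → ∀ _hq : NeZero q,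
    ∀ χ : DirichletCharacter ℂ q, Prim χ →
    (∃ p ∈ q.primeFactors, (q : ℝ) ^ (1 / 100 : ℝ) < ((p ^ q.factorization p : ℕ) : ℝ)) →
    M4 χ ⌊(q : ℝ) ^ (1 / 3000 : ℝ)⌋₊ ≤
      3 * q * ((⌊(q : ℝ) ^ (1 / 3000 : ℝ)⌋₊ : ℕ) : ℝ) ^ (2.9 : ℝ) := by
  obtain ⟨B0, hB0, hM⟩ := M4_prime
  obtain ⟨Q1, hQ1⟩ := D1_big (1 / 3000) (B0 + 16) (by norm_num)
  obtain ⟨Q2, hQ2⟩ := D1_big (1 / 100 - 4 / 3000) 3 (by norm_num)
  refine ⟨max (max Q1 Q2) 2, fun q hq _hq χ hχ hp => ?_⟩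
  have hq1 : Q1 ≤ q := ((le_max_left _ _).trans (le_max_left _ _)).trans hq
  have hq2 : Q2 ≤ q := ((le_max_right _ _).trans (le_max_left _ _)).trans hq
  have hq3 : 2 ≤ q := (le_max_right _ _).trans hq
  have hq0 : (0 : ℝ) < q := by
    have : 0 < q := by omega
    exact_mod_cast this
  obtain ⟨p, hpq, hbig⟩ := hp
  have hpp : p.Prime := Nat.prime_of_mem_primeFactors hpq
  set X := (q : ℝ) ^ (1 / 3000 : ℝ) with hX
  have hXbig : (B0 : ℝ) + 16 ≤ X := hQ1 q hq1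
  have hX0 : 0 ≤ X := by positivity
  set B := ⌊X⌋₊ with hB
  have hBX : (B : ℝ) ≤ X := Nat.floor_le hX0
  have hBB0 : B0 ≤ B := Nat.le_floor (by linarith)
  have hB1 : 1 ≤ B := hB0.trans hBB0
  have hB1r : (1 : ℝ) ≤ B := by exact_mod_cast hB1
  have hX4 : X ^ 4 = (q : ℝ) ^ (4 / 3000 : ℝ) := by
    rw [hX, ← Real.rpow_natCast, ← Real.rpow_mul hq0.le]
    norm_num
  have hB4 : (B : ℝ) ^ 4 ≤ (q : ℝ) ^ (4 / 3000 : ℝ) := by
    rw [← hX4]
    exact pow_le_pow_left₀ (by positivity) hBX 4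
  have hv0 : q.factorization p ≠ 0 := by
    rw [← Finsupp.mem_support_iff, Nat.support_factorization]
    exact hpq
  have hB29 : (0 : ℝ) ≤ (B : ℝ) ^ (2.9 : ℝ) := by positivity
  by_cases hv : q.factorization p = 1
  · rw [hv, pow_one] at hbig
    have hn : q = p * (q / p) := (Nat.mul_div_cancel' (Nat.dvd_of_mem_primeFactors hpq)).symm
    have hcop : p.Coprime (q / p) := by
      have h1 := Nat.coprime_ordCompl hpp (by omega : q ≠ 0)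
      rwa [hv, pow_one] at h1
    have h2B : 2 * B ^ 4 < p := by
      have h1 : (2 : ℝ) * (B : ℝ) ^ 4 < (p : ℝ) := by
        refine lt_trans ?_ hbig
        have h2 : (q : ℝ) ^ (1 / 100 : ℝ) = (q : ℝ) ^ (1 / 100 - 4 / 3000 : ℝ) *
            (q : ℝ) ^ (4 / 3000 : ℝ) := by
          rw [← Real.rpow_add hq0]
          norm_num
        rw [h2]
        have h3 := hQ2 q hq2
        have h4 : 0 < (q : ℝ) ^ (4 / 3000 : ℝ) := by positivity
        nlinarith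
      exact_mod_cast h1
    have h := hM B hBB0 p (q / p) q _hq hpp h2B hn hcop χ hχ
    refine h.trans ?_
    have : (0 : ℝ) ≤ (q : ℝ) * (B : ℝ) ^ (2.9 : ℝ) := by positivity
    nlinarith
  · set v := q.factorization p with hvdef
    have hv2 : 2 ≤ v := by omega
    have hg1 : 1 ≤ v / 2 := by omega
    have hdvd : p ^ (2 * (v / 2)) ∣ q :=
      (pow_dvd_pow p (by omega)).trans (Nat.ordProj_dvd q p)
    have h := M4_pow hpp hg1 hdvd hB1 χ hχ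
    refine h.trans ?_
    have hp0 : (0 : ℝ) < p := by exact_mod_cast hpp.pos
    have hp1 : (1 : ℝ) ≤ p := by exact_mod_cast hpp.one_le
    -- the denominator
    have hden : (q : ℝ) ^ (5 / 3000 : ℝ) ≤ (p : ℝ) ^ (((v / 2 : ℕ) : ℝ) / 2) := by
      have h1 : ((v : ℝ)) / 6 ≤ ((v / 2 : ℕ) : ℝ) / 2 := by
        have h2 : v ≤ 3 * (v / 2) := by omega
        have h3 : (v : ℝ) ≤ 3 * ((v / 2 : ℕ) : ℝ) := by exact_mod_cast h2
        linarith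
      calc (q : ℝ) ^ (5 / 3000 : ℝ) = ((q : ℝ) ^ (1 / 100 : ℝ)) ^ (1 / 6 : ℝ) := by
            rw [← Real.rpow_mul hq0.le]
            norm_num
        _ ≤ (((p ^ v : ℕ) : ℝ)) ^ (1 / 6 : ℝ) :=
            Real.rpow_le_rpow (by positivity) hbig.le (by norm_num)
        _ = (p : ℝ) ^ ((v : ℝ) / 6) := by
            push_cast
            rw [← Real.rpow_natCast (p : ℝ) v, ← Real.rpow_mul hp0.le]
            congr 1
            ring
        _ ≤ _ := Real.rpow_le_rpow_of_exponent_le hp1 h1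
    have hq5 : 16 * (B : ℝ) ^ 4 ≤ (p : ℝ) ^ (((v / 2 : ℕ) : ℝ) / 2) := by
      refine le_trans ?_ hden
      have h2 : (q : ℝ) ^ (5 / 3000 : ℝ) = X * (q : ℝ) ^ (4 / 3000 : ℝ) := by
        rw [hX, ← Real.rpow_add hq0]
        norm_num
      rw [h2]
      have h3 : (16 : ℝ) ≤ X := by
        have : (0 : ℝ) ≤ B0 := Nat.cast_nonneg _
        linarith
      have h4 : 0 ≤ (B : ℝ) ^ 4 := by positivity
      calc 16 * (B : ℝ) ^ 4 ≤ X * (B : ℝ) ^ 4 := mul_le_mul_of_nonneg_right h3 h4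
        _ ≤ _ := mul_le_mul_of_nonneg_left hB4 hX0
    have hD : 0 < (p : ℝ) ^ (((v / 2 : ℕ) : ℝ) / 2) := by positivity
    have h5 : 16 * (B : ℝ) ^ 6 * q / (p : ℝ) ^ (((v / 2 : ℕ) : ℝ) / 2) ≤ (B : ℝ) ^ 2 * q := by
      rw [div_le_iff₀ hD]
      calc 16 * (B : ℝ) ^ 6 * q = ((B : ℝ) ^ 2 * q) * (16 * (B : ℝ) ^ 4) := by ring
        _ ≤ _ := mul_le_mul_of_nonneg_left hq5 (by positivity)
    have h6 : (B : ℝ) ^ 2 ≤ (B : ℝ) ^ (2.9 : ℝ) := by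
      rw [← Real.rpow_natCast]
      exact Real.rpow_le_rpow_of_exponent_le hB1r (by norm_num)
    calc 2 * (B : ℝ) ^ 2 * q + 16 * (B : ℝ) ^ 6 * q / (p : ℝ) ^ (((v / 2 : ℕ) : ℝ) / 2)
        ≤ 2 * (B : ℝ) ^ 2 * q + (B : ℝ) ^ 2 * q := by linarith
      _ = 3 * q * (B : ℝ) ^ 2 := by ring
      _ ≤ _ := mul_le_mul_of_nonneg_left h6 (by positivity)

theorem spv_prim : ∃ β : ℝ, 0 < β ∧ β ≤ 1 / 1000 ∧ ∃ Q0 : ℕ, ∀ q : ℕ, Q0 ≤ q → ∀ _hq : NeZero q,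
    ∀ χ : DirichletCharacter ℂ q, Prim χ → ∀ y : ℕ, (q : ℝ) ^ (1 / 2 - β) ≤ y →
    ‖csum χ y‖ ≤ y * (q : ℝ) ^ (-β) := by
  obtain ⟨Q1, h1⟩ := D1_long
  obtain ⟨Q2, h2⟩ := D1_M4
  obtain ⟨Q3, h3⟩ := spv_smooth
  obtain ⟨Q4, h4⟩ := burgess_fin (1 / 3000) (by norm_num) (by norm_num)
  refine ⟨1 / 300000, by norm_num, by norm_num, max (max Q1 Q2) (max (max Q3 Q4) 1), ?_⟩
  intro q hq _hq χ hχ y hy
  have hq1 : Q1 ≤ q := ((le_max_left _ _).trans (le_max_left _ _)).trans hq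
  have hq2 : Q2 ≤ q := ((le_max_right _ _).trans (le_max_left _ _)).trans hq
  have hqr := (le_max_right (max Q1 Q2) (max (max Q3 Q4) 1)).trans hq
  have hq3 : Q3 ≤ q := ((le_max_left _ _).trans (le_max_left _ _)).trans hqr
  have hq4 : Q4 ≤ q := ((le_max_right _ _).trans (le_max_left _ _)).trans hqr
  have hq5 : 1 ≤ q := (le_max_right _ _).trans hqr
  have hq1r : (1 : ℝ) ≤ q := by exact_mod_cast hq5
  rcases le_total ((q : ℝ) ^ (1 / 2 + 1 / 12000 : ℝ)) (y : ℝ) with hc | hc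
  · exact h1 q hq1 _hq χ hχ y hc
  · by_cases hs : ∀ p ∈ q.primeFactors,
        ((p ^ q.factorization p : ℕ) : ℝ) ≤ (q : ℝ) ^ (1 / 100 : ℝ)
    · have h5 := h3 q hq3 _hq hs χ hχ y
        (le_trans (Real.rpow_le_rpow_of_exponent_le hq1r (by norm_num)) hy)
      refine h5.trans ?_
      refine mul_le_mul_of_nonneg_left ?_ (Nat.cast_nonneg _)
      exact Real.rpow_le_rpow_of_exponent_le hq1r (by norm_num)
    · push Not at hs
      have h5 := h2 q hq2 _hq χ hχ hs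
      have h6 := h4 q hq4 _hq χ h5 y
        (by
          refine le_trans (le_of_eq ?_) hy
          congr 1
          norm_num)
        (by
          refine hc.trans (le_of_eq ?_)
          congr 1
          norm_num)
      refine h6.trans (le_of_eq ?_)
      congr 2
      norm_num

end Pool.Agent.Lib.SPV
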