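import Mathlib

/-!
# SPV: a sub Polya-Vinogradov bound for every modulus, elementary. Definitions.

`Prim χ`: convenient form of primitivity. `S4`: complete sum with four shifts. `SP`: the same for a parallelogram.
`M4`: fourth moment of short sums. `csum`: the sum over `1 ≤ n ≤ y`.
-/

set_option autoImplicit false

open Finset

namespace Pool.Agent.Lib.SPV

/-- primitivity: for every proper divisor `d` of `q` the character is not trivial on the classes `= 1 mod d` -/
def Prim {q : ℕ} (χ : DirichletCharacter ℂ q) : Prop :=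
  ∀ d : ℕ, d ∣ q → d < q → ∃ x : ℤ, (d : ℤ) ∣ x - 1 ∧ IsCoprime x (q : ℤ) ∧ χ (x : ZMod q) ≠ 1

/-- complete sum with four shifts -/
noncomputable def S4 {q : ℕ} [NeZero q] (χ : DirichletCharacter ℂ q) (a b c d : ZMod q) : ℂ :=
  ∑ x : ZMod q, χ (x + a) * χ (x + b) * (starRingEnd ℂ) (χ (x + c)) * (starRingEnd ℂ) (χ (x + d))

/-- complete sum for a parallelogram -/
noncomputable def SP {q : ℕ} [NeZero q] (χ : DirichletCharacter ℂ q) (u v : ZMod q) : ℂ :=
  S4 χ 0 (u + v) u v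

/-- fourth moment of short sums -/
noncomputable def M4 {q : ℕ} [NeZero q] (χ : DirichletCharacter ℂ q) (B : ℕ) : ℝ :=
  ∑ x : ZMod q, ‖∑ b ∈ Icc 1 B, χ (x + ((b : ℕ) : ZMod q))‖ ^ 4

/-- incomplete sum -/
noncomputable def csum {q : ℕ} (χ : DirichletCharacter ℂ q) (y : ℕ) : ℂ :=
  ∑ n ∈ Icc 1 y, χ ((n : ℕ) : ZMod q)

/-- the cross ratio sum modulo a prime -/
noncomputable def Tcr {p : ℕ} [NeZero p] (χ : DirichletCharacter ℂ p) (t : ZMod p) : ℂ :=
  ∑ w : ZMod p, χ w * (starRingEnd ℂ) (χ (w + 1)) * (starRingEnd ℂ) (χ (w + t))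

end Pool.Agent.Lib.SPV
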